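import Pool.Agent.IC4.Defs

/-! Calculus of densities (project IC4). -/

set_option autoImplicit false

namespace Pool.Agent.IC4

open scoped Classical

variable {α β : Type} [Fintype α] [Fintype β]

theorem den_nonneg (P : α → Prop) : 0 ≤ den P := by
  unfold den; positivity

theorem den_mono {P Q : α → Prop} (h : ∀ a, P a → Q a) : den P ≤ den Q := by
  unfold den
  apply div_le_div_of_nonneg_right _ (by positivity)
  exact_mod_cast Finset.card_le_card (fun a ha => by
    simp only [Finset.mem_filter, Finset.mem_univ, true_and] at ha ⊢; exact h a ha)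

theorem den_congr {P Q : α → Prop} (h : ∀ a, P a ↔ Q a) : den P = den Q :=
  le_antisymm (den_mono fun a => (h a).1) (den_mono fun a => (h a).2)

theorem den_le_one (P : α → Prop) : den P ≤ 1 := by
  unfold den
  apply div_le_one_of_le₀ _ (by positivity)
  exact_mod_cast (Finset.card_filter_le _ _)

theorem den_false : den (fun _ : α => False) = 0 := by
  unfold den; simp

theorem den_eq_zero {P : α → Prop} (h : ∀ a, ¬ P a) : den P = 0 := by
  unfold den
  rw [Finset.filter_false_of_mem (fun a _ => h a)]; simp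

theorem den_true [Nonempty α] : den (fun _ : α => True) = 1 := by
  unfold den
  have : (Fintype.card α : ℝ) ≠ 0 := by
    exact_mod_cast Fintype.card_ne_zero
  simp [this]

theorem den_le_add {P Q R : α → Prop} (h : ∀ a, P a → Q a ∨ R a) : den P ≤ den Q + den R := by
  unfold den
  rw [← add_div]
  apply div_le_div_of_nonneg_right _ (by positivity)
  have h1 : (Finset.univ.filter P) ⊆ (Finset.univ.filter Q) ∪ (Finset.univ.filter R) := by
    intro a ha
    simp only [Finset.mem_filter, Finset.mem_univ, true_and, Finset.mem_union] at ha ⊢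
    exact h a ha
  exact_mod_cast (Finset.card_le_card h1).trans (Finset.card_union_le _ _)

theorem den_or_le (P Q : α → Prop) : den (fun a => P a ∨ Q a) ≤ den P + den Q :=
  den_le_add (fun _ h => h)

theorem den_exists_le {J : Type} [Fintype J] (P : J → α → Prop) :
    den (fun a => ∃ j, P j a) ≤ ∑ j, den (P j) := by
  unfold den
  rw [← Finset.sum_div]
  apply div_le_div_of_nonneg_right _ (by positivity)
  have h1 : (Finset.univ.filter (fun a => ∃ j, P j a)) ⊆
      Finset.univ.biUnion (fun j => Finset.univ.filter (P j)) := by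
    intro a ha
    simp only [Finset.mem_filter, Finset.mem_univ, true_and, Finset.mem_biUnion] at ha ⊢
    exact ha
  have h2 := (Finset.card_le_card h1).trans Finset.card_biUnion_le
  rw [← Nat.cast_sum]
  refine Nat.cast_le.mpr (le_trans (le_of_eq ?_) h2)
  congr!

theorem den_exists_le_card {J : Type} [Fintype J] (P : J → α → Prop) (c : ℝ)
    (h : ∀ j, den (P j) ≤ c) : den (fun a => ∃ j, P j a) ≤ (Fintype.card J : ℝ) * c := by
  refine (den_exists_le P).trans ?_
  refine (Finset.sum_le_card_nsmul _ _ c (fun j _ => h j)).trans ?_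
  rw [nsmul_eq_mul, Finset.card_univ]

/-- union over a finite set of indices -/
theorem den_exists_mem_le {J : Type} (F : Finset J) (P : J → α → Prop) (c : ℝ)
    (h : ∀ j ∈ F, den (P j) ≤ c) : den (fun a => ∃ j ∈ F, P j a) ≤ (F.card : ℝ) * c := by
  have h1 : den (fun a => ∃ j ∈ F, P j a) ≤ den (fun a => ∃ j : F, P j.1 a) :=
    den_mono (fun a ⟨j, hj, hp⟩ => ⟨⟨j, hj⟩, hp⟩)
  refine h1.trans ?_
  have h2 : den (fun a => ∃ j : F, P j.1 a) ≤ ∑ j : F, den (P j.1) := by
    unfold den
    rw [← Finset.sum_div]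
    apply div_le_div_of_nonneg_right _ (by positivity)
    have h1 : (Finset.univ.filter (fun a => ∃ j : F, P j.1 a)) ⊆
        (Finset.univ : Finset F).biUnion (fun j => Finset.univ.filter (P j.1)) := by
      intro a ha
      simp only [Finset.mem_filter, Finset.mem_univ, true_and, Finset.mem_biUnion] at ha ⊢
      exact ha
    have h2 := (Finset.card_le_card h1).trans Finset.card_biUnion_le
    rw [← Nat.cast_sum]
    refine Nat.cast_le.mpr (le_trans (le_of_eq ?_) h2)
    congr!
  refine h2.trans ?_
  refine (Finset.sum_le_card_nsmul _ _ c (fun j _ => h j.1 j.2)).trans ?_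
  rw [nsmul_eq_mul, Finset.card_univ, Fintype.card_coe]

theorem den_equiv (e : α ≃ β) (P : β → Prop) : den (fun a => P (e a)) = den P := by
  unfold den
  have h1 : (Finset.univ.filter (fun a => P (e a))).card = (Finset.univ.filter P).card := by
    apply Finset.card_bij (fun a _ => e a)
    · intro a ha; simpa using ha
    · intro a _ b _ h; exact e.injective h
    · intro b hb
      exact ⟨e.symm b, by simpa using hb, by simp⟩
  rw [h1, Fintype.card_congr e]

theorem den_prod (P : α → Prop) (Q : β → Prop) :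
    den (fun x : α × β => P x.1 ∧ Q x.2) = den P * den Q := by
  unfold den
  have h1 : (@Finset.filter (α × β) (fun x => P x.1 ∧ Q x.2)
      (fun _ => Classical.propDecidable _) Finset.univ) =
      (Finset.univ.filter P) ×ˢ (Finset.univ.filter Q) := by
    ext ⟨a, b⟩; simp
  rw [h1, Finset.card_product, Fintype.card_prod]
  push_cast
  rw [div_mul_div_comm]

theorem den_eq_avg (R : α → β → Prop) :
    den (fun x : α × β => R x.1 x.2) = avg (fun a => den (R a)) := by
  unfold den avg
  rw [← Finset.sum_div, Fintype.card_prod]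
  have h1 : ((Finset.univ.filter (fun x : α × β => R x.1 x.2)).card : ℝ) =
      ∑ a : α, ((Finset.univ.filter (R a)).card : ℝ) := by
    rw [← Nat.cast_sum]
    congr 1
    rw [Finset.card_filter, ← Finset.univ_product_univ, Finset.sum_product]
    apply Finset.sum_congr rfl
    intro a _
    rw [Finset.card_filter]
  rw [h1]
  push_cast
  rw [div_div, mul_comm (Fintype.card β : ℝ)]

theorem den_swap (R : α → β → Prop) :
    den (fun x : α × β => R x.1 x.2) = den (fun x : β × α => R x.2 x.1) := by
  rw [← den_equiv (Equiv.prodComm β α) (fun x : α × β => R x.1 x.2)]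
  rfl

theorem avg_mono {f g : α → ℝ} (h : ∀ a, f a ≤ g a) : avg f ≤ avg g := by
  unfold avg
  exact div_le_div_of_nonneg_right (Finset.sum_le_sum fun a _ => h a) (by positivity)

theorem avg_nonneg {f : α → ℝ} (h : ∀ a, 0 ≤ f a) : 0 ≤ avg f := by
  unfold avg
  exact div_nonneg (Finset.sum_nonneg fun a _ => h a) (by positivity)

theorem avg_add (f g : α → ℝ) : avg (fun a => f a + g a) = avg f + avg g := by
  unfold avg
  rw [Finset.sum_add_distrib, add_div]

theorem avg_const_mul (c : ℝ) (f : α → ℝ) : avg (fun a => c * f a) = c * avg f := by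
  unfold avg
  rw [← Finset.mul_sum, mul_div_assoc]

theorem avg_ite (P : α → Prop) : avg (fun a => if P a then (1 : ℝ) else 0) = den P := by
  unfold avg den
  rw [Finset.sum_boole]

/-- `den` over a product, upper bound fibrewise -/
theorem den_prod_le {P : α → Prop} {R : α → β → Prop} {c : ℝ}
    (h : ∀ a, P a → den (R a) ≤ c) :
    den (fun x : α × β => P x.1 ∧ R x.1 x.2) ≤ c * den P := by
  rw [den_eq_avg (fun a b => P a ∧ R a b), ← avg_ite P, ← avg_const_mul]
  apply avg_mono
  intro a
  by_cases hp : P a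
  · rw [if_pos hp, mul_one]
    exact (den_mono (fun b hb => hb.2)).trans (h a hp)
  · rw [if_neg hp, mul_zero]
    exact le_of_eq (den_eq_zero (fun b hb => hp hb.1))

theorem den_prod_le' {P : α → Prop} {R : α → β → Prop} {c : ℝ} (hc : 0 ≤ c)
    (h : ∀ a, P a → den (R a) ≤ c) :
    den (fun x : α × β => P x.1 ∧ R x.1 x.2) ≤ c :=
  (den_prod_le h).trans (mul_le_of_le_one_right hc (den_le_one P))

/-- `den` over a product, lower bound fibrewise -/
theorem den_prod_ge {P : α → Prop} {R : α → β → Prop} {c : ℝ}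
    (h : ∀ a, P a → c ≤ den (R a)) :
    c * den P ≤ den (fun x : α × β => P x.1 ∧ R x.1 x.2) := by
  rw [den_eq_avg (fun a b => P a ∧ R a b), ← avg_ite P, ← avg_const_mul]
  apply avg_mono
  intro a
  by_cases hp : P a
  · rw [if_pos hp, mul_one]
    exact (h a hp).trans (den_mono (fun b hb => ⟨hp, hb⟩))
  · rw [if_neg hp, mul_zero]
    exact den_nonneg _

/-- Markov -/
theorem den_markov (R : α → β → Prop) (c : ℝ) :
    c * den (fun a => c ≤ den (R a)) ≤ den (fun x : α × β => R x.1 x.2) := by
  have := den_prod_ge (P := fun a => c ≤ den (R a)) (R := R) (c := c) (fun a h => h)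
  exact this.trans (den_mono fun x h => h.2)

/-- Markov for real functions -/
theorem avg_markov (f : α → ℝ) (hf : ∀ a, 0 ≤ f a) (c : ℝ) :
    c * den (fun a => c ≤ f a) ≤ avg f := by
  rw [← avg_ite, ← avg_const_mul]
  apply avg_mono
  intro a
  by_cases hp : c ≤ f a
  · simp [hp]
  · simpa [hp] using hf a

theorem den_exists_of_pos {P : α → Prop} (h : 0 < den P) : ∃ a, P a := by
  by_contra hc
  push Not at hc
  rw [den_eq_zero hc] at h
  exact lt_irrefl _ h

theorem den_ge_of_exists {P : α → Prop} (h : ∃ a, P a) : 1 / (Fintype.card α : ℝ) ≤ den P := by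
  obtain ⟨a, ha⟩ := h
  unfold den
  apply div_le_div_of_nonneg_right _ (by positivity)
  have : 0 < (Finset.univ.filter P).card := Finset.card_pos.mpr ⟨a, by simpa using ha⟩
  exact_mod_cast this

theorem den_compl [Nonempty α] (P : α → Prop) : den P + den (fun a => ¬ P a) = 1 := by
  have hne : (Fintype.card α : ℝ) ≠ 0 := by
    exact_mod_cast Fintype.card_ne_zero
  unfold den
  rw [← add_div, div_eq_one_iff_eq hne]
  have h := Finset.card_filter_add_card_filter_not (s := (Finset.univ : Finset α)) P
  rw [Finset.card_univ] at h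
  rw [← h]
  push_cast
  congr!

/-- four independent choices -/
theorem den_box4 {P₁ P₂ P₃ P₄ : α → Prop} {Q : α → α → α → α → Prop}
    (h : ∀ a b c d, P₁ a → P₂ b → P₃ c → P₄ d → Q a b c d) :
    den P₁ * den P₂ * den P₃ * den P₄ ≤
      den (fun x : α × α × α × α => Q x.1 x.2.1 x.2.2.1 x.2.2.2) := by
  have h1 : den (fun x : α × α × α × α => P₁ x.1 ∧ (P₂ x.2.1 ∧ (P₃ x.2.2.1 ∧ P₄ x.2.2.2))) =
      den P₁ * (den P₂ * (den P₃ * den P₄)) := by
    rw [den_prod P₁ (fun y : α × α × α => P₂ y.1 ∧ (P₃ y.2.1 ∧ P₄ y.2.2)),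
      den_prod P₂ (fun y : α × α => P₃ y.1 ∧ P₄ y.2), den_prod P₃ P₄]
  calc den P₁ * den P₂ * den P₃ * den P₄ = den P₁ * (den P₂ * (den P₃ * den P₄)) := by ring
    _ = _ := h1.symm
    _ ≤ _ := den_mono (fun x hx => h _ _ _ _ hx.1 hx.2.1 hx.2.2.1 hx.2.2.2)

/-- a box in which the pattern holds forces many `2K₂` -/
theorem dK2_box {r : α → α → Prop} {P₁ P₂ P₃ P₄ : α → Prop}
    (h : ∀ a b c d, P₁ a → P₂ b → P₃ c → P₄ d → K2 r a b c d) :
    den P₁ * den P₂ * den P₃ * den P₄ ≤ dK2 r :=
  den_box4 h

theorem dK2_nonneg (r : α → α → Prop) : 0 ≤ dK2 r := den_nonneg _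

end Pool.Agent.IC4
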