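import Pool.Agent.IC4.Base

set_option autoImplicit false

namespace Pool.Agent.IC4

open scoped Classical

/-- an injective ranking compatible with a function -/
private theorem Chain_rank {V : Type} [Fintype V] (deg : V → ℕ) :
    ∃ κ : V → ℕ, Function.Injective κ ∧ ∀ z z', κ z < κ z' → deg z ≤ deg z' := by
  obtain ⟨e⟩ : Nonempty (V ≃ Fin (Fintype.card V)) := ⟨Fintype.equivFin V⟩
  refine ⟨fun z => deg z * Fintype.card V + (e z : ℕ), ?_, ?_⟩
  · intro z z' h
    have h1 := (e z).isLt
    have h2 := (e z').isLt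
    simp only at h
    have h3 : deg z = deg z' := by
      by_contra hne
      rcases lt_or_gt_of_ne hne with hlt | hlt
      · have : (deg z + 1) * Fintype.card V ≤ deg z' * Fintype.card V :=
          Nat.mul_le_mul_right _ hlt
        rw [add_mul] at this
        omega
      · have : (deg z' + 1) * Fintype.card V ≤ deg z * Fintype.card V :=
          Nat.mul_le_mul_right _ hlt
        rw [add_mul] at this
        omega
    rw [h3] at h
    exact e.injective (Fin.ext (by omega))
  · intro z z' h
    have h1 := (e z).isLt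
    have h2 := (e z').isLt
    simp only at h
    by_contra hne
    have : (deg z' + 1) * Fintype.card V ≤ deg z * Fintype.card V :=
      Nat.mul_le_mul_right _ (by omega)
    rw [add_mul] at this
    omega

/-- number of elements with few elements above -/
private theorem Chain_top {V : Type} [Fintype V] (Z : V → Prop) (κ : V → ℕ)
    (hκ : Function.Injective κ) (d : ℕ) (hd : d ≤ (Finset.univ.filter Z).card) :
    (Finset.univ.filter (fun z => Z z ∧
      (Finset.univ.filter (fun z' => Z z' ∧ κ z < κ z')).card < d)).card = d := by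
  obtain ⟨up, hup⟩ : ∃ up : V → ℕ, up = fun z =>
      (Finset.univ.filter (fun z' => Z z' ∧ κ z < κ z')).card := ⟨_, rfl⟩
  have hlt : ∀ z z', Z z' → κ z < κ z' → up z' < up z := by
    intro z z' hz' hzz
    rw [hup]
    apply Finset.card_lt_card
    rw [Finset.ssubset_iff_of_subset]
    · refine ⟨z', ?_, ?_⟩
      · simp only [Finset.mem_filter, Finset.mem_univ, true_and]
        exact ⟨hz', hzz⟩
      · simp only [Finset.mem_filter, Finset.mem_univ, true_and]
        intro h
        exact absurd h.2 (lt_irrefl _)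
    · intro w hw
      simp only [Finset.mem_filter, Finset.mem_univ, true_and] at hw ⊢
      exact ⟨hw.1, hzz.trans hw.2⟩
  have hinj : ∀ z z', Z z → Z z' → up z = up z' → z = z' := by
    intro z z' hz hz' h
    apply hκ
    rcases lt_trichotomy (κ z) (κ z') with h1 | h1 | h1
    · exact absurd (hlt z z' hz' h1) (by omega)
    · exact h1
    · exact absurd (hlt z' z hz h1) (by omega)
  have hbd : ∀ z, Z z → up z < (Finset.univ.filter Z).card := by
    intro z hz
    rw [hup]
    apply Finset.card_lt_card
    rw [Finset.ssubset_iff_of_subset]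
    · refine ⟨z, ?_, ?_⟩
      · simp only [Finset.mem_filter, Finset.mem_univ, true_and]
        exact hz
      · simp only [Finset.mem_filter, Finset.mem_univ, true_and]
        intro h
        exact absurd h.2 (lt_irrefl _)
    · intro w hw
      simp only [Finset.mem_filter, Finset.mem_univ, true_and] at hw ⊢
      exact hw.1
  have himg : (Finset.univ.filter Z).image up = Finset.range (Finset.univ.filter Z).card := by
    apply Finset.eq_of_subset_of_card_le
    · intro k hk
      obtain ⟨z, hz, rfl⟩ := Finset.mem_image.mp hk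
      simp only [Finset.mem_filter, Finset.mem_univ, true_and] at hz
      exact Finset.mem_range.mpr (hbd z hz)
    · rw [Finset.card_range, Finset.card_image_of_injOn]
      intro z hz z' hz' h
      simp only [Finset.coe_filter, Finset.mem_univ, true_and, Set.mem_ofPred_eq] at hz hz'
      exact hinj z z' hz hz' h
  have himg2 : (Finset.univ.filter (fun z => Z z ∧ up z < d)).image up = Finset.range d := by
    ext k
    constructor
    · intro hk
      obtain ⟨z, hz, rfl⟩ := Finset.mem_image.mp hk
      simp only [Finset.mem_filter, Finset.mem_univ, true_and] at hz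
      exact Finset.mem_range.mpr hz.2
    · intro hk
      have hk' : k < d := Finset.mem_range.mp hk
      have h1 : k ∈ (Finset.univ.filter Z).image up := by
        rw [himg]
        exact Finset.mem_range.mpr (by omega)
      obtain ⟨z, hz, rfl⟩ := Finset.mem_image.mp h1
      simp only [Finset.mem_filter, Finset.mem_univ, true_and] at hz
      refine Finset.mem_image.mpr ⟨z, ?_, rfl⟩
      simp only [Finset.mem_filter, Finset.mem_univ, true_and]
      exact ⟨hz, hk'⟩
  have h1 : ((Finset.univ.filter (fun z => Z z ∧ up z < d)).image up).card =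
      (Finset.univ.filter (fun z => Z z ∧ up z < d)).card := by
    apply Finset.card_image_of_injOn
    intro z hz z' hz' h
    simp only [Finset.coe_filter, Finset.mem_univ, true_and, Set.mem_ofPred_eq] at hz hz'
    exact hinj z z' hz.1 hz'.1 h
  rw [himg2, Finset.card_range] at h1
  rw [hup] at h1
  exact h1.symm

/-- Part II: cleaning one pair to a chain graph -/
theorem chain_clean {V : Type} [Fintype V] (P Z : V → Prop) (r : V → V → Prop) {x : ℝ}
    (hx : 0 ≤ x)
    (hζ : den (fun y : V × V × V × V => P y.1 ∧ P y.2.1 ∧ Z y.2.2.1 ∧ Z y.2.2.2 ∧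
      r y.1 y.2.2.1 ∧ r y.2.1 y.2.2.2 ∧ ¬ r y.1 y.2.2.2 ∧ ¬ r y.2.1 y.2.2.1) ≤ x ^ 4) :
    ∃ r' : V → V → Prop,
      (∀ u u' z z', P u → P u' → Z z → Z z' → r' u z → r' u' z' → r' u z' ∨ r' u' z) ∧
      den (fun y : V × V => P y.1 ∧ Z y.2 ∧ ¬ (r y.1 y.2 ↔ r' y.1 y.2)) ≤ 2 * x := by
  rcases isEmpty_or_nonempty V with hV | hV
  · refine ⟨fun _ _ => False, fun _ _ _ _ _ _ _ _ h => h.elim, ?_⟩
    rw [den_eq_zero (fun a => (hV.false a.1).elim)]
    positivity
  obtain ⟨n, hn⟩ : ∃ n, n = Fintype.card V := ⟨_, rfl⟩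
  have hn0 : 0 < n := by rw [hn]; exact Fintype.card_pos
  have hnR : (0 : ℝ) < n := by exact_mod_cast hn0
  obtain ⟨C, hC⟩ : ∃ C : V → V → Finset V, C = fun z z' =>
      Finset.univ.filter (fun u => P u ∧ r u z ∧ ¬ r u z') := ⟨_, rfl⟩
  have mC : ∀ z z' u, u ∈ C z z' ↔ P u ∧ r u z ∧ ¬ r u z' := by
    intro z z' u
    rw [hC]
    simp only [Finset.mem_filter, Finset.mem_univ, true_and]
  obtain ⟨κ, hκ, hdeg⟩ := Chain_rank (fun z : V => (Finset.univ.filter (fun u => P u ∧ r u z)).card)
  have hCle : ∀ z z', κ z < κ z' → (C z z').card ≤ (C z' z).card := by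
    intro z z' h
    have h1 := hdeg z z' h
    have h2 : ∀ z z' : V, (Finset.univ.filter (fun u => P u ∧ r u z)).card =
        (C z z').card + (Finset.univ.filter (fun u => P u ∧ r u z ∧ r u z')).card := by
      intro z z'
      rw [← Finset.card_union_of_disjoint]
      · congr 1
        ext u
        simp only [Finset.mem_filter, Finset.mem_univ, true_and, Finset.mem_union, mC]
        tauto
      · rw [Finset.disjoint_left]
        intro u hu hu'
        rw [mC] at hu
        simp only [Finset.mem_filter, Finset.mem_univ, true_and] at hu'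
        exact hu.2.2 hu'.2.2
    have h3 : (Finset.univ.filter (fun u => P u ∧ r u z ∧ r u z')).card =
        (Finset.univ.filter (fun u => P u ∧ r u z' ∧ r u z)).card := by
      congr 1
      ext u
      simp only [Finset.mem_filter, Finset.mem_univ, true_and]
      tauto
    have h4 := h2 z z'
    have h5 := h2 z' z
    omega
  -- the new relation
  obtain ⟨up, hup⟩ : ∃ up : V → ℕ, up = fun z =>
      (Finset.univ.filter (fun z' => Z z' ∧ κ z < κ z')).card := ⟨_, rfl⟩
  obtain ⟨d, hd⟩ : ∃ d : V → ℕ, d = fun u => (Finset.univ.filter (fun z => Z z ∧ r u z)).card :=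
    ⟨_, rfl⟩
  have hupmono : ∀ z z', κ z' ≤ κ z → up z ≤ up z' := by
    intro z z' h
    rw [hup]
    apply Finset.card_le_card
    intro w hw
    simp only [Finset.mem_filter, Finset.mem_univ, true_and] at hw ⊢
    exact ⟨hw.1, lt_of_le_of_lt h hw.2⟩
  refine ⟨fun u z => up z < d u, ?_, ?_⟩
  · intro u u' z z' _ _ _ _ h h'
    rcases le_total (d u) (d u') with h1 | h1
    · right
      exact lt_of_lt_of_le h h1
    · left
      exact lt_of_lt_of_le h' h1
  · -- the sets of differences
    obtain ⟨A, hA⟩ : ∃ A : V → Finset V, A = fun u =>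
        Finset.univ.filter (fun z => Z z ∧ r u z ∧ ¬ up z < d u) := ⟨_, rfl⟩
    obtain ⟨B, hB⟩ : ∃ B : V → Finset V, B = fun u =>
        Finset.univ.filter (fun z => Z z ∧ ¬ r u z ∧ up z < d u) := ⟨_, rfl⟩
    have mA : ∀ u z, z ∈ A u ↔ Z z ∧ r u z ∧ ¬ up z < d u := by
      intro u z
      rw [hA]
      simp only [Finset.mem_filter, Finset.mem_univ, true_and]
    have mB : ∀ u z, z ∈ B u ↔ Z z ∧ ¬ r u z ∧ up z < d u := by
      intro u z
      rw [hB]
      simp only [Finset.mem_filter, Finset.mem_univ, true_and]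
    have hAB : ∀ u, (A u).card = (B u).card := by
      intro u
      have h1 : (Finset.univ.filter (fun z => Z z ∧ up z < d u)).card = d u := by
        have := Chain_top Z κ hκ (d u) (by
          rw [hd]
          apply Finset.card_le_card
          intro w hw
          simp only [Finset.mem_filter, Finset.mem_univ, true_and] at hw ⊢
          exact hw.1)
        rw [hup]
        exact this
      have h2 : (Finset.univ.filter (fun z => Z z ∧ up z < d u)).card =
          (B u).card + (Finset.univ.filter (fun z => Z z ∧ r u z ∧ up z < d u)).card := by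
        rw [← Finset.card_union_of_disjoint]
        · congr 1
          ext z
          simp only [Finset.mem_filter, Finset.mem_univ, true_and, Finset.mem_union, mB]
          tauto
        · rw [Finset.disjoint_left]
          intro z hz hz'
          rw [mB] at hz
          simp only [Finset.mem_filter, Finset.mem_univ, true_and] at hz'
          exact hz.2.1 hz'.2.1
      have hdu : d u = (Finset.univ.filter (fun z => Z z ∧ r u z)).card := by rw [hd]
      have h3 : d u =
          (A u).card + (Finset.univ.filter (fun z => Z z ∧ r u z ∧ up z < d u)).card := by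
        refine hdu.trans ?_
        rw [← Finset.card_union_of_disjoint]
        · congr 1
          ext z
          simp only [Finset.mem_filter, Finset.mem_univ, true_and, Finset.mem_union, mA]
          tauto
        · rw [Finset.disjoint_left]
          intro z hz hz'
          rw [mA] at hz
          simp only [Finset.mem_filter, Finset.mem_univ, true_and] at hz'
          exact hz.2.2 hz'.2.2
      omega
    obtain ⟨PP, hPP⟩ : ∃ PP : Finset V, PP = Finset.univ.filter P := ⟨_, rfl⟩
    obtain ⟨pr, hpr⟩ : ∃ pr : Finset (V × V), pr = Finset.univ.filter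
        (fun y : V × V => Z y.1 ∧ Z y.2 ∧ κ y.1 < κ y.2) := ⟨_, rfl⟩
    -- step 2
    have s2 : ∑ u ∈ PP, (A u).card * (A u).card ≤ ∑ y ∈ pr, (C y.1 y.2).card := by
      have e1 : ∑ u ∈ PP, (A u).card * (A u).card =
          (PP.sigma (fun u => A u ×ˢ B u)).card := by
        rw [Finset.card_sigma]
        apply Finset.sum_congr rfl
        intro u _
        rw [Finset.card_product, ← hAB]
      have e2 : ∑ y ∈ pr, (C y.1 y.2).card = (pr.sigma (fun y => C y.1 y.2)).card := by
        rw [Finset.card_sigma]
      rw [e1, e2]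
      apply Finset.card_le_card_of_injOn (fun w => ⟨w.2, w.1⟩)
      · rintro ⟨u, z, z'⟩ hw
        simp only [Finset.coe_sigma, Finset.coe_product, Set.mem_sigma_iff, Set.mem_prod,
          Finset.mem_coe] at hw ⊢
        obtain ⟨h1, h2, h3⟩ := hw
        rw [hPP, Finset.mem_filter] at h1
        rw [mA] at h2
        rw [mB] at h3
        refine ⟨?_, ?_⟩
        · rw [hpr, Finset.mem_filter]
          refine ⟨Finset.mem_univ _, h2.1, h3.1, ?_⟩
          by_contra hc
          have := hupmono z z' (not_lt.mp hc)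
          omega
        · rw [mC]
          exact ⟨h1.2, h2.2.1, h3.2.1⟩
      · rintro ⟨u, z, z'⟩ _ ⟨v, w, w'⟩ _ h
        simp only [Sigma.mk.injEq, Prod.mk.injEq] at h
        obtain ⟨⟨rfl, rfl⟩, h2⟩ := h
        rw [heq_iff_eq] at h2
        subst h2
        rfl
    -- step 1
    obtain ⟨Q, hQ⟩ : ∃ Q : Finset (V × V × V × V), Q = Finset.univ.filter
        (fun y : V × V × V × V => P y.1 ∧ P y.2.1 ∧ Z y.2.2.1 ∧ Z y.2.2.2 ∧
          r y.1 y.2.2.1 ∧ r y.2.1 y.2.2.2 ∧ ¬ r y.1 y.2.2.2 ∧ ¬ r y.2.1 y.2.2.1) := ⟨_, rfl⟩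
    have s1 : ∑ y ∈ pr, (C y.1 y.2).card * (C y.1 y.2).card ≤ Q.card := by
      calc ∑ y ∈ pr, (C y.1 y.2).card * (C y.1 y.2).card
          ≤ ∑ y ∈ pr, (C y.1 y.2).card * (C y.2 y.1).card := by
            apply Finset.sum_le_sum
            intro y hy
            rw [hpr, Finset.mem_filter] at hy
            exact Nat.mul_le_mul_left _ (hCle _ _ hy.2.2.2)
        _ = (pr.sigma (fun y => C y.1 y.2 ×ˢ C y.2 y.1)).card := by
            rw [Finset.card_sigma]
            apply Finset.sum_congr rfl
            intro y _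
            rw [Finset.card_product]
        _ ≤ Q.card := by
            apply Finset.card_le_card_of_injOn (fun w => (w.2.1, w.2.2, w.1.1, w.1.2))
            · rintro ⟨⟨z, z'⟩, u, u'⟩ hw
              simp only [Finset.coe_sigma, Finset.coe_product, Set.mem_sigma_iff, Set.mem_prod,
                Finset.mem_coe] at hw ⊢
              obtain ⟨h1, h2, h3⟩ := hw
              rw [hpr, Finset.mem_filter] at h1
              rw [mC] at h2 h3
              rw [hQ, Finset.mem_filter]
              exact ⟨Finset.mem_univ _, h2.1, h3.1, h1.2.1, h1.2.2.1, h2.2.1, h3.2.1, h2.2.2,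
                h3.2.2⟩
            · rintro ⟨⟨z, z'⟩, u, u'⟩ _ ⟨⟨w, w'⟩, v, v'⟩ _ h
              simp only [Prod.mk.injEq] at h
              obtain ⟨rfl, rfl, rfl, rfl⟩ := h
              rfl
    have hQden : (Q.card : ℝ) ≤ x ^ 4 * (n : ℝ) ^ 4 := by
      have e : (Q.card : ℝ) / (Fintype.card (V × V × V × V) : ℝ) ≤ x ^ 4 := by
        refine le_trans (le_of_eq ?_) hζ
        unfold den
        rw [hQ]
        congr!
      rw [Fintype.card_prod, Fintype.card_prod, Fintype.card_prod, ← hn,
        div_le_iff₀ (by positivity)] at e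
      refine le_trans e (le_of_eq ?_)
      push_cast
      ring
    have hpn : (pr.card : ℝ) ≤ (n : ℝ) ^ 2 := by
      have h1 : pr.card ≤ Fintype.card (V × V) := Finset.card_le_univ _
      rw [Fintype.card_prod, ← hn] at h1
      have h2 : (pr.card : ℝ) ≤ ((n * n : ℕ) : ℝ) := by exact_mod_cast h1
      push_cast at h2
      rw [pow_two]
      exact h2
    have hPn : (PP.card : ℝ) ≤ n := by
      have h1 : PP.card ≤ Fintype.card V := Finset.card_le_univ _
      rw [← hn] at h1
      exact_mod_cast h1
    have s3 : ∑ y ∈ pr, ((C y.1 y.2).card : ℝ) ≤ x ^ 2 * (n : ℝ) ^ 3 := by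
      have h1 := sq_sum_le_card_mul_sum_sq (s := pr) (f := fun y => ((C y.1 y.2).card : ℝ))
      have h2 : ∑ y ∈ pr, ((C y.1 y.2).card : ℝ) ^ 2 ≤ x ^ 4 * (n : ℝ) ^ 4 := by
        refine le_trans ?_ hQden
        have h3 : ((∑ y ∈ pr, (C y.1 y.2).card * (C y.1 y.2).card : ℕ) : ℝ) ≤ (Q.card : ℝ) := by
          exact_mod_cast s1
        push_cast at h3
        refine le_trans (le_of_eq ?_) h3
        apply Finset.sum_congr rfl
        intro y _
        rw [pow_two]
      have h3 : (∑ y ∈ pr, ((C y.1 y.2).card : ℝ)) ^ 2 ≤ (x ^ 2 * (n : ℝ) ^ 3) ^ 2 := by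
        calc (∑ y ∈ pr, ((C y.1 y.2).card : ℝ)) ^ 2
            ≤ (pr.card : ℝ) * ∑ y ∈ pr, ((C y.1 y.2).card : ℝ) ^ 2 := h1
          _ ≤ (n : ℝ) ^ 2 * (x ^ 4 * (n : ℝ) ^ 4) :=
              mul_le_mul hpn h2 (Finset.sum_nonneg fun y _ => by positivity) (by positivity)
          _ = (x ^ 2 * (n : ℝ) ^ 3) ^ 2 := by ring
      exact le_of_sq_le_sq h3 (by positivity)
    have s4 : ∑ u ∈ PP, ((A u).card : ℝ) ≤ x * (n : ℝ) ^ 2 := by
      have h1 := sq_sum_le_card_mul_sum_sq (s := PP) (f := fun u => ((A u).card : ℝ))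
      have h2 : ∑ u ∈ PP, ((A u).card : ℝ) ^ 2 ≤ x ^ 2 * (n : ℝ) ^ 3 := by
        refine le_trans ?_ s3
        have h3 : ((∑ u ∈ PP, (A u).card * (A u).card : ℕ) : ℝ) ≤
            ((∑ y ∈ pr, (C y.1 y.2).card : ℕ) : ℝ) := by
          exact_mod_cast s2
        push_cast at h3
        refine le_trans (le_of_eq ?_) h3
        apply Finset.sum_congr rfl
        intro y _
        rw [pow_two]
      have h3 : (∑ u ∈ PP, ((A u).card : ℝ)) ^ 2 ≤ (x * (n : ℝ) ^ 2) ^ 2 := by
        calc (∑ u ∈ PP, ((A u).card : ℝ)) ^ 2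
            ≤ (PP.card : ℝ) * ∑ u ∈ PP, ((A u).card : ℝ) ^ 2 := h1
          _ ≤ (n : ℝ) * (x ^ 2 * (n : ℝ) ^ 3) :=
              mul_le_mul hPn h2 (Finset.sum_nonneg fun y _ => by positivity) (by positivity)
          _ = (x * (n : ℝ) ^ 2) ^ 2 := by ring
      exact le_of_sq_le_sq h3 (by positivity)
    -- step 4
    unfold den
    rw [Fintype.card_prod, ← hn, div_le_iff₀ (by positivity)]
    have s5 : (Finset.univ.filter (fun y : V × V => P y.1 ∧ Z y.2 ∧
        ¬ (r y.1 y.2 ↔ up y.2 < d y.1))).card ≤ ∑ u ∈ PP, ((A u).card + (B u).card) := by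
      calc (Finset.univ.filter (fun y : V × V => P y.1 ∧ Z y.2 ∧
            ¬ (r y.1 y.2 ↔ up y.2 < d y.1))).card
          ≤ (PP.sigma (fun u => A u ∪ B u)).card := by
            apply Finset.card_le_card_of_injOn (fun y => ⟨y.1, y.2⟩)
            · rintro ⟨u, z⟩ hw
              simp only [Finset.coe_filter, Finset.mem_univ, true_and, Set.mem_ofPred_eq] at hw
              simp only [Finset.coe_sigma, Finset.coe_union, Set.mem_sigma_iff, Set.mem_union,
                Finset.mem_coe]
              obtain ⟨h1, h2, h3⟩ := hw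
              refine ⟨?_, ?_⟩
              · rw [hPP, Finset.mem_filter]
                exact ⟨Finset.mem_univ _, h1⟩
              · rw [mA, mB]
                tauto
            · rintro ⟨u, z⟩ _ ⟨v, w⟩ _ h
              simp only [Sigma.mk.injEq] at h
              obtain ⟨rfl, h2⟩ := h
              rw [heq_iff_eq] at h2
              subst h2
              rfl
        _ = ∑ u ∈ PP, (A u ∪ B u).card := Finset.card_sigma _ _
        _ ≤ ∑ u ∈ PP, ((A u).card + (B u).card) :=
            Finset.sum_le_sum fun u _ => Finset.card_union_le _ _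
    have s6 : ((∑ u ∈ PP, ((A u).card + (B u).card) : ℕ) : ℝ) ≤ 2 * (x * (n : ℝ) ^ 2) := by
      have h1 : ((∑ u ∈ PP, ((A u).card + (B u).card) : ℕ) : ℝ) =
          2 * ∑ u ∈ PP, ((A u).card : ℝ) := by
        push_cast
        rw [Finset.mul_sum]
        apply Finset.sum_congr rfl
        intro u _
        rw [← hAB u]
        ring
      rw [h1]
      linarith
    have s7 : ((Finset.univ.filter (fun y : V × V => P y.1 ∧ Z y.2 ∧
        ¬ (r y.1 y.2 ↔ up y.2 < d y.1))).card : ℝ) ≤
        ((∑ u ∈ PP, ((A u).card + (B u).card) : ℕ) : ℝ) := by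
      exact_mod_cast s5
    push_cast
    refine le_trans (le_trans s7 s6) (le_of_eq (by ring))

end Pool.Agent.IC4
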