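import Pool.Agent.IC4.Scale

set_option autoImplicit false

namespace Pool.Agent.IC4

variable {V K : Type} [Fintype V] (T : TS V K)

theorem M_comm (u v : V) : T.M u v = T.M v u := by
  unfold TS.M; ring

theorem adj_comm (u v : V) : T.adj u v ↔ T.adj v u := by
  unfold TS.adj
  rw [M_comm T u v, ne_comm]

theorem Tt_comm {lo : ℝ} {u v : V} : T.Tt lo u v ↔ T.Tt lo v u := by
  unfold TS.Tt
  rw [M_comm T u v, ne_comm]

theorem Ee_comm {hi : ℝ} {u v : V} : T.Ee hi u v ↔ T.Ee hi v u := by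
  unfold TS.Ee
  rw [M_comm T u v, eq_comm]

theorem Ff_comm {hi : ℝ} {u v : V} : T.Ff hi u v ↔ T.Ff hi v u := by
  unfold TS.Ff
  rw [M_comm T u v, ne_comm]

theorem Clr_comm {lo hi : ℝ} {u v : V} : T.Clr lo hi u v ↔ T.Clr lo hi v u := by
  unfold TS.Clr
  rw [Tt_comm T, Ee_comm T, Ff_comm T]

theorem Tt_mono {lo lo' : ℝ} (h : lo ≤ lo') {u v : V} (ht : T.Tt lo u v) : T.Tt lo' u v :=
  ⟨ht.1, ht.2.trans h⟩

theorem Ee_mono {hi hi' : ℝ} (h : hi' ≤ hi) {u v : V} (ht : T.Ee hi u v) : T.Ee hi' u v := by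
  rcases ht with ht | ht
  · exact Or.inl ht
  · exact Or.inr (by linarith)

theorem Ff_mono {hi hi' : ℝ} (h : hi' ≤ hi) {u v : V} (ht : T.Ff hi u v) : T.Ff hi' u v :=
  ⟨ht.1, lt_of_le_of_lt h ht.2⟩

theorem Ee_of_pi {hi : ℝ} {u v : V} (h : T.pi u = T.pi v) : T.Ee hi u v := Or.inl h

theorem Ee_not_adj {hi : ℝ} (hh : 0 ≤ hi) {u v : V} (h : T.Ee hi u v) : ¬ T.adj u v := by
  rintro ⟨h1, h2⟩
  rcases h with h | h
  · exact h1 h
  · linarith

theorem Ff_adj {hi : ℝ} (hh : 0 ≤ hi) {u v : V} (h : T.Ff hi u v) : T.adj u v :=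
  ⟨h.1, lt_of_le_of_lt hh h.2⟩

theorem not_Tt_of_Ee {lo hi : ℝ} (hh : lo ≤ hi) {u v : V} (h : T.Ee hi u v) : ¬ T.Tt lo u v := by
  rintro ⟨h1, h2⟩
  rcases h with h | h
  · exact h1 h
  · have := (abs_le.1 h2).1
    linarith

theorem not_Tt_of_Ff {lo hi : ℝ} (hh : lo ≤ hi) {u v : V} (h : T.Ff hi u v) : ¬ T.Tt lo u v := by
  rintro ⟨h1, h2⟩
  have := (abs_le.1 h2).2
  have := h.2
  linarith

theorem not_Ff_of_Ee {hi : ℝ} (hh : 0 ≤ hi) {u v : V} (h : T.Ee hi u v) : ¬ T.Ff hi u v :=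
  fun h' => Ee_not_adj T hh h (Ff_adj T hh h')

/-- adjacent and clear: tight or F -/
theorem Clr_adj {lo hi : ℝ} (hh : 0 ≤ hi) {u v : V} (h : T.Clr lo hi u v) (ha : T.adj u v) :
    T.Tt lo u v ∨ T.Ff hi u v := by
  rcases h with h | h | h
  · exact Or.inl h
  · exact absurd ha (Ee_not_adj T hh h)
  · exact Or.inr h

/-- non-adjacent and clear: tight or E -/
theorem Clr_nadj {lo hi : ℝ} (hh : 0 ≤ hi) {u v : V} (h : T.Clr lo hi u v) (ha : ¬ T.adj u v) :
    T.Tt lo u v ∨ T.Ee hi u v := by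
  rcases h with h | h | h
  · exact Or.inl h
  · exact Or.inr h
  · exact absurd (Ff_adj T hh h) ha

/-- tight at an intermediate level and clear: tight at the low level -/
theorem Clr_Tt {lo lo' hi : ℝ} (hh : lo' ≤ hi) {u v : V} (h : T.Clr lo hi u v)
    (ht : T.Tt lo' u v) : T.Tt lo u v := by
  rcases h with h | h | h
  · exact h
  · exact absurd ht (not_Tt_of_Ee T hh h)
  · exact absurd ht (not_Tt_of_Ff T hh h)

/-- E at a smaller positive level and clear: E at the high level -/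
theorem Clr_Ee {lo hi hi' : ℝ} (hh : lo ≤ hi') {u v : V} (h : T.Clr lo hi u v)
    (ht : T.Ee hi' u v) (hp : 0 ≤ hi) (hp' : 0 ≤ hi') : T.Ee hi u v := by
  rcases h with h | h | h
  · exact absurd h (not_Tt_of_Ee T hh ht)
  · exact h
  · exact absurd (Ff_adj T hp h) (Ee_not_adj T hp' ht)

/-- a pair in a smaller window that is clear for the big window is clear for the small window -/
theorem Clr_mono {lo lo' hi hi' : ℝ} (h1 : lo ≤ lo') (h2 : hi' ≤ hi) {u v : V}
    (h : T.Clr lo hi u v) : T.Clr lo' hi' u v := by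
  rcases h with h | h | h
  · exact Or.inl (Tt_mono T h1 h)
  · exact Or.inr (Or.inl (Ee_mono T h2 h))
  · exact Or.inr (Or.inr (Ff_mono T h2 h))

theorem Clr_of_abs {lo hi : ℝ} {u v : V} (h : |T.M u v| ≤ lo ∨ hi < |T.M u v|) :
    T.Clr lo hi u v := by
  by_cases hp : T.pi u = T.pi v
  · exact Or.inr (Or.inl (Or.inl hp))
  rcases h with h | h
  · exact Or.inl ⟨hp, h⟩
  · rcases lt_abs.1 h with h | h
    · exact Or.inr (Or.inr ⟨hp, h⟩)
    · exact Or.inr (Or.inl (Or.inr (by linarith)))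

/-- window lemma (pigeonhole): among `m + 1` consecutive windows of length `L` one contains none of
at most `m` given real numbers -/
theorem clear_window {s : ℕ → ℝ} (hs : Sc s) (F : Finset ℝ) {m : ℕ} (hm : F.card ≤ m)
    (i L : ℕ) (hL : 0 < L) :
    ∃ t, t ≤ m ∧ ∀ x ∈ F, x ≤ s (i + L * (t + 1)) ∨ s (i + L * t) < x := by
  by_contra hcon
  push Not at hcon
  choose! g hg using hcon
  -- `g t ∈ F` lies in the window `t`
  have hinj : Set.InjOn g (Finset.range (m + 1) : Finset ℕ) := by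
    have aux : ∀ t t', t < t' → t' ≤ m → g t = g t' → False := by
      intro t t' htt ht' he
      obtain ⟨-, h1, -⟩ := hg t (by omega)
      obtain ⟨-, -, h2⟩ := hg t' ht'
      have h3 : s (i + L * t') ≤ s (i + L * (t + 1)) := by
        apply hs.anti
        have : L * (t + 1) ≤ L * t' := Nat.mul_le_mul_left _ htt
        omega
      rw [he] at h1
      linarith
    intro t ht t' ht' he
    simp only [Finset.coe_range, Set.mem_Iio] at ht ht'
    rcases lt_trichotomy t t' with h | h | h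
    · exact (aux t t' h (by omega) he).elim
    · exact h
    · exact (aux t' t h (by omega) he.symm).elim
  have h1 : (Finset.range (m + 1)).card ≤ F.card := by
    apply Finset.card_le_card_of_injOn g _ hinj
    intro t ht
    simp only [Finset.coe_range, Set.mem_Iio] at ht
    exact (hg t (by omega)).1
  rw [Finset.card_range] at h1
  omega

/-- window lemma for all pairs of `r` vertices -/
theorem clear_fin {s : ℕ → ℝ} (hs : Sc s) {r : ℕ} (f : Fin r → V) (i L : ℕ) (hL : 0 < L) :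
    ∃ t, t ≤ r * r ∧ ∀ a b, T.Clr (s (i + L * (t + 1))) (s (i + L * t)) (f a) (f b) := by
  classical
  let F : Finset ℝ := (Finset.univ : Finset (Fin r × Fin r)).image
    fun p => |T.M (f p.1) (f p.2)|
  have hF : F.card ≤ r * r := by
    refine Finset.card_image_le.trans ?_
    rw [Finset.card_univ, Fintype.card_prod, Fintype.card_fin]
  obtain ⟨t, ht, h⟩ := clear_window hs F hF i L hL
  refine ⟨t, ht, fun a b => Clr_of_abs T ?_⟩
  exact h _ (Finset.mem_image.2 ⟨(a, b), Finset.mem_univ _, rfl⟩)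

end Pool.Agent.IC4
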