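import Pool.Agent.IC4.Base

set_option autoImplicit false

namespace Pool.Agent.IC4

open scoped Classical in
/-- signature of a vertex for one data block -/
private noncomputable def ClsB_sig {V K : Type} [Fintype V] (T : TS V K) (V2 : V → Prop) (η δ₁ : ℝ)
    (d : K × V × V × K × V) (u : V) : ℤ × Bool × Bool × Bool :=
  (⌊T.th u d.1 * (4 / η)⌋, decide (T.adj u d.2.1), decide (T.adj u d.2.2.1),
    decide (T.Ip V2 δ₁ d.2.2.2.1 u d.2.2.2.2))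

private theorem ClsB_sim {V K : Type} [Fintype V] (T : TS V K) (V2 : V → Prop) {η δ₁ : ℝ}
    (h0 : 0 < η) (d : K × V × V × K × V) (u u' : V) (hpi : T.pi u' = T.pi u) (hV : V2 u')
    (h : ClsB_sig T V2 η δ₁ d u' = ClsB_sig T V2 η δ₁ d u) : T.Sim V2 η δ₁ d u u' := by
  unfold ClsB_sig at h
  simp only [Prod.mk.injEq, decide_eq_decide] at h
  obtain ⟨h1, h2, h3, h4⟩ := h
  refine ⟨hpi, hV, ?_, h2, h3, h4⟩
  have h5 := Int.abs_sub_lt_one_of_floor_eq_floor h1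
  rw [← sub_mul, abs_mul, abs_of_pos (by positivity : (0 : ℝ) < 4 / η)] at h5
  have h6 : |T.th u' d.1 - T.th u d.1| * 4 < η := by
    rw [← mul_div_assoc, div_lt_one h0] at h5
    exact h5
  linarith

private noncomputable def ClsB_F (η : ℝ) : Finset (ℤ × Bool × Bool × Bool) :=
  (Finset.Icc ⌊-(4 / η)⌋ ⌊4 / η⌋) ×ˢ (Finset.univ : Finset (Bool × Bool × Bool))

private theorem ClsB_mem {V K : Type} [Fintype V] (T : TS V K) (V2 : V → Prop) {η δ₁ : ℝ}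
    (h0 : 0 < η) (d : K × V × V × K × V) (u : V) : ClsB_sig T V2 η δ₁ d u ∈ ClsB_F η := by
  unfold ClsB_sig ClsB_F
  rw [Finset.mem_product]
  refine ⟨?_, Finset.mem_univ _⟩
  rw [Finset.mem_Icc]
  have h1 := abs_le.1 (T.bd u d.1)
  have h2 : (0 : ℝ) < 4 / η := by positivity
  constructor
  · apply Int.floor_le_floor
    nlinarith
  · apply Int.floor_le_floor
    nlinarith

private theorem ClsB_card {η : ℝ} (h0 : 0 < η) (h1 : η ≤ 1) :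
    ((ClsB_F η).card : ℝ) ≤ 12 / η * 8 := by
  unfold ClsB_F
  rw [Finset.card_product, Int.card_Icc]
  have h2 : (Finset.univ : Finset (Bool × Bool × Bool)).card = 8 := by decide
  rw [h2]
  push_cast
  have h3 : (4 : ℝ) ≤ 4 / η := by
    rw [le_div_iff₀ h0]; linarith
  have h4 : ((⌊4 / η⌋ + 1 - ⌊-(4 / η)⌋).toNat : ℝ) ≤ 12 / η := by
    have h5 : ((⌊4 / η⌋ + 1 - ⌊-(4 / η)⌋ : ℤ) : ℝ) ≤ 12 / η := by
      push_cast
      have h6 := Int.floor_le (4 / η)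
      have h7 := Int.sub_one_lt_floor (-(4 / η))
      have h8 : 12 / η = 4 / η + 4 / η + 4 / η := by ring
      linarith
    have h9 : (0 : ℤ) ≤ ⌊4 / η⌋ + 1 - ⌊-(4 / η)⌋ := by
      have : ⌊-(4 / η)⌋ ≤ ⌊4 / η⌋ := Int.floor_le_floor (by linarith)
      omega
    have h10 : (((⌊4 / η⌋ + 1 - ⌊-(4 / η)⌋).toNat : ℤ) : ℝ)
        = ((⌊4 / η⌋ + 1 - ⌊-(4 / η)⌋ : ℤ) : ℝ) := by
      rw [Int.toNat_of_nonneg h9]
    rw [← h10] at h5
    exact_mod_cast h5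
  exact mul_le_mul_of_nonneg_right h4 (by norm_num)

/-- fixed data blocks -/
private theorem ClsB_fix {V K : Type} [Fintype V] [Fintype K] (T : TS V K) (V2 : V → Prop)
    {η δ₁ γ : ℝ} (h0 : 0 < η) (h1 : η ≤ 1) (hγ : 0 ≤ γ) (d₁ d₂ d₃ : K × V × V × K × V) :
    den (fun u => V2 u ∧ den (fun u' => T.Sim V2 η δ₁ d₁ u u' ∧ T.Sim V2 η δ₁ d₂ u u' ∧
      T.Sim V2 η δ₁ d₃ u u') < γ) ≤ (Fintype.card K : ℝ) * (12 / η) ^ 3 * 512 * γ := by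
  set P : K × (ℤ × Bool × Bool × Bool) × (ℤ × Bool × Bool × Bool) × (ℤ × Bool × Bool × Bool) →
      V → Prop := fun s u => (V2 u ∧ den (fun u' => T.Sim V2 η δ₁ d₁ u u' ∧
        T.Sim V2 η δ₁ d₂ u u' ∧ T.Sim V2 η δ₁ d₃ u u') < γ) ∧ T.pi u = s.1 ∧
        ClsB_sig T V2 η δ₁ d₁ u = s.2.1 ∧ ClsB_sig T V2 η δ₁ d₂ u = s.2.2.1 ∧
        ClsB_sig T V2 η δ₁ d₃ u = s.2.2.2 with hP
  have hle : ∀ s, den (P s) ≤ γ := by
    intro s
    by_cases hs : ∃ u, P s u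
    · obtain ⟨u, ⟨hu, hlt⟩, e0, e1, e2, e3⟩ := hs
      refine le_trans (den_mono fun u' hu' => ?_) hlt.le
      obtain ⟨⟨hv, _⟩, f0, f1, f2, f3⟩ := hu'
      exact ⟨ClsB_sim T V2 h0 d₁ u u' (f0.trans e0.symm) hv (f1.trans e1.symm),
        ClsB_sim T V2 h0 d₂ u u' (f0.trans e0.symm) hv (f2.trans e2.symm),
        ClsB_sim T V2 h0 d₃ u u' (f0.trans e0.symm) hv (f3.trans e3.symm)⟩
    · push Not at hs
      rw [den_eq_zero hs]
      exact hγ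
  set F : Finset (K × (ℤ × Bool × Bool × Bool) × (ℤ × Bool × Bool × Bool) ×
      (ℤ × Bool × Bool × Bool)) := Finset.univ ×ˢ (ClsB_F η ×ˢ (ClsB_F η ×ˢ ClsB_F η)) with hF
  have h2 : den (fun u => V2 u ∧ den (fun u' => T.Sim V2 η δ₁ d₁ u u' ∧ T.Sim V2 η δ₁ d₂ u u' ∧
      T.Sim V2 η δ₁ d₃ u u') < γ) ≤ den (fun u => ∃ s ∈ F, P s u) := by
    refine den_mono fun u hu => ?_
    refine ⟨(T.pi u, ClsB_sig T V2 η δ₁ d₁ u, ClsB_sig T V2 η δ₁ d₂ u,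
      ClsB_sig T V2 η δ₁ d₃ u), ?_, hu, rfl, rfl, rfl, rfl⟩
    rw [hF, Finset.mem_product, Finset.mem_product, Finset.mem_product]
    exact ⟨Finset.mem_univ _, ClsB_mem T V2 h0 d₁ u, ClsB_mem T V2 h0 d₂ u,
      ClsB_mem T V2 h0 d₃ u⟩
  refine h2.trans ((den_exists_mem_le F P γ fun s _ => hle s).trans ?_)
  refine mul_le_mul_of_nonneg_right ?_ hγ
  rw [hF, Finset.card_product, Finset.card_product, Finset.card_product, Finset.card_univ]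
  push_cast
  have h3 := ClsB_card h0 h1
  have h4 : (0 : ℝ) ≤ (ClsB_F η).card := Nat.cast_nonneg _
  have h5 : (0 : ℝ) ≤ Fintype.card K := Nat.cast_nonneg _
  have h6 : ((ClsB_F η).card : ℝ) * (((ClsB_F η).card : ℝ) * ((ClsB_F η).card : ℝ))
      ≤ (12 / η * 8) * ((12 / η * 8) * (12 / η * 8)) := by
    gcongr
  calc (Fintype.card K : ℝ) * (((ClsB_F η).card : ℝ) * (((ClsB_F η).card : ℝ) *
        ((ClsB_F η).card : ℝ))) ≤ (Fintype.card K : ℝ) * ((12 / η * 8) * ((12 / η * 8) *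
          (12 / η * 8))) := mul_le_mul_of_nonneg_left h6 h5
    _ = _ := by ring

/-- almost all vertices have large classes (section IV.10) -/
theorem cls_bad {V K : Type} [Fintype V] [Fintype K] (T : TS V K) (V2 : V → Prop) {m : ℕ}
    (f : Fin m → V) {η δ₁ γ : ℝ} (h0 : 0 < η) (h1 : η ≤ 1) (hγ : 0 ≤ γ) :
    den (fun u => V2 u ∧ ¬ T.Cls V2 (fun z => ∃ i, f i = z) η δ₁ γ u) ≤
      (Fintype.card K : ℝ) ^ 7 * (m : ℝ) ^ 9 * (12 / η) ^ 3 * 512 * γ := by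
  have h2 : den (fun u => V2 u ∧ ¬ T.Cls V2 (fun z => ∃ i, f i = z) η δ₁ γ u) ≤
      den (fun u => ∃ j : (K × Fin m × Fin m × K × Fin m) × (K × Fin m × Fin m × K × Fin m) ×
        (K × Fin m × Fin m × K × Fin m), V2 u ∧ den (fun u' =>
          T.Sim V2 η δ₁ (j.1.1, f j.1.2.1, f j.1.2.2.1, j.1.2.2.2.1, f j.1.2.2.2.2) u u' ∧
          T.Sim V2 η δ₁ (j.2.1.1, f j.2.1.2.1, f j.2.1.2.2.1, j.2.1.2.2.2.1,
            f j.2.1.2.2.2.2) u u' ∧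
          T.Sim V2 η δ₁ (j.2.2.1, f j.2.2.2.1, f j.2.2.2.2.1, j.2.2.2.2.2.1,
            f j.2.2.2.2.2.2) u u') < γ) := by
    refine den_mono fun u hu => ?_
    obtain ⟨hV, hc⟩ := hu
    unfold TS.Cls at hc
    push Not at hc
    obtain ⟨⟨c1, z1, w1, p1, y1⟩, ⟨c2, z2, w2, p2, y2⟩, ⟨c3, z3, w3, p3, y3⟩,
      ⟨⟨a1, ha1⟩, ⟨b1, hb1⟩, ⟨e1, he1⟩⟩, ⟨⟨a2, ha2⟩, ⟨b2, hb2⟩, ⟨e2, he2⟩⟩,
      ⟨⟨a3, ha3⟩, ⟨b3, hb3⟩, ⟨e3, he3⟩⟩, hlt⟩ := hc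
    simp only at ha1 hb1 he1 ha2 hb2 he2 ha3 hb3 he3
    subst ha1 hb1 he1 ha2 hb2 he2 ha3 hb3 he3
    exact ⟨((c1, a1, b1, p1, e1), (c2, a2, b2, p2, e2), (c3, a3, b3, p3, e3)), hV, hlt⟩
  refine h2.trans ((den_exists_le_card _ _ fun j => ClsB_fix T V2 h0 h1 hγ _ _ _).trans ?_)
  apply le_of_eq
  simp only [Fintype.card_prod, Fintype.card_fin]
  push_cast
  ring

end Pool.Agent.IC4
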