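import Pool.Agent.IC4.Line

set_option autoImplicit false

namespace Pool.Agent.IC4

variable {V K : Type} [Fintype V] (T : TS V K)

/-- the position of one vertex `x` -/
theorem Compl_aux {V2 : V → Prop} {lo hi : ℝ} (hW : T.Win V2 lo hi) {b₀ c c' x : V}
    (hb : V2 b₀) (hc : V2 c) (hc' : V2 c') (hx : V2 x)
    (hpi : T.pi c = T.pi c') (tc : T.Tt lo b₀ c) (tc' : T.Tt lo b₀ c')
    (k1 : T.Clr lo hi x c) (k2 : T.Clr lo hi x c') (k3 : T.Clr lo hi x b₀)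
    (xc : T.adj x c) (xc' : ¬ T.adj x c') (xb : ¬ T.adj x b₀) :
    T.Tt lo c x ∧ T.Tt lo c' x ∧ T.Ee hi b₀ x := by
  have hle := hW.lohi.le
  have h0 : 0 ≤ hi := hW.lo0.le.trans hle
  have ecc : T.Ee hi c c' := Ee_of_pi T hpi
  have xcT : T.Tt lo c x → T.Tt lo c' x ∧ T.Ee hi b₀ x := by
    intro h
    have hE : T.Ee hi b₀ x := by
      rcases Clr_nadj T h0 k3 xb with h1 | h1
      · exact (hW.tf b₀ c x hb hc hx ⟨tc, h, (Tt_comm T).1 h1⟩).elim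
      · exact (Ee_comm T).1 h1
    refine ⟨?_, hE⟩
    exact P6 T hW hc' hb hc hx ((Tt_comm T).1 tc') ((Tt_comm T).1 tc) h ((Ee_comm T).1 ecc) hE
      ((Clr_comm T).1 k2)
  rcases Clr_adj T h0 k1 xc with h1 | h1
  · have h1' := (Tt_comm T).1 h1
    exact ⟨h1', xcT h1'⟩
  · exfalso
    rcases Clr_nadj T h0 k2 xc' with h2 | h2
    · -- x T c'
      have hE : T.Ee hi b₀ x := by
        rcases Clr_nadj T h0 k3 xb with h3 | h3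
        · exact (hW.tf b₀ c' x hb hc' hx ⟨tc', (Tt_comm T).1 h2, (Tt_comm T).1 h3⟩).elim
        · exact (Ee_comm T).1 h3
      have h4 := P6 T hW hc hb hc' hx ((Tt_comm T).1 tc) ((Tt_comm T).1 tc') ((Tt_comm T).1 h2)
        ecc hE ((Clr_comm T).1 k1)
      exact not_Tt_of_Ff T hle h1 ((Tt_comm T).1 h4)
    · rcases Clr_nadj T h0 k3 xb with h3 | h3
      · have h4 := P5 T hW hb hc' hc hx tc' tc ((Tt_comm T).1 h3) ((Ee_comm T).1 ecc)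
          ((Ee_comm T).1 h2) ((Clr_comm T).1 k1)
        exact Ee_not_adj T h0 h4 ((adj_comm T x c).1 xc)
      · have h3' := (Ee_comm T).1 h3
        rcases hW.ml b₀ c' c x hb hc' hc hx (Or.inl tc') (Or.inr ((Ff_comm T).1 h1)) (Or.inl tc)
          (Or.inr h3') (Or.inr ((Ee_comm T).1 ecc)) (Or.inr ((Ee_comm T).1 h2)) with h | h | h
        · exact not_Tt_of_Ee T hle ecc ((Tt_comm T).1 h.2.1)
        · exact not_Tt_of_Ee T hle h2 ((Tt_comm T).1 h.2.1)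
        · exact not_Tt_of_Ee T hle h3' h.2.2.2.1

/-- Section IV.7 -/
theorem compl {s : ℕ → ℝ} {N : ℕ} {V2 : V → Prop} (hs : Sc s) (hW : T.Wins s V2 450 N)
    {j : ℕ} (hij : 450 + 312 ≤ j) (hj : j ≤ N) {b₀ c c' x x' : V}
    (hb : V2 b₀) (hc : V2 c) (hc' : V2 c') (hx : V2 x) (hx' : V2 x')
    (hpi : T.pi c = T.pi c') (tc : T.Tt (s j) b₀ c) (tc' : T.Tt (s j) b₀ c')
    (xc : T.adj x c) (xc' : ¬ T.adj x c') (xb : ¬ T.adj x b₀)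
    (x'c' : T.adj x' c') (x'c : ¬ T.adj x' c) (x'b : ¬ T.adj x' b₀) : ¬ T.adj x x' := by
  obtain ⟨t, ht, hcl⟩ := clear_fin T hs ![b₀, c, c', x, x'] 450 12 (by norm_num)
  have hj' : 450 + 12 * (t + 1) ≤ j := by omega
  have hw : T.Win V2 (s (450 + 12 * (t + 1))) (s (450 + 12 * t)) :=
    hW _ _ (by omega) (by omega) (by omega)
  have hm : s j ≤ s (450 + 12 * (t + 1)) := hs.anti hj'
  have h0 : 0 ≤ s (450 + 12 * t) := (hs.pos _).le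
  have k1 : T.Clr (s (450 + 12 * (t + 1))) (s (450 + 12 * t)) x c := hcl 3 1
  have k2 : T.Clr (s (450 + 12 * (t + 1))) (s (450 + 12 * t)) x c' := hcl 3 2
  have k3 : T.Clr (s (450 + 12 * (t + 1))) (s (450 + 12 * t)) x b₀ := hcl 3 0
  have k4 : T.Clr (s (450 + 12 * (t + 1))) (s (450 + 12 * t)) x' c := hcl 4 1
  have k5 : T.Clr (s (450 + 12 * (t + 1))) (s (450 + 12 * t)) x' c' := hcl 4 2
  have k6 : T.Clr (s (450 + 12 * (t + 1))) (s (450 + 12 * t)) x' b₀ := hcl 4 0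
  have k7 : T.Clr (s (450 + 12 * (t + 1))) (s (450 + 12 * t)) x x' := hcl 3 4
  have tc1 := Tt_mono T hm tc
  have tc1' := Tt_mono T hm tc'
  obtain ⟨a1, a2, a3⟩ := Compl_aux T hw hb hc hc' hx hpi tc1 tc1' k1 k2 k3 xc xc' xb
  obtain ⟨b1, b2, b3⟩ := Compl_aux T hw hb hc' hc hx' hpi.symm tc1' tc1 k5 k4 k6 x'c' x'c x'b
  have h5 := P5 T hw hc hb hx hx' ((Tt_comm T).1 tc1) a1 b2 a3 b3 k7
  exact Ee_not_adj T h0 h5

/-- rearrangement of four factors -/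
def Compl_equiv (V : Type) : (V × V) × (V × V) ≃ V × V × V × V where
  toFun x := (x.1.1, x.2.1, x.1.2, x.2.2)
  invFun y := ((y.1, y.2.2.1), (y.2.1, y.2.2.2))
  left_inv x := rfl
  right_inv y := rfl

/-- density version -/
theorem compl_den {s : ℕ → ℝ} {N : ℕ} {V2 : V → Prop} (hs : Sc s) (hW : T.Wins s V2 450 N)
    {j : ℕ} (hij : 450 + 312 ≤ j) (hj : j ≤ N) {b₀ : V} (hb : V2 b₀) {δ₁ : ℝ} (hd : 0 ≤ δ₁) :
    den (fun y : V × V => V2 y.1 ∧ V2 y.2 ∧ T.pi y.1 = T.pi y.2 ∧ T.Tt (s j) b₀ y.1 ∧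
      T.Tt (s j) b₀ y.2 ∧ δ₁ < T.Dd V2 y.1 y.2 b₀ ∧ δ₁ < T.Dd V2 y.2 y.1 b₀) * δ₁ ^ 2 ≤
      dK2 T.adj := by
  have h1 : dK2 T.adj = den (fun x : (V × V) × (V × V) => K2 T.adj x.1.1 x.2.1 x.1.2 x.2.2) := by
    unfold dK2
    rw [← den_equiv (Compl_equiv V)
      (fun x : V × V × V × V => K2 T.adj x.1 x.2.1 x.2.2.1 x.2.2.2)]
    rfl
  rw [h1, mul_comm]
  refine le_trans (den_prod_ge (α := V × V) (β := V × V)
    (R := fun y x => K2 T.adj y.1 x.1 y.2 x.2) ?_) (den_mono fun x hx => hx.2)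
  rintro ⟨y, y'⟩ ⟨v1, v2, hp, t1, t2, d1, d2⟩
  dsimp only at v1 v2 hp t1 t2 d1 d2 ⊢
  have h2 : den (fun x : V × V => (V2 x.1 ∧ T.adj x.1 y ∧ ¬ T.adj x.1 y' ∧ ¬ T.adj x.1 b₀) ∧
      (V2 x.2 ∧ T.adj x.2 y' ∧ ¬ T.adj x.2 y ∧ ¬ T.adj x.2 b₀)) =
      T.Dd V2 y y' b₀ * T.Dd V2 y' y b₀ :=
    den_prod (fun x => V2 x ∧ T.adj x y ∧ ¬ T.adj x y' ∧ ¬ T.adj x b₀)
      (fun x => V2 x ∧ T.adj x y' ∧ ¬ T.adj x y ∧ ¬ T.adj x b₀)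
  calc δ₁ ^ 2 = δ₁ * δ₁ := by ring
    _ ≤ T.Dd V2 y y' b₀ * T.Dd V2 y' y b₀ := mul_le_mul d1.le d2.le hd (hd.trans d1.le)
    _ = _ := h2.symm
    _ ≤ _ := by
      apply den_mono
      rintro ⟨x, x'⟩ ⟨⟨a1, a2, a3, a4⟩, ⟨b1, b2, b3, b4⟩⟩
      dsimp only at a1 a2 a3 a4 b1 b2 b3 b4 ⊢
      refine ⟨(adj_comm T x y).1 a2, (adj_comm T x' y').1 b2, ?_, ?_, a3, ?_⟩
      · intro h; exact h.1 hp
      · intro h; exact b3 ((adj_comm T y x').1 h)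
      · exact compl T hs hW hij hj hb v1 v2 a1 b1 hp t1 t2 a2 a3 a4 b2 b3 b4

/-- Section IV.8: the exceptional set -/
theorem exc {s : ℕ → ℝ} {N : ℕ} {V2 : V → Prop} (hs : Sc s) (hW : T.Wins s V2 450 N)
    {j : ℕ} (hij : 450 + 312 ≤ j) (hj : j ≤ N) {b₀ : V} (hb : V2 b₀) {r : K}
    (hr : T.pi b₀ ≠ r) {δ₁ ξ : ℝ} (hd : 0 < δ₁) (hξ : 0 < ξ) (hδ : dK2 T.adj ≤ (ξ * δ₁) ^ 2) :
    den (fun c => T.Lset V2 (s j) b₀ r c ∧ den (T.Up V2 (s j) δ₁ b₀ c) < ξ) ≤ 3 * ξ := by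
  obtain ⟨E, hE⟩ : ∃ E : V → Prop,
      E = fun c => T.Lset V2 (s j) b₀ r c ∧ den (T.Up V2 (s j) δ₁ b₀ c) < ξ := ⟨_, rfl⟩
  rw [← hE]
  have hL : ∀ c, T.Lset V2 (s j) b₀ r c → V2 c ∧ T.Tt (s j) b₀ c := by
    rintro c ⟨h1, h2, h3, h4⟩
    refine ⟨h1, by rw [h2]; exact hr, ?_⟩
    rw [abs_le]
    exact ⟨h3, h4.trans (hs.pos j).le⟩
  have h1 : den (fun y : V × V => E y.1 ∧ E y.2) = den E * den E := den_prod E E
  have h2 : den (fun y : V × V => E y.1 ∧ T.Up V2 (s j) δ₁ b₀ y.1 y.2) ≤ ξ * den E := by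
    apply den_prod_le (R := fun a b => T.Up V2 (s j) δ₁ b₀ a b)
    intro a ha
    rw [hE] at ha
    exact ha.2.le
  have h3 : den (fun y : V × V => E y.2 ∧ T.Up V2 (s j) δ₁ b₀ y.2 y.1) ≤ ξ * den E := by
    rw [den_swap (fun a b => E b ∧ T.Up V2 (s j) δ₁ b₀ b a)]
    exact h2
  have h4 := compl_den T hs hW hij hj hb hd.le
  have h5 : den (fun y : V × V => V2 y.1 ∧ V2 y.2 ∧ T.pi y.1 = T.pi y.2 ∧ T.Tt (s j) b₀ y.1 ∧
      T.Tt (s j) b₀ y.2 ∧ δ₁ < T.Dd V2 y.1 y.2 b₀ ∧ δ₁ < T.Dd V2 y.2 y.1 b₀) ≤ ξ ^ 2 := by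
    have h6 := h4.trans hδ
    rw [mul_pow] at h6
    exact le_of_mul_le_mul_right h6 (by positivity)
  have h7 : den (fun y : V × V => E y.1 ∧ E y.2) ≤
      den (fun y : V × V => E y.1 ∧ T.Up V2 (s j) δ₁ b₀ y.1 y.2) +
      den (fun y : V × V => (E y.2 ∧ T.Up V2 (s j) δ₁ b₀ y.2 y.1) ∨
        (V2 y.1 ∧ V2 y.2 ∧ T.pi y.1 = T.pi y.2 ∧ T.Tt (s j) b₀ y.1 ∧
      T.Tt (s j) b₀ y.2 ∧ δ₁ < T.Dd V2 y.1 y.2 b₀ ∧ δ₁ < T.Dd V2 y.2 y.1 b₀)) := by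
    apply den_le_add
    rintro ⟨a, b⟩ ⟨ha, hb'⟩
    dsimp only at ha hb' ⊢
    have ha' := ha
    have hb'' := hb'
    rw [hE] at ha' hb''
    have pa : T.pi a = r := ha'.1.2.1
    have pb : T.pi b = r := hb''.1.2.1
    by_cases g1 : T.Dd V2 a b b₀ ≤ δ₁
    · left
      refine ⟨ha, ?_, g1⟩
      rw [pa]
      exact hb''.1
    · right
      by_cases g2 : T.Dd V2 b a b₀ ≤ δ₁
      · left
        refine ⟨hb', ?_, g2⟩
        rw [pb]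
        exact ha'.1
      · right
        exact ⟨(hL a ha'.1).1, (hL b hb''.1).1, pa.trans pb.symm, (hL a ha'.1).2,
          (hL b hb''.1).2, not_le.1 g1, not_le.1 g2⟩
  have h8 := den_or_le (fun y : V × V => E y.2 ∧ T.Up V2 (s j) δ₁ b₀ y.2 y.1)
    (fun y : V × V => V2 y.1 ∧ V2 y.2 ∧ T.pi y.1 = T.pi y.2 ∧ T.Tt (s j) b₀ y.1 ∧
      T.Tt (s j) b₀ y.2 ∧ δ₁ < T.Dd V2 y.1 y.2 b₀ ∧ δ₁ < T.Dd V2 y.2 y.1 b₀)
  have h9 : den E * den E ≤ 2 * ξ * den E + ξ ^ 2 := by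
    rw [← h1]
    linarith
  by_contra hcon
  push Not at hcon
  have h10 := den_nonneg E
  nlinarith

end Pool.Agent.IC4
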