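import Pool.Agent.IC4.Base

set_option autoImplicit false

namespace Pool.Agent.IC4

/-- complement relation -/
def crel {n : ℕ} (G : SimpleGraph (Fin n)) (u v : Fin n) : Prop := u ≠ v ∧ ¬ G.Adj u v

theorem conv_adj {n : ℕ} (G : SimpleGraph (Fin n)) {a b c d : Fin n}
    (h : K2 (crel G) a b c d) :
    G.Adj a c ∧ G.Adj a d ∧ G.Adj b c ∧ G.Adj b d ∧ ¬ G.Adj a b ∧ ¬ G.Adj c d ∧ a ≠ b ∧ c ≠ d := by
  obtain ⟨h1, h2, h3, h4, h5, h6⟩ := h
  obtain ⟨n1, e1⟩ := h1
  obtain ⟨n2, e2⟩ := h2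
  have k : ∀ {x y : Fin n}, ¬ crel G x y → x ≠ y → G.Adj x y := by
    intro x y hx hy
    by_contra hc
    exact hx ⟨hy, hc⟩
  have e1' : ¬ G.Adj b a := fun h => e1 h.symm
  have e2' : ¬ G.Adj d c := fun h => e2 h.symm
  have hac : a ≠ c := by
    intro h
    subst h
    exact h4 ⟨n2, e2⟩
  have had : a ≠ d := by
    intro h
    subst h
    exact h3 ⟨n2.symm, e2'⟩
  have hbc : b ≠ c := by
    intro h
    subst h
    exact h3 ⟨n1, e1⟩
  have hbd : b ≠ d := by
    intro h
    subst h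
    exact h4 ⟨n1, e1⟩
  exact ⟨k h3 hac, k h4 had, k h5 hbc, k h6 hbd, e1, e2, n1, n2⟩

/-- the embedding of the four-cycle -/
def convEmb {n : ℕ} (G : SimpleGraph (Fin n)) {a b c d : Fin n}
    (h : K2 (crel G) a b c d) : SimpleGraph.Embedding (SimpleGraph.cycleGraph 4) G where
  toFun := ![a, c, b, d]
  inj' := by
    obtain ⟨h1, h2, h3, h4, h5, h6, h7, h8⟩ := conv_adj G h
    have k1 := h1.ne
    have k2 := h2.ne
    have k3 := h3.ne
    have k4 := h4.ne
    intro i j hij
    fin_cases i <;> fin_cases j <;>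
      simp_all [eq_comm]
  map_rel_iff' := by
    obtain ⟨h1, h2, h3, h4, h5, h6, h7, h8⟩ := conv_adj G h
    have k1 := h1.symm
    have k2 := h2.symm
    have k3 := h3.symm
    have k4 := h4.symm
    have k5 : ¬ G.Adj b a := fun h => h5 h.symm
    have k6 : ¬ G.Adj d c := fun h => h6 h.symm
    intro i j
    fin_cases i <;> fin_cases j <;>
      simp [*, SimpleGraph.cycleGraph_adj'] <;> decide

/-- every induced `2K₂` of the complement is a labelled induced `C₄` -/
theorem conv1 {n : ℕ} (G : SimpleGraph (Fin n)) :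
    dK2 (crel G) * (n : ℝ) ^ 4 ≤
      (Nat.card (SimpleGraph.Embedding (SimpleGraph.cycleGraph 4) G) : ℝ) := by
  classical
  have hfin : Finite (SimpleGraph.Embedding (SimpleGraph.cycleGraph 4) G) :=
    Finite.of_injective (fun e => (e : Fin 4 → Fin n)) DFunLike.coe_injective
  let S : Type := {x : Fin n × Fin n × Fin n × Fin n // K2 (crel G) x.1 x.2.1 x.2.2.1 x.2.2.2}
  let f : S → SimpleGraph.Embedding (SimpleGraph.cycleGraph 4) G := fun x => convEmb G x.2
  have hf : Function.Injective f := by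
    intro x y hxy
    have h0 : f x 0 = f y 0 := by rw [hxy]
    have h1 : f x 1 = f y 1 := by rw [hxy]
    have h2 : f x 2 = f y 2 := by rw [hxy]
    have h3 : f x 3 = f y 3 := by rw [hxy]
    have e0 : x.1.1 = y.1.1 := h0
    have e1 : x.1.2.2.1 = y.1.2.2.1 := h1
    have e2 : x.1.2.1 = y.1.2.1 := h2
    have e3 : x.1.2.2.2 = y.1.2.2.2 := h3
    apply Subtype.ext
    exact Prod.ext e0 (Prod.ext e2 (Prod.ext e1 e3))
  have h1 : Nat.card S ≤ Nat.card (SimpleGraph.Embedding (SimpleGraph.cycleGraph 4) G) :=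
    Nat.card_le_card_of_injective f hf
  have h2 : dK2 (crel G) * (n : ℝ) ^ 4 ≤ (Nat.card S : ℝ) := by
    unfold dK2 den
    have hS : Nat.card S = (Finset.univ.filter (fun x : Fin n × Fin n × Fin n × Fin n =>
        K2 (crel G) x.1 x.2.1 x.2.2.1 x.2.2.2)).card := by
      rw [Nat.card_eq_fintype_card, Fintype.card_subtype]
    rw [hS]
    have hc : (Fintype.card (Fin n × Fin n × Fin n × Fin n) : ℝ) = (n : ℝ) ^ 4 := by
      simp only [Fintype.card_prod, Fintype.card_fin]
      push_cast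
      ring
    rw [hc]
    rcases Nat.eq_zero_or_pos n with h0 | h0
    · subst h0
      simp
    · have : (n : ℝ) ^ 4 ≠ 0 := by positivity
      rw [div_mul_cancel₀ _ this]
  exact h2.trans (by exact_mod_cast h1)

/-- the graph whose complement relation is `q` -/
def cgr {n : ℕ} (q : Fin n → Fin n → Prop) (hq : ∀ u v, q u v → q v u) : SimpleGraph (Fin n) where
  Adj u v := u ≠ v ∧ ¬ q u v
  symm := ⟨fun u v h => ⟨h.1.symm, fun h' => h.2 (hq v u h')⟩⟩
  loopless := ⟨fun u h => h.1 rfl⟩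

theorem conv2 {n : ℕ} (q : Fin n → Fin n → Prop) (hq : ∀ u v, q u v → q v u)
    (hf : ∀ a b c d, ¬ K2 q a b c d) :
    IsEmpty (SimpleGraph.Embedding (SimpleGraph.cycleGraph 4) (cgr q hq)) := by
  constructor
  intro e
  have hadj : ∀ i j : Fin 4, (SimpleGraph.cycleGraph 4).Adj i j ↔
      (e i ≠ e j ∧ ¬ q (e i) (e j)) := by
    intro i j
    exact (e.map_rel_iff' (a := i) (b := j)).symm
  have hne : ∀ i j : Fin 4, i ≠ j → e i ≠ e j := fun i j h h' => h (e.injective h')
  have hpos : ∀ i j : Fin 4, (SimpleGraph.cycleGraph 4).Adj i j → ¬ q (e i) (e j) :=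
    fun i j h => ((hadj i j).1 h).2
  have hneg : ∀ i j : Fin 4, i ≠ j → ¬ (SimpleGraph.cycleGraph 4).Adj i j → q (e i) (e j) := by
    intro i j hij h
    by_contra hc
    exact h ((hadj i j).2 ⟨hne i j hij, hc⟩)
  apply hf (e 0) (e 2) (e 1) (e 3)
  refine ⟨hneg 0 2 (by decide) (by decide), hneg 1 3 (by decide) (by decide),
    hpos 0 1 (by decide), hpos 0 3 (by decide), hpos 2 1 (by decide), hpos 2 3 (by decide)⟩

theorem conv3 {n : ℕ} (G : SimpleGraph (Fin n)) (q : Fin n → Fin n → Prop)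
    (hq : ∀ u v, q u v → q v u) (hi : ∀ u, ¬ q u u) :
    ((symmDiff G.edgeSet (cgr q hq).edgeSet).ncard : ℝ) ≤ dxor (crel G) q * (n : ℝ) ^ 2 := by
  classical
  set P : Fin n × Fin n → Prop := fun x => ¬ (crel G x.1 x.2 ↔ q x.1 x.2) with hP
  set T : Set (Fin n × Fin n) := {x | P x} with hT
  have hsub : symmDiff G.edgeSet (cgr q hq).edgeSet ⊆
      (fun x : Fin n × Fin n => s(x.1, x.2)) '' T := by
    intro e he
    induction e using Sym2.ind with
    | _ a b =>
      refine ⟨(a, b), ?_, rfl⟩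
      rw [Set.mem_symmDiff] at he
      simp only [SimpleGraph.mem_edgeSet] at he
      show P (a, b)
      simp only [hP]
      intro hiff
      rcases he with ⟨h1, h2⟩ | ⟨h1, h2⟩
      · have hne := h1.ne
        apply h2
        refine ⟨hne, fun hq' => ?_⟩
        exact (hiff.2 hq').2 h1
      · obtain ⟨hne, hnq⟩ := h1
        exact hnq (hiff.1 ⟨hne, h2⟩)
  have h1 : (symmDiff G.edgeSet (cgr q hq).edgeSet).ncard ≤ T.ncard :=
    (Set.ncard_le_ncard hsub (Set.toFinite _)).trans (Set.ncard_image_le (Set.toFinite _))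
  have h2 : (T.ncard : ℝ) ≤ dxor (crel G) q * (n : ℝ) ^ 2 := by
    unfold dxor den
    have hS : T.ncard = (Finset.univ.filter P).card := by
      rw [← Set.ncard_coe_finset]
      congr 1
      ext x
      simp [hT]
    rw [hS]
    have hc : (Fintype.card (Fin n × Fin n) : ℝ) = (n : ℝ) ^ 2 := by
      simp only [Fintype.card_prod, Fintype.card_fin]
      push_cast
      ring
    rw [hc]
    rcases Nat.eq_zero_or_pos n with h0 | h0
    · subst h0
      simp
    · have : (n : ℝ) ^ 2 ≠ 0 := by positivity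
      rw [div_mul_cancel₀ _ this]
      apply le_of_eq
      congr!
  exact le_trans (by exact_mod_cast h1) h2

end Pool.Agent.IC4
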