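import Pool.Agent.IC4.Trans

set_option autoImplicit false

namespace Pool.Agent.IC4

/-- Section IV.12 -/
theorem lf_of {V K : Type} [Fintype V] (T : TS V K) {s : ℕ → ℝ} {N : ℕ} {V2 S : V → Prop}
    {η δ₁ ξ : ℝ} (hs : Sc s) (hW : T.Wins s V2 450 N) (hN : 450 + 20280 * 17 + 1 ≤ N)
    (hη : η = s N) (R0 : Finset V) (hR0 : ∀ b ∈ R0, V2 b)
    (hnet : ∀ b, V2 b → ∀ r : K, ∃ b₀ ∈ R0, T.pi b₀ = T.pi b ∧ T.th b r ≤ T.th b₀ r ∧
        T.th b₀ r ≤ T.th b r + η / 8)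
    {c : V} (hc : V2 c)
    (hnotE : ∀ b₀ ∈ R0, ∀ t, t < 17 → T.pi b₀ ≠ T.pi c →
      ¬ (T.Lset V2 (s (450 + 20280 * (t + 1))) b₀ (T.pi c) c ∧
        den (T.Up V2 (s (450 + 20280 * (t + 1))) δ₁ b₀ c) < ξ))
    (hit : ∀ b₀ ∈ R0, ∀ t, t < 17 → ξ ≤ den (T.Up V2 (s (450 + 20280 * (t + 1))) δ₁ b₀ c) →
      ∃ z, S z ∧ T.Up V2 (s (450 + 20280 * (t + 1))) δ₁ b₀ c z)
    {t : ℕ} (ht : t < 17) {b : V} (hb : V2 b) (hpi : T.pi b ≠ T.pi c)
    (h1 : -(s (450 + 20280 * (t + 1))) ≤ T.M b c) (h2 : T.M b c ≤ -η) :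
    ∃ z, T.RawR V2 S δ₁ c b z := by
  obtain ⟨J, hJ⟩ : ∃ J, J = 450 + 20280 * (t + 1) := ⟨_, rfl⟩
  rw [← hJ] at h1
  have hJN : J ≤ N := by omega
  have hηJ : η ≤ s J := by
    rw [hη]
    exact hs.anti hJN
  have hη0 : 0 < η := by
    rw [hη]
    exact hs.pos N
  obtain ⟨b₀, hb₀, hpi₀, hle, hge⟩ := hnet b hb (T.pi c)
  have hM0 : T.M b₀ c = T.th b₀ (T.pi c) + T.th c (T.pi b) := by
    simp only [TS.M, hpi₀]
  have hMb : T.M b c = T.th b (T.pi c) + T.th c (T.pi b) := rfl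
  have hL : T.Lset V2 (s J) b₀ (T.pi c) c := by
    refine ⟨hc, rfl, ?_, ?_⟩
    · rw [hM0]
      rw [hMb] at h1
      linarith
    · rw [hM0]
      rw [hMb] at h2
      linarith
  have hpi' : T.pi b₀ ≠ T.pi c := by
    rw [hpi₀]
    exact hpi
  have hnE := hnotE b₀ hb₀ t ht hpi'
  rw [← hJ] at hnE
  have hden : ξ ≤ den (T.Up V2 (s J) δ₁ b₀ c) := by
    by_contra hlt
    exact hnE ⟨hL, not_le.1 hlt⟩
  have hit' := hit b₀ hb₀ t ht
  rw [← hJ] at hit'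
  obtain ⟨z, hzS, hzL, hzD⟩ := hit' hden
  obtain ⟨hz2, hzpi, hz1, hz3⟩ := hzL
  have hMz : T.M b₀ z = T.th b₀ (T.pi c) + T.th z (T.pi b) := by
    simp only [TS.M, hpi₀, hzpi]
  have hMbz : T.M b z = T.th b (T.pi c) + T.th z (T.pi b) := by
    simp only [TS.M, hzpi]
  have hMzb : T.M z b = T.th z (T.pi b) + T.th b (T.pi c) := by
    simp only [TS.M, hzpi]
  -- the window
  obtain ⟨j, hj⟩ : ∃ j, j + 1 = J := ⟨J - 1, by omega⟩
  have hsJ : s J ≤ s j / 16 := by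
    rw [← hj]
    exact hs.step j
  have hsJ0 : 0 < s J := hs.pos J
  have hsj0 : 0 < s j := hs.pos j
  have tbc : T.Tt (s j) b c := by
    refine ⟨hpi, ?_⟩
    rw [abs_le]
    constructor <;> linarith
  have tbz : T.Tt (s j) b z := by
    refine ⟨by rw [hzpi]; exact hpi, ?_⟩
    rw [abs_le, hMbz]
    rw [hMz] at hz1 hz3
    constructor <;> linarith
  have tb0c : T.Tt (s j) b₀ c := by
    refine ⟨hpi', ?_⟩
    rw [abs_le]
    have := hL.2.2.1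
    have := hL.2.2.2
    constructor <;> linarith
  have tb0z : T.Tt (s j) b₀ z := by
    refine ⟨by rw [hzpi]; exact hpi', ?_⟩
    rw [abs_le]
    constructor <;> linarith
  have ebb : T.Ee (s 450) b b₀ := Or.inl hpi₀.symm
  have ecz : T.Ee (s 450) c z := Or.inl hzpi.symm
  have htr := transfer_D T hs hW (i := 450) (j := j) le_rfl (by omega) (by omega)
    (a := b) (b := c) (c := b₀) (z := z) hb hc (hR0 b₀ hb₀) hz2 tbc tbz tb0c tb0z ebb ecz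
  refine ⟨z, hzS, hz2, hzpi, ?_, ?_⟩
  · rintro ⟨-, h⟩
    rw [hMzb] at h
    rw [hMz] at hz3
    linarith
  · rw [htr]
    exact hzD

end Pool.Agent.IC4
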