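import Pool.Agent.IC4.Base

set_option autoImplicit false

namespace Pool.Agent.IC4

open scoped Classical in
/-- the deterministic net `R₀` (section IV.8) -/
theorem net {V K : Type} [Fintype V] [Fintype K] (T : TS V K) (V2 : V → Prop) {η : ℝ}
    (h0 : 0 < η) (h1 : η ≤ 1) :
    ∃ R0 : Finset V, (∀ b ∈ R0, V2 b) ∧ (R0.card : ℝ) ≤ (Fintype.card K : ℝ) ^ 2 * (20 / η) ∧
      ∀ b, V2 b → ∀ r : K, ∃ b₀ ∈ R0, T.pi b₀ = T.pi b ∧ T.th b r ≤ T.th b₀ r ∧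
        T.th b₀ r ≤ T.th b r + η / 8 := by
  set n : ℕ := ⌊16 / η⌋₊ + 1 with hn
  have hstep : ∀ x : K × K × Fin n, ∃ o : Finset V, o.card ≤ 1 ∧ (∀ b ∈ o, V2 b) ∧
      ∀ b, V2 b → T.pi b = x.1 → ⌊8 * (T.th b x.2.1 + 1) / η⌋₊ = (x.2.2 : ℕ) →
        ∃ b₀ ∈ o, V2 b₀ ∧ T.pi b₀ = x.1 ∧ ⌊8 * (T.th b₀ x.2.1 + 1) / η⌋₊ = (x.2.2 : ℕ) ∧
          T.th b x.2.1 ≤ T.th b₀ x.2.1 := by
    intro x
    set F : Finset V := Finset.univ.filter (fun b => V2 b ∧ T.pi b = x.1 ∧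
      ⌊8 * (T.th b x.2.1 + 1) / η⌋₊ = (x.2.2 : ℕ)) with hF
    by_cases hne : F.Nonempty
    · obtain ⟨b₀, hb₀, hmax⟩ := Finset.exists_max_image F (fun b => T.th b x.2.1) hne
      have hb₀' := hb₀
      rw [hF, Finset.mem_filter] at hb₀'
      refine ⟨{b₀}, by simp, fun b hb => ?_, fun b hb1 hb2 hb3 => ?_⟩
      · rw [Finset.mem_singleton.1 hb]; exact hb₀'.2.1
      · refine ⟨b₀, by simp, hb₀'.2.1, hb₀'.2.2.1, hb₀'.2.2.2, hmax b ?_⟩
        rw [hF, Finset.mem_filter]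
        exact ⟨Finset.mem_univ _, hb1, hb2, hb3⟩
    · refine ⟨∅, by simp, by simp, fun b hb1 hb2 hb3 => ?_⟩
      exact absurd ⟨b, by rw [hF, Finset.mem_filter]; exact ⟨Finset.mem_univ _, hb1, hb2, hb3⟩⟩ hne
  choose g hg1 hg2 hg3 using hstep
  refine ⟨Finset.univ.biUnion g, fun b hb => ?_, ?_, fun b hb r => ?_⟩
  · obtain ⟨x, _, hx⟩ := Finset.mem_biUnion.1 hb
    exact hg2 x b hx
  · have hc : (Finset.univ.biUnion g).card ≤ Fintype.card K * (Fintype.card K * n) := by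
      refine Finset.card_biUnion_le.trans ?_
      refine (Finset.sum_le_card_nsmul _ _ 1 fun x _ => hg1 x).trans ?_
      rw [Finset.card_univ, Fintype.card_prod, Fintype.card_prod, Fintype.card_fin]
      simp
    have hn2 : (n : ℝ) ≤ 20 / η := by
      rw [hn]
      push_cast
      have h2 : (⌊16 / η⌋₊ : ℝ) ≤ 16 / η := Nat.floor_le (by positivity)
      have h3 : (1 : ℝ) ≤ 4 / η := by
        rw [le_div_iff₀ h0]; linarith
      have h4 : (20 : ℝ) / η = 16 / η + 4 / η := by rw [← add_div]; norm_num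
      rw [h4]
      exact add_le_add h2 h3
    calc ((Finset.univ.biUnion g).card : ℝ) ≤ ((Fintype.card K * (Fintype.card K * n) : ℕ) : ℝ) := by
          exact_mod_cast hc
      _ = (Fintype.card K : ℝ) ^ 2 * n := by push_cast; ring
      _ ≤ (Fintype.card K : ℝ) ^ 2 * (20 / η) := by gcongr
  · have hb1 := abs_le.1 (T.bd b r)
    have hpos : 0 ≤ 8 * (T.th b r + 1) / η := by
      apply div_nonneg _ h0.le
      linarith
    have hlt : ⌊8 * (T.th b r + 1) / η⌋₊ < n := by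
      rw [hn, Nat.lt_succ_iff]
      apply Nat.floor_le_floor
      apply div_le_div_of_nonneg_right _ h0.le
      linarith
    obtain ⟨b₀, hb₀, h2, h3, h4, h5⟩ := hg3 (T.pi b, r, ⟨_, hlt⟩) b hb rfl rfl
    refine ⟨b₀, Finset.mem_biUnion.2 ⟨_, Finset.mem_univ _, hb₀⟩, h3, h5, ?_⟩
    have e1 := Nat.lt_floor_add_one (8 * (T.th b₀ r + 1) / η)
    have e2 := Nat.floor_le hpos
    have e3 : (⌊8 * (T.th b₀ r + 1) / η⌋₊ : ℝ) = (⌊8 * (T.th b r + 1) / η⌋₊ : ℝ) := by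
      exact_mod_cast h4
    rw [e3] at e1
    have e4 : 8 * (T.th b₀ r + 1) / η < 8 * (T.th b r + 1) / η + 1 := by linarith
    rw [div_lt_iff₀ h0, add_mul, div_mul_cancel₀ _ h0.ne'] at e4
    linarith

end Pool.Agent.IC4
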