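import Pool.Agent.IC4.Base

set_option autoImplicit false

namespace Pool.Agent.IC4

variable {V K : Type} [Fintype V] (T : TS V K)

theorem RTB_adj_comm {u v : V} : T.adj u v ↔ T.adj v u := by
  unfold TS.adj TS.M
  rw [ne_comm, add_comm]

/-- Markov bounds for the three kinds of bad pairs of samples (section IV.9) -/
theorem bad1 {ρ : ℝ} (hρ : 0 < ρ) :
    ρ * den (fun w : V × V => T.adj w.1 w.2 ∧ ρ < den (fun x : V × V => T.adj x.1 x.2 ∧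
      ¬ T.adj w.1 x.1 ∧ ¬ T.adj w.1 x.2 ∧ ¬ T.adj w.2 x.1 ∧ ¬ T.adj w.2 x.2)) ≤ dK2 T.adj := by
  refine (den_prod_ge (R := fun w x : V × V => T.adj x.1 x.2 ∧
      ¬ T.adj w.1 x.1 ∧ ¬ T.adj w.1 x.2 ∧ ¬ T.adj w.2 x.1 ∧ ¬ T.adj w.2 x.2)
      (fun w hw => hw.2.le)).trans ?_
  rw [dK2, ← den_equiv (Equiv.prodAssoc V V (V × V))]
  refine den_mono ?_
  rintro ⟨⟨a, b⟩, ⟨c, d⟩⟩ ⟨⟨h1, _⟩, h2, h3, h4, h5, h6⟩
  exact ⟨h1, h2, h3, h4, h5, h6⟩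

theorem bad2 [Fintype K] {V2 : V → Prop} {ρ δ₁ : ℝ} (hρ : 0 < ρ) (hδ : 0 ≤ δ₁) :
    ρ * den (fun w : V × V => V2 w.2 ∧ ¬ T.adj w.2 w.1 ∧
      ρ < den (fun a => T.adj a w.2 ∧ T.Ip V2 δ₁ (T.pi w.2) a w.1)) ≤
      (Fintype.card K : ℝ) * δ₁ := by
  refine (den_prod_ge (R := fun (w : V × V) (a : V) => T.adj a w.2 ∧ T.Ip V2 δ₁ (T.pi w.2) a w.1)
      (fun w hw => hw.2.2.le)).trans ?_
  have h1 : den (fun x : (V × V) × V => (V2 x.1.2 ∧ ¬ T.adj x.1.2 x.1.1 ∧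
      ρ < den (fun a => T.adj a x.1.2 ∧ T.Ip V2 δ₁ (T.pi x.1.2) a x.1.1)) ∧
      (T.adj x.2 x.1.2 ∧ T.Ip V2 δ₁ (T.pi x.1.2) x.2 x.1.1)) ≤
      den (fun x : (V × V) × V => (fun (w : V × V) (z : V) => ∃ p : K, T.pi z = p ∧ V2 z ∧
        ¬ T.adj z w.1 ∧ T.adj z w.2 ∧ T.Ip V2 δ₁ p w.2 w.1) x.1 x.2) := by
    let e : (V × V) × V ≃ (V × V) × V :=
      { toFun := fun x => ((x.1.1, x.2), x.1.2)
        invFun := fun x => ((x.1.1, x.2), x.1.2)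
        left_inv := fun x => rfl
        right_inv := fun x => rfl }
    rw [← den_equiv e (fun x : (V × V) × V => (fun (w : V × V) (z : V) => ∃ p : K, T.pi z = p ∧
      V2 z ∧ ¬ T.adj z w.1 ∧ T.adj z w.2 ∧ T.Ip V2 δ₁ p w.2 w.1) x.1 x.2)]
    refine den_mono ?_
    rintro ⟨⟨y, z⟩, a⟩ ⟨⟨h1, h2, _⟩, h3, h4⟩
    exact ⟨T.pi z, rfl, h1, h2, (RTB_adj_comm T).1 h3, h4⟩
  refine h1.trans ?_
  have h2 : ∀ w : V × V, den (fun z : V => ∃ p : K, T.pi z = p ∧ V2 z ∧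
        ¬ T.adj z w.1 ∧ T.adj z w.2 ∧ T.Ip V2 δ₁ p w.2 w.1) ≤ (Fintype.card K : ℝ) * δ₁ := by
    intro w
    refine den_exists_le_card _ _ fun p => ?_
    by_cases h : T.Ip V2 δ₁ p w.2 w.1
    · refine le_trans (den_mono ?_) h
      rintro z ⟨h1, h2, h3, h4, _⟩
      exact ⟨h2, h1, h4, h3⟩
    · rw [den_eq_zero]
      · exact hδ
      · rintro z ⟨_, _, _, _, h5⟩
        exact h h5
  have h3 := den_prod_le' (P := fun _ : V × V => True) (R := fun (w : V × V) (z : V) => ∃ p : K,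
    T.pi z = p ∧ V2 z ∧ ¬ T.adj z w.1 ∧ T.adj z w.2 ∧ T.Ip V2 δ₁ p w.2 w.1)
    (c := (Fintype.card K : ℝ) * δ₁) (by positivity) (fun w _ => h2 w)
  exact (den_mono fun x hx => ⟨trivial, hx⟩).trans h3

theorem bad3 {ρ : ℝ} (hρ : 0 < ρ) :
    ρ * den (fun w : V × V => ¬ T.adj w.1 w.2 ∧ ρ < den (fun x : V × V => T.adj x.1 w.1 ∧
      ¬ T.adj x.1 w.2 ∧ T.adj x.2 w.2 ∧ ¬ T.adj x.2 w.1 ∧ ¬ T.adj x.1 x.2)) ≤ dK2 T.adj := by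
  refine (den_prod_ge (R := fun w x : V × V => T.adj x.1 w.1 ∧
      ¬ T.adj x.1 w.2 ∧ T.adj x.2 w.2 ∧ ¬ T.adj x.2 w.1 ∧ ¬ T.adj x.1 x.2)
      (fun w hw => hw.2.le)).trans ?_
  let e : (V × V) × (V × V) ≃ V × V × V × V :=
    { toFun := fun x => (x.2.1, x.1.1, x.2.2, x.1.2)
      invFun := fun x => ((x.2.1, x.2.2.2), (x.1, x.2.2.1))
      left_inv := fun x => rfl
      right_inv := fun x => rfl }
  rw [dK2, ← den_equiv e]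
  refine den_mono ?_
  rintro ⟨⟨z, y⟩, ⟨a, c⟩⟩ ⟨⟨h1, _⟩, h2, h3, h4, h5, h6⟩
  exact ⟨h2, h4, h6, h3, fun h => h5 ((RTB_adj_comm T).1 h), h1⟩

end Pool.Agent.IC4
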