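import Pool.Agent.IC4.Base

set_option autoImplicit false

namespace Pool.Agent.IC4

/-- the marginal of two different coordinates is uniform -/
theorem Samp_pair {V : Type} [Fintype V] [Nonempty V] (Bad : V → V → Prop) {m : ℕ} {i j : Fin m}
    (hij : i ≠ j) :
    den (fun f : Fin m → V => Bad (f i) (f j)) = den (fun x : V × V => Bad x.1 x.2) := by
  let W := {k : {k : Fin m // k ≠ i} // k ≠ ⟨j, hij.symm⟩} → V
  let e : (Fin m → V) ≃ (V × V) × W :=
    (Equiv.funSplitAt i V).trans (((Equiv.refl V).prodCongr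
      (Equiv.funSplitAt (⟨j, hij.symm⟩ : {k : Fin m // k ≠ i}) V)).trans
      (Equiv.prodAssoc V V W).symm)
  have h1 := den_equiv e (fun x : (V × V) × W => Bad x.1.1 x.1.2 ∧ True)
  have h2 := den_prod (fun x : V × V => Bad x.1 x.2) (fun _ : W => True)
  rw [den_true, mul_one] at h2
  rw [← h2, ← h1]
  refine den_congr fun f => ?_
  simp [e, Equiv.funSplitAt, Equiv.piSplitAt]

open scoped Classical in
/-- all coordinates miss a set -/
theorem Samp_miss {V : Type} [Fintype V] [Nonempty V] (P : V → Prop) (m : ℕ) :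
    den (fun f : Fin m → V => ∀ i, ¬ P (f i)) = (1 - den P) ^ m := by
  have h1 := den_compl P
  have h2 : 1 - den P = den (fun a => ¬ P a) := by linarith
  rw [h2]
  unfold den
  rw [div_pow]
  have h3 : (@Finset.filter (Fin m → V) (fun f => ∀ i, ¬ P (f i))
      (fun _ => Classical.propDecidable _) Finset.univ) =
      Fintype.piFinset (fun _ : Fin m => Finset.univ.filter (fun a => ¬ P a)) := by
    ext f
    simp [Fintype.mem_piFinset]
  rw [h3, Fintype.card_piFinset]
  simp only [Finset.prod_const, Finset.card_univ, Fintype.card_fin, Fintype.card_pi]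
  push_cast
  congr!

/-- abstract sampling lemma (section IV.9) -/
theorem samp {V : Type} [Fintype V] [Nonempty V] {J : Type} [Fintype J]
    (Bad : V → V → Prop) (U : J → V → V → Prop) (m : ℕ) {ξ β ω : ℝ} (hξ : 0 < ξ) (hω : 0 < ω)
    (hBad : den (fun x : V × V => Bad x.1 x.2) ≤ β) (h1 : (m : ℝ) ^ 2 * β < 1 / 2)
    (h2 : (Fintype.card J : ℝ) ≤ m * ξ * ω / 2) (hm : 0 < m) :
    ∃ f : Fin m → V, (∀ i j, i ≠ j → ¬ Bad (f i) (f j)) ∧
      den (fun c => ∃ j, ξ ≤ den (U j c) ∧ ∀ i, ¬ U j c (f i)) ≤ ω := by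
  have hmR : (0 : ℝ) < m := by exact_mod_cast hm
  -- bad pairs
  have hA : den (fun f : Fin m → V => ∃ x : Fin m × Fin m, x.1 ≠ x.2 ∧ Bad (f x.1) (f x.2)) ≤
      (m : ℝ) ^ 2 * β := by
    have hβ : 0 ≤ β := (den_nonneg _).trans hBad
    have h3 := den_exists_le_card (α := Fin m → V) (fun (x : Fin m × Fin m) f =>
      x.1 ≠ x.2 ∧ Bad (f x.1) (f x.2)) β (fun x => by
        by_cases hx : x.1 = x.2
        · rw [den_eq_zero (fun f hf => hf.1 hx)]
          exact hβ
        · refine le_trans (den_mono fun f hf => hf.2) ?_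
          rw [Samp_pair Bad hx]
          exact hBad)
    refine h3.trans (le_of_eq ?_)
    rw [Fintype.card_prod, Fintype.card_fin]
    push_cast
    ring
  -- missed sets
  have hmiss : ∀ (c : V) (j : J), den (fun f : Fin m → V => ξ ≤ den (U j c) ∧
      ∀ i, ¬ U j c (f i)) ≤ 1 / (m * ξ) := by
    intro c j
    by_cases hx : ξ ≤ den (U j c)
    · refine le_trans (den_mono fun f hf => hf.2) ?_
      rw [Samp_miss (U j c) m]
      have h3 : 0 ≤ 1 - den (U j c) := by linarith [den_le_one (U j c)]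
      have h4 : 1 - den (U j c) ≤ Real.exp (-ξ) := by
        have := Real.one_sub_le_exp_neg ξ
        linarith
      calc (1 - den (U j c)) ^ m ≤ (Real.exp (-ξ)) ^ m := pow_le_pow_left₀ h3 h4 m
        _ = Real.exp (-(m * ξ)) := by rw [← Real.exp_nat_mul]; congr 1; ring
        _ = 1 / Real.exp (m * ξ) := by rw [Real.exp_neg, one_div]
        _ ≤ 1 / (m * ξ) := by
          have h5 := Real.add_one_le_exp (m * ξ)
          apply one_div_le_one_div_of_le (by positivity)
          linarith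
    · rw [den_eq_zero (fun f hf => hx hf.1)]
      positivity
  have hB : den (fun x : (Fin m → V) × V => ∃ j, ξ ≤ den (U j x.2) ∧
      ∀ i, ¬ U j x.2 (x.1 i)) ≤ ω / 2 := by
    rw [den_swap (fun (f : Fin m → V) (c : V) => ∃ j, ξ ≤ den (U j c) ∧ ∀ i, ¬ U j c (f i))]
    have h3 := den_prod_le' (P := fun _ : V => True) (R := fun (c : V) (f : Fin m → V) =>
      ∃ j, ξ ≤ den (U j c) ∧ ∀ i, ¬ U j c (f i)) (c := ω / 2) (by positivity) (fun c _ => by
        refine (den_exists_le_card _ _ (hmiss c)).trans ?_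
        have h4 : (Fintype.card J : ℝ) * (1 / (m * ξ)) ≤ (m * ξ * ω / 2) * (1 / (m * ξ)) := by
          gcongr
        refine h4.trans (le_of_eq ?_)
        field_simp)
    exact (den_mono fun x hx => ⟨trivial, hx⟩).trans h3
  have hC := den_markov (fun (f : Fin m → V) (c : V) => ∃ j, ξ ≤ den (U j c) ∧
    ∀ i, ¬ U j c (f i)) ω
  have hC2 : den (fun f : Fin m → V => ω ≤ den (fun c => ∃ j, ξ ≤ den (U j c) ∧
      ∀ i, ¬ U j c (f i))) ≤ 1 / 2 := by
    have h3 := hC.trans hB
    by_contra hcon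
    push Not at hcon
    nlinarith
  have hD := den_or_le (fun f : Fin m → V => ∃ x : Fin m × Fin m, x.1 ≠ x.2 ∧
    Bad (f x.1) (f x.2)) (fun f : Fin m → V => ω ≤ den (fun c => ∃ j, ξ ≤ den (U j c) ∧
      ∀ i, ¬ U j c (f i)))
  have hE := den_compl (fun f : Fin m → V => (∃ x : Fin m × Fin m, x.1 ≠ x.2 ∧
    Bad (f x.1) (f x.2)) ∨ ω ≤ den (fun c => ∃ j, ξ ≤ den (U j c) ∧
      ∀ i, ¬ U j c (f i)))
  obtain ⟨f, hf⟩ := den_exists_of_pos (P := fun f : Fin m → V => ¬ ((∃ x : Fin m × Fin m,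
    x.1 ≠ x.2 ∧ Bad (f x.1) (f x.2)) ∨ ω ≤ den (fun c => ∃ j, ξ ≤ den (U j c) ∧
      ∀ i, ¬ U j c (f i)))) (by linarith)
  push Not at hf
  refine ⟨f, fun i j hij => hf.1 (i, j) hij, hf.2.le⟩

end Pool.Agent.IC4
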