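import Pool.Agent.IC4.Tri
import Pool.Agent.IC4.Clear

set_option autoImplicit false

namespace Pool.Agent.IC4

/-- Section IV.4 -/
theorem uniq {V K : Type} [Fintype V] (T : TS V K) {s : ℕ → ℝ} {N : ℕ}
    {V1 : V → Prop} (hC : T.Ctx s N V1) (hN : 450 ≤ N) {a b c a' b' c' : V}
    (ha : V1 a) (hb : V1 b) (hc : V1 c) (ha' : V1 a') (hb' : V1 b') (hc' : V1 c')
    (pa : T.pi a' = T.pi a) (pb : T.pi b' = T.pi b) (pc : T.pi c' = T.pi c)
    (tab : T.Tt (s 450) a b) (tbc : T.Tt (s 450) b c) (tac : T.Tt (s 450) a c)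
    (tab' : T.Tt (s 450) a' b') (tbc' : T.Tt (s 450) b' c') (tac' : T.Tt (s 450) a' c')
    (hgap : T.th a (T.pi b) + s 1 ≤ T.th a' (T.pi b)) : False := by
  have hs : Sc s := hC.1
  obtain ⟨t, ht, hclr⟩ := clear_fin T hs (![a, b, c, a', b', c'] : Fin 6 → V) 2 12 (by norm_num)
  have ei : 2 + 12 * (t + 1) = (2 + 12 * t) + 12 := by ring
  rw [ei] at hclr
  generalize hi : 2 + 12 * t = i at hclr
  have hi2 : 2 ≤ i := by omega
  have hi450 : i + 12 ≤ 450 := by omega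
  have hiN : i + 12 ≤ N := hi450.trans hN
  have slo0 : 0 < s (i + 12) := hs.pos _
  have shi0 : 0 < s i := hs.pos _
  have s450 : s 450 ≤ s (i + 12) := hs.anti hi450
  have s4500 : 0 < s 450 := hs.pos _
  have shi1 : s i ≤ s 1 / 16 := hs.step' (by omega)
  have slohi : s (i + 12) ≤ s i / 256 := hs.step2 (by omega)
  have lohi : s (i + 12) ≤ s i := by linarith
  -- low tight triangle
  have Tab : T.Tt (s (i + 12)) a b := Tt_mono T s450 tab
  have Tbc : T.Tt (s (i + 12)) b c := Tt_mono T s450 tbc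
  have Tac : T.Tt (s (i + 12)) a c := Tt_mono T s450 tac
  obtain ⟨nab, mab⟩ := tab
  obtain ⟨nbc, mbc⟩ := tbc
  obtain ⟨nac, mac⟩ := tac
  obtain ⟨nab', mab'⟩ := tab'
  obtain ⟨nbc', mbc'⟩ := tbc'
  obtain ⟨nac', mac'⟩ := tac'
  rw [abs_le] at mab mbc mac mab' mbc' mac'
  simp only [TS.M] at mab mbc mac mab' mbc' mac'
  rw [pa, pb] at mab'
  rw [pb, pc] at mbc'
  rw [pa, pc] at mac'
  -- a' b is F
  have Fa'b : T.Ff (s i) a' b := by
    refine ⟨by rw [pa]; exact nab, ?_⟩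
    simp only [TS.M]
    rw [pa]
    linarith [mab.1]
  have Eab' : T.Ee (s i) b' a := by
    right
    simp only [TS.M]
    rw [pb]
    linarith [mab'.2]
  have Ea'a : T.Ee (s i) a' a := Ee_of_pi T pa
  have Eb'b : T.Ee (s i) b' b := Ee_of_pi T pb
  have Ec'c : T.Ee (s i) c' c := Ee_of_pi T pc
  have nTF : ∀ {u v : V}, T.Ff (s i) u v → ¬ T.Tt (s (i + 12)) u v :=
    fun h => not_Tt_of_Ff T lohi h
  have nTE : ∀ {u v : V}, T.Ee (s i) u v → ¬ T.Tt (s (i + 12)) u v :=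
    fun h => not_Tt_of_Ee T lohi h
  have Tcb : T.Tt (s (i + 12)) c b := (Tt_comm T).1 Tbc
  -- a' c is F
  have Fa'c : T.Ff (s i) a' c := by
    have h := hclr 3 2
    simp at h
    rcases h with h | h | h
    · exact (tri T hC hiN ha hc hb ha' Tac Tcb Tab (Or.inr Fa'b) (Or.inr Ea'a) (Or.inl h)
        (fun x => nTF Fa'b x.1) (fun x => nTF Fa'b x.1) (fun x => nTE Ea'a x.1)).elim
    · exact (tri T hC hiN ha hc hb ha' Tac Tcb Tab (Or.inr Fa'b) (Or.inr Ea'a) (Or.inr h)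
        (fun x => nTF Fa'b x.1) (fun x => nTF Fa'b x.1) (fun x => nTE Ea'a x.1)).elim
    · exact h
  have Eb'c : T.Ee (s i) b' c := by
    have h := hclr 4 2
    simp at h
    rcases h with h | h | h
    · exact (tri T hC hiN ha hb hc hb' Tab Tbc Tac (Or.inl h) (Or.inr Eab') (Or.inr Eb'b)
        (fun x => nTE Eab' x.2) (fun x => nTE Eb'b x.2) (fun x => nTE Eab' x.1)).elim
    · exact h
    · exact (tri T hC hiN ha hb hc hb' Tab Tbc Tac (Or.inr h) (Or.inr Eab') (Or.inr Eb'b)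
        (fun x => nTE Eab' x.2) (fun x => nTE Eb'b x.2) (fun x => nTE Eab' x.1)).elim
  have mFa'c := Fa'c.2
  simp only [TS.M] at mFa'c
  rw [pa] at mFa'c
  have mEb'c : T.M b' c < - s i := by
    rcases Eb'c with h | h
    · exact absurd (pb.symm.trans h) nbc
    · exact h
  simp only [TS.M] at mEb'c
  rw [pb] at mEb'c
  have Ec'a : T.Ee (s i) c' a := by
    have h := hclr 5 0
    simp at h
    have hM : T.M c' a < - s (i + 12) := by
      simp only [TS.M]
      rw [pc]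
      linarith [mac.2, mac'.2]
    rcases h with h | h | h
    · have := (abs_le.1 h.2).1
      linarith
    · exact h
    · have := h.2
      linarith
  have Fc'b : T.Ff (s i) c' b := by
    have h := hclr 5 1
    simp at h
    have hM : s (i + 12) < T.M c' b := by
      simp only [TS.M]
      rw [pc]
      linarith [mbc.1, mbc'.1]
    rcases h with h | h | h
    · have := (abs_le.1 h.2).2
      linarith
    · rcases h with h | h
      · exact absurd (h.symm.trans pc) nbc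
      · linarith
    · exact h
  exact tri T hC hiN ha hc hb hc' Tac Tcb Tab (Or.inr Fc'b) (Or.inr Ec'a) (Or.inr Ec'c)
    (fun x => nTF Fc'b x.1) (fun x => nTF Fc'b x.1) (fun x => nTE Ec'a x.1)

/-- the tier `V2` -/
theorem tier2 {V K : Type} [Fintype V] [Fintype K] (T : TS V K) {s : ℕ → ℝ} {N : ℕ}
    {V1 : V → Prop} (hC : T.Ctx s N V1) (hN : 450 ≤ N)
    (hn : 1 / (Fintype.card V : ℝ) ≤ s 1) :
    ∃ V2 : V → Prop, (∀ u, V2 u → V1 u) ∧ T.TF V2 (s 450) ∧
      den (fun u => V1 u ∧ ¬ V2 u) ≤ (Fintype.card K : ℝ) ^ 3 * (2 * s 1) := by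
  classical
  have hs : Sc s := hC.1
  have s10 : 0 < s 1 := hs.pos 1
  refine ⟨fun u => V1 u ∧ ¬ ∃ b c, V1 b ∧ V1 c ∧ T.Tt (s 450) u b ∧ T.Tt (s 450) b c ∧
    T.Tt (s 450) u c, fun u h => h.1, ?_, ?_⟩
  · intro a b c ha hb hc h
    exact ha.2 ⟨b, c, hb.1, hc.1, h.1, h.2.1, h.2.2⟩
  · let P : K × K × K → V → Prop := fun q a => V1 a ∧ T.pi a = q.1 ∧ ∃ b c, V1 b ∧ V1 c ∧
      T.pi b = q.2.1 ∧ T.pi c = q.2.2 ∧ T.Tt (s 450) a b ∧ T.Tt (s 450) b c ∧ T.Tt (s 450) a c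
    have key : ∀ q, den (P q) ≤ 2 * s 1 := by
      rintro ⟨A, B, C⟩
      by_cases hne : ∃ a, P (A, B, C) a
      · obtain ⟨a₁, ha₁⟩ := hne
        obtain ⟨a, ha, hmin⟩ := Finset.exists_min_image
          (Finset.univ.filter (P (A, B, C))) (fun a => T.th a B)
          ⟨a₁, Finset.mem_filter.2 ⟨Finset.mem_univ _, ha₁⟩⟩
        have ha2 : P (A, B, C) a := (Finset.mem_filter.1 ha).2
        obtain ⟨hVa, hpa, b, c, hVb, hVc, hpb, hpc, h1, h2, h3⟩ := ha2
        simp only at hpa hpb hpc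
        have hAB : A ≠ B := by
          rw [← hpa, ← hpb]; exact h1.1
        refine (den_mono (Q := fun u => T.pi u = A ∧ T.th a B ≤ T.th u B ∧
          T.th u B ≤ T.th a B + s 1) ?_).trans ((T.sp A B hAB (T.th a B) (s 1) s10.le).trans
            (by linarith))
        intro u hu
        have hmu := hmin u (Finset.mem_filter.2 ⟨Finset.mem_univ _, hu⟩)
        obtain ⟨hVu, hpu, b', c', hVb', hVc', hpb', hpc', h1', h2', h3'⟩ := hu
        simp only at hpu hpb' hpc'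
        refine ⟨hpu, hmu, ?_⟩
        by_contra hcon
        push Not at hcon
        refine uniq T hC hN hVa hVb hVc hVu hVb' hVc' (hpu.trans hpa.symm)
          (hpb'.trans hpb.symm) (hpc'.trans hpc.symm) h1 h2 h3 h1' h2' h3' ?_
        rw [hpb]
        exact hcon.le
      · push Not at hne
        rw [den_eq_zero hne]
        linarith
    have hsub : den (fun u => V1 u ∧ ¬ (V1 u ∧ ¬ ∃ b c, V1 b ∧ V1 c ∧ T.Tt (s 450) u b ∧
        T.Tt (s 450) b c ∧ T.Tt (s 450) u c)) ≤ den (fun a => ∃ q, P q a) := by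
      apply den_mono
      rintro u ⟨h1, h2⟩
      have h3 : ∃ b c, V1 b ∧ V1 c ∧ T.Tt (s 450) u b ∧ T.Tt (s 450) b c ∧ T.Tt (s 450) u c := by
        by_contra hcon
        exact h2 ⟨h1, hcon⟩
      obtain ⟨b, c, hb, hc, h4, h5, h6⟩ := h3
      exact ⟨(T.pi u, T.pi b, T.pi c), h1, rfl, b, c, hb, hc, rfl, rfl, h4, h5, h6⟩
    refine hsub.trans ((den_exists_le_card P (2 * s 1) key).trans (le_of_eq ?_))
    rw [Fintype.card_prod, Fintype.card_prod]
    push_cast
    ring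

end Pool.Agent.IC4
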