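import Pool.Agent.IC4.Tier
import Pool.Agent.IC4.Uniq
import Pool.Agent.IC4.Compl
import Pool.Agent.IC4.Net
import Pool.Agent.IC4.Samp
import Pool.Agent.IC4.RTB
import Pool.Agent.IC4.ClsB
import Pool.Agent.IC4.LFM

set_option autoImplicit false

namespace Pool.Agent.IC4

/-- numerical facts about `η` -/
theorem SetupE_num {h η kk : ℝ} (h0 : 0 < h) (h1 : h ≤ 1 / 2) (_hη0 : 0 < η) (hη : η ≤ h ^ 20)
    (hk0 : 0 ≤ kk) (hk : kk ≤ 1 / h) :
    η ≤ 1 / 1048576 ∧ kk ^ 7 * η ≤ 1 ∧ kk ^ 3 * η ≤ 1 ∧ kk ^ 2 * η ≤ 1 ∧ kk * η ≤ 1 ∧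
      kk ^ 3 * h ^ 3 ≤ 1 := by
  have hkh : kk * h ≤ 1 := by
    calc kk * h ≤ 1 / h * h := mul_le_mul_of_nonneg_right hk h0.le
      _ = 1 := by field_simp
  have hkh0 : 0 ≤ kk * h := by positivity
  have hpow : ∀ j : ℕ, kk ^ j * h ^ j ≤ 1 := fun j => by
    rw [← mul_pow]; exact pow_le_one₀ hkh0 hkh
  have hle : ∀ j : ℕ, j ≤ 20 → kk ^ j * η ≤ 1 := fun j hj => by
    have h2 : η ≤ h ^ j := hη.trans (pow_le_pow_of_le_one h0.le (by linarith) hj)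
    exact (mul_le_mul_of_nonneg_left h2 (by positivity)).trans (hpow j)
  refine ⟨?_, hle 7 (by norm_num), hle 3 (by norm_num), hle 2 (by norm_num), ?_, hpow 3⟩
  · calc η ≤ h ^ 20 := hη
      _ ≤ (1 / 2) ^ 20 := pow_le_pow_left₀ h0.le h1 20
      _ = 1 / 1048576 := by norm_num
  · simpa using hle 1 (by norm_num)

theorem SetupE_pow {η : ℝ} (hη0 : 0 < η) (hη1 : η ≤ 1) {a b : ℕ} (hab : a ≤ b) :
    η ^ b ≤ η ^ a := pow_le_pow_of_le_one hη0.le hη1 hab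

/-- existence of the setup. Parameters (`η = sc h N`): `ξ = η^7`, `ω = η`, `m = ⌈η^(-13)⌉`,
`γ = η^133`, `ρ = η^540`, `δ₁ = η^600`. -/
theorem setup_exists {h : ℝ} (h0 : 0 < h) (h1 : h ≤ 1 / 2) {N : ℕ}
    (hN : 450 + 20280 * 17 + 1 ≤ N) {V K : Type} [Fintype V] [Fintype K] (T : TS V K)
    (hK : (Fintype.card K : ℝ) ≤ 1 / h) (hd : dK2 T.adj ≤ (sc h N) ^ 1300)
    (hn : 1 / (Fintype.card V : ℝ) ≤ (sc h N) ^ 325) (hV : Nonempty V) :
    ∃ (V2 V3 Vg S : V → Prop) (η δ₁ γ ρ : ℝ), T.Setup (sc h) N V2 V3 Vg S η δ₁ γ ρ ∧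
      den (fun u => ¬ Vg u) ≤ h ^ 3 := by
  classical
  have hs : Sc (sc h) := sc_Sc h0 h1
  have hNe : ∃ η, η = sc h N := ⟨_, rfl⟩
  obtain ⟨η, hηdef⟩ := hNe
  have hη0 : 0 < η := by rw [hηdef]; exact hs.pos N
  have hη20 : η ≤ h ^ 20 := by rw [hηdef]; exact hs.anti (Nat.zero_le N)
  rw [← hηdef] at hd hn
  obtain ⟨kk, hkk⟩ : ∃ kk : ℝ, kk = (Fintype.card K : ℝ) := ⟨_, rfl⟩
  have hkk0 : 0 ≤ kk := by rw [hkk]; positivity
  rw [← hkk] at hK
  obtain ⟨n1, n2, n3, n4, n5, n6⟩ := SetupE_num h0 h1 hη0 hη20 hkk0 hK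
  have hη1 : η ≤ 1 := by linarith
  have pw : ∀ {a b : ℕ}, a ≤ b → η ^ b ≤ η ^ a := fun hab => SetupE_pow hη0 hη1 hab
  have pw1 : ∀ {b : ℕ}, 1 ≤ b → η ^ b ≤ η := fun hb => by simpa using pw hb
  -- tiers
  have hn1 : 1 / (Fintype.card V : ℝ) ≤ sc h N := by
    rw [← hηdef]; exact hn.trans (pw1 (by norm_num))
  obtain ⟨V1, -, hNE1, hd1⟩ := tier T h0 h1 (by rw [← hkk]; exact hK) N hn1 (fun _ => True)
  have hdlt : dK2 T.adj < (sc h N) ^ 4 := by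
    rw [← hηdef]
    refine hd.trans_lt ?_
    have h5 : η ^ 1300 ≤ η ^ 5 := pw (by norm_num)
    have h6 : η ^ 5 < η ^ 4 := by
      have : η ^ 5 = η ^ 4 * η := by ring
      rw [this]
      have h4 : 0 < η ^ 4 := by positivity
      nlinarith
    linarith
  have hC : T.Ctx (sc h) N V1 := ⟨hs, hNE1, hdlt⟩
  obtain ⟨V2, h21, hTF, hd2⟩ := tier2 T hC (by omega) (hn1.trans (hs.anti (by omega)))
  obtain ⟨V3, h32, hNE3, hd3⟩ := tier T h0 h1 (by rw [← hkk]; exact hK) N hn1 V2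
  have hW : T.Wins (sc h) V2 450 N := wins_of_ctx T hC h21 hTF
  obtain ⟨R0, hR0, hR0c, hnet⟩ := net T V2 hη0 hη1
  rw [← hkk] at hR0c
  -- parameters
  obtain ⟨ξ, hξ⟩ : ∃ ξ : ℝ, ξ = η ^ 7 := ⟨_, rfl⟩
  obtain ⟨γ, hγ⟩ : ∃ γ : ℝ, γ = η ^ 133 := ⟨_, rfl⟩
  obtain ⟨ρ, hρ⟩ : ∃ ρ : ℝ, ρ = η ^ 540 := ⟨_, rfl⟩
  obtain ⟨δ₁, hδ₁⟩ : ∃ δ₁ : ℝ, δ₁ = η ^ 600 := ⟨_, rfl⟩
  have hξ0 : 0 < ξ := by rw [hξ]; positivity
  have hγ0 : 0 < γ := by rw [hγ]; positivity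
  have hρ0 : 0 < ρ := by rw [hρ]; positivity
  have hδ0 : 0 < δ₁ := by rw [hδ₁]; positivity
  obtain ⟨m, hm⟩ : ∃ m : ℕ, m = ⌈1 / η ^ 13⌉₊ := ⟨_, rfl⟩
  have hm1 : 1 / η ^ 13 ≤ (m : ℝ) := by rw [hm]; exact Nat.le_ceil _
  have hm2 : (m : ℝ) ≤ 1 / η ^ 13 + 1 := by
    rw [hm]; exact (Nat.ceil_lt_add_one (by positivity)).le
  have hm3 : 1 ≤ (m : ℝ) * η ^ 13 := by
    have := mul_le_mul_of_nonneg_right hm1 (by positivity : (0:ℝ) ≤ η ^ 13)
    rwa [one_div_mul_cancel (by positivity)] at this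
  have hm4 : (m : ℝ) * η ^ 13 ≤ 2 := by
    have := mul_le_mul_of_nonneg_right hm2 (by positivity : (0:ℝ) ≤ η ^ 13)
    rw [add_mul, one_div_mul_cancel (by positivity)] at this
    have h3 : η ^ 13 ≤ η := pw1 (by norm_num)
    linarith
  have hm0 : 0 < m := by
    rw [hm]; exact Nat.ceil_pos.mpr (by positivity)
  -- bad pairs
  let B1 : V → V → Prop := fun w w' => T.adj w w' ∧ ρ < den (fun x : V × V => T.adj x.1 x.2 ∧
      ¬ T.adj w x.1 ∧ ¬ T.adj w x.2 ∧ ¬ T.adj w' x.1 ∧ ¬ T.adj w' x.2)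
  let B2 : V → V → Prop := fun y z => V2 z ∧ ¬ T.adj z y ∧
      ρ < den (fun a => T.adj a z ∧ T.Ip V2 δ₁ (T.pi z) a y)
  let B3 : V → V → Prop := fun z y => ¬ T.adj z y ∧ ρ < den (fun x : V × V => T.adj x.1 z ∧
      ¬ T.adj x.1 y ∧ T.adj x.2 y ∧ ¬ T.adj x.2 z ∧ ¬ T.adj x.1 x.2)
  have hb1 : den (fun w : V × V => B1 w.1 w.2) ≤ η ^ 59 := by
    have h2 := bad1 T hρ0
    have h3 : ρ * den (fun w : V × V => B1 w.1 w.2) ≤ ρ * η ^ 59 := by
      refine (h2.trans hd).trans ?_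
      rw [hρ, ← pow_add]
      exact pw (by norm_num)
    exact le_of_mul_le_mul_left h3 hρ0
  have hb3 : den (fun w : V × V => B3 w.1 w.2) ≤ η ^ 59 := by
    have h2 := bad3 T hρ0
    have h3 : ρ * den (fun w : V × V => B3 w.1 w.2) ≤ ρ * η ^ 59 := by
      refine (h2.trans hd).trans ?_
      rw [hρ, ← pow_add]
      exact pw (by norm_num)
    exact le_of_mul_le_mul_left h3 hρ0
  have hb2 : den (fun w : V × V => B2 w.1 w.2) ≤ η ^ 59 := by
    have h2 := bad2 T (V2 := V2) hρ0 hδ0.le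
    rw [← hkk] at h2
    have h3 : ρ * den (fun w : V × V => B2 w.1 w.2) ≤ ρ * η ^ 59 := by
      refine h2.trans ?_
      rw [hρ, hδ₁, ← pow_add]
      have h4 : kk * η ^ 600 = (kk * η) * η ^ 599 := by ring
      rw [h4]
      have h5 : (kk * η) * η ^ 599 ≤ 1 * η ^ 599 := mul_le_mul_of_nonneg_right n5 (by positivity)
      rw [one_mul] at h5
      exact h5
    exact le_of_mul_le_mul_left h3 hρ0
  have hBad : den (fun x : V × V => B1 x.1 x.2 ∨ (B2 x.1 x.2 ∨ B3 x.1 x.2)) ≤ 3 * η ^ 59 := by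
    have h2 := den_or_le (fun x : V × V => B1 x.1 x.2) (fun x : V × V => B2 x.1 x.2 ∨ B3 x.1 x.2)
    have h3 := den_or_le (fun x : V × V => B2 x.1 x.2) (fun x : V × V => B3 x.1 x.2)
    linarith
  have hm2β : (m : ℝ) ^ 2 * (3 * η ^ 59) < 1 / 2 := by
    have h2 : (m : ℝ) ^ 2 * (3 * η ^ 59) = 3 * ((m : ℝ) * η ^ 13) ^ 2 * η ^ 33 := by ring
    rw [h2]
    have h3 : ((m : ℝ) * η ^ 13) ^ 2 ≤ 2 ^ 2 := pow_le_pow_left₀ (by positivity) hm4 2
    have h4 : η ^ 33 ≤ η := pw1 (by norm_num)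
    have h5 : 0 < η ^ 33 := by positivity
    nlinarith
  -- the type of indices of the sets that must be hit
  have hJ : (Fintype.card ({b // b ∈ R0} × Fin 17) : ℝ) ≤ m * ξ * η / 2 := by
    rw [Fintype.card_prod, Fintype.card_coe, Fintype.card_fin]
    push_cast
    have h2 : (R0.card : ℝ) * η ^ 3 ≤ 20 * η := by
      calc (R0.card : ℝ) * η ^ 3 ≤ (kk ^ 2 * (20 / η)) * η ^ 3 :=
            mul_le_mul_of_nonneg_right hR0c (by positivity)
        _ = 20 * (kk ^ 2 * η) * η := by field_simp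
        _ ≤ 20 * 1 * η := by gcongr
        _ = 20 * η := by ring
    have h3 : η ^ 5 * ((R0.card : ℝ) * 17) ≤ η ^ 5 * (m * ξ * η / 2) := by
      have h4 : η ^ 5 * (m * ξ * η / 2) = ((m : ℝ) * η ^ 13) / 2 := by rw [hξ]; ring
      rw [h4]
      have h5 : η ^ 5 * ((R0.card : ℝ) * 17) = ((R0.card : ℝ) * η ^ 3) * 17 * η ^ 2 := by ring
      rw [h5]
      have h6 : ((R0.card : ℝ) * η ^ 3) * 17 * η ^ 2 ≤ (20 * η) * 17 * 1 := by
        gcongr
        exact pow_le_one₀ hη0.le hη1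
      linarith
    exact le_of_mul_le_mul_left h3 (by positivity)
  obtain ⟨f, hf1, hf2⟩ := samp (fun w w' => B1 w w' ∨ (B2 w w' ∨ B3 w w'))
    (fun (j : {b // b ∈ R0} × Fin 17) c x => T.Up V2 (sc h (450 + 20280 * ((j.2 : ℕ) + 1))) δ₁ j.1.1 c x)
    m hξ0 hη0 hBad hm2β hJ hm0
  let S : V → Prop := fun z => ∃ i, f i = z
  let Ex1 : V → Prop := fun u => ∃ j : {b // b ∈ R0} × Fin 17,
    ξ ≤ den (fun x => T.Up V2 (sc h (450 + 20280 * ((j.2 : ℕ) + 1))) δ₁ j.1.1 u x) ∧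
    ∀ i, ¬ T.Up V2 (sc h (450 + 20280 * ((j.2 : ℕ) + 1))) δ₁ j.1.1 u (f i)
  let Ex2 : V → Prop := fun u => ∃ b₀ ∈ R0, ∃ t : Fin 17, ∃ r : K, T.pi b₀ ≠ r ∧
    T.Lset V2 (sc h (450 + 20280 * ((t : ℕ) + 1))) b₀ r u ∧
    den (T.Up V2 (sc h (450 + 20280 * ((t : ℕ) + 1))) δ₁ b₀ u) < ξ
  let Vg : V → Prop := fun u => V3 u ∧ T.Cls V2 S η δ₁ γ u ∧ ¬ Ex1 u ∧ ¬ Ex2 u
  have hEx1 : den Ex1 ≤ η := hf2
  have hEx2 : den Ex2 ≤ η := by
    have h2 : ∀ b₀ ∈ R0, den (fun u => ∃ t : Fin 17, ∃ r : K, T.pi b₀ ≠ r ∧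
        T.Lset V2 (sc h (450 + 20280 * ((t : ℕ) + 1))) b₀ r u ∧
        den (T.Up V2 (sc h (450 + 20280 * ((t : ℕ) + 1))) δ₁ b₀ u) < ξ) ≤ 17 * (kk * (3 * ξ)) := by
      intro b₀ hb₀
      have h3 := den_exists_le_card (fun (t : Fin 17) (u : V) => ∃ r : K, T.pi b₀ ≠ r ∧
        T.Lset V2 (sc h (450 + 20280 * ((t : ℕ) + 1))) b₀ r u ∧
        den (T.Up V2 (sc h (450 + 20280 * ((t : ℕ) + 1))) δ₁ b₀ u) < ξ) (kk * (3 * ξ)) ?_
      · simpa using h3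
      intro t
      have h4 := den_exists_le_card (fun (r : K) (u : V) => T.pi b₀ ≠ r ∧
        T.Lset V2 (sc h (450 + 20280 * ((t : ℕ) + 1))) b₀ r u ∧
        den (T.Up V2 (sc h (450 + 20280 * ((t : ℕ) + 1))) δ₁ b₀ u) < ξ) (3 * ξ) ?_
      · rw [hkk]; exact h4
      intro r
      by_cases hr : T.pi b₀ ≠ r
      · have ht17 : (t : ℕ) + 1 ≤ 17 := t.2
        have hjN : 450 + 20280 * ((t : ℕ) + 1) ≤ N := by
          have h7 : 20280 * ((t : ℕ) + 1) ≤ 20280 * 17 := Nat.mul_le_mul_left _ ht17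
          linarith
        have hj4 : 450 + 312 ≤ 450 + 20280 * ((t : ℕ) + 1) := by
          have h7 : 20280 * 1 ≤ 20280 * ((t : ℕ) + 1) := Nat.mul_le_mul_left _ (by omega)
          linarith
        have h5 := exc T hs hW (j := 450 + 20280 * ((t : ℕ) + 1)) hj4
          hjN (hR0 b₀ hb₀) hr hδ0 hξ0 (by
            refine hd.trans ?_
            rw [hξ, hδ₁, ← pow_add, ← pow_mul]
            exact pw (by norm_num))
        exact (den_mono (fun u hu => hu.2)).trans h5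
      · rw [den_eq_zero (fun u hu => hr hu.1)]
        positivity
    have h6 : den Ex2 ≤ (R0.card : ℝ) * (17 * (kk * (3 * ξ))) :=
      den_exists_mem_le R0 (fun b₀ u => ∃ t : Fin 17, ∃ r : K, T.pi b₀ ≠ r ∧
        T.Lset V2 (sc h (450 + 20280 * ((t : ℕ) + 1))) b₀ r u ∧
        den (T.Up V2 (sc h (450 + 20280 * ((t : ℕ) + 1))) δ₁ b₀ u) < ξ) _ h2
    refine h6.trans ?_
    calc (R0.card : ℝ) * (17 * (kk * (3 * ξ))) ≤ (kk ^ 2 * (20 / η)) * (17 * (kk * (3 * ξ))) := by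
          gcongr
      _ = 1020 * (kk ^ 3 * η) * η ^ 5 := by rw [hξ]; field_simp; ring
      _ ≤ 1020 * 1 * η ^ 5 := by gcongr
      _ ≤ 1020 * η ^ 2 := by
          have : η ^ 5 ≤ η ^ 2 := pw (by norm_num)
          linarith
      _ ≤ η := by nlinarith
  have hCls : den (fun u => V2 u ∧ ¬ T.Cls V2 S η δ₁ γ u) ≤ η := by
    refine (cls_bad T V2 f hη0 hη1 hγ0.le).trans ?_
    rw [← hkk]
    have h2 : kk ^ 7 * (m : ℝ) ^ 9 * (12 / η) ^ 3 * 512 * γ =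
        (kk ^ 7 * η) * (((m : ℝ) * η ^ 13) ^ 9) * (884736 * η) * η ^ 11 := by
      rw [hγ]; field_simp; ring
    rw [h2]
    have h3 : ((m : ℝ) * η ^ 13) ^ 9 ≤ 2 ^ 9 := pow_le_pow_left₀ (by positivity) hm4 9
    have h4 : 884736 * η ≤ 1 := by linarith
    calc (kk ^ 7 * η) * (((m : ℝ) * η ^ 13) ^ 9) * (884736 * η) * η ^ 11
        ≤ 1 * 2 ^ 9 * 1 * η ^ 11 := by gcongr
      _ ≤ 1 * 2 ^ 9 * 1 * η ^ 2 := by
          have : η ^ 11 ≤ η ^ 2 := pw (by norm_num)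
          linarith
      _ ≤ η := by nlinarith
  refine ⟨V2, V3, Vg, S, η, δ₁, γ, ρ, ?_, ?_⟩
  · refine
      { hsc := hs
        wins := hW
        ne := hNE3
        v32 := h32
        vg3 := fun u hu => hu.1
        hN := hN
        hη := hηdef
        d1pos := hδ0
        d1 := ?_
        snon := ⟨f ⟨0, hm0⟩, ⟨0, hm0⟩, rfl⟩
        gpos := hγ0
        cls := fun u hu => hu.2.1
        rt1 := ?_
        rt2 := ?_
        rt3 := ?_
        d1ρ := ?_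
        rho := ?_
        rho' := ?_
        four := ?_
        lf := ?_ }
    · rw [← hηdef, hδ₁]
      have : η ^ 600 ≤ η ^ 2 := pw (by norm_num)
      nlinarith
    · rintro w w' ⟨i, rfl⟩ ⟨j, rfl⟩ hadj
      by_contra hc
      push Not at hc
      refine hf1 i j ?_ (Or.inl ⟨hadj, hc⟩)
      rintro rfl
      exact hadj.1 rfl
    · rintro y z ⟨i, rfl⟩ ⟨j, rfl⟩ hz2 hne hadj
      by_contra hc
      push Not at hc
      refine hf1 i j ?_ (Or.inr (Or.inl ⟨hz2, hadj, hc⟩))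
      rintro rfl
      exact hne rfl
    · rintro z y ⟨i, rfl⟩ ⟨j, rfl⟩ hadj
      by_cases hij : i = j
      · subst hij
        rw [den_eq_zero (fun x hx => hx.2.1 hx.1)]
        exact hρ0.le
      by_contra hc
      push Not at hc
      exact hf1 i j hij (Or.inr (Or.inr ⟨hadj, hc⟩))
    · rw [hδ₁, hρ]; exact pw (by norm_num)
    · rw [hρ, hγ, ← pow_mul]
      have h2 : η ^ 540 ≤ η ^ 267 := pw (by norm_num)
      have h3 : η ^ 267 = η ^ 266 * η := by ring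
      have h4 : 0 < η ^ 266 := by positivity
      have h5 : η ^ (133 * 2) = η ^ 266 := by norm_num
      rw [h5]
      nlinarith
    · rw [hρ, hγ]
      have h2 : η ^ 540 ≤ η ^ 134 := pw (by norm_num)
      have h3 : η ^ 134 = η ^ 133 * η := by ring
      have h4 : 0 < η ^ 133 := by positivity
      nlinarith
    · rw [hγ, hρ, ← pow_mul]
      have h2 : η ^ 540 ≤ η ^ 533 := pw (by norm_num)
      have h2' : dK2 T.adj ≤ η ^ 533 := hd.trans (pw (by norm_num))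
      have h3 : η ^ 533 = η ^ 532 * η := by ring
      have h4 : 0 < η ^ 532 := by positivity
      have h5 : η ^ (133 * 4) = η ^ 532 := by norm_num
      rw [h5]
      nlinarith
    · intro t ht b c hb hc hpi hM1 hM2
      refine lf_of T hs hW hN hηdef R0 hR0 hnet (h32 c hc.1) (ξ := ξ) ?_ ?_ ht hb hpi hM1 hM2
      · intro b₀ hb₀ t' ht' hpi' hcon
        exact hc.2.2.2 ⟨b₀, hb₀, ⟨t', ht'⟩, T.pi c, hpi', hcon.1, hcon.2⟩
      · intro b₀ hb₀ t' ht' hden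
        by_contra hcon
        push Not at hcon
        refine hc.2.2.1 ⟨(⟨b₀, hb₀⟩, ⟨t', ht'⟩), hden, ?_⟩
        intro i hi
        exact hcon (f i) ⟨i, rfl⟩ hi
  · have h2 : den (fun u => ¬ Vg u) ≤ den (fun u => True ∧ ¬ V1 u) + (den (fun u => V1 u ∧ ¬ V2 u) +
        (den (fun u => V2 u ∧ ¬ V3 u) + (den (fun u => V2 u ∧ ¬ T.Cls V2 S η δ₁ γ u) +
          (den Ex1 + den Ex2)))) := by
      refine den_le_add (Q := fun u => True ∧ ¬ V1 u) (R := fun u => (V1 u ∧ ¬ V2 u) ∨ (V2 u ∧ ¬ V3 u) ∨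
        (V2 u ∧ ¬ T.Cls V2 S η δ₁ γ u) ∨ Ex1 u ∨ Ex2 u) (fun u hu => ?_) |>.trans ?_
      · by_cases g1 : V1 u
        · right
          by_cases g2 : V2 u
          · by_cases g3 : V3 u
            · by_cases g4 : T.Cls V2 S η δ₁ γ u
              · by_cases g5 : Ex1 u
                · exact Or.inr (Or.inr (Or.inr (Or.inl g5)))
                · by_cases g6 : Ex2 u
                  · exact Or.inr (Or.inr (Or.inr (Or.inr g6)))
                  · exact absurd ⟨g3, g4, g5, g6⟩ hu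
              · exact Or.inr (Or.inr (Or.inl ⟨g2, g4⟩))
            · exact Or.inr (Or.inl ⟨g2, g3⟩)
          · exact Or.inl ⟨g1, g2⟩
        · left; exact ⟨trivial, g1⟩
      · gcongr
        refine (den_or_le _ _).trans ?_
        gcongr
        refine (den_or_le _ _).trans ?_
        gcongr
        refine (den_or_le _ _).trans ?_
        gcongr
        exact den_or_le _ _
    rw [← hkk] at hd2
    have h3 : kk ^ 3 * (2 * sc h 1) ≤ h ^ 10 := by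
      have h4 : sc h 1 = h ^ 100 := by
        show (sc h 0) ^ 5 = _
        show (h ^ 20) ^ 5 = _
        rw [← pow_mul]
      rw [h4]
      calc kk ^ 3 * (2 * h ^ 100) = (kk ^ 3 * h ^ 3) * (2 * h) * h ^ 96 := by ring
        _ ≤ 1 * 1 * h ^ 96 := by gcongr; linarith
        _ ≤ h ^ 10 := by
            rw [one_mul, one_mul]
            exact pow_le_pow_of_le_one h0.le (by linarith) (by norm_num)
    have h4 : η ≤ h ^ 10 := hη20.trans (pow_le_pow_of_le_one h0.le (by linarith) (by norm_num))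
    have h5 : 6 * h ^ 10 ≤ h ^ 3 := by
      have h6 : h ^ 7 ≤ (1 / 2) ^ 7 := pow_le_pow_left₀ h0.le h1 7
      have h7 : 6 * h ^ 10 = h ^ 3 * (6 * h ^ 7) := by ring
      rw [h7]
      have h8 : 6 * h ^ 7 ≤ 1 := by
        have : (1 / 2 : ℝ) ^ 7 = 1 / 128 := by norm_num
        linarith
      exact mul_le_of_le_one_right (by positivity) h8
    linarith

end Pool.Agent.IC4
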