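import Pool.Agent.IC4.Free
import Pool.Agent.IC4.SetupE

set_option autoImplicit false

namespace Pool.Agent.IC4

theorem Core_aux {N : ℕ} (hN : 450 + 20280 * 17 + 1 ≤ N) {h : ℝ} (h0 : 0 < h) (h1 : h ≤ 1 / 2)
    {V K : Type} [Fintype V] [Fintype K] (T : TS V K) (hK : (Fintype.card K : ℝ) ≤ 1 / h)
    (hd : dK2 T.adj ≤ (sc h N) ^ 1300) :
    ∃ g : V → V → Prop, (∀ u v, g u v → g v u) ∧ (∀ u, ¬ g u u) ∧
      (∀ a b c d, ¬ K2 g a b c d) ∧ dxor T.adj g ≤ h := by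
  by_cases hf : ∀ a b c d, ¬ K2 T.adj a b c d
  · refine ⟨T.adj, fun u v => (adj_comm T u v).1, fun u hu => hu.1 rfl, hf, ?_⟩
    have : dxor T.adj T.adj = 0 := den_eq_zero (fun x hx => hx Iff.rfl)
    rw [this]; exact h0.le
  · push Not at hf
    obtain ⟨a, b, c, d, habcd⟩ := hf
    have hV : Nonempty V := ⟨a⟩
    have hn0 : (0 : ℝ) < (Fintype.card V : ℝ) := by exact_mod_cast Fintype.card_pos
    have hsc := sc_Sc h0 h1
    have hη0 : 0 < sc h N := hsc.pos N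
    have h4 : 1 / (Fintype.card V : ℝ) ^ 4 ≤ (sc h N) ^ 1300 := by
      have := den_ge_of_exists (P := fun x : V × V × V × V =>
        K2 T.adj x.1 x.2.1 x.2.2.1 x.2.2.2) ⟨(a, b, c, d), habcd⟩
      refine le_trans (le_of_eq ?_) (this.trans hd)
      simp only [Fintype.card_prod]
      push_cast
      ring
    have hn : 1 / (Fintype.card V : ℝ) ≤ (sc h N) ^ 325 := by
      have h5 : (1 / (Fintype.card V : ℝ)) ^ 4 ≤ ((sc h N) ^ 325) ^ 4 := by
        rw [← pow_mul, div_pow, one_pow]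
        exact h4
      exact le_of_pow_le_pow_left₀ (by norm_num) (by positivity) h5
    obtain ⟨V2, V3, Vg, S, η, δ₁, γ, ρ, hS, hden⟩ := setup_exists h0 h1 hN T hK hd hn hV
    refine ⟨T.Hp V2 Vg S η δ₁, fun u v => (Hp_comm T u v).1, fun u hu => hu.2.2.1 rfl,
      free T hS, ?_⟩
    have h6 := dxor_Hp T hS hden
    have hη : η ≤ h ^ 20 := by
      rw [hS.hη]; exact hsc.anti (Nat.zero_le N)
    have hn' : 1 / (Fintype.card V : ℝ) ≤ h ^ 20 := by
      refine hn.trans ?_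
      have h7 : (sc h N) ^ 325 ≤ (sc h N) ^ 1 :=
        pow_le_pow_of_le_one hη0.le (hsc.le_one N) (by norm_num)
      rw [pow_one] at h7
      exact h7.trans (hsc.anti (Nat.zero_le N))
    have h8 : (Fintype.card K : ℝ) * (2 * η + 1 / (Fintype.card V : ℝ)) ≤ (1 / h) * (3 * h ^ 20) := by
      apply mul_le_mul hK _ _ (by positivity)
      · linarith
      · have : 0 ≤ η := by rw [hS.hη]; exact hη0.le
        positivity
    have h9 : (1 / h) * (3 * h ^ 20) = 3 * h ^ 19 := by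
      field_simp
    have h10 : h ^ 19 ≤ h ^ 3 := pow_le_pow_of_le_one h0.le (by linarith) (by norm_num)
    have h11 : h ^ 3 ≤ h / 4 := by
      have : h ^ 2 ≤ 1 / 4 := by nlinarith
      nlinarith
    have h12 : h ^ 19 ≤ h / 8 := by
      have : h ^ 19 ≤ h ^ 4 := pow_le_pow_of_le_one h0.le (by linarith) (by norm_num)
      have h13 : h ^ 4 ≤ h / 8 := by
        have : h ^ 3 ≤ 1 / 8 := by
          calc h ^ 3 ≤ (1 / 2) ^ 3 := pow_le_pow_left₀ h0.le h1 3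
            _ = 1 / 8 := by norm_num
        nlinarith
      linarith
    linarith

/-- Theorem B -/
theorem core : ∃ C : ℕ, ∀ h : ℝ, 0 < h → h ≤ 1 / 2 → ∀ (V K : Type) [Fintype V] [Fintype K]
    (T : TS V K), (Fintype.card K : ℝ) ≤ 1 / h → dK2 T.adj ≤ h ^ C →
    ∃ g : V → V → Prop, (∀ u v, g u v → g v u) ∧ (∀ u, ¬ g u u) ∧
      (∀ a b c d, ¬ K2 g a b c d) ∧ dxor T.adj g ≤ h := by
  obtain ⟨N, hN⟩ : ∃ N : ℕ, 450 + 20280 * 17 + 1 ≤ N := ⟨_, le_rfl⟩
  refine ⟨(20 * 5 ^ N) * 1300, ?_⟩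
  intro h h0 h1 V K _ _ T hK hd
  refine Core_aux hN h0 h1 T hK ?_
  rw [sc_eq_pow, ← pow_mul]
  exact hd

end Pool.Agent.IC4
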