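import Mathlib

/-! Definitions for project IC4 (MP_9370c3_lc): polynomial removal lemma for induced C4. -/

set_option autoImplicit false

namespace Pool.Agent.IC4

open scoped Classical in
/-- uniform density of a predicate on a finite type -/
noncomputable def den {α : Type} [Fintype α] (P : α → Prop) : ℝ :=
  ((Finset.univ.filter P).card : ℝ) / (Fintype.card α : ℝ)

/-- average of a real function over a finite type -/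
noncomputable def avg {α : Type} [Fintype α] (f : α → ℝ) : ℝ :=
  (∑ a, f a) / (Fintype.card α : ℝ)

/-- induced `2K₂` on `ab`, `cd` for the relation `r` -/
def K2 {V : Type} (r : V → V → Prop) (a b c d : V) : Prop :=
  r a b ∧ r c d ∧ ¬ r a c ∧ ¬ r a d ∧ ¬ r b c ∧ ¬ r b d

/-- density of induced `2K₂` -/
noncomputable def dK2 {V : Type} [Fintype V] (r : V → V → Prop) : ℝ :=
  den (fun x : V × V × V × V => K2 r x.1 x.2.1 x.2.2.1 x.2.2.2)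

/-- density of ordered pairs on which two relations differ -/
noncomputable def dxor {V : Type} [Fintype V] (r r' : V → V → Prop) : ℝ :=
  den (fun x : V × V => ¬ (r x.1 x.2 ↔ r' x.1 x.2))

/-- threshold system -/
structure TS (V K : Type) [Fintype V] where
  pi : V → K
  th : V → K → ℝ
  bd : ∀ u q, |th u q| ≤ 1
  sp : ∀ p q : K, p ≠ q → ∀ x l : ℝ, 0 ≤ l →
      den (fun u => pi u = p ∧ x ≤ th u q ∧ th u q ≤ x + l) ≤ l + 1 / (Fintype.card V : ℝ)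

/-- a scale sequence -/
structure Sc (s : ℕ → ℝ) : Prop where
  pos : ∀ i, 0 < s i
  step : ∀ i, s (i + 1) ≤ s i / 16
  le1 : s 0 ≤ 1

/-- the concrete scale sequence -/
noncomputable def sc (h : ℝ) : ℕ → ℝ
  | 0 => h ^ 20
  | i + 1 => (sc h i) ^ 5

namespace TS

variable {V K : Type} [Fintype V] (T : TS V K)

def M (u v : V) : ℝ := T.th u (T.pi v) + T.th v (T.pi u)

def adj (u v : V) : Prop := T.pi u ≠ T.pi v ∧ 0 < T.M u v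

/-- tight pair -/
def Tt (lo : ℝ) (u v : V) : Prop := T.pi u ≠ T.pi v ∧ |T.M u v| ≤ lo

/-- robustly non-adjacent pair -/
def Ee (hi : ℝ) (u v : V) : Prop := T.pi u = T.pi v ∨ T.M u v < -hi

/-- robustly adjacent pair -/
def Ff (hi : ℝ) (u v : V) : Prop := T.pi u ≠ T.pi v ∧ hi < T.M u v

/-- the window `(lo,hi]` is clear for the pair -/
def Clr (lo hi : ℝ) (u v : V) : Prop := T.Tt lo u v ∨ T.Ee hi u v ∨ T.Ff hi u v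

/-- `u'` is `σ`-near `u` in the three coordinates `q₁ q₂ q₃` -/
def Near (σ : ℝ) (q₁ q₂ q₃ : K) (u u' : V) : Prop :=
  T.pi u' = T.pi u ∧ |T.th u' q₁ - T.th u q₁| ≤ σ ∧ |T.th u' q₂ - T.th u q₂| ≤ σ ∧
    |T.th u' q₃ - T.th u q₃| ≤ σ

/-- non-extremality of all vertices of `W'` with respect to `W` -/
def NE (s : ℕ → ℝ) (N : ℕ) (W W' : V → Prop) : Prop :=
  ∀ u, W' u → ∀ i, i < N → ∀ q₁ q₂ q₃ : K, q₁ ≠ T.pi u →
    s (i + 1) ≤ den (fun u' => W u' ∧ T.Near (s i) q₁ q₂ q₃ u u' ∧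
        T.th u' q₁ ≤ T.th u q₁ - s (i + 1)) ∧
    s (i + 1) ≤ den (fun u' => W u' ∧ T.Near (s i) q₁ q₂ q₃ u u' ∧
        T.th u q₁ + s (i + 1) ≤ T.th u' q₁)

/-- context of the movement and triangle lemmas -/
def Ctx (s : ℕ → ℝ) (N : ℕ) (V1 : V → Prop) : Prop :=
  Sc s ∧ T.NE s N (fun _ => True) V1 ∧ dK2 T.adj < (s N) ^ 4

/-- no tight triangles in `V2` at level `η` -/
def TF (V2 : V → Prop) (η : ℝ) : Prop :=
  ∀ a b c, V2 a → V2 b → V2 c → ¬ (T.Tt η a b ∧ T.Tt η b c ∧ T.Tt η a c)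

/-- window property: no tight triangles, and the tight graph of a `2K₂` pattern is a 4-cycle -/
structure Win (V2 : V → Prop) (lo hi : ℝ) : Prop where
  lo0 : 0 < lo
  lohi : lo < hi
  tf : T.TF V2 lo
  ml : ∀ a b c d, V2 a → V2 b → V2 c → V2 d →
    (T.Tt lo a b ∨ T.Ff hi a b) → (T.Tt lo c d ∨ T.Ff hi c d) →
    (T.Tt lo a c ∨ T.Ee hi a c) → (T.Tt lo a d ∨ T.Ee hi a d) →
    (T.Tt lo b c ∨ T.Ee hi b c) → (T.Tt lo b d ∨ T.Ee hi b d) →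
    (T.Tt lo a b ∧ T.Tt lo b c ∧ T.Tt lo c d ∧ T.Tt lo a d ∧ T.Ee hi a c ∧ T.Ee hi b d) ∨
    (T.Tt lo a b ∧ T.Tt lo b d ∧ T.Tt lo c d ∧ T.Tt lo a c ∧ T.Ee hi a d ∧ T.Ee hi b c) ∨
    (T.Tt lo a c ∧ T.Tt lo b c ∧ T.Tt lo b d ∧ T.Tt lo a d ∧ T.Ff hi a b ∧ T.Ff hi c d)

/-- all windows with indices in `[I, N]` of length at least 12 -/
def Wins (s : ℕ → ℝ) (V2 : V → Prop) (I N : ℕ) : Prop :=
  ∀ i j, I ≤ i → i + 12 ≤ j → j ≤ N → T.Win V2 (s j) (s i)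

/-- `D(u,z;v)` -/
noncomputable def Dd (V2 : V → Prop) (u z v : V) : ℝ :=
  den (fun x => V2 x ∧ T.adj x u ∧ ¬ T.adj x z ∧ ¬ T.adj x v)

/-- `I_p(u;y)` -/
def Ip (V2 : V → Prop) (δ₁ : ℝ) (p : K) (u y : V) : Prop :=
  den (fun x => V2 x ∧ T.pi x = p ∧ T.adj x u ∧ ¬ T.adj x y) ≤ δ₁

/-- raw certificate of type R for the pair `u v` with witness `z` in the part of `u` -/
def RawR (V2 S : V → Prop) (δ₁ : ℝ) (u v z : V) : Prop :=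
  S z ∧ V2 z ∧ T.pi z = T.pi u ∧ ¬ T.adj z v ∧ T.Dd V2 u z v ≤ δ₁

/-- raw certificate of type γ -/
def RawG (V2 S : V → Prop) (u v w w' : V) : Prop :=
  S w ∧ V2 w ∧ S w' ∧ V2 w' ∧ T.adj w w' ∧ ¬ T.adj w u ∧ ¬ T.adj w v ∧ ¬ T.adj w' u ∧ ¬ T.adj w' v

def CERT (V2 S : V → Prop) (δ₁ : ℝ) (u v : V) : Prop :=
  (∃ z, T.RawR V2 S δ₁ u v z) ∨ (∃ z, T.RawR V2 S δ₁ v u z) ∨ (∃ w w', T.RawG V2 S u v w w')

/-- the new graph -/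
def Hp (V2 Vg S : V → Prop) (η δ₁ : ℝ) (u v : V) : Prop :=
  Vg u ∧ Vg v ∧ T.pi u ≠ T.pi v ∧ -η < T.M u v ∧ ¬ T.CERT V2 S δ₁ u v

/-- one block of a class pattern; `d = (c, z, z', p, y)` -/
def Sim (V2 : V → Prop) (η δ₁ : ℝ) (d : K × V × V × K × V) (u u' : V) : Prop :=
  T.pi u' = T.pi u ∧ V2 u' ∧ |T.th u' d.1 - T.th u d.1| ≤ η / 4 ∧
  (T.adj u' d.2.1 ↔ T.adj u d.2.1) ∧ (T.adj u' d.2.2.1 ↔ T.adj u d.2.2.1) ∧
  (T.Ip V2 δ₁ d.2.2.2.1 u' d.2.2.2.2 ↔ T.Ip V2 δ₁ d.2.2.2.1 u d.2.2.2.2)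

/-- samples of a data block are in `S` -/
def okD (S : V → Prop) (d : K × V × V × K × V) : Prop := S d.2.1 ∧ S d.2.2.1 ∧ S d.2.2.2.2

def Cls (V2 S : V → Prop) (η δ₁ γ : ℝ) (u : V) : Prop :=
  ∀ d₁ d₂ d₃ : K × V × V × K × V, okD S d₁ → okD S d₂ → okD S d₃ →
    γ ≤ den (fun u' => T.Sim V2 η δ₁ d₁ u u' ∧ T.Sim V2 η δ₁ d₂ u u' ∧ T.Sim V2 η δ₁ d₃ u u')

/-- `L(b₀,r)` at level `lo` -/
def Lset (V2 : V → Prop) (lo : ℝ) (b₀ : V) (r : K) (c : V) : Prop :=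
  V2 c ∧ T.pi c = r ∧ -lo ≤ T.M b₀ c ∧ T.M b₀ c ≤ 0

/-- `Up(c)` -/
def Up (V2 : V → Prop) (lo δ₁ : ℝ) (b₀ c c' : V) : Prop :=
  T.Lset V2 lo b₀ (T.pi c) c' ∧ T.Dd V2 c c' b₀ ≤ δ₁

/-- everything used in the proof that the new graph is `2K₂`-free -/
structure Setup (s : ℕ → ℝ) (N : ℕ) (V2 V3 Vg S : V → Prop) (η δ₁ γ ρ : ℝ) : Prop where
  hsc : Sc s
  wins : T.Wins s V2 450 N
  ne : T.NE s N V2 V3
  v32 : ∀ u, V3 u → V2 u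
  vg3 : ∀ u, Vg u → V3 u
  hN : 450 + 20280 * 17 + 1 ≤ N
  hη : η = s N
  d1pos : 0 < δ₁
  d1 : δ₁ < s N
  snon : ∃ z, S z
  gpos : 0 < γ
  cls : ∀ u, Vg u → T.Cls V2 S η δ₁ γ u
  rt1 : ∀ w w', S w → S w' → T.adj w w' →
    den (fun x : V × V => T.adj x.1 x.2 ∧ ¬ T.adj w x.1 ∧ ¬ T.adj w x.2 ∧
      ¬ T.adj w' x.1 ∧ ¬ T.adj w' x.2) ≤ ρ
  rt2 : ∀ y z, S y → S z → V2 z → y ≠ z → ¬ T.adj z y →
    den (fun a => T.adj a z ∧ T.Ip V2 δ₁ (T.pi z) a y) ≤ ρ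
  rt3 : ∀ z y, S z → S y → ¬ T.adj z y →
    den (fun x : V × V => T.adj x.1 z ∧ ¬ T.adj x.1 y ∧ T.adj x.2 y ∧ ¬ T.adj x.2 z ∧
      ¬ T.adj x.1 x.2) ≤ ρ
  d1ρ : δ₁ ≤ ρ
  rho : ρ < γ ^ 2
  rho' : ρ < γ
  four : 4 * ρ + dK2 T.adj < γ ^ 4
  lf : ∀ t, t < 17 → ∀ b c, V2 b → Vg c → T.pi b ≠ T.pi c →
    -(s (450 + 20280 * (t + 1))) ≤ T.M b c → T.M b c ≤ -η → ∃ z, T.RawR V2 S δ₁ c b z

end TS

end Pool.Agent.IC4
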