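import Pool.Agent.IC4.Nine

set_option autoImplicit false

namespace Pool.Agent.IC4

variable {V K : Type} [Fintype V] (T : TS V K)
variable {s : ℕ → ℝ} {N : ℕ} {V2 V3 Vg S : V → Prop} {η δ₁ γ ρ : ℝ}

theorem CERT_comm (u v : V) : T.CERT V2 S δ₁ u v ↔ T.CERT V2 S δ₁ v u := by
  have aux : ∀ u v : V, T.CERT V2 S δ₁ u v → T.CERT V2 S δ₁ v u := by
    intro u v h
    rcases h with h | h | ⟨w, w', h1, h2, h3, h4, h5, h6, h7, h8, h9⟩
    · exact Or.inr (Or.inl h)
    · exact Or.inl h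
    · exact Or.inr (Or.inr ⟨w, w', h1, h2, h3, h4, h5, h7, h6, h9, h8⟩)
  exact ⟨aux u v, aux v u⟩

theorem Hp_comm (u v : V) : T.Hp V2 Vg S η δ₁ u v ↔ T.Hp V2 Vg S η δ₁ v u := by
  have aux : ∀ u v : V, T.Hp V2 Vg S η δ₁ u v → T.Hp V2 Vg S η δ₁ v u := by
    intro u v h
    obtain ⟨h1, h2, h3, h4, h5⟩ := h
    exact ⟨h2, h1, h3.symm, by rw [M_comm]; exact h4, fun h => h5 ((CERT_comm T _ _).1 h)⟩
  exact ⟨aux u v, aux v u⟩

/-- a non-edge of the new graph between good vertices -/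
private theorem Free_non {u v : V} (hu : Vg u) (hv : Vg v) (hH : ¬ T.Hp V2 Vg S η δ₁ u v) :
    T.pi u = T.pi v ∨ T.M u v ≤ -η ∨ T.CERT V2 S δ₁ u v := by
  by_contra hc
  push Not at hc
  exact hH ⟨hu, hv, hc.1, hc.2.1, hc.2.2⟩

private theorem Free_seta (h : T.Setup s N V2 V3 Vg S η δ₁ γ ρ) : 0 < η := by
  rw [h.hη]
  exact h.hsc.pos N

/-- a non-edge of the new graph, clear for a window: tight or E -/
private theorem Free_TE (h : T.Setup s N V2 V3 Vg S η δ₁ γ ρ) {i j : ℕ} (hi : i ≤ N) {u v : V}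
    (hu : Vg u) (hv : Vg v) (hH : ¬ T.Hp V2 Vg S η δ₁ u v) (hcl : T.Clr (s j) (s i) u v) :
    T.Tt (s j) u v ∨ T.Ee (s i) u v := by
  rcases hcl with hc | hc | hc
  · exact Or.inl hc
  · exact Or.inr hc
  · exfalso
    have h1 : η ≤ s i := by
      rw [h.hη]
      exact h.hsc.anti hi
    have h2 : η ≤ T.M u v := h1.trans hc.2.le
    have h3 := ncert T h hu hv hc.1 h2
    have h4 := Free_seta T h
    exact hH ⟨hu, hv, hc.1, by linarith, h3⟩

/-- the certificate of a tight non-edge -/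
private theorem Free_cert (h : T.Setup s N V2 V3 Vg S η δ₁ γ ρ) {t J : ℕ} (ht : t < 17)
    (hJ : J = 450 + 20280 * (t + 1)) {u v : V}
    (hu : Vg u) (hv : Vg v) (hH : ¬ T.Hp V2 Vg S η δ₁ u v) (htt : T.Tt (s J) u v) :
    ∃ z z', T.RawR V2 S δ₁ u v z ∨ T.RawR V2 S δ₁ v u z ∨ T.RawG V2 S u v z z' := by
  rcases Free_non T hu hv hH with h1 | h1 | h1
  · exact absurd h1 htt.1
  · have h2 := (abs_le.1 htt.2).1
    have h3 := h.lf t ht u v (h.v32 _ (h.vg3 _ hu)) hv htt.1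
    rw [← hJ] at h3
    obtain ⟨z, hz⟩ := h3 h2 h1
    exact ⟨z, z, Or.inr (Or.inl hz)⟩
  · rcases h1 with ⟨z, hz⟩ | ⟨z, hz⟩ | ⟨w, w', hw⟩
    · exact ⟨z, z, Or.inl hz⟩
    · exact ⟨z, z, Or.inr (Or.inl hz)⟩
    · exact ⟨w, w', Or.inr (Or.inr hw)⟩

/-- the 4-cycle case -/
private theorem Free_cycle (h : T.Setup s N V2 V3 Vg S η δ₁ γ ρ) {t I J : ℕ} (ht : t < 17)
    (hI : I = 450 + 20280 * t) (hJ : J = 450 + 20280 * (t + 1)) (hJN : J ≤ N)
    {a b c d : V} (hK : K2 (T.Hp V2 Vg S η δ₁) a b c d)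
    (tab : T.Tt (s J) a b) (tbc : T.Tt (s J) b c)
    (tcd : T.Tt (s J) c d) (tad : T.Tt (s J) a d)
    (eac : T.Ee (s I) a c) (ebd : T.Ee (s I) b d) : False := by
  obtain ⟨hab, hcd, nac, nad, nbc, nbd⟩ := hK
  have ga := hab.1
  have gb := hab.2.1
  have gc := hcd.1
  have gd := hcd.2.1
  obtain ⟨z, z', hbc⟩ := Free_cert T h ht hJ gb gc nbc tbc
  obtain ⟨y, y', had⟩ := Free_cert T h ht hJ ga gd nad tad
  obtain ⟨t', ht', hcl⟩ := clear_fin T h.hsc ![a, b, c, d, z, z', y, y'] I 312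
    (by norm_num)
  obtain ⟨i, hi⟩ : ∃ i, i = I + 312 * t' := ⟨_, rfl⟩
  obtain ⟨j, hj⟩ : ∃ j, j = I + 312 * (t' + 1) := ⟨_, rfl⟩
  rw [← hi, ← hj] at hcl
  have k1 : j ≤ J := by omega
  have k2 : j ≤ N := k1.trans hJN
  have k3 : s J ≤ s j := h.hsc.anti k1
  have k5 : I ≤ i := by omega
  have k4 : s i ≤ s I := h.hsc.anti k5
  have k6 : 450 ≤ i := by omega
  have k7 : i + 312 ≤ j := by omega
  have q : Quad T V2 Vg S δ₁ (s j) (s i) a b c d :=
    { ga := ga, gb := gb, gc := gc, gd := gd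
      tab := Tt_mono T k3 tab, tbc := Tt_mono T k3 tbc, tcd := Tt_mono T k3 tcd
      tad := Tt_mono T k3 tad, eac := Ee_mono T k4 eac, ebd := Ee_mono T k4 ebd
      nab := hab.2.2.2.2, ncd := hcd.2.2.2.2 }
  refine nine T h (i := i) (j := j) k6 k7 k2 q
    (U := fun v => ∃ k : Fin 8, v = (![a, b, c, d, z, z', y, y'] : Fin 8 → V) k)
    ⟨0, rfl⟩ ⟨1, rfl⟩ ⟨2, rfl⟩ ⟨3, rfl⟩ ?_ (z := z) (z' := z') (y := y) (y' := y')
    ⟨4, rfl⟩ ⟨5, rfl⟩ ⟨6, rfl⟩ ⟨7, rfl⟩ hbc ?_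
  · rintro u v ⟨k, rfl⟩ ⟨l, rfl⟩
    exact hcl k l
  · rcases had with h1 | h1 | h1
    · exact Or.inr (Or.inl h1)
    · exact Or.inl h1
    · exact Or.inr (Or.inr h1)

/-- Section IV.13: no `2K₂` with a non-robust edge -/
theorem mainAB (h : T.Setup s N V2 V3 Vg S η δ₁ γ ρ) {a b c d : V}
    (hK : K2 (T.Hp V2 Vg S η δ₁) a b c d) (hM : T.M a b < η) : False := by
  have hK' := hK
  obtain ⟨hab, hcd, nac, nad, nbc, nbd⟩ := hK
  have ga := hab.1
  have gb := hab.2.1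
  have gc := hcd.1
  have gd := hcd.2.1
  have hN := h.hN
  have hη := Free_seta T h
  obtain ⟨t, ht, hcl⟩ := clear_fin T h.hsc ![a, b, c, d] 450 20280 (by norm_num)
  have ht17 : t < 17 := by omega
  obtain ⟨I, hI⟩ : ∃ I, I = 450 + 20280 * t := ⟨_, rfl⟩
  obtain ⟨J, hJ⟩ : ∃ J, J = 450 + 20280 * (t + 1) := ⟨_, rfl⟩
  rw [← hI, ← hJ] at hcl
  have j1 : J ≤ N := by omega
  have j0 : I ≤ N := by omega
  have j2 : 450 ≤ I := by omega
  have j3 : I + 12 ≤ J := by omega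
  have hηJ : η ≤ s J := by
    rw [h.hη]
    exact h.hsc.anti j1
  have hηI : η ≤ s I := by
    rw [h.hη]
    exact h.hsc.anti j0
  have tab : T.Tt (s J) a b := by
    refine ⟨hab.2.2.1, ?_⟩
    rw [abs_le]
    have := hab.2.2.2.1
    constructor <;> linarith
  have cab := hcl 0 1
  have cac := hcl 0 2
  have cad := hcl 0 3
  have cbc := hcl 1 2
  have cbd := hcl 1 3
  have ccd := hcl 2 3
  simp only [Matrix.cons_val_zero, Matrix.cons_val_one, Matrix.cons_val] at cab cac cad cbc cbd ccd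
  have hcd' : T.Tt (s J) c d ∨ T.Ff (s I) c d := by
    rcases ccd with hc | hc | hc
    · exact Or.inl hc
    · exfalso
      rcases hc with hc | hc
      · exact hcd.2.2.1 hc
      · have := hcd.2.2.2.1
        linarith
    · exact Or.inr hc
  have hwin := h.wins I J j2 j3 j1
  have v2 : ∀ u, Vg u → V2 u := fun u hu => h.v32 _ (h.vg3 _ hu)
  rcases hwin.ml a b c d (v2 a ga) (v2 b gb) (v2 c gc) (v2 d gd) (Or.inl tab) hcd'
    (Free_TE T h j0 ga gc nac cac) (Free_TE T h j0 ga gd nad cad)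
    (Free_TE T h j0 gb gc nbc cbc) (Free_TE T h j0 gb gd nbd cbd) with
    ⟨-, t2, t3, t4, e1, e2⟩ | ⟨-, t2, t3, t4, e1, e2⟩ | ⟨-, -, -, -, f1, -⟩
  · exact Free_cycle T h ht17 hI hJ j1 hK' tab t2 t3 t4 e1 e2
  · have hK2 : K2 (T.Hp V2 Vg S η δ₁) a b d c :=
      ⟨hab, (Hp_comm T _ _).1 hcd, nad, nac, nbd, nbc⟩
    exact Free_cycle T h ht17 hI hJ j1 hK2 tab t2 ((Tt_comm T).1 t3) t4 e1 e2
  · have := f1.2
    linarith

/-- the new graph is `2K₂`-free -/
theorem free (h : T.Setup s N V2 V3 Vg S η δ₁ γ ρ) (a b c d : V) :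
    ¬ K2 (T.Hp V2 Vg S η δ₁) a b c d := by
  intro hK
  by_cases h1 : T.M a b < η
  · exact mainAB T h hK h1
  · have hK' := hK
    obtain ⟨hab, hcd, nac, nad, nbc, nbd⟩ := hK
    by_cases h2 : T.M c d < η
    · exact mainAB T h (a := c) (b := d) (c := a) (d := b)
        ⟨hcd, hab, fun h => nac ((Hp_comm T _ _).1 h), fun h => nbc ((Hp_comm T _ _).1 h),
          fun h => nad ((Hp_comm T _ _).1 h), fun h => nbd ((Hp_comm T _ _).1 h)⟩ h2
    · push Not at h1 h2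
      exact four T h hab.1 hab.2.1 hcd.1 hcd.2.1 hab.2.2.1 h1 hcd.2.2.1 h2
        (Free_non T hab.1 hcd.1 nac) (Free_non T hab.1 hcd.2.1 nad)
        (Free_non T hab.2.1 hcd.1 nbc) (Free_non T hab.2.1 hcd.2.1 nbd)

/-- distance between the threshold graph and the new graph -/
theorem dxor_Hp [Fintype K] (h : T.Setup s N V2 V3 Vg S η δ₁ γ ρ) {x : ℝ}
    (hx : den (fun u => ¬ Vg u) ≤ x) :
    dxor T.adj (T.Hp V2 Vg S η δ₁) ≤
      2 * x + (Fintype.card K : ℝ) * (2 * η + 1 / (Fintype.card V : ℝ)) := by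
  have hη := Free_seta T h
  have hn : (0:ℝ) ≤ 1 / (Fintype.card V : ℝ) := by positivity
  have hb : (0:ℝ) ≤ 2 * η + 1 / (Fintype.card V : ℝ) := by linarith
  rw [dxor]
  -- reduction
  have e1 : den (fun x : V × V => ¬ (T.adj x.1 x.2 ↔ T.Hp V2 Vg S η δ₁ x.1 x.2))
      ≤ (den (fun x : V × V => ¬ Vg x.1 ∧ True) + den (fun x : V × V => True ∧ ¬ Vg x.2))
        + den (fun x : V × V => True ∧ (T.pi x.1 ≠ T.pi x.2 ∧ |T.M x.1 x.2| ≤ η)) := by
    refine le_trans ?_ (add_le_add (den_or_le _ _) le_rfl)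
    apply den_le_add
    rintro ⟨u, v⟩ hx
    simp only at hx ⊢
    by_cases hu : Vg u
    · by_cases hv : Vg v
      · right
        refine ⟨trivial, ?_⟩
        by_contra hc
        apply hx
        by_cases hpi : T.pi u = T.pi v
        · constructor
          · intro h1
            exact absurd hpi h1.1
          · intro h1
            exact absurd hpi h1.2.2.1
        · have hc' : ¬ |T.M u v| ≤ η := fun h1 => hc ⟨hpi, h1⟩
          rw [abs_le, not_and_or, not_le, not_le] at hc'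
          rcases hc' with h1 | h1
          · constructor
            · intro h2
              have := h2.2
              linarith
            · intro h2
              have := h2.2.2.2.1
              linarith
          · have h2 := ncert T h hu hv hpi h1.le
            exact ⟨fun _ => ⟨hu, hv, hpi, by linarith, h2⟩, fun _ => ⟨hpi, by linarith⟩⟩
      · exact Or.inl (Or.inr ⟨trivial, hv⟩)
    · exact Or.inl (Or.inl ⟨hu, trivial⟩)
  have e2 : den (fun x : V × V => ¬ Vg x.1 ∧ True) ≤ x := by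
    have h1 := den_prod_le (α := V) (β := V) (P := fun u => ¬ Vg u) (R := fun _ _ => True) (c := 1)
      (fun _ _ => den_le_one _)
    linarith
  have e3 : den (fun x : V × V => True ∧ ¬ Vg x.2) ≤ x := by
    apply den_prod_le' (α := V) (β := V) (P := fun _ => True) (R := fun _ v => ¬ Vg v)
      ((den_nonneg _).trans hx)
    intro u _
    exact hx
  have e4 : den (fun x : V × V => True ∧ (T.pi x.1 ≠ T.pi x.2 ∧ |T.M x.1 x.2| ≤ η))
      ≤ (Fintype.card K : ℝ) * (2 * η + 1 / (Fintype.card V : ℝ)) := by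
    apply den_prod_le' (α := V) (β := V) (P := fun _ => True)
      (R := fun u v => T.pi u ≠ T.pi v ∧ |T.M u v| ≤ η) (by positivity)
    intro u _
    have h1 : den (fun v : V => T.pi u ≠ T.pi v ∧ |T.M u v| ≤ η)
        ≤ den (fun v : V => ∃ q : K, T.pi u ≠ q ∧ T.pi v = q ∧
          (-T.th u q - η ≤ T.th v (T.pi u) ∧ T.th v (T.pi u) ≤ (-T.th u q - η) + 2 * η)) := by
      apply den_mono
      intro v hv
      refine ⟨T.pi v, hv.1, rfl, ?_⟩
      have h2 := abs_le.1 hv.2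
      rw [TS.M] at h2
      constructor <;> linarith [h2.1, h2.2]
    refine h1.trans (den_exists_le_card _ _ ?_)
    intro q
    by_cases hq : T.pi u = q
    · rw [den_eq_zero]
      · exact hb
      · intro v hv
        exact hv.1 hq
    · have h3 := T.sp q (T.pi u) (fun h => hq h.symm) (-T.th u q - η) (2 * η) (by linarith)
      refine (den_mono ?_).trans h3
      intro v hv
      exact ⟨hv.2.1, hv.2.2.1, hv.2.2.2⟩
  linarith

end Pool.Agent.IC4
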