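import Pool.Agent.IC4.MLK
import Pool.Agent.IC4.Clear

set_option autoImplicit false

namespace Pool.Agent.IC4

variable {V K : Type} [Fintype V] (T : TS V K)

/-- all windows below index 450 are good for `V2` -/
theorem wins_of_ctx {s : ℕ → ℝ} {N : ℕ} {V1 V2 : V → Prop} (hC : T.Ctx s N V1)
    (h21 : ∀ u, V2 u → V1 u) (hTF : T.TF V2 (s 450)) : T.Wins s V2 450 N := by
  intro i j hi hij hjN
  have hs : Sc s := hC.1
  have hij' : i < j := by omega
  have hlt : s j < s i := hs.lt hij'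
  have h12 : s j ≤ s (i + 12) := hs.anti hij
  have h12i : s (i + 12) ≤ s i := hs.anti (by omega)
  have h450 : s (i + 12) ≤ s 450 := hs.anti (by omega)
  have hj450 : s j ≤ s 450 := hs.anti (by omega)
  have htf : T.TF V2 (s j) := by
    intro a b c ha hb hc h
    exact hTF a b c ha hb hc ⟨Tt_mono T hj450 h.1, Tt_mono T hj450 h.2.1, Tt_mono T hj450 h.2.2⟩
  refine ⟨hs.pos j, hlt, htf, ?_⟩
  intro a b c d ha hb hc hd hab hcd hac had hbc hbd
  have tri : ∀ x y z, V2 x → V2 y → V2 z → T.Tt (s (i + 12)) x y → T.Tt (s (i + 12)) y z →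
      T.Tt (s (i + 12)) x z → False := by
    intro x y z hx hy hz h1 h2 h3
    exact hTF x y z hx hy hz ⟨Tt_mono T h450 h1, Tt_mono T h450 h2, Tt_mono T h450 h3⟩
  have m1 : ∀ {x y : V}, T.Tt (s j) x y → T.Tt (s (i + 12)) x y := fun h => Tt_mono T h12 h
  -- tight at the intermediate level
  have kF : ∀ {x y : V}, (T.Tt (s j) x y ∨ T.Ff (s i) x y) → T.Tt (s (i + 12)) x y →
      T.Tt (s j) x y := by
    intro x y h h'
    rcases h with h | h
    · exact h
    · exact absurd h' (not_Tt_of_Ff T h12i h)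
  have kE : ∀ {x y : V}, (T.Tt (s j) x y ∨ T.Ee (s i) x y) → T.Tt (s (i + 12)) x y →
      T.Tt (s j) x y := by
    intro x y h h'
    rcases h with h | h
    · exact h
    · exact absurd h' (not_Tt_of_Ee T h12i h)
  have hml := ml T hC (i := i) (by omega) (h21 a ha) (h21 b hb) (h21 c hc) (h21 d hd)
    (hab.imp_left m1) (hcd.imp_left m1) (hac.imp_left m1) (had.imp_left m1) (hbc.imp_left m1)
    (hbd.imp_left m1)
  rcases hml with h | h | h | h | h | h | h
  · exact (tri a b c ha hb hc h.1 h.2.1 h.2.2).elim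
  · exact (tri a b d ha hb hd h.1 h.2.1 h.2.2).elim
  · exact (tri a c d ha hc hd h.1 h.2.1 h.2.2).elim
  · exact (tri b c d hb hc hd h.1 h.2.1 h.2.2).elim
  · obtain ⟨h1, h2, h3, h4⟩ := h
    left
    refine ⟨kF hab h1, kE hbc h2, kF hcd h3, kE had h4, ?_, ?_⟩
    · rcases hac with h5 | h5
      · exact (tri a b c ha hb hc h1 h2 (m1 h5)).elim
      · exact h5
    · rcases hbd with h5 | h5
      · exact (tri b c d hb hc hd h2 h3 (m1 h5)).elim
      · exact h5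
  · obtain ⟨h1, h2, h3, h4⟩ := h
    right; left
    refine ⟨kF hab h1, kE hbd h2, kF hcd h3, kE hac h4, ?_, ?_⟩
    · rcases had with h5 | h5
      · exact (tri a b d ha hb hd h1 h2 (m1 h5)).elim
      · exact h5
    · rcases hbc with h5 | h5
      · exact (tri a b c ha hb hc h1 (m1 h5) h4).elim
      · exact h5
  · obtain ⟨h1, h2, h3, h4⟩ := h
    right; right
    refine ⟨kE hac h1, kE hbc h2, kE hbd h3, kE had h4, ?_, ?_⟩
    · rcases hab with h5 | h5
      · exact (tri a b c ha hb hc (m1 h5) h2 h1).elim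
      · exact h5
    · rcases hcd with h5 | h5
      · exact (tri a c d ha hc hd h1 (m1 h5) h4).elim
      · exact h5

/-- Section IV.5 -/
theorem P5 {V2 : V → Prop} {lo hi : ℝ} (hW : T.Win V2 lo hi) {c x y z : V}
    (hc : V2 c) (hx : V2 x) (hy : V2 y) (hz : V2 z)
    (tx : T.Tt lo c x) (ty : T.Tt lo c y) (tz : T.Tt lo c z)
    (exy : T.Ee hi x y) (exz : T.Ee hi x z) (hcl : T.Clr lo hi y z) : T.Ee hi y z := by
  have hle := hW.lohi.le
  rcases hcl with h | h | h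
  · exact (hW.tf c y z hc hy hz ⟨ty, h, tz⟩).elim
  · exact h
  · exfalso
    rcases hW.ml c x y z hc hx hy hz (Or.inl tx) (Or.inr h) (Or.inl ty) (Or.inl tz) (Or.inr exy)
      (Or.inr exz) with h1 | h1 | h1
    · exact not_Tt_of_Ee T hle exy h1.2.1
    · exact not_Tt_of_Ee T hle exz h1.2.1
    · exact not_Tt_of_Ee T hle exy h1.2.1

/-- Section IV.5 -/
theorem P6 {V2 : V → Prop} {lo hi : ℝ} (hW : T.Win V2 lo hi) {x₁ y₁ x₂ y₂ : V}
    (hx₁ : V2 x₁) (hy₁ : V2 y₁) (hx₂ : V2 x₂) (hy₂ : V2 y₂)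
    (t11 : T.Tt lo x₁ y₁) (t21 : T.Tt lo x₂ y₁) (t22 : T.Tt lo x₂ y₂)
    (ex : T.Ee hi x₁ x₂) (ey : T.Ee hi y₁ y₂) (hcl : T.Clr lo hi x₁ y₂) : T.Tt lo x₁ y₂ := by
  have hle := hW.lohi.le
  rcases hcl with h | h | h
  · exact h
  · exfalso
    rcases hW.ml x₁ y₁ x₂ y₂ hx₁ hy₁ hx₂ hy₂ (Or.inl t11) (Or.inl t22) (Or.inr ex) (Or.inr h)
      (Or.inl ((Tt_comm T).1 t21)) (Or.inr ey) with h1 | h1 | h1
    · exact not_Tt_of_Ee T hle h h1.2.2.2.1
    · exact not_Tt_of_Ee T hle ey h1.2.1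
    · exact not_Tt_of_Ee T hle ex h1.1
  · exfalso
    rcases hW.ml x₁ y₂ x₂ y₁ hx₁ hy₂ hx₂ hy₁ (Or.inr h) (Or.inl t21) (Or.inr ex) (Or.inl t11)
      (Or.inl ((Tt_comm T).1 t22)) (Or.inr ((Ee_comm T).1 ey)) with h1 | h1 | h1
    · exact not_Tt_of_Ff T hle h h1.1
    · exact not_Tt_of_Ff T hle h h1.1
    · exact not_Tt_of_Ee T hle ex h1.1

end Pool.Agent.IC4
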