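import Pool.Agent.IC4.MLO

set_option autoImplicit false

namespace Pool.Agent.IC4

section MLKAux

/-- adjacency matrix of a graph on four vertices -/
private def MLK_g (ab ac ad bc bd cd : Bool) : Fin 4 → Fin 4 → Bool :=
  ![![false, ab, ac, ad], ![ab, false, bc, bd], ![ac, bc, false, cd], ![ad, bd, cd, false]]

private def MLK_perms : List (Fin 4 → Fin 4) :=
  [![0, 1, 2, 3], ![0, 2, 1, 3], ![1, 2, 0, 3],
   ![0, 1, 3, 2], ![0, 3, 1, 2], ![1, 3, 0, 2],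
   ![0, 2, 3, 1], ![0, 3, 2, 1], ![2, 3, 0, 1],
   ![1, 2, 3, 0], ![1, 3, 2, 0], ![2, 3, 1, 0]]

private lemma MLK_inj : ∀ σ ∈ MLK_perms, ∀ i j : Fin 4, σ i = σ j → i = j := by decide +kernel

private def MLK_ok (g : Fin 4 → Fin 4 → Bool) (σ : Fin 4 → Fin 4) : Prop :=
  (g (σ 0) (σ 2) && g (σ 1) (σ 2)) = false ∧ (g (σ 0) (σ 3) && g (σ 1) (σ 3)) = false ∧
    (g (σ 0) (σ 3) && g (σ 2) (σ 3)) = false ∧ (g (σ 1) (σ 3) && g (σ 2) (σ 3)) = false

private instance (g : Fin 4 → Fin 4 → Bool) (σ : Fin 4 → Fin 4) : Decidable (MLK_ok g σ) := by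
  unfold MLK_ok; infer_instance

private lemma MLK_order : ∀ ab ac ad bc bd cd : Bool, (ab && bc && ac) = false →
    (ab && bd && ad) = false → (ac && cd && ad) = false → (bc && cd && bd) = false →
    (ab && bc && cd && ad) = false → (ab && bd && cd && ac) = false →
    (ac && bc && bd && ad) = false →
    ∃ σ ∈ MLK_perms, MLK_ok (MLK_g ab ac ad bc bd cd) σ := by decide +kernel

private lemma MLK_b3 (p q r : Prop) [Decidable p] [Decidable q] [Decidable r]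
    (h : p → q → ¬ r) : (decide p && decide q && decide r) = false := by
  by_cases hp : p <;> by_cases hq : q <;> simp_all

private lemma MLK_b4 (p q r t : Prop) [Decidable p] [Decidable q] [Decidable r] [Decidable t]
    (h : p → q → r → ¬ t) : (decide p && decide q && decide r && decide t) = false := by
  by_cases hp : p <;> by_cases hq : q <;> by_cases hr : r <;> simp_all

private lemma MLK_one (t : Fin 4 → Fin 4 → Prop) (σ : Fin 4 → Fin 4)
    (h1 : ¬ (t (σ 0) (σ 2) ∧ t (σ 1) (σ 2))) (h2 : ¬ (t (σ 0) (σ 3) ∧ t (σ 1) (σ 3)))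
    (h3 : ¬ (t (σ 0) (σ 3) ∧ t (σ 2) (σ 3))) (h4 : ¬ (t (σ 1) (σ 3) ∧ t (σ 2) (σ 3))) :
    ∀ j l l' : Fin 4, l < j → l' < j → l ≠ l' → ¬ (t (σ l) (σ j) ∧ t (σ l') (σ j)) := by
  intro j l l' e1 e2 e3
  fin_cases j <;> fin_cases l <;> fin_cases l' <;> simp at e1 e2 e3 ⊢ <;> tauto

private lemma MLK_combi (t : Fin 4 → Fin 4 → Prop) (hirr : ∀ r, ¬ t r r)
    (hsym : ∀ r r', t r r' → t r' r)
    (c1 : t 0 1 → t 1 2 → ¬ t 0 2) (c2 : t 0 1 → t 1 3 → ¬ t 0 3)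
    (c3 : t 0 2 → t 2 3 → ¬ t 0 3) (c4 : t 1 2 → t 2 3 → ¬ t 1 3)
    (c5 : t 0 1 → t 1 2 → t 2 3 → ¬ t 0 3) (c6 : t 0 1 → t 1 3 → t 2 3 → ¬ t 0 2)
    (c7 : t 0 2 → t 1 2 → t 1 3 → ¬ t 0 3) :
    ∃ σ : Fin 4 → Fin 4, Function.Injective σ ∧
      ∀ j l l' : Fin 4, l < j → l' < j → l ≠ l' → ¬ (t (σ l) (σ j) ∧ t (σ l') (σ j)) := by
  classical
  obtain ⟨σ, hσ, o1, o2, o3, o4⟩ := MLK_order (decide (t 0 1)) (decide (t 0 2))
    (decide (t 0 3)) (decide (t 1 2)) (decide (t 1 3)) (decide (t 2 3))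
    (MLK_b3 _ _ _ c1) (MLK_b3 _ _ _ c2) (MLK_b3 _ _ _ c3) (MLK_b3 _ _ _ c4)
    (MLK_b4 _ _ _ _ c5) (MLK_b4 _ _ _ _ c6) (MLK_b4 _ _ _ _ c7)
  have hgt : ∀ r r', t r r' → MLK_g (decide (t 0 1)) (decide (t 0 2))
      (decide (t 0 3)) (decide (t 1 2)) (decide (t 1 3)) (decide (t 2 3)) r r' = true := by
    intro r r' h
    fin_cases r <;> fin_cases r'
    · exact absurd h (hirr _)
    · exact decide_eq_true h
    · exact decide_eq_true h
    · exact decide_eq_true h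
    · exact decide_eq_true (hsym _ _ h)
    · exact absurd h (hirr _)
    · exact decide_eq_true h
    · exact decide_eq_true h
    · exact decide_eq_true (hsym _ _ h)
    · exact decide_eq_true (hsym _ _ h)
    · exact absurd h (hirr _)
    · exact decide_eq_true h
    · exact decide_eq_true (hsym _ _ h)
    · exact decide_eq_true (hsym _ _ h)
    · exact decide_eq_true (hsym _ _ h)
    · exact absurd h (hirr _)
  generalize MLK_g (decide (t 0 1)) (decide (t 0 2))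
      (decide (t 0 3)) (decide (t 1 2)) (decide (t 1 3)) (decide (t 2 3)) = g at *
  have conv : ∀ r1 r2 r3 r4, (g r1 r2 && g r3 r4) = false → ¬ (t r1 r2 ∧ t r3 r4) := by
    rintro r1 r2 r3 r4 h ⟨h1, h2⟩
    rw [hgt _ _ h1, hgt _ _ h2] at h
    exact Bool.noConfusion h
  exact ⟨σ, fun i j h => MLK_inj σ hσ i j h, MLK_one t σ (conv _ _ _ _ o1) (conv _ _ _ _ o2)
    (conv _ _ _ _ o3) (conv _ _ _ _ o4)⟩

variable {V K : Type} [Fintype V] (T : TS V K)

private lemma MLK_Mcomm (u v : V) : T.M u v = T.M v u := by unfold TS.M; ring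

private lemma MLK_adj (u v : V) : T.adj u v ↔ T.adj v u := by
  unfold TS.adj
  rw [MLK_Mcomm T u v, ne_comm]

private lemma MLK_Tt {lo : ℝ} {u v : V} (h : T.Tt lo u v) : T.Tt lo v u := by
  refine ⟨h.1.symm, ?_⟩
  rw [MLK_Mcomm T v u]
  exact h.2

private lemma MLK_Ff {lo : ℝ} {u v : V} (h : T.Ff lo u v) : T.Ff lo v u := by
  refine ⟨h.1.symm, ?_⟩
  rw [MLK_Mcomm T v u]
  exact h.2

private lemma MLK_Ee {lo : ℝ} {u v : V} (h : T.Ee lo u v) : T.Ee lo v u := by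
  rcases h with h | h
  · exact Or.inl h.symm
  · refine Or.inr ?_
    rw [MLK_Mcomm T v u]
    exact h

/-- the wanted pattern -/
private def MLK_E (r r' : Fin 4) : Prop := (r : ℕ) / 2 = (r' : ℕ) / 2

private lemma MLK_core {s : ℕ → ℝ} {N : ℕ}
    {V1 : V → Prop} (hC : T.Ctx s N V1) {i : ℕ} (hi : i + 12 ≤ N) (f : Fin 4 → V)
    (hf : ∀ r, V1 (f r))
    (hp : ∀ r r', r ≠ r' → T.Tt (s (i + 12)) (f r) (f r') ∨
      (MLK_E r r' ∧ T.Ff (s i) (f r) (f r')) ∨ (¬ MLK_E r r' ∧ T.Ee (s i) (f r) (f r')))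
    (hd : ∀ r, ∃ r', T.pi (f r') ≠ T.pi (f r))
    (σ : Fin 4 → Fin 4) (hσ : Function.Injective σ)
    (hone : ∀ j l l' : Fin 4, l < j → l' < j → l ≠ l' →
      ¬ (T.Tt (s (i + 12)) (f (σ l)) (f (σ j)) ∧ T.Tt (s (i + 12)) (f (σ l')) (f (σ j)))) :
    False := by
  obtain ⟨hs, hNE, hK⟩ := hC
  have hbij : Function.Bijective σ := Finite.injective_iff_bijective.1 hσ
  obtain ⟨τ, hτσ, hστ⟩ := Function.bijective_iff_has_inverse.1 hbij
  obtain ⟨P, hP, hPy⟩ := ml_ordered T hs hNE hi (fun j => f (σ j)) (fun j => hf _)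
    (fun j l => MLK_E (σ j) (σ l)) (fun j l hjl => hp _ _ (fun h => hjl.ne (hσ h))) hone
    (fun j => by
      obtain ⟨r', hr'⟩ := hd (σ j)
      refine ⟨τ r', ?_⟩
      rw [hστ r']
      exact hr')
  have hbox := dK2_box (r := T.adj) (P₁ := P (τ 0)) (P₂ := P (τ 1)) (P₃ := P (τ 2))
    (P₄ := P (τ 3)) (by
      intro a' b' c' d' ha hb hc hd'
      have hFP : ∀ r, P (τ r) ((![a', b', c', d'] : Fin 4 → V) r) := by
        intro r
        fin_cases r
        · exact ha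
        · exact hb
        · exact hc
        · exact hd'
      have hy := hPy (fun j => (![a', b', c', d'] : Fin 4 → V) (σ j)) (fun j => by
        have := hFP (σ j)
        rwa [hτσ] at this)
      have key : ∀ r r' : Fin 4, r ≠ r' → (T.adj ((![a', b', c', d'] : Fin 4 → V) r)
          ((![a', b', c', d'] : Fin 4 → V) r') ↔ MLK_E r r') := by
        intro r r' hr
        have hne : τ r ≠ τ r' := fun h => hr (by rw [← hστ r, ← hστ r', h])
        rcases lt_or_gt_of_ne hne with h | h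
        · have := hy _ _ h
          rw [hστ r, hστ r'] at this
          exact this
        · have := hy _ _ h
          rw [hστ r, hστ r'] at this
          rw [MLK_adj, this]
          exact eq_comm
      have E01 : MLK_E 0 1 := by unfold MLK_E; decide
      have E23 : MLK_E 2 3 := by unfold MLK_E; decide
      have E02 : ¬ MLK_E 0 2 := by unfold MLK_E; decide
      have E03 : ¬ MLK_E 0 3 := by unfold MLK_E; decide
      have E12 : ¬ MLK_E 1 2 := by unfold MLK_E; decide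
      have E13 : ¬ MLK_E 1 3 := by unfold MLK_E; decide
      exact ⟨(key 0 1 (by decide)).2 E01, (key 2 3 (by decide)).2 E23,
        fun h => E02 ((key 0 2 (by decide)).1 h), fun h => E03 ((key 0 3 (by decide)).1 h),
        fun h => E12 ((key 1 2 (by decide)).1 h), fun h => E13 ((key 1 3 (by decide)).1 h)⟩)
  have hN : s N ≤ s (i + 12) := hs.anti hi
  have h0 := (hs.pos N).le
  have g : ∀ j, s N ≤ den (P j) := fun j => hN.trans (hP j)
  have g0 : ∀ j, 0 ≤ den (P j) := fun j => den_nonneg _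
  have : (s N) ^ 4 ≤ dK2 T.adj := by
    calc (s N) ^ 4 = s N * s N * s N * s N := by ring
      _ ≤ den (P (τ 0)) * den (P (τ 1)) * den (P (τ 2)) * den (P (τ 3)) := by
        have k1 := mul_le_mul (g (τ 0)) (g (τ 1)) h0 (g0 _)
        have k2 := mul_le_mul k1 (g (τ 2)) h0 (mul_nonneg (g0 _) (g0 _))
        exact mul_le_mul k2 (g (τ 3)) h0 (mul_nonneg (mul_nonneg (g0 _) (g0 _)) (g0 _))
      _ ≤ dK2 T.adj := hbox
  linarith

end MLKAux

/-- Section IV.2: the tight graph of a `2K₂` pattern contains a triangle or a 4-cycle. -/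
theorem ml {V K : Type} [Fintype V] (T : TS V K) {s : ℕ → ℝ} {N : ℕ}
    {V1 : V → Prop} (hC : T.Ctx s N V1) {i : ℕ} (hi : i + 12 ≤ N) {a b c d : V}
    (ha : V1 a) (hb : V1 b) (hc : V1 c) (hd : V1 d)
    (hab : T.Tt (s (i + 12)) a b ∨ T.Ff (s i) a b) (hcd : T.Tt (s (i + 12)) c d ∨ T.Ff (s i) c d)
    (hac : T.Tt (s (i + 12)) a c ∨ T.Ee (s i) a c) (had : T.Tt (s (i + 12)) a d ∨ T.Ee (s i) a d)
    (hbc : T.Tt (s (i + 12)) b c ∨ T.Ee (s i) b c) (hbd : T.Tt (s (i + 12)) b d ∨ T.Ee (s i) b d) :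
    (T.Tt (s (i + 12)) a b ∧ T.Tt (s (i + 12)) b c ∧ T.Tt (s (i + 12)) a c) ∨
    (T.Tt (s (i + 12)) a b ∧ T.Tt (s (i + 12)) b d ∧ T.Tt (s (i + 12)) a d) ∨
    (T.Tt (s (i + 12)) a c ∧ T.Tt (s (i + 12)) c d ∧ T.Tt (s (i + 12)) a d) ∨
    (T.Tt (s (i + 12)) b c ∧ T.Tt (s (i + 12)) c d ∧ T.Tt (s (i + 12)) b d) ∨
    (T.Tt (s (i + 12)) a b ∧ T.Tt (s (i + 12)) b c ∧ T.Tt (s (i + 12)) c d ∧ T.Tt (s (i + 12)) a d) ∨
    (T.Tt (s (i + 12)) a b ∧ T.Tt (s (i + 12)) b d ∧ T.Tt (s (i + 12)) c d ∧ T.Tt (s (i + 12)) a c) ∨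
    (T.Tt (s (i + 12)) a c ∧ T.Tt (s (i + 12)) b c ∧ T.Tt (s (i + 12)) b d ∧ T.Tt (s (i + 12)) a d) := by
  by_contra hcon
  push Not at hcon
  obtain ⟨c1, c2, c3, c4, c5, c6, c7⟩ := hcon
  obtain ⟨σ, hσ, hone⟩ := MLK_combi
    (fun r r' => T.Tt (s (i + 12)) ((![a, b, c, d] : Fin 4 → V) r) ((![a, b, c, d] : Fin 4 → V) r'))
    (fun r h => h.1 rfl) (fun r r' h => MLK_Tt T h) c1 c2 c3 c4 c5 c6 c7
  have E01 : MLK_E 0 1 := by unfold MLK_E; decide
  have E10 : MLK_E 1 0 := by unfold MLK_E; decide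
  have E23 : MLK_E 2 3 := by unfold MLK_E; decide
  have E32 : MLK_E 3 2 := by unfold MLK_E; decide
  have E02 : ¬ MLK_E 0 2 := by unfold MLK_E; decide
  have E03 : ¬ MLK_E 0 3 := by unfold MLK_E; decide
  have E12 : ¬ MLK_E 1 2 := by unfold MLK_E; decide
  have E13 : ¬ MLK_E 1 3 := by unfold MLK_E; decide
  have E20 : ¬ MLK_E 2 0 := by unfold MLK_E; decide
  have E30 : ¬ MLK_E 3 0 := by unfold MLK_E; decide
  have E21 : ¬ MLK_E 2 1 := by unfold MLK_E; decide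
  have E31 : ¬ MLK_E 3 1 := by unfold MLK_E; decide
  have sF : ∀ {u v : V} (r r' : Fin 4), MLK_E r r' → (T.Tt (s (i + 12)) u v ∨ T.Ff (s i) u v) →
      T.Tt (s (i + 12)) u v ∨ (MLK_E r r' ∧ T.Ff (s i) u v) ∨ (¬ MLK_E r r' ∧ T.Ee (s i) u v) := by
    rintro u v r r' h (h1 | h1)
    · exact Or.inl h1
    · exact Or.inr (Or.inl ⟨h, h1⟩)
  have sE : ∀ {u v : V} (r r' : Fin 4), ¬ MLK_E r r' → (T.Tt (s (i + 12)) u v ∨ T.Ee (s i) u v) →
      T.Tt (s (i + 12)) u v ∨ (MLK_E r r' ∧ T.Ff (s i) u v) ∨ (¬ MLK_E r r' ∧ T.Ee (s i) u v) := by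
    rintro u v r r' h (h1 | h1)
    · exact Or.inl h1
    · exact Or.inr (Or.inr ⟨h, h1⟩)
  have cF : ∀ {u v : V}, (T.Tt (s (i + 12)) u v ∨ T.Ff (s i) u v) →
      (T.Tt (s (i + 12)) v u ∨ T.Ff (s i) v u) := fun h => h.imp (MLK_Tt T) (MLK_Ff T)
  have cE : ∀ {u v : V}, (T.Tt (s (i + 12)) u v ∨ T.Ee (s i) u v) →
      (T.Tt (s (i + 12)) v u ∨ T.Ee (s i) v u) := fun h => h.imp (MLK_Tt T) (MLK_Ee T)
  have hp : ∀ r r', r ≠ r' → T.Tt (s (i + 12)) ((![a, b, c, d] : Fin 4 → V) r)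
      ((![a, b, c, d] : Fin 4 → V) r') ∨
      (MLK_E r r' ∧ T.Ff (s i) ((![a, b, c, d] : Fin 4 → V) r) ((![a, b, c, d] : Fin 4 → V) r')) ∨
      (¬ MLK_E r r' ∧
        T.Ee (s i) ((![a, b, c, d] : Fin 4 → V) r) ((![a, b, c, d] : Fin 4 → V) r')) := by
    intro r r' hr
    fin_cases r <;> fin_cases r'
    · exact absurd rfl hr
    · exact sF 0 1 E01 hab
    · exact sE 0 2 E02 hac
    · exact sE 0 3 E03 had
    · exact sF 1 0 E10 (cF hab)
    · exact absurd rfl hr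
    · exact sE 1 2 E12 hbc
    · exact sE 1 3 E13 hbd
    · exact sE 2 0 E20 (cE hac)
    · exact sE 2 1 E21 (cE hbc)
    · exact absurd rfl hr
    · exact sF 2 3 E23 hcd
    · exact sE 3 0 E30 (cE had)
    · exact sE 3 1 E31 (cE hbd)
    · exact sF 3 2 E32 (cF hcd)
    · exact absurd rfl hr
  have nab : T.pi a ≠ T.pi b := by
    rcases hab with h | h
    · exact h.1
    · exact h.1
  have ncd : T.pi c ≠ T.pi d := by
    rcases hcd with h | h
    · exact h.1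
    · exact h.1
  have hdif : ∀ r, ∃ r', T.pi ((![a, b, c, d] : Fin 4 → V) r') ≠
      T.pi ((![a, b, c, d] : Fin 4 → V) r) := by
    intro r
    fin_cases r
    · exact ⟨1, nab.symm⟩
    · exact ⟨0, nab⟩
    · exact ⟨3, ncd.symm⟩
    · exact ⟨2, ncd⟩
  have hV : ∀ r, V1 ((![a, b, c, d] : Fin 4 → V) r) := by
    intro r
    fin_cases r
    · exact ha
    · exact hb
    · exact hc
    · exact hd
  exact MLK_core T hC hi _ hV hp hdif σ hσ hone

end Pool.Agent.IC4
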