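import Pool.Agent.IC4.Scale

set_option autoImplicit false

namespace Pool.Agent.IC4

theorem MLO_cover : ∀ l l0 : Fin 4, l ≠ l0 → ∃ l2 l3 : Fin 4, ∀ l' : Fin 4, l' ≠ l →
    l' = l0 ∨ l' = l2 ∨ l' = l3 := by
  decide

/-- one role -/
theorem MLO_role {V K : Type} [Fintype V] (T : TS V K) {s : ℕ → ℝ} {N : ℕ}
    {V1 : V → Prop} (hNE : T.NE s N (fun _ => True) V1) {k : ℕ} (hk : k < N)
    (x : Fin 4 → V) (l l0 : Fin 4) (hl : V1 (x l)) (hp : T.pi (x l0) ≠ T.pi (x l)) (up : Prop) :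
    ∃ P : V → Prop, s (k + 1) ≤ den P ∧ ∀ y, P y → T.pi y = T.pi (x l) ∧
      (∀ l', l' ≠ l → |T.th y (T.pi (x l')) - T.th (x l) (T.pi (x l'))| ≤ s k) ∧
      (up → T.th (x l) (T.pi (x l0)) + s (k + 1) ≤ T.th y (T.pi (x l0))) ∧
      (¬ up → T.th y (T.pi (x l0)) ≤ T.th (x l) (T.pi (x l0)) - s (k + 1)) := by
  have hne : l ≠ l0 := by
    rintro rfl
    exact hp rfl
  obtain ⟨l2, l3, hcov⟩ := MLO_cover l l0 hne
  obtain ⟨h1, h2⟩ := hNE (x l) hl k hk (T.pi (x l0)) (T.pi (x l2)) (T.pi (x l3)) hp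
  have near : ∀ y, T.Near (s k) (T.pi (x l0)) (T.pi (x l2)) (T.pi (x l3)) (x l) y →
      T.pi y = T.pi (x l) ∧
      (∀ l', l' ≠ l → |T.th y (T.pi (x l')) - T.th (x l) (T.pi (x l'))| ≤ s k) := by
    rintro y ⟨n0, n1, n2, n3⟩
    refine ⟨n0, fun l' hl' => ?_⟩
    rcases hcov l' hl' with rfl | rfl | rfl
    · exact n1
    · exact n2
    · exact n3
  by_cases hup : up
  · refine ⟨_, h2, ?_⟩
    rintro y ⟨-, hn, hy⟩
    exact ⟨(near y hn).1, (near y hn).2, fun _ => hy, fun h => absurd hup h⟩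
  · refine ⟨_, h1, ?_⟩
    rintro y ⟨-, hn, hy⟩
    exact ⟨(near y hn).1, (near y hn).2, fun h => absurd h hup, fun _ => hy⟩

/-- Section IV.2, ordered version: four roles `x 0, x 1, x 2, x 3`, every role has at most one earlier
tight neighbour; the wanted pattern `e` is realised by a box of density `≥ s (i+12)` in each factor. -/
theorem ml_ordered {V K : Type} [Fintype V] (T : TS V K) {s : ℕ → ℝ} (hs : Sc s) {N : ℕ}
    {V1 : V → Prop} (hNE : T.NE s N (fun _ => True) V1) {i : ℕ} (hi : i + 12 ≤ N)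
    (x : Fin 4 → V) (hx : ∀ j, V1 (x j)) (e : Fin 4 → Fin 4 → Prop)
    (hpair : ∀ j l, j < l → T.Tt (s (i + 12)) (x j) (x l) ∨ (e j l ∧ T.Ff (s i) (x j) (x l)) ∨
      (¬ e j l ∧ T.Ee (s i) (x j) (x l)))
    (hone : ∀ j l l', l < j → l' < j → l ≠ l' →
      ¬ (T.Tt (s (i + 12)) (x l) (x j) ∧ T.Tt (s (i + 12)) (x l') (x j)))
    (hdiff : ∀ j, ∃ l, T.pi (x l) ≠ T.pi (x j)) :
    ∃ P : Fin 4 → V → Prop, (∀ j, s (i + 12) ≤ den (P j)) ∧
      ∀ y : Fin 4 → V, (∀ j, P j (y j)) → ∀ j l, j < l → (T.adj (y j) (y l) ↔ e j l) := by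
  obtain ⟨k, hk⟩ : ∃ k : Fin 4 → ℕ, ∀ j : Fin 4, k j = i + (10 - 3 * (j : ℕ)) := ⟨_, fun _ => rfl⟩
  have hkN : ∀ j, k j < N := by
    intro j
    rw [hk]
    omega
  have hP : ∀ l : Fin 4, ∃ P : V → Prop, s (k l + 1) ≤ den P ∧ ∀ y, P y → T.pi y = T.pi (x l) ∧
      (∀ l', l' ≠ l → |T.th y (T.pi (x l')) - T.th (x l) (T.pi (x l'))| ≤ s (k l)) ∧
      (∀ j, j < l → T.Tt (s (i + 12)) (x j) (x l) →
        (e j l → T.th (x l) (T.pi (x j)) + s (k l + 1) ≤ T.th y (T.pi (x j))) ∧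
        (¬ e j l → T.th y (T.pi (x j)) ≤ T.th (x l) (T.pi (x j)) - s (k l + 1))) := by
    intro l
    by_cases h : ∃ j, j < l ∧ T.Tt (s (i + 12)) (x j) (x l)
    · obtain ⟨j, hj, ht⟩ := h
      obtain ⟨P, h1, h2⟩ := MLO_role T hNE (hkN l) x l j (hx l) ht.1 (e j l)
      refine ⟨P, h1, fun y hy => ?_⟩
      obtain ⟨a1, a2, a3, a4⟩ := h2 y hy
      refine ⟨a1, a2, fun j' hj' ht' => ?_⟩
      have : j' = j := by
        by_contra hne
        exact hone l j' j hj' hj hne ⟨ht', ht⟩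
      subst this
      exact ⟨a3, a4⟩
    · obtain ⟨l0, hl0⟩ := hdiff l
      obtain ⟨P, h1, h2⟩ := MLO_role T hNE (hkN l) x l l0 (hx l) hl0 True
      refine ⟨P, h1, fun y hy => ?_⟩
      obtain ⟨a1, a2, a3, a4⟩ := h2 y hy
      exact ⟨a1, a2, fun j' hj' ht' => (h ⟨j', hj', ht'⟩).elim⟩
  choose P hP1 hP2 using hP
  refine ⟨P, fun j => (hs.anti ?_).trans (hP1 j), ?_⟩
  · rw [hk]
    omega
  intro y hy j l hjl
  obtain ⟨a1, a2, -⟩ := hP2 j (y j) (hy j)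
  obtain ⟨b1, b2, b3⟩ := hP2 l (y l) (hy l)
  have hne : l ≠ j := (ne_of_lt hjl).symm
  have c1 := abs_le.1 (a2 l hne)
  have c2 := abs_le.1 (b2 j hne.symm)
  have hM : T.M (y j) (y l) = T.th (y j) (T.pi (x l)) + T.th (y l) (T.pi (x j)) := by
    unfold TS.M
    rw [a1, b1]
  have hMx : T.M (x j) (x l) = T.th (x j) (T.pi (x l)) + T.th (x l) (T.pi (x j)) := rfl
  have hkj : k l + 3 ≤ k j := by
    rw [hk, hk]
    have h1 : (j : ℕ) < (l : ℕ) := hjl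
    have h2 : (l : ℕ) < 4 := l.2
    omega
  have hki : ∀ j : Fin 4, i + 1 ≤ k j := by
    intro j
    rw [hk]
    have h2 : (j : ℕ) < 4 := j.2
    omega
  have e1 : s (k j) ≤ s i / 16 := hs.step' (hki j)
  have e2 : s (k l) ≤ s i / 16 := hs.step' (hki l)
  have e3 : s (k j) ≤ s (k l + 1) / 256 := hs.step2 hkj
  have e4 : s (i + 12) ≤ s (k l + 1) / 16 := by
    apply hs.step'
    rw [hk]
    omega
  have p1 := hs.pos i
  have p2 := hs.pos (k l + 1)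
  have hadj : T.adj (y j) (y l) ↔ T.pi (x j) ≠ T.pi (x l) ∧ 0 < T.M (y j) (y l) := by
    unfold TS.adj
    rw [a1, b1]
  rw [hadj]
  rcases hpair j l hjl with h | ⟨h1, h2⟩ | ⟨h1, h2⟩
  · obtain ⟨d1, d2⟩ := b3 j hjl h
    obtain ⟨t1, t2⟩ := h
    have t3 := abs_le.1 t2
    by_cases he : e j l
    · have d3 := d1 he
      refine iff_of_true ⟨t1, ?_⟩ he
      rw [hM]
      rw [hMx] at t3
      linarith
    · have d3 := d2 he
      refine iff_of_false ?_ he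
      rintro ⟨-, h0⟩
      rw [hM] at h0
      rw [hMx] at t3
      linarith
  · refine iff_of_true ⟨h2.1, ?_⟩ h1
    have h3 := h2.2
    rw [hMx] at h3
    rw [hM]
    linarith
  · refine iff_of_false ?_ h1
    rintro ⟨h3, h0⟩
    rcases h2 with h2 | h2
    · exact h3 h2
    · rw [hMx] at h2
      rw [hM] at h0
      linarith

end Pool.Agent.IC4
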