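import Pool.Agent.IC4.Chain

set_option autoImplicit false

namespace Pool.Agent.IC4

open scoped Classical

/-- weakening a 4-fold density to a 2-fold one -/
theorem Multi_aux_uu {V : Type} [Fintype V] (Q : V → V → Prop) :
    den (fun y : V × V × V × V => Q y.1 y.2.1) ≤ den (fun y : V × V => Q y.1 y.2) := by
  have h1 : den (fun y : (V × V) × (V × V) => Q y.1.1 y.1.2 ∧ True) =
      den (fun y : V × V => Q y.1 y.2) * den (fun _ : V × V => True) :=
    den_prod (fun y : V × V => Q y.1 y.2) (fun _ : V × V => True)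
  have h2 : den (fun y : V × V × V × V => Q y.1 y.2.1) =
      den (fun y : (V × V) × (V × V) => Q y.1.1 y.1.2 ∧ True) := by
    rw [← den_equiv (Equiv.prodAssoc V V (V × V)).symm
      (fun y : (V × V) × (V × V) => Q y.1.1 y.1.2 ∧ True)]
    exact den_congr (fun a => by simp)
  rw [h2, h1]
  exact mul_le_of_le_one_right (den_nonneg _) (den_le_one _)

theorem Multi_aux_zz {V : Type} [Fintype V] (Q : V → V → Prop) :
    den (fun y : V × V × V × V => Q y.2.2.1 y.2.2.2) ≤ den (fun y : V × V => Q y.1 y.2) := by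
  have h1 : den (fun y : (V × V) × (V × V) => True ∧ Q y.2.1 y.2.2) =
      den (fun _ : V × V => True) * den (fun y : V × V => Q y.1 y.2) :=
    den_prod (fun _ : V × V => True) (fun y : V × V => Q y.1 y.2)
  have h2 : den (fun y : V × V × V × V => Q y.2.2.1 y.2.2.2) =
      den (fun y : (V × V) × (V × V) => True ∧ Q y.2.1 y.2.2) := by
    rw [← den_equiv (Equiv.prodAssoc V V (V × V)).symm
      (fun y : (V × V) × (V × V) => True ∧ Q y.2.1 y.2.2)]
    exact den_congr (fun a => by simp)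
  rw [h2, h1]
  exact mul_le_of_le_one_left (den_nonneg _) (den_le_one _)

/-- exchange of the middle coordinates -/
def Multi_mid (V : Type) : V × V × V × V ≃ V × V × V × V where
  toFun y := (y.1, y.2.2.1, y.2.1, y.2.2.2)
  invFun y := (y.1, y.2.2.1, y.2.1, y.2.2.2)
  left_inv _ := rfl
  right_inv _ := rfl

theorem Multi_aux_K2 {V : Type} [Fintype V] (r : V → V → Prop) :
    den (fun y : V × V × V × V => K2 r y.1 y.2.2.1 y.2.1 y.2.2.2) = dK2 r := by
  unfold dK2
  rw [← den_equiv (Multi_mid V) (fun x : V × V × V × V => K2 r x.1 x.2.1 x.2.2.1 x.2.2.2)]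
  rfl

theorem Multi_zeta {V : Type} [Fintype V] (P Z : V → Prop) (r : V → V → Prop)
    (hs : ∀ u v, r u v → r v u) {δ : ℝ} (hδ0 : 0 ≤ δ) (hδ1 : δ ≤ 1) (hd : dK2 r ≤ δ ^ 2)
    (hP : den (fun y : V × V => P y.1 ∧ P y.2 ∧ r y.1 y.2) ≤ δ)
    (hZ : den (fun y : V × V => Z y.1 ∧ Z y.2 ∧ r y.1 y.2) ≤ δ) :
    den (fun y : V × V × V × V => P y.1 ∧ P y.2.1 ∧ Z y.2.2.1 ∧ Z y.2.2.2 ∧
      r y.1 y.2.2.1 ∧ r y.2.1 y.2.2.2 ∧ ¬ r y.1 y.2.2.2 ∧ ¬ r y.2.1 y.2.2.1) ≤ 3 * δ := by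
  have h1 : den (fun y : V × V × V × V => P y.1 ∧ P y.2.1 ∧ Z y.2.2.1 ∧ Z y.2.2.2 ∧
      r y.1 y.2.2.1 ∧ r y.2.1 y.2.2.2 ∧ ¬ r y.1 y.2.2.2 ∧ ¬ r y.2.1 y.2.2.1) ≤
      den (fun y : V × V × V × V => K2 r y.1 y.2.2.1 y.2.1 y.2.2.2) +
      den (fun y : V × V × V × V => (P y.1 ∧ P y.2.1 ∧ r y.1 y.2.1) ∨
        (Z y.2.2.1 ∧ Z y.2.2.2 ∧ r y.2.2.1 y.2.2.2)) := by
    apply den_le_add
    rintro ⟨u, u', z, z'⟩ ⟨hu, hu', hz, hz', h1, h2, h3, h4⟩
    simp only at hu hu' hz hz' h1 h2 h3 h4 ⊢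
    by_cases a : r u u'
    · exact Or.inr (Or.inl ⟨hu, hu', a⟩)
    by_cases b : r z z'
    · exact Or.inr (Or.inr ⟨hz, hz', b⟩)
    exact Or.inl ⟨h1, h2, a, h3, fun h => h4 (hs _ _ h), b⟩
  have h2 := den_or_le (fun y : V × V × V × V => (P y.1 ∧ P y.2.1 ∧ r y.1 y.2.1))
    (fun y : V × V × V × V => (Z y.2.2.1 ∧ Z y.2.2.2 ∧ r y.2.2.1 y.2.2.2))
  have h3 := Multi_aux_uu (fun u u' => P u ∧ P u' ∧ r u u')
  have h4 := Multi_aux_zz (fun u u' => Z u ∧ Z u' ∧ r u u')
  have h5 := Multi_aux_K2 r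
  have h6 : δ ^ 2 ≤ δ := by nlinarith
  linarith

/-- Part II: cleaning all pairs of parts -/
theorem chain_all {V : Type} [Fintype V] {k : ℕ} (p : V → Option (Fin k)) (r : V → V → Prop)
    (hs : ∀ u v, r u v → r v u) {x δ : ℝ} (hx : 0 ≤ x) (hδ0 : 0 ≤ δ) (hδ1 : δ ≤ 1)
    (hxδ : 3 * δ ≤ x ^ 4) (hd : dK2 r ≤ δ ^ 2)
    (hp : ∀ i : Fin k, den (fun y : V × V => p y.1 = some i ∧ p y.2 = some i ∧ r y.1 y.2) ≤ δ) :
    ∃ g : V → V → Prop, (∀ u v, g u v → g v u) ∧
      (∀ u v, g u v → p u ≠ p v ∧ p u ≠ none ∧ p v ≠ none) ∧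
      (∀ u u' v v', p u = p u' → p v = p v' → p u ≠ p v → g u v → g u' v' → g u v' ∨ g u' v) ∧
      den (fun y : V × V => p y.1 ≠ none ∧ p y.2 ≠ none ∧ ¬ (r y.1 y.2 ↔ g y.1 y.2)) ≤
        (k : ℝ) ^ 2 * (2 * x) + k * δ := by
  have key : ∀ i j : Fin k, ∃ r' : V → V → Prop,
      (∀ u u' z z', p u = some i → p u' = some i → p z = some j → p z' = some j →
        r' u z → r' u' z' → r' u z' ∨ r' u' z) ∧
      den (fun y : V × V => p y.1 = some i ∧ p y.2 = some j ∧ ¬ (r y.1 y.2 ↔ r' y.1 y.2)) ≤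
        2 * x := by
    intro i j
    have hz := Multi_zeta (fun u => p u = some i) (fun z => p z = some j) r hs hδ0 hδ1 hd
      (hp i) (hp j)
    obtain ⟨r', h1, h2⟩ := chain_clean (fun u => p u = some i) (fun z => p z = some j) r hx
      (hz.trans hxδ)
    exact ⟨r', h1, h2⟩
  choose R hR1 hR2 using key
  obtain ⟨g, hg⟩ : ∃ g : V → V → Prop, ∀ u v, g u v ↔
      ((∃ i j : Fin k, i < j ∧ p u = some i ∧ p v = some j ∧ R i j u v) ∨
      (∃ i j : Fin k, i < j ∧ p v = some i ∧ p u = some j ∧ R i j v u)) :=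
    ⟨_, fun _ _ => Iff.rfl⟩
  have hg1 : ∀ (i j : Fin k) (u v : V), i < j → p u = some i → p v = some j →
      (g u v ↔ R i j u v) := by
    intro i j u v hij hu hv
    rw [hg]
    constructor
    · intro h
      rcases h with h | h
      · obtain ⟨i', j', h1, h2, h3, h4⟩ := h
        have e1 : i = i' := Option.some.inj (hu.symm.trans h2)
        have e2 : j = j' := Option.some.inj (hv.symm.trans h3)
        rw [e1, e2]; exact h4
      · obtain ⟨i', j', h1, h2, h3, h4⟩ := h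
        have e1 : j = i' := Option.some.inj (hv.symm.trans h2)
        have e2 : i = j' := Option.some.inj (hu.symm.trans h3)
        rw [← e1, ← e2] at h1
        exact absurd h1 (lt_asymm hij)
    · intro h
      exact Or.inl ⟨i, j, hij, hu, hv, h⟩
  have hgs : ∀ u v, g u v → g v u := by
    intro u v h
    rw [hg] at h ⊢
    exact h.symm
  have hg2 : ∀ (i j : Fin k) (u v : V), j < i → p u = some i → p v = some j →
      (g u v ↔ R j i v u) := by
    intro i j u v hij hu hv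
    exact ⟨fun h => (hg1 j i v u hij hv hu).1 (hgs _ _ h),
      fun h => hgs _ _ ((hg1 j i v u hij hv hu).2 h)⟩
  have hg3 : ∀ u v, g u v → p u ≠ p v ∧ p u ≠ none ∧ p v ≠ none := by
    intro u v h
    rw [hg] at h
    rcases h with h | h
    · obtain ⟨i, j, h1, h2, h3, _⟩ := h
      refine ⟨fun h => ?_, ?_, ?_⟩
      · rw [h2, h3] at h
        exact absurd (Option.some.inj h) h1.ne
      · rw [h2]; exact Option.some_ne_none _
      · rw [h3]; exact Option.some_ne_none _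
    · obtain ⟨i, j, h1, h2, h3, _⟩ := h
      refine ⟨fun h => ?_, ?_, ?_⟩
      · rw [h2, h3] at h
        exact absurd (Option.some.inj h) h1.ne'
      · rw [h3]; exact Option.some_ne_none _
      · rw [h2]; exact Option.some_ne_none _
  refine ⟨g, hgs, hg3, ?_, ?_⟩
  · intro u u' v v' hu hv _ h1 h2
    obtain ⟨hne, hun, hvn⟩ := hg3 _ _ h1
    obtain ⟨i, hi⟩ := Option.ne_none_iff_exists'.mp hun
    obtain ⟨j, hj⟩ := Option.ne_none_iff_exists'.mp hvn
    have hi' : p u' = some i := hu ▸ hi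
    have hj' : p v' = some j := hv ▸ hj
    have hij : i ≠ j := fun h => hne (by rw [hi, hj, h])
    rcases lt_or_gt_of_ne hij with hlt | hlt
    · rw [hg1 i j _ _ hlt hi hj] at h1
      rw [hg1 i j _ _ hlt hi' hj'] at h2
      rw [hg1 i j _ _ hlt hi hj', hg1 i j _ _ hlt hi' hj]
      exact hR1 i j u u' v v' hi hi' hj hj' h1 h2
    · rw [hg2 i j _ _ hlt hi hj] at h1
      rw [hg2 i j _ _ hlt hi' hj'] at h2
      rw [hg2 i j _ _ hlt hi hj', hg2 i j _ _ hlt hi' hj]
      exact (hR1 j i v v' u u' hj hj' hi hi' h1 h2).symm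
  · have hsplit : den (fun y : V × V => p y.1 ≠ none ∧ p y.2 ≠ none ∧
        ¬ (r y.1 y.2 ↔ g y.1 y.2)) ≤
        den (fun y : V × V => ∃ ij : Fin k × Fin k, p y.1 = some ij.1 ∧ p y.2 = some ij.2 ∧
          ij.1 ≠ ij.2 ∧ ¬ (r y.1 y.2 ↔ g y.1 y.2)) +
        den (fun y : V × V => ∃ i : Fin k, p y.1 = some i ∧ p y.2 = some i ∧ r y.1 y.2) := by
      apply den_le_add
      rintro ⟨u, v⟩ ⟨h1, h2, h3⟩
      simp only at h1 h2 h3 ⊢
      obtain ⟨i, hi⟩ := Option.ne_none_iff_exists'.mp h1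
      obtain ⟨j, hj⟩ := Option.ne_none_iff_exists'.mp h2
      by_cases hij : i = j
      · subst hij
        right
        refine ⟨i, hi, hj, ?_⟩
        by_contra hr
        apply h3
        constructor
        · intro h; exact absurd h hr
        · intro h; exact absurd (hi.trans hj.symm) (hg3 _ _ h).1
      · left
        exact ⟨(i, j), hi, hj, hij, h3⟩
    have hA : den (fun y : V × V => ∃ ij : Fin k × Fin k, p y.1 = some ij.1 ∧ p y.2 = some ij.2 ∧
          ij.1 ≠ ij.2 ∧ ¬ (r y.1 y.2 ↔ g y.1 y.2)) ≤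
          (Fintype.card (Fin k × Fin k) : ℝ) * (2 * x) := by
      apply den_exists_le_card
      rintro ⟨i, j⟩
      simp only
      by_cases hij : i = j
      · rw [den_eq_zero (fun a h => h.2.2.1 hij)]
        linarith
      · rcases lt_or_gt_of_ne hij with hlt | hlt
        · refine le_trans (den_mono ?_) (hR2 i j)
          rintro ⟨u, v⟩ ⟨h1, h2, h3, h4⟩
          simp only at h1 h2 h4 ⊢
          rw [hg1 i j _ _ hlt h1 h2] at h4
          exact ⟨h1, h2, h4⟩
        · have h5 := hR2 j i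
          rw [den_swap (fun u v => p u = some j ∧ p v = some i ∧ ¬ (r u v ↔ R j i u v))] at h5
          refine le_trans (den_mono ?_) h5
          rintro ⟨u, v⟩ ⟨h1, h2, h3, h4⟩
          simp only at h1 h2 h4 ⊢
          rw [hg2 i j _ _ hlt h1 h2] at h4
          refine ⟨h2, h1, fun h6 => h4 ?_⟩
          rw [← h6]
          exact ⟨hs _ _, hs _ _⟩
    have hB : den (fun y : V × V => ∃ i : Fin k, p y.1 = some i ∧ p y.2 = some i ∧ r y.1 y.2) ≤
        (Fintype.card (Fin k) : ℝ) * δ := den_exists_le_card _ _ hp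
    rw [Fintype.card_prod, Fintype.card_fin] at hA
    rw [Fintype.card_fin] at hB
    push_cast at hA
    have : (k : ℝ) ^ 2 = k * k := sq _
    rw [this]
    linarith

end Pool.Agent.IC4
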