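import Pool.Agent.IC4.Line

set_option autoImplicit false

namespace Pool.Agent.IC4

variable {V K : Type} [Fintype V] (T : TS V K)

/-- Section IV.13, ON-LINE for type R -/
theorem onR {s : ℕ → ℝ} {N : ℕ} {V2 V3 S : V → Prop} {δ₁ : ℝ} (hs : Sc s)
    (ne : T.NE s N V2 V3) (hd : δ₁ < s N) {i j : ℕ} (hij : i + 12 ≤ j) (hj : j ≤ N) {b c z : V}
    (hc : V3 c) (tbc : T.Tt (s j) b c) (hraw : T.RawR V2 S δ₁ b c z)
    (hcl : T.Clr (s j) (s i) z c) : T.Tt (s j) z c := by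
  obtain ⟨-, -, hpz, hzc, hD⟩ := hraw
  have hi0 := hs.pos i
  rcases hcl with h | h | h
  · exact h
  · exfalso
    rcases h with h | h
    · exact tbc.1 (hpz.symm.trans h)
    · have h1 := (ne c hc (i + 1) (by omega) (T.pi b) (T.pi b) (T.pi b) tbc.1).2
      have hi1 : s (i + 1) ≤ s i / 16 := hs.step i
      have hj2 : s j ≤ s (i + 1 + 1) / 16 := hs.step' (by omega)
      have hN2 : s N ≤ s (i + 1 + 1) := hs.anti (by omega)
      have hp2 := hs.pos (i + 1 + 1)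
      have hbc := (abs_le.1 tbc.2).1
      have hMbc : T.M b c = T.th b (T.pi c) + T.th c (T.pi b) := rfl
      have hMzc : T.M z c = T.th z (T.pi c) + T.th c (T.pi b) := by
        unfold TS.M
        rw [hpz]
      have hmono : den (fun u' => V2 u' ∧ T.Near (s (i + 1)) (T.pi b) (T.pi b) (T.pi b) c u' ∧
          T.th c (T.pi b) + s (i + 1 + 1) ≤ T.th u' (T.pi b)) ≤ T.Dd V2 b z c := by
        unfold TS.Dd
        apply den_mono
        rintro u ⟨hu2, ⟨hpu, hn, -, -⟩, hup⟩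
        have hn2 := (abs_le.1 hn).2
        refine ⟨hu2, ⟨?_, ?_⟩, ?_, ?_⟩
        · rw [hpu]
          exact fun h' => tbc.1 h'.symm
        · have hM : T.M u b = T.th u (T.pi b) + T.th b (T.pi c) := by
            unfold TS.M
            rw [hpu]
          rw [hM]
          linarith
        · rintro ⟨-, h'⟩
          have hM : T.M u z = T.th u (T.pi b) + T.th z (T.pi c) := by
            unfold TS.M
            rw [hpu, hpz]
          rw [hM] at h'
          linarith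
        · rintro ⟨h', -⟩
          exact h' hpu
      linarith
  · exact absurd (Ff_adj T hi0.le h) hzc

/-- Section IV.13, ON-LINE for type γ -/
theorem onG {V2 S : V → Prop} {lo hi : ℝ} (hW : T.Win V2 lo hi) {b c w w' : V}
    (hb : V2 b) (hc : V2 c) (tbc : T.Tt lo b c) (hraw : T.RawG V2 S b c w w')
    (cbw : T.Clr lo hi b w) (cbw' : T.Clr lo hi b w') (ccw : T.Clr lo hi c w)
    (ccw' : T.Clr lo hi c w') (cww' : T.Clr lo hi w w') :
    (T.Tt lo c w ∧ T.Tt lo b w' ∧ T.Ee hi b w ∧ T.Ee hi c w') ∨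
    (T.Tt lo c w' ∧ T.Tt lo b w ∧ T.Ee hi b w' ∧ T.Ee hi c w) := by
  obtain ⟨-, hw, -, hw', aww, nwb, nwc, nwb', nwc'⟩ := hraw
  have hle := hW.lohi.le
  have hh : 0 ≤ hi := hW.lo0.le.trans hle
  rcases hW.ml b c w w' hb hc hw hw' (Or.inl tbc) (Clr_adj T hh cww' aww)
    (Clr_nadj T hh cbw (fun h => nwb ((adj_comm T _ _).1 h)))
    (Clr_nadj T hh cbw' (fun h => nwb' ((adj_comm T _ _).1 h)))
    (Clr_nadj T hh ccw (fun h => nwc ((adj_comm T _ _).1 h)))
    (Clr_nadj T hh ccw' (fun h => nwc' ((adj_comm T _ _).1 h))) with h | h | h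
  · exact Or.inl ⟨h.2.1, h.2.2.2.1, h.2.2.2.2.1, h.2.2.2.2.2⟩
  · exact Or.inr ⟨h.2.1, h.2.2.2.1, h.2.2.2.2.1, h.2.2.2.2.2⟩
  · exact absurd tbc (not_Tt_of_Ff T hle h.2.2.2.2.1)

end Pool.Agent.IC4
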