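import Pool.Agent.IC4.Line

set_option autoImplicit false

namespace Pool.Agent.IC4

variable {V K : Type} [Fintype V] (T : TS V K)

/-- transfer inside one clear window -/
theorem Trans_aux {V2 : V → Prop} {lo hi : ℝ} (hW : T.Win V2 lo hi) {a b c z x : V}
    (ha : V2 a) (hb : V2 b) (hc : V2 c) (hz : V2 z) (hx : V2 x)
    (tab : T.Tt lo a b) (taz : T.Tt lo a z) (tcb : T.Tt lo c b) (tcz : T.Tt lo c z)
    (eac : T.Ee hi a c) (ebz : T.Ee hi b z)
    (cxb : T.Clr lo hi x b) (cxz : T.Clr lo hi x z) (cxc : T.Clr lo hi x c)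
    (cxa : T.Clr lo hi x a)
    (xb : T.adj x b) (xz : ¬ T.adj x z) (xc : ¬ T.adj x c) : ¬ T.adj x a := by
  have h0 : 0 ≤ hi := (hW.lo0.trans hW.lohi).le
  have hlh : lo ≤ hi := hW.lohi.le
  have exa : T.Ee hi x a → ¬ T.adj x a := fun h => Ee_not_adj T h0 h
  rcases Clr_nadj T h0 cxc xc with txc | exc
  · -- `x c` tight
    rcases Clr_adj T h0 cxb xb with txb | fxb
    · exact absurd ⟨(Tt_comm T).1 tcb, (Tt_comm T).1 txc, (Tt_comm T).1 txb⟩ (hW.tf b c x hb hc hx)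
    · rcases Clr_nadj T h0 cxz xz with txz | exz
      · exact absurd ⟨(Tt_comm T).1 tcz, (Tt_comm T).1 txc, (Tt_comm T).1 txz⟩
          (hW.tf z c x hz hc hx)
      · have hbx : T.Ee hi b x :=
          P5 T hW hc hz hb hx tcz tcb ((Tt_comm T).1 txc) ((Ee_comm T).1 ebz) ((Ee_comm T).1 exz)
            ((Clr_comm T).1 cxb)
        exact absurd fxb (not_Ff_of_Ee T h0 ((Ee_comm T).1 hbx))
  · -- `x c` is E
    rcases Clr_adj T h0 cxb xb with txb | fxb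
    · have hax : T.Ee hi a x :=
        P5 T hW hb hc ha hx ((Tt_comm T).1 tcb) ((Tt_comm T).1 tab) ((Tt_comm T).1 txb)
          ((Ee_comm T).1 eac) ((Ee_comm T).1 exc) ((Clr_comm T).1 cxa)
      exact exa ((Ee_comm T).1 hax)
    · rcases Clr_nadj T h0 cxz xz with txz | exz
      · have hax : T.Ee hi a x :=
          P5 T hW hz hc ha hx ((Tt_comm T).1 tcz) ((Tt_comm T).1 taz) ((Tt_comm T).1 txz)
            ((Ee_comm T).1 eac) ((Ee_comm T).1 exc) ((Clr_comm T).1 cxa)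
        exact exa ((Ee_comm T).1 hax)
      · exfalso
        rcases hW.ml x b c z hx hb hc hz (Or.inr fxb) (Or.inl tcz) (Or.inr exc) (Or.inr exz)
          (Or.inl ((Tt_comm T).1 tcb)) (Or.inr ebz) with h | h | h
        · exact not_Tt_of_Ff T hlh fxb h.1
        · exact not_Tt_of_Ff T hlh fxb h.1
        · exact not_Tt_of_Ee T hlh exc h.1

/-- Section IV.6 -/
theorem transfer {s : ℕ → ℝ} {N : ℕ} {V2 : V → Prop} (hs : Sc s) (hW : T.Wins s V2 450 N)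
    {i j : ℕ} (hi : 450 ≤ i) (hij : i + 312 ≤ j) (hj : j ≤ N) {a b c z x : V}
    (ha : V2 a) (hb : V2 b) (hc : V2 c) (hz : V2 z) (hx : V2 x)
    (tab : T.Tt (s j) a b) (taz : T.Tt (s j) a z) (tcb : T.Tt (s j) c b) (tcz : T.Tt (s j) c z)
    (eac : T.Ee (s i) a c) (ebz : T.Ee (s i) b z)
    (xb : T.adj x b) (xz : ¬ T.adj x z) (xc : ¬ T.adj x c) : ¬ T.adj x a := by
  obtain ⟨t, ht, hcl⟩ := clear_fin T hs ![a, b, c, z, x] i 12 (by norm_num)
  have hlo : s j ≤ s (i + 12 * (t + 1)) := hs.anti (by omega)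
  have hhi : s (i + 12 * t) ≤ s i := hs.anti (by omega)
  have hWin : T.Win V2 (s (i + 12 * (t + 1))) (s (i + 12 * t)) :=
    hW _ _ (by omega) (by omega) (by omega)
  exact Trans_aux T hWin ha hb hc hz hx (Tt_mono T hlo tab) (Tt_mono T hlo taz)
    (Tt_mono T hlo tcb) (Tt_mono T hlo tcz) (Ee_mono T hhi eac) (Ee_mono T hhi ebz)
    (hcl 4 1) (hcl 4 3) (hcl 4 2) (hcl 4 0) xb xz xc

theorem transfer_D {s : ℕ → ℝ} {N : ℕ} {V2 : V → Prop} (hs : Sc s) (hW : T.Wins s V2 450 N)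
    {i j : ℕ} (hi : 450 ≤ i) (hij : i + 312 ≤ j) (hj : j ≤ N) {a b c z : V}
    (ha : V2 a) (hb : V2 b) (hc : V2 c) (hz : V2 z)
    (tab : T.Tt (s j) a b) (taz : T.Tt (s j) a z) (tcb : T.Tt (s j) c b) (tcz : T.Tt (s j) c z)
    (eac : T.Ee (s i) a c) (ebz : T.Ee (s i) b z) : T.Dd V2 b z a = T.Dd V2 b z c := by
  unfold TS.Dd
  apply den_congr
  intro x
  constructor
  · rintro ⟨hx, xb, xz, xa⟩
    exact ⟨hx, xb, xz, transfer T hs hW hi hij hj hc hb ha hz hx tcb tcz tab taz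
      ((Ee_comm T).1 eac) ebz xb xz xa⟩
  · rintro ⟨hx, xb, xz, xc⟩
    exact ⟨hx, xb, xz, transfer T hs hW hi hij hj ha hb hc hz hx tab taz tcb tcz eac ebz xb xz xc⟩

end Pool.Agent.IC4
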