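import Pool.Agent.IC4.Pair
import Pool.Agent.IC4.Trans
import Pool.Agent.IC4.Onl

set_option autoImplicit false

namespace Pool.Agent.IC4

variable {V K : Type} [Fintype V] (T : TS V K)

/-- the 4-cycle configuration of section IV.13 -/
structure Quad (V2 Vg S : V → Prop) (δ₁ lo hi : ℝ) (a b c d : V) : Prop where
  ga : Vg a
  gb : Vg b
  gc : Vg c
  gd : Vg d
  tab : T.Tt lo a b
  tbc : T.Tt lo b c
  tcd : T.Tt lo c d
  tad : T.Tt lo a d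
  eac : T.Ee hi a c
  ebd : T.Ee hi b d
  nab : ¬ T.CERT V2 S δ₁ a b
  ncd : ¬ T.CERT V2 S δ₁ c d

/-- right witness information -/
structure RInfo (V2 S : V → Prop) (lo hi : ℝ) (a b c d z : V) : Prop where
  sz : S z
  vz : V2 z
  za : T.adj z a
  zc : ¬ T.adj z c
  ta : T.Tt lo z a
  tc : T.Tt lo z c
  eb : T.Ee hi z b
  ed : T.Ee hi z d

variable {s : ℕ → ℝ} {N : ℕ} {V2 V3 Vg S : V → Prop} {η δ₁ γ ρ : ℝ}

theorem Nine_CERT_symm {u v : V} (h : T.CERT V2 S δ₁ u v) : T.CERT V2 S δ₁ v u := by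
  rcases h with h | h | ⟨w, w', h1, h2, h3, h4, h5, h6, h7, h8, h9⟩
  · exact Or.inr (Or.inl h)
  · exact Or.inl h
  · exact Or.inr (Or.inr ⟨w, w', h1, h2, h3, h4, h5, h7, h6, h9, h8⟩)

theorem Nine_RawG_symm {u v w w' : V} (h : T.RawG V2 S u v w w') : T.RawG V2 S v u w w' := by
  obtain ⟨h1, h2, h3, h4, h5, h6, h7, h8, h9⟩ := h
  exact ⟨h1, h2, h3, h4, h5, h7, h6, h9, h8⟩

theorem Nine_RawG_swap {u v w w' : V} (h : T.RawG V2 S u v w w') : T.RawG V2 S u v w' w := by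
  obtain ⟨h1, h2, h3, h4, h5, h6, h7, h8, h9⟩ := h
  exact ⟨h3, h4, h1, h2, (adj_comm T _ _).1 h5, h8, h9, h6, h7⟩

theorem Quad.rot {lo hi : ℝ} {a b c d : V} (q : Quad T V2 Vg S δ₁ lo hi a b c d) :
    Quad T V2 Vg S δ₁ lo hi c d a b := by
  obtain ⟨ga, gb, gc, gd, tab, tbc, tcd, tad, eac, ebd, nab, ncd⟩ := q
  exact ⟨gc, gd, ga, gb, tcd, (Tt_comm T).1 tad, tab, (Tt_comm T).1 tbc, (Ee_comm T).1 eac,
    (Ee_comm T).1 ebd, ncd, nab⟩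

theorem Quad.rev {lo hi : ℝ} {a b c d : V} (q : Quad T V2 Vg S δ₁ lo hi a b c d) :
    Quad T V2 Vg S δ₁ lo hi d c b a := by
  obtain ⟨ga, gb, gc, gd, tab, tbc, tcd, tad, eac, ebd, nab, ncd⟩ := q
  exact ⟨gd, gc, gb, ga, (Tt_comm T).1 tcd, (Tt_comm T).1 tbc, (Tt_comm T).1 tab,
    (Tt_comm T).1 tad, (Ee_comm T).1 ebd, (Ee_comm T).1 eac,
    fun h => ncd (Nine_CERT_symm T h), fun h => nab (Nine_CERT_symm T h)⟩

/-- type R witness of `b c` -/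
theorem infoR (h : T.Setup s N V2 V3 Vg S η δ₁ γ ρ) {i j : ℕ} (hi : 450 ≤ i)
    (hij : i + 312 ≤ j) (hj : j ≤ N) {a b c d : V}
    (q : Quad T V2 Vg S δ₁ (s j) (s i) a b c d) {U : V → Prop} (ua : U a) (ub : U b) (uc : U c)
    (ud : U d) (hU : ∀ u v, U u → U v → T.Clr (s j) (s i) u v) {z : V} (uz : U z)
    (hz : T.RawR V2 S δ₁ b c z) : RInfo T V2 S (s j) (s i) a b c d z := by
  have va : V2 a := h.v32 _ (h.vg3 _ q.ga)
  have vb : V2 b := h.v32 _ (h.vg3 _ q.gb)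
  have vc : V2 c := h.v32 _ (h.vg3 _ q.gc)
  have vd : V2 d := h.v32 _ (h.vg3 _ q.gd)
  have hW : T.Win V2 (s j) (s i) := h.wins i j hi (by omega) hj
  obtain ⟨hzS, hz2, hzp, hznc, hzD⟩ := hz
  have tzc : T.Tt (s j) z c :=
    onR T h.hsc h.ne h.d1 (by omega) hj (h.vg3 _ q.gc) q.tbc ⟨hzS, hz2, hzp, hznc, hzD⟩
      (hU _ _ uz uc)
  have tcz : T.Tt (s j) c z := (Tt_comm T).1 tzc
  have tcb : T.Tt (s j) c b := (Tt_comm T).1 q.tbc
  have ebz : T.Ee (s i) b z := Ee_of_pi T hzp.symm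
  have taz : T.Tt (s j) a z :=
    P6 T hW va vb vc hz2 q.tab tcb tcz q.eac ebz (hU _ _ ua uz)
  have edz : T.Ee (s i) d z :=
    P5 T hW vc vb vd hz2 tcb q.tcd tcz q.ebd ebz (hU _ _ ud uz)
  have hD : T.Dd V2 b z a = T.Dd V2 b z c :=
    transfer_D T h.hsc h.wins hi hij hj va vb vc hz2 q.tab taz tcb tcz q.eac ebz
  have hza : T.adj z a := by
    by_contra hna
    exact q.nab (Or.inr (Or.inl ⟨z, hzS, hz2, hzp, hna, by rw [hD]; exact hzD⟩))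
  exact ⟨hzS, hz2, hza, hznc, (Tt_comm T).1 taz, tzc, (Ee_comm T).1 ebz, (Ee_comm T).1 edz⟩

/-- one orientation of `infoG` -/
theorem Nine_infoG (h : T.Setup s N V2 V3 Vg S η δ₁ γ ρ) {i j : ℕ} (hi : 450 ≤ i)
    (hij : i + 312 ≤ j) (hj : j ≤ N) {a b c d : V}
    (q : Quad T V2 Vg S δ₁ (s j) (s i) a b c d) {U : V → Prop} (ua : U a)
    (ud : U d) (hU : ∀ u v, U u → U v → T.Clr (s j) (s i) u v) {w w' : V} (uw : U w) (uw' : U w')
    (hw : T.RawG V2 S b c w w') (tcw : T.Tt (s j) c w) (tbw' : T.Tt (s j) b w')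
    (ebw : T.Ee (s i) b w) (ecw' : T.Ee (s i) c w') :
    RInfo T V2 S (s j) (s i) a b c d w ∧ RInfo T V2 S (s j) (s i) d c b a w' := by
  have va : V2 a := h.v32 _ (h.vg3 _ q.ga)
  have vb : V2 b := h.v32 _ (h.vg3 _ q.gb)
  have vc : V2 c := h.v32 _ (h.vg3 _ q.gc)
  have vd : V2 d := h.v32 _ (h.vg3 _ q.gd)
  have hW : T.Win V2 (s j) (s i) := h.wins i j hi (by omega) hj
  have hs0 : 0 ≤ s i := (h.hsc.pos i).le
  obtain ⟨hS, h2, hS', h2', hww, nwb, nwc, nwb', nwc'⟩ := hw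
  have tcb : T.Tt (s j) c b := (Tt_comm T).1 q.tbc
  have taw : T.Tt (s j) a w :=
    P6 T hW va vb vc h2 q.tab tcb tcw q.eac ebw (hU _ _ ua uw)
  have edw : T.Ee (s i) d w :=
    P5 T hW vc vb vd h2 tcb q.tcd tcw q.ebd ebw (hU _ _ ud uw)
  have tdw' : T.Tt (s j) d w' :=
    P6 T hW vd vc vb h2' ((Tt_comm T).1 q.tcd) q.tbc tbw' ((Ee_comm T).1 q.ebd) ecw'
      (hU _ _ ud uw')
  have eaw' : T.Ee (s i) a w' :=
    P5 T hW vb vc va h2' q.tbc ((Tt_comm T).1 q.tab) tbw' ((Ee_comm T).1 q.eac) ecw'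
      (hU _ _ ua uw')
  have nwa' : ¬ T.adj w' a := fun hh => Ee_not_adj T hs0 eaw' ((adj_comm T _ _).1 hh)
  have nwd : ¬ T.adj w d := fun hh => Ee_not_adj T hs0 edw ((adj_comm T _ _).1 hh)
  have hwa : T.adj w a := by
    by_contra hna
    exact q.nab (Or.inr (Or.inr ⟨w, w', hS, h2, hS', h2', hww, hna, nwb, nwa', nwb'⟩))
  have hwd : T.adj w' d := by
    by_contra hna
    exact q.ncd (Or.inr (Or.inr ⟨w, w', hS, h2, hS', h2', hww, nwc, nwd, nwc', hna⟩))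
  exact ⟨⟨hS, h2, hwa, nwc, (Tt_comm T).1 taw, (Tt_comm T).1 tcw, (Ee_comm T).1 ebw,
      (Ee_comm T).1 edw⟩,
    ⟨hS', h2', hwd, nwb', (Tt_comm T).1 tdw', (Tt_comm T).1 tbw', (Ee_comm T).1 ecw',
      (Ee_comm T).1 eaw'⟩⟩

/-- type γ witness of `b c` -/
theorem infoG (h : T.Setup s N V2 V3 Vg S η δ₁ γ ρ) {i j : ℕ} (hi : 450 ≤ i)
    (hij : i + 312 ≤ j) (hj : j ≤ N) {a b c d : V}
    (q : Quad T V2 Vg S δ₁ (s j) (s i) a b c d) {U : V → Prop} (ua : U a) (ub : U b) (uc : U c)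
    (ud : U d) (hU : ∀ u v, U u → U v → T.Clr (s j) (s i) u v) {w w' : V} (uw : U w) (uw' : U w')
    (hw : T.RawG V2 S b c w w') :
    (RInfo T V2 S (s j) (s i) a b c d w ∧ RInfo T V2 S (s j) (s i) d c b a w') ∨
    (RInfo T V2 S (s j) (s i) a b c d w' ∧ RInfo T V2 S (s j) (s i) d c b a w) := by
  have vb : V2 b := h.v32 _ (h.vg3 _ q.gb)
  have vc : V2 c := h.v32 _ (h.vg3 _ q.gc)
  have hW : T.Win V2 (s j) (s i) := h.wins i j hi (by omega) hj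
  rcases onG T hW vb vc q.tbc hw (hU _ _ ub uw) (hU _ _ ub uw') (hU _ _ uc uw) (hU _ _ uc uw')
    (hU _ _ uw uw') with ⟨t1, t2, e1, e2⟩ | ⟨t1, t2, e1, e2⟩
  · exact Or.inl (Nine_infoG T h hi hij hj q ua ud hU uw uw' hw t1 t2 e1 e2)
  · exact Or.inr (Nine_infoG T h hi hij hj q ua ud hU uw' uw (Nine_RawG_swap T hw) t1 t2 e1 e2)

/-- right-right contradiction -/
theorem contraRR (h : T.Setup s N V2 V3 Vg S η δ₁ γ ρ) {i j : ℕ} (hi : 450 ≤ i)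
    (hij : i + 312 ≤ j) (hj : j ≤ N) {a b c d : V}
    (q : Quad T V2 Vg S δ₁ (s j) (s i) a b c d) {z y : V}
    (hz : RInfo T V2 S (s j) (s i) a b c d z) (hy : RInfo T V2 S (s j) (s i) c d a b y)
    (hcl : T.Clr (s j) (s i) z y) : False := by
  have vb : V2 b := h.v32 _ (h.vg3 _ q.gb)
  have vc : V2 c := h.v32 _ (h.vg3 _ q.gc)
  have hW : T.Win V2 (s j) (s i) := h.wins i j hi (by omega) hj
  have hs0 : 0 ≤ s i := (h.hsc.pos i).le
  have tcb : T.Tt (s j) c b := (Tt_comm T).1 q.tbc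
  have ezy : T.Ee (s i) z y :=
    P5 T hW vc vb hz.vz hy.vz tcb ((Tt_comm T).1 hz.tc) ((Tt_comm T).1 hy.ta)
      ((Ee_comm T).1 hz.eb) ((Ee_comm T).1 hy.ed) hcl
  have hle : η ≤ s i := by
    rw [h.hη]
    exact h.hsc.anti (by omega)
  exact rt3_contra T h q.ga q.gc hz.sz hy.sz ((adj_comm T _ _).1 hz.za)
    (fun hh => hy.zc ((adj_comm T _ _).1 hh)) ((adj_comm T _ _).1 hy.za)
    (fun hh => hz.zc ((adj_comm T _ _).1 hh)) (Ee_not_adj T hs0 ezy) (Ee_mono T hle q.eac)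

/-- type R witness of `b c` against type L witness of `a d` -/
theorem contraRL (h : T.Setup s N V2 V3 Vg S η δ₁ γ ρ) {i j : ℕ} (hi : 450 ≤ i)
    (hij : i + 312 ≤ j) (hj : j ≤ N) {a b c d : V}
    (q : Quad T V2 Vg S δ₁ (s j) (s i) a b c d) {z y : V}
    (hz : RInfo T V2 S (s j) (s i) a b c d z) (hz' : T.RawR V2 S δ₁ b c z)
    (hy : RInfo T V2 S (s j) (s i) b a d c y) (hy' : T.RawR V2 S δ₁ a d y)
    (hcl : T.Clr (s j) (s i) z y) : False := by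
  have va : V2 a := h.v32 _ (h.vg3 _ q.ga)
  have vb : V2 b := h.v32 _ (h.vg3 _ q.gb)
  have vd : V2 d := h.v32 _ (h.vg3 _ q.gd)
  have hs0 : 0 ≤ s i := (h.hsc.pos i).le
  by_cases hzy : T.adj z y
  · exact q.ncd (Or.inr (Or.inr ⟨z, y, hz.sz, hz.vz, hy.sz, hy.vz, hzy, hz.zc,
      Ee_not_adj T hs0 hz.ed, Ee_not_adj T hs0 hy.ed, hy.zc⟩))
  · have hD : T.Dd V2 a y b = T.Dd V2 a y d :=
      transfer_D T h.hsc h.wins hi hij hj vb va vd hy.vz ((Tt_comm T).1 q.tab)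
        ((Tt_comm T).1 hy.ta) ((Tt_comm T).1 q.tad) ((Tt_comm T).1 hy.tc) q.ebd
        ((Ee_comm T).1 hy.eb)
    have hI : T.Ip V2 δ₁ (T.pi z) a y := by
      unfold TS.Ip
      refine le_trans ?_ hy'.2.2.2.2
      rw [← hD]
      unfold TS.Dd
      apply den_mono
      rintro x ⟨x1, x2, x3, x4⟩
      refine ⟨x1, x3, x4, ?_⟩
      rintro ⟨hne, _⟩
      exact hne (x2.trans hz'.2.2.1)
    have hne : y ≠ z := by
      intro he
      apply q.tab.1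
      rw [← hy'.2.2.1, he, hz'.2.2.1]
    exact rt2_contra T h q.ga hz.sz hz.vz hy.sz hne hzy ((adj_comm T _ _).1 hz.za) hI

/-- Section IV.13, the nine cases -/
theorem nine (h : T.Setup s N V2 V3 Vg S η δ₁ γ ρ) {i j : ℕ} (hi : 450 ≤ i)
    (hij : i + 312 ≤ j) (hj : j ≤ N) {a b c d : V}
    (q : Quad T V2 Vg S δ₁ (s j) (s i) a b c d) {U : V → Prop} (ua : U a) (ub : U b) (uc : U c)
    (ud : U d) (hU : ∀ u v, U u → U v → T.Clr (s j) (s i) u v) {z z' y y' : V}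
    (uz : U z) (uz' : U z') (uy : U y) (uy' : U y')
    (hbc : T.RawR V2 S δ₁ b c z ∨ T.RawR V2 S δ₁ c b z ∨ T.RawG V2 S b c z z')
    (had : T.RawR V2 S δ₁ d a y ∨ T.RawR V2 S δ₁ a d y ∨ T.RawG V2 S a d y y') : False := by
  -- information about the witnesses of `b c`
  have Hbc : (∃ z, U z ∧ RInfo T V2 S (s j) (s i) a b c d z ∧ T.RawR V2 S δ₁ b c z) ∨
      (∃ z, U z ∧ RInfo T V2 S (s j) (s i) d c b a z ∧ T.RawR V2 S δ₁ c b z) ∨
      (∃ z z', U z ∧ U z' ∧ RInfo T V2 S (s j) (s i) a b c d z ∧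
        RInfo T V2 S (s j) (s i) d c b a z') := by
    rcases hbc with h1 | h1 | h1
    · exact Or.inl ⟨z, uz, infoR T h hi hij hj q ua ub uc ud hU uz h1, h1⟩
    · exact Or.inr (Or.inl ⟨z, uz, infoR T h hi hij hj (Quad.rev T q) ud uc ub ua hU uz h1, h1⟩)
    · rcases infoG T h hi hij hj q ua ub uc ud hU uz uz' h1 with ⟨k1, k2⟩ | ⟨k1, k2⟩
      · exact Or.inr (Or.inr ⟨z, z', uz, uz', k1, k2⟩)
      · exact Or.inr (Or.inr ⟨z', z, uz', uz, k1, k2⟩)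
  have q' := Quad.rot T q
  have q'' := Quad.rev T q'
  have Had : (∃ y, U y ∧ RInfo T V2 S (s j) (s i) c d a b y ∧ T.RawR V2 S δ₁ d a y) ∨
      (∃ y, U y ∧ RInfo T V2 S (s j) (s i) b a d c y ∧ T.RawR V2 S δ₁ a d y) ∨
      (∃ y y', U y ∧ U y' ∧ RInfo T V2 S (s j) (s i) c d a b y ∧
        RInfo T V2 S (s j) (s i) b a d c y') := by
    rcases had with h1 | h1 | h1
    · exact Or.inl ⟨y, uy, infoR T h hi hij hj q' uc ud ua ub hU uy h1, h1⟩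
    · exact Or.inr (Or.inl ⟨y, uy, infoR T h hi hij hj q'' ub ua ud uc hU uy h1, h1⟩)
    · rcases infoG T h hi hij hj q' uc ud ua ub hU uy uy' (Nine_RawG_symm T h1) with
        ⟨k1, k2⟩ | ⟨k1, k2⟩
      · exact Or.inr (Or.inr ⟨y, y', uy, uy', k1, k2⟩)
      · exact Or.inr (Or.inr ⟨y', y, uy', uy, k1, k2⟩)
  have qr := Quad.rev T q
  rcases Hbc with ⟨z, uz, iz, rz⟩ | ⟨z, uz, iz, rz⟩ | ⟨z, z', uz, uz', iz, iz'⟩
  · rcases Had with ⟨y, uy, iy, ry⟩ | ⟨y, uy, iy, ry⟩ | ⟨y, y', uy, uy', iy, iy'⟩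
    · exact contraRR T h hi hij hj q iz iy (hU _ _ uz uy)
    · exact contraRL T h hi hij hj q iz rz iy ry (hU _ _ uz uy)
    · exact contraRR T h hi hij hj q iz iy (hU _ _ uz uy)
  · rcases Had with ⟨y, uy, iy, ry⟩ | ⟨y, uy, iy, ry⟩ | ⟨y, y', uy, uy', iy, iy'⟩
    · exact contraRL T h hi hij hj qr iz rz iy ry (hU _ _ uz uy)
    · exact contraRR T h hi hij hj qr iz iy (hU _ _ uz uy)
    · exact contraRR T h hi hij hj qr iz iy' (hU _ _ uz uy')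
  · rcases Had with ⟨y, uy, iy, ry⟩ | ⟨y, uy, iy, ry⟩ | ⟨y, y', uy, uy', iy, iy'⟩
    · exact contraRR T h hi hij hj q iz iy (hU _ _ uz uy)
    · exact contraRR T h hi hij hj qr iz' iy (hU _ _ uz' uy)
    · exact contraRR T h hi hij hj q iz iy (hU _ _ uz uy)

end Pool.Agent.IC4
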