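import Pool.Agent.IC4.Clear

set_option autoImplicit false

namespace Pool.Agent.IC4

variable {V K : Type} [Fintype V] (T : TS V K)

theorem Pair_M_close {V2 : V → Prop} {η δ₁ : ℝ} {u v u' v' : V}
    {z₁ z₂ z₃ w₁ w₂ w₃ : V} {p q : K}
    (hu : T.Sim V2 η δ₁ (T.pi v, z₁, z₂, p, z₃) u u')
    (hv : T.Sim V2 η δ₁ (T.pi u, w₁, w₂, q, w₃) v v') :
    |T.M u' v' - T.M u v| ≤ η / 2 := by
  obtain ⟨pu, _, au, _⟩ := hu
  obtain ⟨pv, _, av, _⟩ := hv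
  unfold TS.M
  rw [pu, pv]
  dsimp only at au av
  rw [abs_le] at au av ⊢
  constructor <;> linarith [au.1, au.2, av.1, av.2]

/-- Section IV.11, PAIR (1) -/
theorem pair1 {V2 S : V → Prop} {η δ₁ : ℝ} (hS : ∃ z, S z) (hη : 0 < η) {u v : V}
    (hpi : T.pi u ≠ T.pi v) (hM : η ≤ T.M u v) :
    ∃ d e : K × V × V × K × V, TS.okD S d ∧ TS.okD S e ∧
      ∀ u' v', T.Sim V2 η δ₁ d u u' → T.Sim V2 η δ₁ e v v' → T.adj u' v' := by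
  obtain ⟨z, hz⟩ := hS
  refine ⟨(T.pi v, z, z, T.pi u, z), (T.pi u, z, z, T.pi u, z), ⟨hz, hz, hz⟩, ⟨hz, hz, hz⟩, ?_⟩
  intro u' v' hu hv
  have h := Pair_M_close T hu hv
  rw [abs_le] at h
  refine ⟨?_, ?_⟩
  · rw [hu.1, hv.1]; exact hpi
  · linarith [h.1, h.2]

/-- class version of non-adjacency: `π u = π v` or `M u v ≤ -η` give classes without edges -/
theorem pair0 {V2 S : V → Prop} {η δ₁ : ℝ} (hS : ∃ z, S z) (hη : 0 < η) {u v : V}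
    (hc : T.pi u = T.pi v ∨ T.M u v ≤ -η) :
    ∃ d e : K × V × V × K × V, TS.okD S d ∧ TS.okD S e ∧
      ∀ u' v', T.Sim V2 η δ₁ d u u' → T.Sim V2 η δ₁ e v v' → ¬ T.adj u' v' := by
  obtain ⟨z, hz⟩ := hS
  refine ⟨(T.pi v, z, z, T.pi u, z), (T.pi u, z, z, T.pi u, z), ⟨hz, hz, hz⟩, ⟨hz, hz, hz⟩, ?_⟩
  intro u' v' hu hv hadj
  rcases hc with hc | hc
  · exact hadj.1 (by rw [hu.1, hv.1]; exact hc)
  · have h := Pair_M_close T hu hv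
    rw [abs_le] at h
    have := hadj.2
    linarith [h.1, h.2]

/-- Section IV.11, PAIR (2), type R -/
theorem Pair_R {V2 S : V → Prop} {η δ₁ ρ : ℝ} (hρ : 0 ≤ ρ)
    (hδρ : δ₁ ≤ ρ) {u v z : V} (hz : T.RawR V2 S δ₁ u v z) :
    ∃ d e : K × V × V × K × V, TS.okD S d ∧ TS.okD S e ∧
      den (fun x : V × V => T.Sim V2 η δ₁ d u x.1 ∧ (T.Sim V2 η δ₁ e v x.2 ∧ T.adj x.1 x.2)) ≤ ρ := by
  obtain ⟨hS, hV, hpi, hzv, hD⟩ := hz
  have hI : T.Ip V2 δ₁ (T.pi v) u z := by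
    unfold TS.Ip
    refine le_trans (den_mono ?_) hD
    rintro x ⟨h1, h2, h3, h4⟩
    exact ⟨h1, h3, h4, fun h => h.1 h2⟩
  refine ⟨(T.pi v, z, z, T.pi v, z), (T.pi u, z, z, T.pi u, z), ⟨hS, hS, hS⟩, ⟨hS, hS, hS⟩, ?_⟩
  refine den_prod_le' (P := fun a => T.Sim V2 η δ₁ (T.pi v, z, z, T.pi v, z) u a)
    (R := fun a b => T.Sim V2 η δ₁ (T.pi u, z, z, T.pi u, z) v b ∧ T.adj a b) hρ ?_
  intro a ha
  have hIa : T.Ip V2 δ₁ (T.pi v) a z := ha.2.2.2.2.2.2 hI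
  refine le_trans (den_mono ?_) (le_trans hIa hδρ)
  rintro x ⟨hx, hax⟩
  refine ⟨hx.2.1, hx.1, (adj_comm T _ _).1 hax, ?_⟩
  intro hxz
  exact hzv ((adj_comm T _ _).1 (hx.2.2.2.1.1 hxz))

/-- Section IV.11, PAIR (2) -/
theorem pair2 {V2 S : V → Prop} {η δ₁ ρ : ℝ} (hS : ∃ z, S z) (hη : 0 < η) (hρ : 0 ≤ ρ)
    (hδρ : δ₁ ≤ ρ)
    (rt1 : ∀ w w', S w → S w' → T.adj w w' →
      den (fun x : V × V => T.adj x.1 x.2 ∧ ¬ T.adj w x.1 ∧ ¬ T.adj w x.2 ∧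
        ¬ T.adj w' x.1 ∧ ¬ T.adj w' x.2) ≤ ρ) {u v : V}
    (hc : T.pi u = T.pi v ∨ T.M u v ≤ -η ∨ T.CERT V2 S δ₁ u v) :
    ∃ d e : K × V × V × K × V, TS.okD S d ∧ TS.okD S e ∧
      den (fun x : V × V => T.Sim V2 η δ₁ d u x.1 ∧ T.Sim V2 η δ₁ e v x.2 ∧ T.adj x.1 x.2) ≤ ρ := by
  have hc' : (T.pi u = T.pi v ∨ T.M u v ≤ -η) ∨ T.CERT V2 S δ₁ u v := by tauto
  rcases hc' with hc | hc
  · obtain ⟨d, e, hd, he, h⟩ := pair0 T (V2 := V2) (δ₁ := δ₁) hS hη hc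
    refine ⟨d, e, hd, he, ?_⟩
    rw [den_eq_zero]
    · exact hρ
    · rintro x ⟨h1, h2, h3⟩
      exact h _ _ h1 h2 h3
  · rcases hc with ⟨z, hz⟩ | ⟨z, hz⟩ | ⟨w, w', hw⟩
    · exact Pair_R T hρ hδρ hz
    · obtain ⟨d, e, hd, he, h⟩ := Pair_R T (η := η) hρ hδρ hz
      refine ⟨e, d, he, hd, ?_⟩
      rw [den_swap (fun a b => T.Sim V2 η δ₁ e u a ∧ T.Sim V2 η δ₁ d v b ∧ T.adj a b)]
      refine le_trans (den_mono ?_) h
      rintro x ⟨h1, h2, h3⟩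
      exact ⟨h2, h1, (adj_comm T _ _).1 h3⟩
    · obtain ⟨hSw, _, hSw', _, hww, h1, h2, h3, h4⟩ := hw
      refine ⟨(T.pi v, w, w', T.pi u, w), (T.pi u, w, w', T.pi u, w), ⟨hSw, hSw', hSw⟩,
        ⟨hSw, hSw', hSw⟩, ?_⟩
      refine le_trans (den_mono ?_) (rt1 w w' hSw hSw' hww)
      rintro x ⟨hx, hy, hxy⟩
      refine ⟨hxy, ?_, ?_, ?_, ?_⟩
      · intro h; exact h1 ((adj_comm T _ _).1 (hx.2.2.2.1.1 ((adj_comm T _ _).1 h)))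
      · intro h; exact h2 ((adj_comm T _ _).1 (hy.2.2.2.1.1 ((adj_comm T _ _).1 h)))
      · intro h; exact h3 ((adj_comm T _ _).1 (hx.2.2.2.2.1.1 ((adj_comm T _ _).1 h)))
      · intro h; exact h4 ((adj_comm T _ _).1 (hy.2.2.2.2.1.1 ((adj_comm T _ _).1 h)))

variable {s : ℕ → ℝ} {N : ℕ} {V2 V3 Vg S : V → Prop} {η δ₁ γ ρ : ℝ}

theorem Pair_eta (h : T.Setup s N V2 V3 Vg S η δ₁ γ ρ) : 0 < η := by
  rw [h.hη]; exact h.hsc.pos N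

theorem Pair_rho (h : T.Setup s N V2 V3 Vg S η δ₁ γ ρ) : 0 ≤ ρ := h.d1pos.le.trans h.d1ρ

/-- Section IV.11, NCERT -/
theorem ncert (h : T.Setup s N V2 V3 Vg S η δ₁ γ ρ) {u v : V} (hu : Vg u) (hv : Vg v)
    (hpi : T.pi u ≠ T.pi v) (hM : η ≤ T.M u v) : ¬ T.CERT V2 S δ₁ u v := by
  intro hC
  have hη := Pair_eta T h
  have hρ := Pair_rho T h
  obtain ⟨d, e, hd, he, h1⟩ := pair1 T (V2 := V2) (δ₁ := δ₁) h.snon hη hpi hM
  obtain ⟨d', e', hd', he', h2⟩ := pair2 T (V2 := V2) (δ₁ := δ₁) h.snon hη hρ h.d1ρ h.rt1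
    (Or.inr (Or.inr hC))
  have c1 := h.cls u hu d d' d' hd hd' hd'
  have c2 := h.cls v hv e e' e' he he' he'
  have h3 := den_prod (fun u' => T.Sim V2 η δ₁ d u u' ∧ T.Sim V2 η δ₁ d' u u' ∧
    T.Sim V2 η δ₁ d' u u') (fun v' => T.Sim V2 η δ₁ e v v' ∧ T.Sim V2 η δ₁ e' v v' ∧
    T.Sim V2 η δ₁ e' v v')
  have h4 : γ * γ ≤ ρ := by
    refine le_trans (mul_le_mul c1 c2 h.gpos.le (h.gpos.le.trans c1)) ?_
    rw [← h3]
    refine le_trans (den_mono ?_) h2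
    rintro x ⟨hx, hy⟩
    exact ⟨hx.2.1, hy.2.1, h1 _ _ hx.1 hy.1⟩
  have := h.rho
  nlinarith

section lift

variable {α β : Type} [Fintype α] [Fintype β]

theorem Pair_den_fst (P : α → Prop) : den (fun x : α × β => P x.1) ≤ den P := by
  have h := den_prod P (fun _ : β => True)
  have h1 : den (fun x : α × β => P x.1) = den P * den (fun _ : β => True) := by
    rw [← h]
    exact den_congr (fun x => by simp)
  rw [h1]
  exact mul_le_of_le_one_right (den_nonneg _) (den_le_one _)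

/-- the two marked coordinates first -/
def Pair_e13 (V : Type) : V × V × V × V ≃ (V × V) × (V × V) where
  toFun x := ((x.1, x.2.2.1), (x.2.1, x.2.2.2))
  invFun y := (y.1.1, y.2.1, y.1.2, y.2.2)
  left_inv _ := rfl
  right_inv _ := rfl

def Pair_e14 (V : Type) : V × V × V × V ≃ (V × V) × (V × V) where
  toFun x := ((x.1, x.2.2.2), (x.2.1, x.2.2.1))
  invFun y := (y.1.1, y.2.1, y.2.2, y.1.2)
  left_inv _ := rfl
  right_inv _ := rfl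

def Pair_e23 (V : Type) : V × V × V × V ≃ (V × V) × (V × V) where
  toFun x := ((x.2.1, x.2.2.1), (x.1, x.2.2.2))
  invFun y := (y.2.1, y.1.1, y.1.2, y.2.2)
  left_inv _ := rfl
  right_inv _ := rfl

def Pair_e24 (V : Type) : V × V × V × V ≃ (V × V) × (V × V) where
  toFun x := ((x.2.1, x.2.2.2), (x.1, x.2.2.1))
  invFun y := (y.2.1, y.1.1, y.2.2, y.1.2)
  left_inv _ := rfl
  right_inv _ := rfl

theorem Pair_lift13 (Q : V × V → Prop) :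
    den (fun x : V × V × V × V => Q (x.1, x.2.2.1)) ≤ den Q :=
  (den_equiv (Pair_e13 V) (fun y : (V × V) × (V × V) => Q y.1)).le.trans (Pair_den_fst Q)

theorem Pair_lift14 (Q : V × V → Prop) :
    den (fun x : V × V × V × V => Q (x.1, x.2.2.2)) ≤ den Q :=
  (den_equiv (Pair_e14 V) (fun y : (V × V) × (V × V) => Q y.1)).le.trans (Pair_den_fst Q)

theorem Pair_lift23 (Q : V × V → Prop) :
    den (fun x : V × V × V × V => Q (x.2.1, x.2.2.1)) ≤ den Q :=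
  (den_equiv (Pair_e23 V) (fun y : (V × V) × (V × V) => Q y.1)).le.trans (Pair_den_fst Q)

theorem Pair_lift24 (Q : V × V → Prop) :
    den (fun x : V × V × V × V => Q (x.2.1, x.2.2.2)) ≤ den Q :=
  (den_equiv (Pair_e24 V) (fun y : (V × V) × (V × V) => Q y.1)).le.trans (Pair_den_fst Q)

end lift

/-- Section IV.11: no `2K₂` with both edges `≥ η` -/
theorem four (h : T.Setup s N V2 V3 Vg S η δ₁ γ ρ) {a b c d : V}
    (ha : Vg a) (hb : Vg b) (hc : Vg c) (hd : Vg d)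
    (pab : T.pi a ≠ T.pi b) (mab : η ≤ T.M a b) (pcd : T.pi c ≠ T.pi d) (mcd : η ≤ T.M c d)
    (hac : T.pi a = T.pi c ∨ T.M a c ≤ -η ∨ T.CERT V2 S δ₁ a c)
    (had : T.pi a = T.pi d ∨ T.M a d ≤ -η ∨ T.CERT V2 S δ₁ a d)
    (hbc : T.pi b = T.pi c ∨ T.M b c ≤ -η ∨ T.CERT V2 S δ₁ b c)
    (hbd : T.pi b = T.pi d ∨ T.M b d ≤ -η ∨ T.CERT V2 S δ₁ b d) : False := by
  have hη := Pair_eta T h
  have hρ := Pair_rho T h
  obtain ⟨dab, eab, hdab, heab, h1⟩ := pair1 T (V2 := V2) (δ₁ := δ₁) h.snon hη pab mab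
  obtain ⟨dcd, ecd, hdcd, hecd, h2⟩ := pair1 T (V2 := V2) (δ₁ := δ₁) h.snon hη pcd mcd
  obtain ⟨dac, eac, hdac, heac, h3⟩ := pair2 T (V2 := V2) (δ₁ := δ₁) h.snon hη hρ h.d1ρ h.rt1 hac
  obtain ⟨dad, ead, hdad, head, h4⟩ := pair2 T (V2 := V2) (δ₁ := δ₁) h.snon hη hρ h.d1ρ h.rt1 had
  obtain ⟨dbc, ebc, hdbc, hebc, h5⟩ := pair2 T (V2 := V2) (δ₁ := δ₁) h.snon hη hρ h.d1ρ h.rt1 hbc
  obtain ⟨dbd, ebd, hdbd, hebd, h6⟩ := pair2 T (V2 := V2) (δ₁ := δ₁) h.snon hη hρ h.d1ρ h.rt1 hbd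
  have ca := h.cls a ha dab dac dad hdab hdac hdad
  have cb := h.cls b hb eab dbc dbd heab hdbc hdbd
  have cc := h.cls c hc dcd eac ebc hdcd heac hebc
  have cd := h.cls d hd ecd ead ebd hecd head hebd
  have g0 := h.gpos.le
  -- the exceptional predicates
  set X13 : V × V → Prop := fun x => T.Sim V2 η δ₁ dac a x.1 ∧ T.Sim V2 η δ₁ eac c x.2 ∧
    T.adj x.1 x.2 with hX13
  set X14 : V × V → Prop := fun x => T.Sim V2 η δ₁ dad a x.1 ∧ T.Sim V2 η δ₁ ead d x.2 ∧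
    T.adj x.1 x.2 with hX14
  set X23 : V × V → Prop := fun x => T.Sim V2 η δ₁ dbc b x.1 ∧ T.Sim V2 η δ₁ ebc c x.2 ∧
    T.adj x.1 x.2 with hX23
  set X24 : V × V → Prop := fun x => T.Sim V2 η δ₁ dbd b x.1 ∧ T.Sim V2 η δ₁ ebd d x.2 ∧
    T.adj x.1 x.2 with hX24
  have hbox := den_box4
    (P₁ := fun x => T.Sim V2 η δ₁ dab a x ∧ T.Sim V2 η δ₁ dac a x ∧ T.Sim V2 η δ₁ dad a x)
    (P₂ := fun x => T.Sim V2 η δ₁ eab b x ∧ T.Sim V2 η δ₁ dbc b x ∧ T.Sim V2 η δ₁ dbd b x)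
    (P₃ := fun x => T.Sim V2 η δ₁ dcd c x ∧ T.Sim V2 η δ₁ eac c x ∧ T.Sim V2 η δ₁ ebc c x)
    (P₄ := fun x => T.Sim V2 η δ₁ ecd d x ∧ T.Sim V2 η δ₁ ead d x ∧ T.Sim V2 η δ₁ ebd d x)
    (Q := fun a' b' c' d' => (K2 T.adj a' b' c' d' ∨ X13 (a', c')) ∨
      (X14 (a', d') ∨ X23 (b', c')) ∨ X24 (b', d'))
    (by
      intro a' b' c' d' sa sb sc sd
      have e1 : T.adj a' b' := h1 _ _ sa.1 sb.1
      have e2 : T.adj c' d' := h2 _ _ sc.1 sd.1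
      by_cases x13 : T.adj a' c'
      · exact Or.inl (Or.inr ⟨sa.2.1, sc.2.1, x13⟩)
      by_cases x14 : T.adj a' d'
      · exact Or.inr (Or.inl (Or.inl ⟨sa.2.2, sd.2.1, x14⟩))
      by_cases x23 : T.adj b' c'
      · exact Or.inr (Or.inl (Or.inr ⟨sb.2.1, sc.2.2, x23⟩))
      by_cases x24 : T.adj b' d'
      · exact Or.inr (Or.inr ⟨sb.2.2, sd.2.2, x24⟩)
      exact Or.inl (Or.inl ⟨e1, e2, x13, x14, x23, x24⟩))
  have hprod : γ ^ 4 ≤ den (fun x => T.Sim V2 η δ₁ dab a x ∧ T.Sim V2 η δ₁ dac a x ∧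
        T.Sim V2 η δ₁ dad a x) *
      den (fun x => T.Sim V2 η δ₁ eab b x ∧ T.Sim V2 η δ₁ dbc b x ∧ T.Sim V2 η δ₁ dbd b x) *
      den (fun x => T.Sim V2 η δ₁ dcd c x ∧ T.Sim V2 η δ₁ eac c x ∧ T.Sim V2 η δ₁ ebc c x) *
      den (fun x => T.Sim V2 η δ₁ ecd d x ∧ T.Sim V2 η δ₁ ead d x ∧ T.Sim V2 η δ₁ ebd d x) := by
    have := mul_le_mul (mul_le_mul (mul_le_mul ca cb g0 (g0.trans ca)) cc g0
      (mul_nonneg (g0.trans ca) (g0.trans cb))) cd g0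
      (mul_nonneg (mul_nonneg (g0.trans ca) (g0.trans cb)) (g0.trans cc))
    calc γ ^ 4 = γ * γ * γ * γ := by ring
      _ ≤ _ := this
  have hsplit : den (fun x : V × V × V × V => (K2 T.adj x.1 x.2.1 x.2.2.1 x.2.2.2 ∨
      X13 (x.1, x.2.2.1)) ∨ (X14 (x.1, x.2.2.2) ∨ X23 (x.2.1, x.2.2.1)) ∨ X24 (x.2.1, x.2.2.2)) ≤
      dK2 T.adj + 4 * ρ := by
    refine (den_or_le (fun x : V × V × V × V => K2 T.adj x.1 x.2.1 x.2.2.1 x.2.2.2 ∨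
      X13 (x.1, x.2.2.1)) (fun x => (X14 (x.1, x.2.2.2) ∨ X23 (x.2.1, x.2.2.1)) ∨
      X24 (x.2.1, x.2.2.2))).trans ?_
    have e1 := den_or_le (fun x : V × V × V × V => K2 T.adj x.1 x.2.1 x.2.2.1 x.2.2.2)
      (fun x => X13 (x.1, x.2.2.1))
    have e2 := den_or_le (fun x : V × V × V × V => X14 (x.1, x.2.2.2) ∨ X23 (x.2.1, x.2.2.1))
      (fun x => X24 (x.2.1, x.2.2.2))
    have e3 := den_or_le (fun x : V × V × V × V => X14 (x.1, x.2.2.2))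
      (fun x => X23 (x.2.1, x.2.2.1))
    have l13 := (Pair_lift13 X13).trans h3
    have l14 := (Pair_lift14 X14).trans h4
    have l23 := (Pair_lift23 X23).trans h5
    have l24 := (Pair_lift24 X24).trans h6
    have ek : den (fun x : V × V × V × V => K2 T.adj x.1 x.2.1 x.2.2.1 x.2.2.2) = dK2 T.adj := rfl
    linarith
  have := h.four
  linarith [hprod.trans (hbox.trans hsplit)]

/-- contradiction with RT3 -/
theorem rt3_contra (h : T.Setup s N V2 V3 Vg S η δ₁ γ ρ) {a c z y : V}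
    (ha : Vg a) (hc : Vg c) (hz : S z) (hy : S y) (haz : T.adj a z) (hay : ¬ T.adj a y)
    (hcy : T.adj c y) (hcz : ¬ T.adj c z) (hzy : ¬ T.adj z y) (hac : T.Ee η a c) : False := by
  have hη := Pair_eta T h
  have hac' : T.pi a = T.pi c ∨ T.M a c ≤ -η := by
    rcases hac with h | h
    · exact Or.inl h
    · exact Or.inr h.le
  obtain ⟨d, e, hd, he, h1⟩ := pair0 T (V2 := V2) (δ₁ := δ₁) h.snon hη hac'
  have ca := h.cls a ha d (T.pi a, z, y, T.pi a, z) (T.pi a, z, y, T.pi a, z) hd ⟨hz, hy, hz⟩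
    ⟨hz, hy, hz⟩
  have cc := h.cls c hc e (T.pi a, z, y, T.pi a, z) (T.pi a, z, y, T.pi a, z) he ⟨hz, hy, hz⟩
    ⟨hz, hy, hz⟩
  have h3 := den_prod (fun u' => T.Sim V2 η δ₁ d a u' ∧
    T.Sim V2 η δ₁ (T.pi a, z, y, T.pi a, z) a u' ∧ T.Sim V2 η δ₁ (T.pi a, z, y, T.pi a, z) a u')
    (fun v' => T.Sim V2 η δ₁ e c v' ∧ T.Sim V2 η δ₁ (T.pi a, z, y, T.pi a, z) c v' ∧
    T.Sim V2 η δ₁ (T.pi a, z, y, T.pi a, z) c v')
  have h4 : γ * γ ≤ ρ := by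
    refine le_trans (mul_le_mul ca cc h.gpos.le (h.gpos.le.trans ca)) ?_
    rw [← h3]
    refine le_trans (den_mono ?_) (h.rt3 z y hz hy hzy)
    rintro x ⟨⟨xa, xb, _⟩, ⟨ya, yb, _⟩⟩
    refine ⟨xb.2.2.2.1.2 haz, fun h' => hay (xb.2.2.2.2.1.1 h'), yb.2.2.2.2.1.2 hcy,
      fun h' => hcz (yb.2.2.2.1.1 h'), h1 _ _ xa ya⟩
  have := h.rho
  nlinarith

/-- contradiction with RT2 -/
theorem rt2_contra (h : T.Setup s N V2 V3 Vg S η δ₁ γ ρ) {a z y : V}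
    (ha : Vg a) (hz : S z) (hz2 : V2 z) (hy : S y) (hne : y ≠ z) (hzy : ¬ T.adj z y)
    (haz : T.adj a z) (hI : T.Ip V2 δ₁ (T.pi z) a y) : False := by
  have ca := h.cls a ha (T.pi a, z, z, T.pi z, y) (T.pi a, z, z, T.pi z, y)
    (T.pi a, z, z, T.pi z, y) ⟨hz, hz, hy⟩ ⟨hz, hz, hy⟩ ⟨hz, hz, hy⟩
  have h2 := h.rt2 y z hy hz hz2 hne hzy
  have h3 : γ ≤ ρ := by
    refine le_trans ca (le_trans (den_mono ?_) h2)
    rintro x ⟨hx, _, _⟩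
    exact ⟨hx.2.2.2.1.2 haz, hx.2.2.2.2.2.2 hI⟩
  linarith [h.rho']

end Pool.Agent.IC4
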