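import Pool.Agent.IC4.Base

set_option autoImplicit false

namespace Pool.Agent.IC4

open scoped Classical

/-- the exceptional pairs -/
private def Struct_E {V : Type} [Fintype V] (r : V → V → Prop) (W : V → Prop) (β : ℝ)
    (x : V × V) : Prop :=
  W x.1 ∧ W x.2 ∧ r x.1 x.2 ∧ β ≤ den (fun w : V => W w ∧ ¬ r x.1 w ∧ ¬ r x.2 w)

private theorem Struct_denE {V : Type} [Fintype V] (r : V → V → Prop)
    {β δ : ℝ} (hδ0 : 0 < δ) (hd : dK2 r ≤ δ ^ 2) (W : V → Prop)
    (hW : ∀ X : V → Prop, (∀ u, X u → W u) → β ≤ den X →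
      δ < den (fun x : V × V => X x.1 ∧ X x.2 ∧ r x.1 x.2)) :
    den (Struct_E r W β) ≤ δ := by
  have h1 := den_prod_ge (P := Struct_E r W β)
    (R := fun a b : V × V => K2 r a.1 a.2 b.1 b.2) (c := δ) (by
      intro x hx
      obtain ⟨_, _, hr, hβ⟩ := hx
      have h2 := hW (fun w : V => W w ∧ ¬ r x.1 w ∧ ¬ r x.2 w) (fun u hu => hu.1) hβ
      refine h2.le.trans (den_mono ?_)
      intro y hy
      exact ⟨hr, hy.2.2, hy.1.2.1, hy.2.1.2.1, hy.1.2.2, hy.2.1.2.2⟩)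
  have h3 : den (fun x : (V × V) × (V × V) => K2 r x.1.1 x.1.2 x.2.1 x.2.2) = dK2 r := by
    rw [dK2, ← den_equiv (Equiv.prodAssoc V V (V × V))
      (fun x : V × V × V × V => K2 r x.1 x.2.1 x.2.2.1 x.2.2.2)]
    rfl
  have h4 : den (fun x : (V × V) × (V × V) => Struct_E r W β x.1 ∧
      K2 r x.1.1 x.1.2 x.2.1 x.2.2) ≤ dK2 r := by
    rw [← h3]
    exact den_mono (fun x hx => hx.2)
  have h5 : δ * den (Struct_E r W β) ≤ δ ^ 2 := (h1.trans h4).trans hd
  nlinarith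

private theorem Struct_T {V : Type} [Fintype V] (r : V → V → Prop)
    (hs : ∀ u v, r u v → r v u) {β δ : ℝ} (hβ : 0 ≤ β) (W : V → Prop)
    (hE : den (Struct_E r W β) ≤ δ) :
    den (fun x : V × (V × V) => W x.1 ∧ (W x.2.1 ∧ ¬ r x.1 x.2.1) ∧ (W x.2.2 ∧ ¬ r x.1 x.2.2) ∧
      r x.2.1 x.2.2) ≤ δ + β := by
  have h1 := den_swap (fun (w : V) (y : V × V) => W w ∧ (W y.1 ∧ ¬ r w y.1) ∧
    (W y.2 ∧ ¬ r w y.2) ∧ r y.1 y.2)
  rw [h1]
  have h2 : den (fun x : (V × V) × V => W x.2 ∧ (W x.1.1 ∧ ¬ r x.2 x.1.1) ∧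
      (W x.1.2 ∧ ¬ r x.2 x.1.2) ∧ r x.1.1 x.1.2)
      ≤ den (fun x : (V × V) × V => Struct_E r W β x.1 ∧ True)
        + den (fun x : (V × V) × V => (¬ Struct_E r W β x.1) ∧
          (W x.2 ∧ (W x.1.1 ∧ ¬ r x.2 x.1.1) ∧ (W x.1.2 ∧ ¬ r x.2 x.1.2) ∧ r x.1.1 x.1.2)) := by
    apply den_le_add
    intro x hx
    by_cases h : Struct_E r W β x.1
    · exact Or.inl ⟨h, trivial⟩
    · exact Or.inr ⟨h, hx⟩
  refine h2.trans (add_le_add ?_ ?_)
  · have h3 := den_prod_le (α := V × V) (β := V) (P := Struct_E r W β)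
      (R := fun _ _ => True) (c := 1) (fun _ _ => den_le_one _)
    linarith
  · apply den_prod_le' (α := V × V) (β := V) (P := fun x => ¬ Struct_E r W β x)
      (R := fun x w => W w ∧ (W x.1 ∧ ¬ r w x.1) ∧ (W x.2 ∧ ¬ r w x.2) ∧ r x.1 x.2) hβ
    intro x hx
    by_cases hx' : W x.1 ∧ W x.2 ∧ r x.1 x.2
    · have h4 : den (fun w : V => W w ∧ ¬ r x.1 w ∧ ¬ r x.2 w) < β := by
        by_contra hc
        push Not at hc
        exact hx ⟨hx'.1, hx'.2.1, hx'.2.2, hc⟩
      refine (den_mono ?_).trans h4.le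
      intro w hw
      exact ⟨hw.1, fun h => hw.2.1.2 (hs _ _ h), fun h => hw.2.2.1.2 (hs _ _ h)⟩
    · rw [den_eq_zero]
      · exact hβ
      · intro w hw
        exact hx' ⟨hw.2.1.1, hw.2.2.1.1, hw.2.2.2⟩

private theorem Struct_split {V : Type} [Fintype V] (P Q : V → Prop) :
    den P ≤ den (fun u => P u ∧ Q u) + den (fun u => P u ∧ ¬ Q u) := by
  apply den_le_add
  intro u hu
  by_cases h : Q u
  · exact Or.inl ⟨hu, h⟩
  · exact Or.inr ⟨hu, h⟩

private theorem Struct_key {V : Type} [Fintype V] (r : V → V → Prop)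
    {ρ δ : ℝ} (h0 : 0 < ρ) (h1 : ρ ≤ 1 / 2) (W : V → Prop)
    (hE : den (Struct_E r W (ρ ^ 3 / 96)) ≤ δ)
    (hW : ∀ X : V → Prop, (∀ u, X u → W u) → ρ ^ 3 / 96 ≤ den X →
      δ < den (fun x : V × V => X x.1 ∧ X x.2 ∧ r x.1 x.2)) (w : V)
    (hN : ρ / 2 < den (fun u => W u ∧ ¬ r w u)) :
    ρ ^ 2 / 24 ≤ den (fun x : V × V => (W x.1 ∧ ¬ r w x.1) ∧ (W x.2 ∧ ¬ r w x.2) ∧ r x.1 x.2) := by
  by_contra hcon
  push Not at hcon
  set Nw : V → Prop := fun u => W u ∧ ¬ r w u with hNw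
  set dN := den Nw with hdN
  -- few vertices have a large degree in `Nw`
  set Q : V → Prop := fun u => Nw u ∧ den (fun v => Nw v ∧ r u v) ≤ dN / 3 with hQ
  have hβ1 : ρ ^ 3 / 96 ≤ ρ / 6 := by nlinarith [sq_nonneg ρ, mul_pos h0 h0]
  have g1 : dN / 3 * den (fun u => Nw u ∧ ¬ (den (fun v => Nw v ∧ r u v) ≤ dN / 3))
      ≤ den (fun x : V × V => (W x.1 ∧ ¬ r w x.1) ∧ (W x.2 ∧ ¬ r w x.2) ∧ r x.1 x.2) := by
    have g2 := den_prod_ge
      (P := fun u : V => Nw u ∧ ¬ (den (fun v => Nw v ∧ r u v) ≤ dN / 3))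
      (R := fun u v : V => Nw v ∧ r u v) (c := dN / 3) (by
        intro u hu
        have := hu.2
        push Not at this
        exact this.le)
    refine g2.trans (den_mono ?_)
    intro x hx
    exact ⟨hx.1.1, hx.2.1, hx.2.2⟩
  have g3 : den (fun u => Nw u ∧ ¬ (den (fun v => Nw v ∧ r u v) ≤ dN / 3)) ≤ ρ / 4 := by
    by_contra hc
    rw [not_le] at hc
    have : ρ ^ 2 / 24 < dN / 3 * den (fun u => Nw u ∧ ¬ (den (fun v => Nw v ∧ r u v) ≤ dN / 3)) := by
      have e1 : ρ / 6 * (ρ / 4) = ρ ^ 2 / 24 := by ring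
      rw [← e1]
      apply mul_lt_mul'' _ hc (by positivity) (by positivity)
      linarith
    linarith
  have g4 := Struct_split Nw (fun u => den (fun v => Nw v ∧ r u v) ≤ dN / 3)
  have g5 : ρ ^ 3 / 96 ≤ den Q := by
    have : ρ / 4 ≤ den Q := by linarith
    have h2 : ρ ^ 3 / 96 ≤ ρ / 4 := by linarith
    linarith
  have g6 := hW Q (fun u hu => hu.1.1) g5
  have g7 : den (fun x : V × V => Q x.1 ∧ Q x.2 ∧ r x.1 x.2) ≤ den (Struct_E r W (ρ ^ 3 / 96)) := by
    apply den_mono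
    intro x hx
    obtain ⟨hx1, hx2, hr⟩ := hx
    refine ⟨hx1.1.1, hx2.1.1, hr, ?_⟩
    have k1 := Struct_split Nw (fun v => r x.1 v)
    have k2 := Struct_split (fun v => Nw v ∧ ¬ r x.1 v) (fun v => r x.2 v)
    have k3 : den (fun u => (Nw u ∧ ¬ r x.1 u) ∧ r x.2 u) ≤ den (fun v => Nw v ∧ r x.2 v) :=
      den_mono (fun u hu => ⟨hu.1.1, hu.2⟩)
    have k4 : den (fun u => (Nw u ∧ ¬ r x.1 u) ∧ ¬ r x.2 u)
        ≤ den (fun u => W u ∧ ¬ r x.1 u ∧ ¬ r x.2 u) :=
      den_mono (fun u hu => ⟨hu.1.1.1, hu.1.2, hu.2⟩)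
    have k5 := hx1.2
    have k6 := hx2.2
    linarith
  linarith

/-- Part I, the two cases for a set `W` without big sparse subsets -/
theorem struct_W {V : Type} [Fintype V] (r : V → V → Prop) (hs : ∀ u v, r u v → r v u)
    {ρ δ : ℝ} (h0 : 0 < ρ) (h1 : ρ ≤ 1 / 2) (hδ0 : 0 < δ) (hδ : δ ≤ ρ ^ 3 / 96)
    (hd : dK2 r ≤ δ ^ 2) (W : V → Prop)
    (hW : ∀ X : V → Prop, (∀ u, X u → W u) → ρ ^ 3 / 96 ≤ den X →
      δ < den (fun x : V × V => X x.1 ∧ X x.2 ∧ r x.1 x.2)) :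
    den (fun x : V × V => W x.1 ∧ W x.2 ∧ ¬ r x.1 x.2) ≤ ρ := by
  have hE := Struct_denE r hδ0 hd W hW
  have hT := Struct_T r hs (β := ρ ^ 3 / 96) (by positivity) W hE
  set R : V → V × V → Prop := fun w y => W w ∧ (W y.1 ∧ ¬ r w y.1) ∧ (W y.2 ∧ ¬ r w y.2) ∧
    r y.1 y.2 with hR
  have hM := den_markov R (ρ ^ 2 / 24)
  have e1 : den (fun x : V × V => W x.1 ∧ W x.2 ∧ ¬ r x.1 x.2)
      ≤ den (fun x : V × V => (W x.1 ∧ ¬ (ρ ^ 2 / 24 ≤ den (R x.1))) ∧ (W x.2 ∧ ¬ r x.1 x.2))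
        + den (fun x : V × V => (ρ ^ 2 / 24 ≤ den (R x.1)) ∧ True) := by
    apply den_le_add
    intro x hx
    by_cases h : ρ ^ 2 / 24 ≤ den (R x.1)
    · exact Or.inr ⟨h, trivial⟩
    · exact Or.inl ⟨⟨hx.1, h⟩, hx.2⟩
  have e2 : den (fun x : V × V => (W x.1 ∧ ¬ (ρ ^ 2 / 24 ≤ den (R x.1))) ∧ (W x.2 ∧ ¬ r x.1 x.2))
      ≤ ρ / 2 := by
    apply den_prod_le' (α := V) (β := V) (P := fun w => W w ∧ ¬ (ρ ^ 2 / 24 ≤ den (R w)))
      (R := fun w u => W u ∧ ¬ r w u) (by linarith)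
    intro w hw
    by_contra hc
    push Not at hc
    apply hw.2
    have := Struct_key r h0 h1 W hE hW w hc
    refine this.trans (den_mono ?_)
    intro y hy
    exact ⟨hw.1, hy⟩
  have e3 : den (fun x : V × V => (ρ ^ 2 / 24 ≤ den (R x.1)) ∧ True)
      ≤ den (fun w : V => ρ ^ 2 / 24 ≤ den (R w)) := by
    have h3 := den_prod_le (α := V) (β := V) (P := fun w => ρ ^ 2 / 24 ≤ den (R w))
      (R := fun _ _ => True) (c := 1) (fun _ _ => den_le_one _)
    linarith
  have e4 : den (fun w : V => ρ ^ 2 / 24 ≤ den (R w)) ≤ ρ / 2 := by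
    have h5 : ρ ^ 2 / 24 * den (fun w : V => ρ ^ 2 / 24 ≤ den (R w)) ≤ δ + ρ ^ 3 / 96 :=
      hM.trans hT
    have h6 : ρ ^ 2 / 24 * den (fun w : V => ρ ^ 2 / 24 ≤ den (R w)) ≤ ρ ^ 2 / 24 * (ρ / 2) := by
      have : ρ ^ 2 / 24 * (ρ / 2) = ρ ^ 3 / 96 + ρ ^ 3 / 96 := by ring
      rw [this]
      linarith
    exact le_of_mul_le_mul_left h6 (by positivity)
  linarith

private def Struct_P {V : Type} [Fintype V] (r : V → V → Prop) (β δ : ℝ) (k : ℕ) : Prop :=
  ∃ p : V → Option (Fin k), (∀ i : Fin k, β ≤ den (fun u => p u = some i)) ∧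
    ∀ i : Fin k, den (fun x : V × V => p x.1 = some i ∧ p x.2 = some i ∧ r x.1 x.2) ≤ δ

private theorem Struct_bound {V : Type} [Fintype V] (r : V → V → Prop) {β δ : ℝ} (hβ : 0 < β)
    {k : ℕ} (h : Struct_P r β δ k) : (k : ℝ) ≤ 1 / β := by
  obtain ⟨p, hp, -⟩ := h
  have h1 : ∑ i : Fin k, den (fun u => p u = some i) ≤ 1 := by
    simp_rw [← avg_ite, avg]
    rw [← Finset.sum_div, Finset.sum_comm]
    apply div_le_one_of_le₀ _ (by positivity)
    have h2 : ∀ u : V, ∑ i : Fin k,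
        (@ite ℝ (p u = some i) (Classical.propDecidable (p u = some i)) 1 0) ≤ 1 := by
      intro u
      rcases hpu : p u with _ | j
      · refine le_trans (le_of_eq (Finset.sum_eq_zero ?_)) zero_le_one
        intro i _
        rw [if_neg]
        simp
      · refine le_of_eq ((Finset.sum_eq_single j ?_ ?_).trans ?_)
        · intro b _ hb
          rw [if_neg]
          intro h
          exact hb (Option.some.inj h).symm
        · intro h
          exact absurd (Finset.mem_univ j) h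
        · rw [if_pos rfl]
    refine (Finset.sum_le_sum (fun u _ => h2 u)).trans (le_of_eq ?_)
    simp
  have h3 : (k : ℝ) * β ≤ ∑ i : Fin k, den (fun u => p u = some i) := by
    have := Finset.card_nsmul_le_sum (Finset.univ : Finset (Fin k))
      (fun i => den (fun u => p u = some i)) β (fun i _ => hp i)
    simpa using this
  rw [le_div_iff₀ hβ]
  linarith

private theorem Struct_max {V : Type} [Fintype V] (r : V → V → Prop) {β δ : ℝ} (hβ : 0 < β) :
    ∃ k : ℕ, Struct_P r β δ k ∧ ¬ Struct_P r β δ (k + 1) := by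
  by_contra hcon
  push Not at hcon
  have h0 : Struct_P r β δ 0 := ⟨fun _ => none, fun i => i.elim0, fun i => i.elim0⟩
  have h1 : ∀ k, Struct_P r β δ k := by
    intro k
    induction k with
    | zero => exact h0
    | succ k ih => exact hcon k ih
  obtain ⟨k, hk⟩ := exists_nat_gt (1 / β)
  have := Struct_bound r hβ (h1 k)
  linarith

/-- Part I -/
theorem struct_exists {V : Type} [Fintype V] (r : V → V → Prop) (hs : ∀ u v, r u v → r v u)
    {ρ δ : ℝ} (h0 : 0 < ρ) (h1 : ρ ≤ 1 / 2) (hδ0 : 0 < δ) (hδ : δ ≤ ρ ^ 3 / 96)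
    (hd : dK2 r ≤ δ ^ 2) :
    ∃ (k : ℕ) (p : V → Option (Fin k)), (k : ℝ) ≤ 96 / ρ ^ 3 ∧
      (∀ i : Fin k, den (fun x : V × V => p x.1 = some i ∧ p x.2 = some i ∧ r x.1 x.2) ≤ δ) ∧
      den (fun x : V × V => p x.1 = none ∧ p x.2 = none ∧ ¬ r x.1 x.2) ≤ ρ := by
  have hβ : (0:ℝ) < ρ ^ 3 / 96 := by positivity
  obtain ⟨k, hk, hk'⟩ := Struct_max r (δ := δ) hβ
  have hb := Struct_bound r hβ hk
  obtain ⟨p, hp1, hp2⟩ := hk
  refine ⟨k, p, ?_, hp2, ?_⟩
  · have : 1 / (ρ ^ 3 / 96) = 96 / ρ ^ 3 := by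
      rw [one_div_div]
    rw [← this]
    exact hb
  · apply struct_W r hs h0 h1 hδ0 hδ hd (fun u => p u = none)
    intro X hX hXβ
    by_contra hc
    push Not at hc
    apply hk'
    refine ⟨fun u => if X u then some (Fin.last k) else (p u).map Fin.castSucc, ?_, ?_⟩
    · intro i
      refine Fin.lastCases ?_ (fun j => ?_) i
      · refine hXβ.trans (den_mono ?_)
        intro u hu
        simp only [if_pos hu]
      · refine (hp1 j).trans (den_mono ?_)
        intro u hu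
        have hnX : ¬ X u := by
          intro h
          rw [hX u h] at hu
          exact absurd hu (by simp)
        simp only [if_neg hnX, hu, Option.map_some]
    · intro i
      refine Fin.lastCases ?_ (fun j => ?_) i
      · refine (den_mono ?_).trans hc
        intro x hx
        have aux : ∀ u : V, (if X u then some (Fin.last k) else (p u).map Fin.castSucc)
            = some (Fin.last k) → X u := by
          intro u hu
          by_contra hnX
          rw [if_neg hnX] at hu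
          rcases hpu : p u with _ | j
          · rw [hpu] at hu
            exact absurd hu (by simp)
          · rw [hpu, Option.map_some] at hu
            exact absurd (Option.some.inj hu) (Fin.castSucc_lt_last j).ne
        exact ⟨aux _ hx.1, aux _ hx.2.1, hx.2.2⟩
      · refine (den_mono ?_).trans (hp2 j)
        intro x hx
        have aux : ∀ u : V, (if X u then some (Fin.last k) else (p u).map Fin.castSucc)
            = some (Fin.castSucc j) → p u = some j := by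
          intro u hu
          by_cases hXu : X u
          · rw [if_pos hXu] at hu
            exact absurd (Option.some.inj hu).symm (Fin.castSucc_lt_last j).ne
          · rw [if_neg hXu] at hu
            rcases hpu : p u with _ | j'
            · rw [hpu] at hu
              exact absurd hu (by simp)
            · rw [hpu, Option.map_some] at hu
              rw [Fin.castSucc_injective k (Option.some.inj hu)]
        exact ⟨aux _ hx.1, aux _ hx.2.1, hx.2.2⟩

end Pool.Agent.IC4
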