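import Pool.Agent.IC4.Base

set_option autoImplicit false

namespace Pool.Agent.IC4

section ThrAux

open scoped Classical

variable {V K : Type} [Fintype V] (p : V → K) (g : V → V → Prop)

/-- degree of `u` into the part `q` -/
noncomputable def Thr_deg (q : K) (u : V) : ℕ :=
  (Finset.univ.filter (fun v => p v = q ∧ g u v)).card

/-- `w` is above `u` in the order of the part of `u` induced by the degree into `q` -/
def Thr_ab (q : K) (u w : V) : Prop :=
  p w = p u ∧ (Thr_deg p g q u < Thr_deg p g q w ∨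
    (Thr_deg p g q u = Thr_deg p g q w ∧ Fintype.equivFin V u < Fintype.equivFin V w))

/-- number of vertices above `u` -/
noncomputable def Thr_up (q : K) (u : V) : ℕ :=
  (Finset.univ.filter (fun w => Thr_ab p g q u w)).card

/-- the threshold values -/
noncomputable def Thr_th (u : V) (q : K) : ℝ :=
  ((Thr_deg p g q u : ℝ) - (Thr_up p g q u : ℝ)) / (Fintype.card V : ℝ)

variable {p g}

theorem Thr_ab_irrefl (q : K) (u : V) : ¬ Thr_ab p g q u u := by
  rintro ⟨_, h | ⟨_, h⟩⟩ <;> exact lt_irrefl _ h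

theorem Thr_ab_trans {q : K} {u v w : V} (h1 : Thr_ab p g q u v) (h2 : Thr_ab p g q v w) :
    Thr_ab p g q u w := by
  obtain ⟨e1, h1⟩ := h1
  obtain ⟨e2, h2⟩ := h2
  refine ⟨e2.trans e1, ?_⟩
  rcases h1 with h1 | ⟨a1, b1⟩ <;> rcases h2 with h2 | ⟨a2, b2⟩
  · left; omega
  · left; omega
  · left; omega
  · right; exact ⟨a1.trans a2, b1.trans b2⟩

theorem Thr_ab_total {q : K} {u w : V} (hp : p w = p u) (hne : u ≠ w) :
    Thr_ab p g q u w ∨ Thr_ab p g q w u := by
  have hi : Fintype.equivFin V u ≠ Fintype.equivFin V w := fun h => hne ((Fintype.equivFin V).injective h)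
  rcases lt_trichotomy (Thr_deg p g q u) (Thr_deg p g q w) with h | h | h
  · left; exact ⟨hp, Or.inl h⟩
  · rcases lt_or_gt_of_ne hi with h' | h'
    · left; exact ⟨hp, Or.inr ⟨h, h'⟩⟩
    · right; exact ⟨hp.symm, Or.inr ⟨h.symm, h'⟩⟩
  · right; exact ⟨hp.symm, Or.inl h⟩

theorem Thr_ab_deg {q : K} {u w : V} (h : Thr_ab p g q u w) : Thr_deg p g q u ≤ Thr_deg p g q w := by
  rcases h.2 with h | h
  · exact h.le
  · exact h.1.le

theorem Thr_ab_up {q : K} {u w : V} (h : Thr_ab p g q u w) : Thr_up p g q w < Thr_up p g q u := by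
  unfold Thr_up
  apply Finset.card_lt_card
  refine ⟨?_, ?_⟩
  · intro x hx
    simp only [Finset.mem_filter, Finset.mem_univ, true_and] at hx ⊢
    exact Thr_ab_trans h hx
  · intro hsub
    have : w ∈ Finset.univ.filter (fun x => Thr_ab p g q u x) := by simpa using h
    have := hsub this
    simp only [Finset.mem_filter, Finset.mem_univ, true_and] at this
    exact Thr_ab_irrefl q w this

/-- neighbourhoods are up-sets -/
theorem Thr_upset (hch : ∀ u u' v v', p u = p u' → p v = p v' → p u ≠ p v → g u v → g u' v' →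
      g u v' ∨ g u' v) {u w v : V} (hne : p u ≠ p v) (h : Thr_ab p g (p v) u w) (huv : g u v) :
    g w v := by
  by_contra hwv
  have hdeg := Thr_ab_deg h
  unfold Thr_deg at hdeg
  have : ¬ (Finset.univ.filter (fun v' => p v' = p v ∧ g w v')) ⊆
      (Finset.univ.filter (fun v' => p v' = p v ∧ g u v')) := by
    intro hsub
    have heq := Finset.eq_of_subset_of_card_le hsub hdeg
    have hv : v ∈ Finset.univ.filter (fun v' => p v' = p v ∧ g u v') := by simpa using huv
    rw [← heq] at hv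
    simp only [Finset.mem_filter, Finset.mem_univ, true_and] at hv
    exact hwv hv
  rw [Finset.not_subset] at this
  obtain ⟨v', h1, h2⟩ := this
  simp only [Finset.mem_filter, Finset.mem_univ, true_and, not_and] at h1 h2
  rcases hch u w v v' h.1.symm h1.1.symm hne huv h1.2 with h3 | h3
  · exact h2 h1.1 h3
  · exact hwv h3

theorem Thr_one (hs : ∀ u v, g u v → g v u)
    (hch : ∀ u u' v v', p u = p u' → p v = p v' → p u ≠ p v → g u v → g u' v' →
      g u v' ∨ g u' v) {u v : V} (hne : p u ≠ p v) (huv : g u v) :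
    Thr_up p g (p v) u + 1 ≤ Thr_deg p g (p u) v := by
  unfold Thr_up Thr_deg
  have h1 : u ∉ Finset.univ.filter (fun w => Thr_ab p g (p v) u w) := by
    simp only [Finset.mem_filter, Finset.mem_univ, true_and]
    exact Thr_ab_irrefl _ _
  rw [← Finset.card_insert_of_notMem h1]
  apply Finset.card_le_card
  intro w hw
  simp only [Finset.mem_insert, Finset.mem_filter, Finset.mem_univ, true_and] at hw ⊢
  rcases hw with rfl | hw
  · exact ⟨rfl, hs _ _ huv⟩
  · exact ⟨hw.1, hs _ _ (Thr_upset hch hne hw huv)⟩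

theorem Thr_zero (hs : ∀ u v, g u v → g v u)
    (hch : ∀ u u' v v', p u = p u' → p v = p v' → p u ≠ p v → g u v → g u' v' →
      g u v' ∨ g u' v) {u v : V} (hne : p u ≠ p v) (huv : ¬ g u v) :
    Thr_deg p g (p u) v ≤ Thr_up p g (p v) u := by
  unfold Thr_up Thr_deg
  apply Finset.card_le_card
  intro w hw
  simp only [Finset.mem_filter, Finset.mem_univ, true_and] at hw ⊢
  have hwu : u ≠ w := by
    rintro rfl
    exact huv (hs _ _ hw.2)
  rcases Thr_ab_total (g := g) (q := p v) hw.1 hwu with h | h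
  · exact h
  · exact absurd (Thr_upset hch (by rw [hw.1]; exact hne) h (hs _ _ hw.2)) huv

theorem Thr_deg_le (q : K) (u : V) : (Thr_deg p g q u : ℝ) ≤ (Fintype.card V : ℝ) := by
  unfold Thr_deg
  exact_mod_cast Finset.card_le_univ _

theorem Thr_up_le (q : K) (u : V) : (Thr_up p g q u : ℝ) ≤ (Fintype.card V : ℝ) := by
  unfold Thr_up
  exact_mod_cast Finset.card_le_univ _

theorem Thr_bd (u : V) (q : K) : |Thr_th p g u q| ≤ 1 := by
  have hn : (0 : ℝ) < (Fintype.card V : ℝ) := by
    exact_mod_cast Fintype.card_pos_iff.mpr ⟨u⟩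
  unfold Thr_th
  rw [abs_div, abs_of_pos hn, div_le_one hn, abs_le]
  have h1 := Thr_deg_le (p := p) (g := g) q u
  have h2 := Thr_up_le (p := p) (g := g) q u
  have h3 : (0 : ℝ) ≤ (Thr_deg p g q u : ℝ) := by positivity
  have h4 : (0 : ℝ) ≤ (Thr_up p g q u : ℝ) := by positivity
  constructor <;> linarith

theorem Thr_inj (q : K) {u w : V} (hp : p w = p u)
    (h : (Thr_deg p g q u : ℤ) - Thr_up p g q u = (Thr_deg p g q w : ℤ) - Thr_up p g q w) :
    u = w := by
  by_contra hne
  rcases Thr_ab_total (g := g) (q := q) hp hne with h' | h'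
  · have h1 := Thr_ab_deg h'
    have h2 := Thr_ab_up h'
    omega
  · have h1 := Thr_ab_deg h'
    have h2 := Thr_ab_up h'
    omega

theorem Thr_sp (p₀ q : K) (x l : ℝ) (hl : 0 ≤ l) :
    den (fun u => p u = p₀ ∧ x ≤ Thr_th p g u q ∧ Thr_th p g u q ≤ x + l) ≤
      l + 1 / (Fintype.card V : ℝ) := by
  rcases Nat.eq_zero_or_pos (Fintype.card V) with h0 | hpos
  · have : den (fun u => p u = p₀ ∧ x ≤ Thr_th p g u q ∧ Thr_th p g u q ≤ x + l) = 0 := by
      apply den_eq_zero
      intro a _
      exact (Fintype.card_eq_zero_iff.mp h0).false a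
    rw [this]
    positivity
  have hn : (0 : ℝ) < (Fintype.card V : ℝ) := by exact_mod_cast hpos
  set n : ℝ := (Fintype.card V : ℝ) with hndef
  have hcard : (((Finset.univ.filter
      (fun u => p u = p₀ ∧ x ≤ Thr_th p g u q ∧ Thr_th p g u q ≤ x + l)).card : ℕ) : ℝ) ≤
      n * l + 1 := by
    set F := (Finset.univ.filter
      (fun u => p u = p₀ ∧ x ≤ Thr_th p g u q ∧ Thr_th p g u q ≤ x + l)) with hF
    rcases F.eq_empty_or_nonempty with he | ⟨u0, hu0⟩
    · rw [he]; simp; positivity
    have hle : F.card ≤ (Finset.Icc ⌈n * x⌉ ⌊n * (x + l)⌋).card := by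
      apply Finset.card_le_card_of_injOn (fun u => (Thr_deg p g q u : ℤ) - Thr_up p g q u)
      · intro u hu
        rw [hF] at hu
        simp only [Finset.coe_filter, Finset.mem_univ, true_and, Set.mem_ofPred_eq] at hu
        simp only [Finset.coe_Icc, Set.mem_Icc]
        obtain ⟨_, h1, h2⟩ := hu
        have e : Thr_th p g u q * n = (Thr_deg p g q u : ℝ) - (Thr_up p g q u : ℝ) := by
          unfold Thr_th
          rw [← hndef]
          field_simp
        constructor
        · rw [Int.ceil_le]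
          push_cast
          rw [← e]
          nlinarith
        · rw [Int.le_floor]
          push_cast
          rw [← e]
          nlinarith
      · intro u hu w hw h
        rw [hF] at hu hw
        simp only [Finset.coe_filter, Finset.mem_univ, true_and, Set.mem_ofPred_eq] at hu hw
        exact Thr_inj q (hw.1.trans hu.1.symm) h
    have hne : (Finset.Icc ⌈n * x⌉ ⌊n * (x + l)⌋).card ≠ 0 := by
      have : 0 < F.card := Finset.card_pos.mpr ⟨u0, hu0⟩
      omega
    have h2 : ((Finset.Icc ⌈n * x⌉ ⌊n * (x + l)⌋).card : ℝ) ≤ n * l + 1 := by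
      rw [Int.card_Icc] at hne ⊢
      have h3 : (0 : ℤ) < ⌊n * (x + l)⌋ + 1 - ⌈n * x⌉ := by omega
      have h4 : (((⌊n * (x + l)⌋ + 1 - ⌈n * x⌉).toNat : ℕ) : ℝ) =
          ((⌊n * (x + l)⌋ + 1 - ⌈n * x⌉ : ℤ) : ℝ) := by
        have : (((⌊n * (x + l)⌋ + 1 - ⌈n * x⌉).toNat : ℕ) : ℤ) = ⌊n * (x + l)⌋ + 1 - ⌈n * x⌉ :=
          Int.toNat_of_nonneg h3.le
        exact_mod_cast congrArg (fun z : ℤ => (z : ℝ)) this
      rw [h4]
      push_cast
      have h5 := Int.floor_le (n * (x + l))
      have h6 := Int.le_ceil (n * x)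
      nlinarith
    exact le_trans (by exact_mod_cast hle) h2
  unfold den
  rw [div_le_iff₀ hn]
  have : (l + 1 / n) * n = n * l + 1 := by field_simp
  rw [this]
  refine le_trans (le_of_eq ?_) hcard
  congr!

end ThrAux

/-- Part II': a multipartite graph with chain graphs between the parts is a threshold system -/
theorem thr_exists {V K : Type} [Fintype V] (p : V → K) (g : V → V → Prop)
    (hs : ∀ u v, g u v → g v u) (hp : ∀ u v, g u v → p u ≠ p v)
    (hch : ∀ u u' v v', p u = p u' → p v = p v' → p u ≠ p v → g u v → g u' v' →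
      g u v' ∨ g u' v) :
    ∃ T : TS V K, T.pi = p ∧ ∀ u v, T.adj u v ↔ g u v := by
  refine ⟨⟨p, Thr_th p g, Thr_bd, fun p₀ q _ x l hl => Thr_sp p₀ q x l hl⟩, rfl, ?_⟩
  intro u v
  have hn : (0 : ℝ) < (Fintype.card V : ℝ) := by
    exact_mod_cast Fintype.card_pos_iff.mpr ⟨u⟩
  constructor
  · rintro ⟨hne, hM⟩
    change p u ≠ p v at hne
    by_contra hg
    have h1 := Thr_zero hs hch hne hg
    have h2 := Thr_zero hs hch hne.symm (fun h => hg (hs _ _ h))
    change 0 < Thr_th p g u (p v) + Thr_th p g v (p u) at hM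
    unfold Thr_th at hM
    rw [← add_div] at hM
    have h3 : (0 : ℝ) < ((Thr_deg p g (p v) u : ℝ) - (Thr_up p g (p v) u : ℝ)) +
        ((Thr_deg p g (p u) v : ℝ) - (Thr_up p g (p u) v : ℝ)) := by
      by_contra hc
      exact absurd hM (not_lt.mpr (div_nonpos_of_nonpos_of_nonneg (not_lt.mp hc) hn.le))
    have h1' : (Thr_deg p g (p u) v : ℝ) ≤ (Thr_up p g (p v) u : ℝ) := by exact_mod_cast h1
    have h2' : (Thr_deg p g (p v) u : ℝ) ≤ (Thr_up p g (p u) v : ℝ) := by exact_mod_cast h2
    linarith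
  · intro hg
    have hne := hp u v hg
    refine ⟨hne, ?_⟩
    have h1 := Thr_one hs hch hne hg
    have h2 := Thr_one hs hch hne.symm (hs _ _ hg)
    change 0 < Thr_th p g u (p v) + Thr_th p g v (p u)
    unfold Thr_th
    rw [← add_div]
    apply div_pos _ hn
    have h1' : (Thr_up p g (p v) u : ℝ) + 1 ≤ (Thr_deg p g (p u) v : ℝ) := by exact_mod_cast h1
    have h2' : (Thr_up p g (p u) v : ℝ) + 1 ≤ (Thr_deg p g (p v) u : ℝ) := by exact_mod_cast h2
    linarith

end Pool.Agent.IC4
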