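import Pool.Agent.IC4.Base

set_option autoImplicit false

namespace Pool.Agent.IC4

theorem YPart_avg_const_le {α : Type} [Fintype α] {c : ℝ} (hc : 0 ≤ c) :
    avg (fun _ : α => c) ≤ c := by
  unfold avg
  rw [Finset.sum_const, nsmul_eq_mul, Finset.card_univ]
  rcases Nat.eq_zero_or_pos (Fintype.card α) with h | h
  · rw [h]; simpa using hc
  · have hn : (0 : ℝ) < (Fintype.card α : ℝ) := by exact_mod_cast h
    rw [mul_div_assoc, mul_div_cancel₀]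
    exact hn.ne'

/-- small vertex covers of sparse `2K₂`-free graphs -/
theorem cover {V : Type} [Fintype V] (F : V → V → Prop) (hs : ∀ u v, F u v → F v u)
    (hf : ∀ a b c d, ¬ K2 F a b c d) :
    ∃ C : V → Prop, (∀ u v, F u v → C u ∨ C v) ∧
      den C ≤ 3 * Real.sqrt (den (fun x : V × V => F x.1 x.2)) := by
  set e : ℝ := den (fun x : V × V => F x.1 x.2) with he
  have he0 : 0 ≤ e := den_nonneg _
  have hq0 : 0 ≤ Real.sqrt e := Real.sqrt_nonneg _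
  by_cases hex : ∃ u v, F u v
  swap
  · refine ⟨fun _ => False, fun u v h => absurd ⟨u, v, h⟩ hex, ?_⟩
    rw [den_false]; positivity
  obtain ⟨u0, v0, huv0⟩ := hex
  have hn : (0 : ℝ) < (Fintype.card (V × V) : ℝ) := by
    exact_mod_cast Fintype.card_pos_iff.mpr ⟨(u0, v0)⟩
  have hepos : 0 < e := by
    have h1 := den_ge_of_exists (P := fun x : V × V => F x.1 x.2) ⟨(u0, v0), huv0⟩
    exact lt_of_lt_of_le (by positivity) h1
  have hqpos : 0 < Real.sqrt e := Real.sqrt_pos.mpr hepos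
  have hD : den (fun u => Real.sqrt e ≤ den (F u)) ≤ Real.sqrt e := by
    have h1 := den_markov F (Real.sqrt e)
    rw [← he] at h1
    have h2 : Real.sqrt e * Real.sqrt e = e := Real.mul_self_sqrt he0
    by_contra hc
    push Not at hc
    nlinarith
  by_cases hcase : ∃ x y, F x y ∧ ¬ (Real.sqrt e ≤ den (F x)) ∧ ¬ (Real.sqrt e ≤ den (F y))
  · obtain ⟨x, y, hxy, hx, hy⟩ := hcase
    refine ⟨fun u => Real.sqrt e ≤ den (F u) ∨ (F x u ∨ F y u), ?_, ?_⟩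
    · intro u v huv
      by_contra hc
      push Not at hc
      obtain ⟨⟨_, h1, h2⟩, ⟨_, h3, h4⟩⟩ := hc
      exact hf x y u v ⟨hxy, huv, h1, h3, h2, h4⟩
    · push Not at hx hy
      have h1 := den_or_le (fun u => Real.sqrt e ≤ den (F u)) (fun u => F x u ∨ F y u)
      have h2 := den_or_le (F x) (F y)
      linarith
  · push Not at hcase
    refine ⟨fun u => Real.sqrt e ≤ den (F u), ?_, by linarith⟩
    intro u v huv
    by_cases h : Real.sqrt e ≤ den (F u)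
    · exact Or.inl h
    · push Not at h
      exact Or.inr (hcase u v huv h)

/-- the number of edges outside `Y` seeing a large non-neighbourhood in `Y` is small -/
theorem YPart_sees {V : Type} [Fintype V] (r : V → V → Prop) (Y : V → Prop)
    (hr : ∀ u v, r u v → r v u)
    {δ ρ ρ₅ : ℝ} (hδ : dK2 r ≤ δ) (hρ5 : 0 < ρ₅) (hρ : ρ ≤ ρ₅ ^ 2 / 2)
    (hY : den (fun x : V × V => Y x.1 ∧ Y x.2 ∧ ¬ r x.1 x.2) ≤ ρ) :
    den (fun x : V × V => r x.1 x.2 ∧ ρ₅ ≤ den (fun y => Y y ∧ ¬ r y x.1 ∧ ¬ r y x.2)) ≤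
      2 * δ / ρ₅ ^ 2 := by
  have h1 : ∀ x : V × V, (r x.1 x.2 ∧ ρ₅ ≤ den (fun y => Y y ∧ ¬ r y x.1 ∧ ¬ r y x.2)) →
      ρ₅ ^ 2 / 2 ≤ den (fun z : V × V => K2 r x.1 x.2 z.1 z.2) := by
    rintro ⟨u, v⟩ ⟨huv, hM⟩
    simp only at huv hM
    have h2 : den (fun y => Y y ∧ ¬ r y u ∧ ¬ r y v) * den (fun y => Y y ∧ ¬ r y u ∧ ¬ r y v) ≤
        den (fun z : V × V => K2 r u v z.1 z.2) +
          den (fun x : V × V => Y x.1 ∧ Y x.2 ∧ ¬ r x.1 x.2) := by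
      rw [← den_prod]
      apply den_le_add
      rintro ⟨y, y'⟩ ⟨⟨a1, a2, a3⟩, ⟨b1, b2, b3⟩⟩
      simp only at a1 a2 a3 b1 b2 b3 ⊢
      by_cases hyy : r y y'
      · left
        exact ⟨huv, hyy, fun h => a2 (hr _ _ h), fun h => b2 (hr _ _ h), fun h => a3 (hr _ _ h),
          fun h => b3 (hr _ _ h)⟩
      · right
        exact ⟨a1, b1, hyy⟩
    have h3 : ρ₅ ^ 2 ≤ den (fun y => Y y ∧ ¬ r y u ∧ ¬ r y v) *
        den (fun y => Y y ∧ ¬ r y u ∧ ¬ r y v) := by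
      rw [sq]
      exact mul_le_mul hM hM hρ5.le (den_nonneg _)
    linarith
  have h2 := den_prod_ge (P := fun x : V × V => r x.1 x.2 ∧
    ρ₅ ≤ den (fun y => Y y ∧ ¬ r y x.1 ∧ ¬ r y x.2))
    (R := fun (x z : V × V) => K2 r x.1 x.2 z.1 z.2) h1
  have h3 : den (fun x : (V × V) × (V × V) => (r x.1.1 x.1.2 ∧
      ρ₅ ≤ den (fun y => Y y ∧ ¬ r y x.1.1 ∧ ¬ r y x.1.2)) ∧ K2 r x.1.1 x.1.2 x.2.1 x.2.2) ≤
      dK2 r := by
    unfold dK2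
    rw [← den_equiv (Equiv.prodAssoc V V (V × V))
      (fun x : V × V × V × V => K2 r x.1 x.2.1 x.2.2.1 x.2.2.2)]
    apply den_mono
    rintro ⟨⟨a, b⟩, c, d⟩ h
    exact h.2
  rw [le_div_iff₀ (by positivity)]
  linarith

/-- Part III -/
theorem ypart {V : Type} [Fintype V] (r g : V → V → Prop) (Y : V → Prop)
    (hr : ∀ u v, r u v → r v u) (hri : ∀ u, ¬ r u u)
    (hg : ∀ u v, g u v → g v u) (hgi : ∀ u, ¬ g u u) (hgf : ∀ a b c d, ¬ K2 g a b c d)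
    {δ ρ ρ₅ l w : ℝ} (hδ : dK2 r ≤ δ) (hδ0 : 0 ≤ δ) (hρ5 : 0 < ρ₅) (hρ : ρ ≤ ρ₅ ^ 2 / 2)
    (hY : den (fun x : V × V => Y x.1 ∧ Y x.2 ∧ ¬ r x.1 x.2) ≤ ρ)
    (hX : den (fun x : V × V => ¬ Y x.1 ∧ ¬ Y x.2 ∧ ¬ (r x.1 x.2 ↔ g x.1 x.2)) ≤ l)
    (hw : l + ρ₅ + 2 * δ / ρ₅ ^ 2 ≤ w ^ 2) (hw0 : 0 ≤ w) :
    ∃ q : V → V → Prop, (∀ u v, q u v → q v u) ∧ (∀ u, ¬ q u u) ∧
      (∀ a b c d, ¬ K2 q a b c d) ∧ dxor r q ≤ l + ρ + 6 * w := by
  classical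
  have hl0 : 0 ≤ l := (den_nonneg _).trans hX
  have hwpos : 0 < w := by
    rcases hw0.lt_or_eq with h | h
    · exact h
    · exfalso
      rw [← h] at hw
      have : 0 ≤ 2 * δ / ρ₅ ^ 2 := by positivity
      nlinarith
  -- the relations `F y`
  have hcov : ∀ y : V, ∃ C : V → Prop,
      (∀ u v, (Y y ∧ ¬ Y u ∧ ¬ Y v ∧ g u v ∧ ¬ r y u ∧ ¬ r y v) → C u ∨ C v) ∧
      den C ≤ 3 * Real.sqrt (den (fun x : V × V =>
        Y y ∧ ¬ Y x.1 ∧ ¬ Y x.2 ∧ g x.1 x.2 ∧ ¬ r y x.1 ∧ ¬ r y x.2)) := by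
    intro y
    apply cover (fun u v => Y y ∧ ¬ Y u ∧ ¬ Y v ∧ g u v ∧ ¬ r y u ∧ ¬ r y v)
    · rintro u v ⟨h1, h2, h3, h4, h5, h6⟩
      exact ⟨h1, h3, h2, hg _ _ h4, h6, h5⟩
    · rintro a b c d ⟨⟨h1, h2, h3, h4, h5, h6⟩, ⟨k1, k2, k3, k4, k5, k6⟩, m1, m2, m3, m4⟩
      refine hgf a b c d ⟨h4, k4, fun h => m1 ⟨h1, h2, k2, h, h5, k5⟩,
        fun h => m2 ⟨h1, h2, k3, h, h5, k6⟩, fun h => m3 ⟨h1, h3, k2, h, h6, k5⟩,
        fun h => m4 ⟨h1, h3, k3, h, h6, k6⟩⟩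
  choose C hC1 hC2 using hcov
  set E : V → ℝ := fun y => den (fun x : V × V =>
        Y y ∧ ¬ Y x.1 ∧ ¬ Y x.2 ∧ g x.1 x.2 ∧ ¬ r y x.1 ∧ ¬ r y x.2) with hE
  have hE0 : ∀ y, 0 ≤ E y := fun y => den_nonneg _
  have hEavg : avg E ≤ w ^ 2 := by
    have h1 : avg E = den (fun x : V × (V × V) =>
        Y x.1 ∧ ¬ Y x.2.1 ∧ ¬ Y x.2.2 ∧ g x.2.1 x.2.2 ∧ ¬ r x.1 x.2.1 ∧ ¬ r x.1 x.2.2) :=
      (den_eq_avg (fun (y : V) (x : V × V) =>
        Y y ∧ ¬ Y x.1 ∧ ¬ Y x.2 ∧ g x.1 x.2 ∧ ¬ r y x.1 ∧ ¬ r y x.2)).symm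
    have h2 : den (fun x : V × (V × V) =>
        Y x.1 ∧ ¬ Y x.2.1 ∧ ¬ Y x.2.2 ∧ g x.2.1 x.2.2 ∧ ¬ r x.1 x.2.1 ∧ ¬ r x.1 x.2.2) =
        den (fun x : (V × V) × V =>
        Y x.2 ∧ ¬ Y x.1.1 ∧ ¬ Y x.1.2 ∧ g x.1.1 x.1.2 ∧ ¬ r x.2 x.1.1 ∧ ¬ r x.2 x.1.2) :=
      den_swap (fun (y : V) (x : V × V) =>
        Y y ∧ ¬ Y x.1 ∧ ¬ Y x.2 ∧ g x.1 x.2 ∧ ¬ r y x.1 ∧ ¬ r y x.2)
    rw [h1, h2]
    -- split
    have h3 : den (fun x : (V × V) × V =>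
        Y x.2 ∧ ¬ Y x.1.1 ∧ ¬ Y x.1.2 ∧ g x.1.1 x.1.2 ∧ ¬ r x.2 x.1.1 ∧ ¬ r x.2 x.1.2) ≤
        den (fun x : (V × V) × V => (¬ Y x.1.1 ∧ ¬ Y x.1.2 ∧ ¬ (r x.1.1 x.1.2 ↔ g x.1.1 x.1.2)) ∧
          True) +
        den (fun x : (V × V) × V => Y x.2 ∧ r x.1.1 x.1.2 ∧ ¬ r x.2 x.1.1 ∧ ¬ r x.2 x.1.2) := by
      apply den_le_add
      rintro ⟨⟨u, v⟩, y⟩ ⟨h1, h2, h3, h4, h5, h6⟩
      simp only at h1 h2 h3 h4 h5 h6 ⊢
      by_cases hrr : r u v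
      · right; exact ⟨h1, hrr, h5, h6⟩
      · left; exact ⟨⟨h2, h3, fun h => hrr (h.2 h4)⟩, trivial⟩
    have h4 : den (fun x : (V × V) × V => (¬ Y x.1.1 ∧ ¬ Y x.1.2 ∧
        ¬ (r x.1.1 x.1.2 ↔ g x.1.1 x.1.2)) ∧ True) ≤ l := by
      rw [den_prod (fun x : V × V => ¬ Y x.1 ∧ ¬ Y x.2 ∧ ¬ (r x.1 x.2 ↔ g x.1 x.2))
        (fun _ : V => True)]
      refine le_trans (mul_le_of_le_one_right (den_nonneg _) (den_le_one _)) hX
    have h5 : den (fun x : (V × V) × V => Y x.2 ∧ r x.1.1 x.1.2 ∧ ¬ r x.2 x.1.1 ∧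
        ¬ r x.2 x.1.2) ≤ ρ₅ + 2 * δ / ρ₅ ^ 2 := by
      have h6 : den (fun x : (V × V) × V => Y x.2 ∧ r x.1.1 x.1.2 ∧ ¬ r x.2 x.1.1 ∧
        ¬ r x.2 x.1.2) ≤
        den (fun x : (V × V) × V => ¬ (ρ₅ ≤ den (fun y => Y y ∧ ¬ r y x.1.1 ∧ ¬ r y x.1.2)) ∧
          (Y x.2 ∧ ¬ r x.2 x.1.1 ∧ ¬ r x.2 x.1.2)) +
        den (fun x : (V × V) × V => (r x.1.1 x.1.2 ∧
          ρ₅ ≤ den (fun y => Y y ∧ ¬ r y x.1.1 ∧ ¬ r y x.1.2)) ∧ True) := by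
        apply den_le_add
        rintro ⟨⟨u, v⟩, y⟩ ⟨h1, h2, h3, h4⟩
        simp only at h1 h2 h3 h4 ⊢
        by_cases hm : ρ₅ ≤ den (fun y => Y y ∧ ¬ r y u ∧ ¬ r y v)
        · right; exact ⟨⟨h2, hm⟩, trivial⟩
        · left; exact ⟨hm, h1, h3, h4⟩
      have h7 := den_prod_le' (P := fun x : V × V =>
          ¬ (ρ₅ ≤ den (fun y => Y y ∧ ¬ r y x.1 ∧ ¬ r y x.2)))
        (R := fun (x : V × V) (y : V) => Y y ∧ ¬ r y x.1 ∧ ¬ r y x.2) hρ5.le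
        (fun x hx => (not_le.mp hx).le)
      have h8 : den (fun x : (V × V) × V => (r x.1.1 x.1.2 ∧
          ρ₅ ≤ den (fun y => Y y ∧ ¬ r y x.1.1 ∧ ¬ r y x.1.2)) ∧ True) ≤ 2 * δ / ρ₅ ^ 2 := by
        rw [den_prod (fun x : V × V => r x.1 x.2 ∧
          ρ₅ ≤ den (fun y => Y y ∧ ¬ r y x.1 ∧ ¬ r y x.2)) (fun _ : V => True)]
        refine le_trans (mul_le_of_le_one_right (den_nonneg _) (den_le_one _)) ?_
        exact YPart_sees r Y hr hδ hρ5 hρ hY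
      linarith
    linarith
  -- the cost of the covers
  have hcost : den (fun x : V × V => C x.1 x.2) ≤ 3 * w := by
    rw [den_eq_avg C]
    have h1 : ∀ y, den (C y) ≤ (3 / (2 * w)) * E y + (3 / 2) * w := by
      intro y
      refine (hC2 y).trans ?_
      change 3 * Real.sqrt (E y) ≤ _
      have h2 : Real.sqrt (E y) * Real.sqrt (E y) = E y := Real.mul_self_sqrt (hE0 y)
      have h3 : 0 ≤ (Real.sqrt (E y) - w) ^ 2 := sq_nonneg _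
      have h4 : (3 / (2 * w)) * E y + (3 / 2) * w = (3 * (E y + w ^ 2)) / (2 * w) := by
        field_simp
      rw [h4, le_div_iff₀ (by positivity)]
      nlinarith
    refine (avg_mono h1).trans ?_
    rw [avg_add, avg_const_mul]
    have h2 : avg (fun _ : V => (3 / 2) * w) ≤ (3 / 2) * w := YPart_avg_const_le (by positivity)
    have h3 : (3 / (2 * w)) * avg E ≤ (3 / (2 * w)) * w ^ 2 :=
      mul_le_mul_of_nonneg_left hEavg (by positivity)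
    have h4 : (3 / (2 * w)) * w ^ 2 = (3 / 2) * w := by
      field_simp
    linarith
  refine ⟨fun u v => (¬ Y u ∧ ¬ Y v ∧ g u v) ∨ (Y u ∧ Y v ∧ u ≠ v) ∨
    (Y u ∧ ¬ Y v ∧ (r u v ∨ C u v)) ∨ (¬ Y u ∧ Y v ∧ (r v u ∨ C v u)), ?_, ?_, ?_, ?_⟩
  · rintro u v (⟨h1, h2, h3⟩ | ⟨h1, h2, h3⟩ | ⟨h1, h2, h3⟩ | ⟨h1, h2, h3⟩)
    · exact Or.inl ⟨h2, h1, hg _ _ h3⟩
    · exact Or.inr (Or.inl ⟨h2, h1, h3.symm⟩)
    · exact Or.inr (Or.inr (Or.inr ⟨h2, h1, h3⟩))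
    · exact Or.inr (Or.inr (Or.inl ⟨h2, h1, h3⟩))
  · rintro u (⟨h1, h2, h3⟩ | ⟨h1, h2, h3⟩ | ⟨h1, h2, h3⟩ | ⟨h1, h2, h3⟩)
    · exact hgi u h3
    · exact h3 rfl
    · exact h2 h1
    · exact h1 h2
  · set q : V → V → Prop := fun u v => (¬ Y u ∧ ¬ Y v ∧ g u v) ∨ (Y u ∧ Y v ∧ u ≠ v) ∨
      (Y u ∧ ¬ Y v ∧ (r u v ∨ C u v)) ∨ (¬ Y u ∧ Y v ∧ (r v u ∨ C v u)) with hqdef
    have hsym : ∀ u v, q u v → q v u := by
      rintro u v (⟨h1, h2, h3⟩ | ⟨h1, h2, h3⟩ | ⟨h1, h2, h3⟩ | ⟨h1, h2, h3⟩)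
      · exact Or.inl ⟨h2, h1, hg _ _ h3⟩
      · exact Or.inr (Or.inl ⟨h2, h1, h3.symm⟩)
      · exact Or.inr (Or.inr (Or.inr ⟨h2, h1, h3⟩))
      · exact Or.inr (Or.inr (Or.inl ⟨h2, h1, h3⟩))
    have key : ∀ a b c d, Y a → ¬ K2 q a b c d := by
      rintro a b c d ha ⟨qab, qcd, nac, nad, nbc, nbd⟩
      have hc : ¬ Y c := by
        intro hc
        by_cases hac : a = c
        · subst hac
          exact nbc (hsym _ _ qab)
        · exact nac (Or.inr (Or.inl ⟨ha, hc, hac⟩))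
      have hd : ¬ Y d := by
        intro hd
        by_cases had : a = d
        · subst had
          exact nbd (hsym _ _ qab)
        · exact nad (Or.inr (Or.inl ⟨ha, hd, had⟩))
      have gcd : g c d := by
        rcases qcd with ⟨_, _, h3⟩ | ⟨h1, _, _⟩ | ⟨h1, _, _⟩ | ⟨_, h2, _⟩
        · exact h3
        · exact absurd h1 hc
        · exact absurd h1 hc
        · exact absurd h2 hd
      have h1 : ¬ r a c := fun h => nac (Or.inr (Or.inr (Or.inl ⟨ha, hc, Or.inl h⟩)))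
      have h2 : ¬ C a c := fun h => nac (Or.inr (Or.inr (Or.inl ⟨ha, hc, Or.inr h⟩)))
      have h3 : ¬ r a d := fun h => nad (Or.inr (Or.inr (Or.inl ⟨ha, hd, Or.inl h⟩)))
      have h4 : ¬ C a d := fun h => nad (Or.inr (Or.inr (Or.inl ⟨ha, hd, Or.inr h⟩)))
      rcases hC1 a c d ⟨ha, hc, hd, gcd, h1, h3⟩ with h | h
      · exact h2 h
      · exact h4 h
    rintro a b c d hK
    obtain ⟨qab, qcd, nac, nad, nbc, nbd⟩ := hK
    by_cases ha : Y a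
    · exact key a b c d ha ⟨qab, qcd, nac, nad, nbc, nbd⟩
    by_cases hb : Y b
    · exact key b a c d hb ⟨hsym _ _ qab, qcd, nbc, nbd, nac, nad⟩
    by_cases hc : Y c
    · exact key c d a b hc ⟨qcd, qab, fun h => nac (hsym _ _ h), fun h => nbc (hsym _ _ h),
        fun h => nad (hsym _ _ h), fun h => nbd (hsym _ _ h)⟩
    by_cases hd : Y d
    · exact key d c a b hd ⟨hsym _ _ qcd, qab, fun h => nad (hsym _ _ h),
        fun h => nbd (hsym _ _ h), fun h => nac (hsym _ _ h), fun h => nbc (hsym _ _ h)⟩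
    have hgq : ∀ u v, ¬ Y u → ¬ Y v → (q u v ↔ g u v) := by
      intro u v hu hv
      constructor
      · rintro (⟨_, _, h3⟩ | ⟨h1, _, _⟩ | ⟨h1, _, _⟩ | ⟨_, h2, _⟩)
        · exact h3
        · exact absurd h1 hu
        · exact absurd h1 hu
        · exact absurd h2 hv
      · intro h
        exact Or.inl ⟨hu, hv, h⟩
    exact hgf a b c d ⟨(hgq a b ha hb).1 qab, (hgq c d hc hd).1 qcd,
      fun h => nac ((hgq a c ha hc).2 h), fun h => nad ((hgq a d ha hd).2 h),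
      fun h => nbc ((hgq b c hb hc).2 h), fun h => nbd ((hgq b d hb hd).2 h)⟩
  · unfold dxor
    have h1 : den (fun x : V × V => ¬ (r x.1 x.2 ↔ ((¬ Y x.1 ∧ ¬ Y x.2 ∧ g x.1 x.2) ∨
        (Y x.1 ∧ Y x.2 ∧ x.1 ≠ x.2) ∨ (Y x.1 ∧ ¬ Y x.2 ∧ (r x.1 x.2 ∨ C x.1 x.2)) ∨
        (¬ Y x.1 ∧ Y x.2 ∧ (r x.2 x.1 ∨ C x.2 x.1))))) ≤
        den (fun x : V × V => ¬ Y x.1 ∧ ¬ Y x.2 ∧ ¬ (r x.1 x.2 ↔ g x.1 x.2)) +
        den (fun x : V × V => (Y x.1 ∧ Y x.2 ∧ ¬ r x.1 x.2) ∨ (C x.1 x.2 ∨ C x.2 x.1)) := by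
      apply den_le_add
      rintro ⟨u, v⟩ h
      simp only at h ⊢
      by_cases hu : Y u
      · by_cases hv : Y v
        · right; left
          refine ⟨hu, hv, ?_⟩
          intro hruv
          apply h
          refine ⟨fun _ => Or.inr (Or.inl ⟨hu, hv, ?_⟩), fun _ => hruv⟩
          rintro rfl
          exact hri u hruv
        · right; right; left
          by_contra hc
          apply h
          constructor
          · intro hruv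
            exact Or.inr (Or.inr (Or.inl ⟨hu, hv, Or.inl hruv⟩))
          · rintro (⟨h1, _, _⟩ | ⟨_, h2, _⟩ | ⟨_, _, h3⟩ | ⟨h1, _, _⟩)
            · exact absurd hu h1
            · exact absurd h2 hv
            · exact h3.resolve_right hc
            · exact absurd hu h1
      · by_cases hv : Y v
        · right; right; right
          by_contra hc
          apply h
          constructor
          · intro hruv
            exact Or.inr (Or.inr (Or.inr ⟨hu, hv, Or.inl (hr _ _ hruv)⟩))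
          · rintro (⟨_, h2, _⟩ | ⟨h1, _, _⟩ | ⟨h1, _, _⟩ | ⟨_, _, h3⟩)
            · exact absurd hv h2
            · exact absurd h1 hu
            · exact absurd h1 hu
            · exact hr _ _ (h3.resolve_right hc)
        · left
          refine ⟨hu, hv, ?_⟩
          intro hrg
          apply h
          constructor
          · intro hruv
            exact Or.inl ⟨hu, hv, hrg.1 hruv⟩
          · rintro (⟨_, _, h3⟩ | ⟨h1, _, _⟩ | ⟨h1, _, _⟩ | ⟨_, h2, _⟩)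
            · exact hrg.2 h3
            · exact absurd h1 hu
            · exact absurd h1 hu
            · exact absurd h2 hv
    refine h1.trans ?_
    have h2 := den_or_le (fun x : V × V => Y x.1 ∧ Y x.2 ∧ ¬ r x.1 x.2)
      (fun x : V × V => C x.1 x.2 ∨ C x.2 x.1)
    have h3 := den_or_le (fun x : V × V => C x.1 x.2) (fun x : V × V => C x.2 x.1)
    have h4 : den (fun x : V × V => C x.2 x.1) = den (fun x : V × V => C x.1 x.2) :=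
      (den_swap C).symm
    linarith

end Pool.Agent.IC4
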