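import Pool.Agent.IC4.Core
import Pool.Agent.IC4.Struct
import Pool.Agent.IC4.Multi
import Pool.Agent.IC4.Thr
import Pool.Agent.IC4.YPart

set_option autoImplicit false

namespace Pool.Agent.IC4

private theorem Rem_fst {α β : Type} [Fintype α] [Fintype β] (P : α → Prop) :
    den (fun z : α × β => P z.1) ≤ den P := by
  have h1 : den (fun z : α × β => P z.1) ≤ den (fun z : α × β => P z.1 ∧ True) :=
    den_mono (fun z hz => ⟨hz, trivial⟩)
  refine h1.trans ?_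
  rw [den_prod P (fun _ : β => True)]
  exact mul_le_of_le_one_right (den_nonneg P) (den_le_one _)

private theorem Rem_snd {α β : Type} [Fintype α] [Fintype β] (P : β → Prop) :
    den (fun z : α × β => P z.2) ≤ den P := by
  have h1 : den (fun z : α × β => P z.2) ≤ den (fun z : α × β => True ∧ P z.2) :=
    den_mono (fun z hz => ⟨trivial, hz⟩)
  refine h1.trans ?_
  rw [den_prod (fun _ : α => True) P]
  exact mul_le_of_le_one_left (den_nonneg P) (den_le_one _)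

private theorem Rem_a {α β γ : Type} [Fintype α] [Fintype β] [Fintype γ] (E : α → β → Prop) :
    den (fun z : α × β × γ => E z.1 z.2.1) ≤ den (fun z : α × β => E z.1 z.2) := by
  rw [den_eq_avg (fun (a : α) (z : β × γ) => E a z.1), den_eq_avg E]
  exact avg_mono fun a => Rem_fst (E a)

private theorem Rem_b {α β γ : Type} [Fintype α] [Fintype β] [Fintype γ] (E : α → γ → Prop) :
    den (fun z : α × β × γ => E z.1 z.2.2) ≤ den (fun z : α × γ => E z.1 z.2) := by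
  rw [den_eq_avg (fun (a : α) (z : β × γ) => E a z.2), den_eq_avg E]
  exact avg_mono fun a => Rem_snd (E a)

/-- six pairs of coordinates -/
private theorem Rem_six {V : Type} [Fintype V] (E : V → V → Prop) (Q R : V → V → V → V → Prop)
    (h : ∀ a b c d, Q a b c d → R a b c d ∨ E a b ∨ E c d ∨ E a c ∨ E a d ∨ E b c ∨ E b d) :
    den (fun y : V × V × V × V => Q y.1 y.2.1 y.2.2.1 y.2.2.2) ≤
      den (fun y : V × V × V × V => R y.1 y.2.1 y.2.2.1 y.2.2.2) +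
        6 * den (fun z : V × V => E z.1 z.2) := by
  have e1 : den (fun y : V × V × V × V => E y.1 y.2.1) ≤ den (fun z : V × V => E z.1 z.2) :=
    Rem_a E
  have e2 : den (fun y : V × V × V × V => E y.2.2.1 y.2.2.2) ≤
      den (fun z : V × V => E z.1 z.2) :=
    (Rem_snd (fun z : V × V × V => E z.2.1 z.2.2)).trans
      (Rem_snd (fun z : V × V => E z.1 z.2))
  have e3 : den (fun y : V × V × V × V => E y.1 y.2.2.1) ≤ den (fun z : V × V => E z.1 z.2) :=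
    (Rem_b (fun (a : V) (z : V × V) => E a z.1)).trans (Rem_a E)
  have e4 : den (fun y : V × V × V × V => E y.1 y.2.2.2) ≤ den (fun z : V × V => E z.1 z.2) :=
    (Rem_b (fun (a : V) (z : V × V) => E a z.2)).trans (Rem_b E)
  have e5 : den (fun y : V × V × V × V => E y.2.1 y.2.2.1) ≤ den (fun z : V × V => E z.1 z.2) :=
    (Rem_snd (fun z : V × V × V => E z.1 z.2.1)).trans (Rem_a E)
  have e6 : den (fun y : V × V × V × V => E y.2.1 y.2.2.2) ≤ den (fun z : V × V => E z.1 z.2) :=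
    (Rem_snd (fun z : V × V × V => E z.1 z.2.2)).trans (Rem_b E)
  have s1 := den_le_add (P := fun y : V × V × V × V => Q y.1 y.2.1 y.2.2.1 y.2.2.2)
    (Q := fun y => R y.1 y.2.1 y.2.2.1 y.2.2.2)
    (R := fun y => E y.1 y.2.1 ∨ E y.2.2.1 y.2.2.2 ∨ E y.1 y.2.2.1 ∨ E y.1 y.2.2.2 ∨
      E y.2.1 y.2.2.1 ∨ E y.2.1 y.2.2.2) (fun y hy => h _ _ _ _ hy)
  have s2 := den_or_le (fun y : V × V × V × V => E y.1 y.2.1) (fun y => E y.2.2.1 y.2.2.2 ∨
    E y.1 y.2.2.1 ∨ E y.1 y.2.2.2 ∨ E y.2.1 y.2.2.1 ∨ E y.2.1 y.2.2.2)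
  have s3 := den_or_le (fun y : V × V × V × V => E y.2.2.1 y.2.2.2) (fun y =>
    E y.1 y.2.2.1 ∨ E y.1 y.2.2.2 ∨ E y.2.1 y.2.2.1 ∨ E y.2.1 y.2.2.2)
  have s4 := den_or_le (fun y : V × V × V × V => E y.1 y.2.2.1) (fun y =>
    E y.1 y.2.2.2 ∨ E y.2.1 y.2.2.1 ∨ E y.2.1 y.2.2.2)
  have s5 := den_or_le (fun y : V × V × V × V => E y.1 y.2.2.2) (fun y =>
    E y.2.1 y.2.2.1 ∨ E y.2.1 y.2.2.2)
  have s6 := den_or_le (fun y : V × V × V × V => E y.2.1 y.2.2.1) (fun y => E y.2.1 y.2.2.2)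
  linarith

private theorem Rem_pw {x : ℝ} (h0 : 0 < x) (h1 : x ≤ 1 / 2) {m n j : ℕ} (h : n + j ≤ m) :
    x ^ m ≤ x ^ n * (1 / 2) ^ j := by
  calc x ^ m ≤ x ^ (n + j) := pow_le_pow_of_le_one h0.le (by linarith) h
    _ = x ^ n * x ^ j := pow_add _ _ _
    _ ≤ x ^ n * (1 / 2) ^ j :=
        mul_le_mul_of_nonneg_left (pow_le_pow_left₀ h0.le h1 j) (by positivity)

/-- Theorem A: polynomial removal lemma for induced `2K₂` -/
theorem removal : ∃ C : ℕ, ∀ x : ℝ, 0 < x → x ≤ 1 / 2 → ∀ (V : Type) [Fintype V]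
    (r : V → V → Prop), (∀ u v, r u v → r v u) → (∀ u, ¬ r u u) → dK2 r ≤ x ^ C →
    ∃ q : V → V → Prop, (∀ u v, q u v → q v u) ∧ (∀ u, ¬ q u u) ∧
      (∀ a b c d, ¬ K2 q a b c d) ∧ dxor r q ≤ x := by
  obtain ⟨C₀, hcore⟩ := core
  obtain ⟨b, hb⟩ : ∃ b, b = 86 * C₀ + 30 := ⟨_, rfl⟩
  obtain ⟨a, ha⟩ : ∃ a, a = b + 170 := ⟨_, rfl⟩
  refine ⟨8 * a + 4, ?_⟩
  intro x h0 h1 V _ r hs hi hd
  have hxp : ∀ m : ℕ, 0 < x ^ m := fun m => pow_pos h0 m
  -- structure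
  have hd1 : dK2 r ≤ (x ^ (4 * a + 2)) ^ 2 := by
    refine hd.trans (le_of_eq ?_)
    rw [← pow_mul]
    congr 1
    ring
  have hρ2 : x ^ 26 ≤ 1 / 2 := by
    have := Rem_pw h0 h1 (m := 26) (n := 0) (j := 1) (by norm_num)
    linarith
  have hδρ : x ^ (4 * a + 2) ≤ (x ^ 26) ^ 3 / 96 := by
    rw [← pow_mul]
    have := Rem_pw h0 h1 (m := 4 * a + 2) (n := 78) (j := 7) (by omega)
    have h3 := hxp 78
    norm_num at this ⊢
    linarith
  obtain ⟨k, p, hk, hp, hY⟩ := struct_exists r hs (hxp 26) hρ2 (hxp (4 * a + 2)) hδρ hd1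
  -- number of parts
  have hk1 : (k : ℝ) * x ^ 85 ≤ 1 := by
    have h2 : (k : ℝ) * (x ^ 26) ^ 3 ≤ 96 := by
      rwa [le_div_iff₀ (by positivity)] at hk
    have h3 : x ^ 85 ≤ x ^ 78 * (1 / 2) ^ 7 := Rem_pw h0 h1 (by norm_num)
    have h4 : (x ^ 26) ^ 3 = x ^ 78 := by rw [← pow_mul]
    rw [h4] at h2
    calc (k : ℝ) * x ^ 85 ≤ k * (x ^ 78 * (1 / 2) ^ 7) :=
          mul_le_mul_of_nonneg_left h3 (Nat.cast_nonneg _)
      _ = (k * x ^ 78) / 128 := by ring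
      _ ≤ 1 := by linarith
  have hk0 : (0 : ℝ) ≤ k := Nat.cast_nonneg _
  -- chain cleaning
  have hx4 : 3 * x ^ (4 * a + 2) ≤ (x ^ a) ^ 4 := by
    have h2 := Rem_pw h0 h1 (m := 4 * a + 2) (n := 4 * a) (j := 2) (by omega)
    have h3 : (x ^ a) ^ 4 = x ^ (4 * a) := by rw [← pow_mul]; congr 1; ring
    rw [h3]
    have h4 := hxp (4 * a)
    norm_num at h2
    linarith
  have hδ1 : x ^ (4 * a + 2) ≤ 1 := pow_le_one₀ h0.le (by linarith)
  obtain ⟨g, gs, gp, gc, hg⟩ := chain_all p r hs (hxp a).le (hxp (4 * a + 2)).le hδ1 hx4 hd1 hp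
  have hE : (k : ℝ) ^ 2 * (2 * x ^ a) + k * x ^ (4 * a + 2) ≤ 3 * x ^ b := by
    have e1 : x ^ a = x ^ b * (x ^ 85) ^ 2 := by
      rw [← pow_mul, ← pow_add, ha]
    have e2 : x ^ (4 * a + 2) ≤ x ^ b * x ^ 85 := by
      have e0 : b + 85 ≤ 4 * a + 2 := by omega
      have := pow_le_pow_of_le_one h0.le (by linarith : x ≤ 1) e0
      rwa [pow_add x b 85] at this
    have e3 : ((k : ℝ) * x ^ 85) ^ 2 ≤ 1 := pow_le_one₀ (by positivity) hk1
    have h5 := hxp b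
    have e4 : (k : ℝ) ^ 2 * (2 * x ^ a) ≤ 2 * x ^ b := by
      calc (k : ℝ) ^ 2 * (2 * x ^ a) = 2 * x ^ b * ((k : ℝ) * x ^ 85) ^ 2 := by
            rw [e1]
            ring
        _ ≤ 2 * x ^ b * 1 := mul_le_mul_of_nonneg_left e3 (by positivity)
        _ = _ := by ring
    have e5 : (k : ℝ) * x ^ (4 * a + 2) ≤ x ^ b := by
      calc (k : ℝ) * x ^ (4 * a + 2) ≤ k * (x ^ b * x ^ 85) :=
            mul_le_mul_of_nonneg_left e2 hk0
        _ = x ^ b * (k * x ^ 85) := by ring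
        _ ≤ x ^ b * 1 := mul_le_mul_of_nonneg_left hk1 h5.le
        _ = _ := by ring
    linarith
  have hgE : den (fun y : V × V => p y.1 ≠ none ∧ p y.2 ≠ none ∧ ¬ (r y.1 y.2 ↔ g y.1 y.2)) ≤
      3 * x ^ b := hg.trans hE
  have hdg : dK2 g ≤ x ^ (86 * C₀) := by
    have h2 : dK2 g ≤ dK2 r + 6 * den (fun y : V × V => p y.1 ≠ none ∧ p y.2 ≠ none ∧
        ¬ (r y.1 y.2 ↔ g y.1 y.2)) := by
      unfold dK2
      apply Rem_six (fun u v => p u ≠ none ∧ p v ≠ none ∧ ¬ (r u v ↔ g u v)) (K2 g) (K2 r)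
      intro u v w z hK
      obtain ⟨k1, k2, k3, k4, k5, k6⟩ := hK
      have q1 := gp _ _ k1
      have q2 := gp _ _ k2
      by_contra hcon
      push Not at hcon
      obtain ⟨c0, c1, c2, c3, c4, c5, c6⟩ := hcon
      apply c0
      refine ⟨(c1 q1.2.1 q1.2.2).2 k1, (c2 q2.2.1 q2.2.2).2 k2, ?_, ?_, ?_, ?_⟩
      · exact fun h => k3 ((c3 q1.2.1 q2.2.1).1 h)
      · exact fun h => k4 ((c4 q1.2.1 q2.2.2).1 h)
      · exact fun h => k5 ((c5 q1.2.2 q2.2.1).1 h)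
      · exact fun h => k6 ((c6 q1.2.2 q2.2.2).1 h)
    have h3 : x ^ (8 * a + 4) ≤ x ^ (86 * C₀) * (1 / 2) ^ 1 := Rem_pw h0 h1 (by omega)
    have h4 : x ^ b ≤ x ^ (86 * C₀) * (1 / 2) ^ 10 := Rem_pw h0 h1 (by omega)
    have h5 := hxp (86 * C₀)
    norm_num at h3 h4
    linarith
  obtain ⟨T, hTpi, hTadj⟩ := thr_exists p g gs (fun u v h => (gp u v h).1) gc
  have hTg : T.adj = g := by
    funext u v
    exact propext (hTadj u v)
  -- the core
  have hh : x ^ 86 ≤ 1 / 2 := by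
    have := Rem_pw h0 h1 (m := 86) (n := 0) (j := 1) (by norm_num)
    linarith
  have hKc : (Fintype.card (Option (Fin k)) : ℝ) ≤ 1 / x ^ 86 := by
    rw [Fintype.card_option, Fintype.card_fin, le_div_iff₀ (hxp 86)]
    push_cast
    have e1 : x ^ 86 = x * x ^ 85 := by rw [← pow_succ']
    have e2 : (k : ℝ) * x ^ 86 ≤ 1 / 2 := by
      calc (k : ℝ) * x ^ 86 = x * (k * x ^ 85) := by rw [e1]; ring
        _ ≤ x * 1 := mul_le_mul_of_nonneg_left hk1 h0.le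
        _ ≤ 1 / 2 := by linarith
    linarith
  obtain ⟨g', gs', gi', gf', hg'⟩ := hcore (x ^ 86) (hxp 86) hh V (Option (Fin k)) T hKc (by
    rw [hTg, ← pow_mul]
    exact hdg)
  rw [hTg] at hg'
  -- the part Y
  have hX : den (fun y : V × V => ¬ (p y.1 = none) ∧ ¬ (p y.2 = none) ∧
      ¬ (r y.1 y.2 ↔ g' y.1 y.2)) ≤ 3 * x ^ b + x ^ 86 := by
    have h2 := den_le_add (P := fun y : V × V => ¬ (p y.1 = none) ∧ ¬ (p y.2 = none) ∧
      ¬ (r y.1 y.2 ↔ g' y.1 y.2))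
      (Q := fun y : V × V => p y.1 ≠ none ∧ p y.2 ≠ none ∧ ¬ (r y.1 y.2 ↔ g y.1 y.2))
      (R := fun y : V × V => ¬ (g y.1 y.2 ↔ g' y.1 y.2)) (by
        intro y hy
        by_cases hrg : (r y.1 y.2 ↔ g y.1 y.2)
        · right
          intro h3
          exact hy.2.2 (hrg.trans h3)
        · left
          exact ⟨hy.1, hy.2.1, hrg⟩)
    have h3 : den (fun y : V × V => ¬ (g y.1 y.2 ↔ g' y.1 y.2)) ≤ x ^ 86 := hg'
    linarith
  obtain ⟨q, qs, qi, qf, hq⟩ := ypart r g' (fun u => p u = none) hs hi gs' gi' gf'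
    (δ := x ^ 36) (ρ := x ^ 26) (ρ₅ := x ^ 12) (l := 3 * x ^ b + x ^ 86) (w := x ^ 5)
    (hd.trans (pow_le_pow_of_le_one h0.le (by linarith) (by omega))) (hxp 36).le (hxp 12)
    (by
      rw [← pow_mul]
      have := Rem_pw h0 h1 (m := 26) (n := 24) (j := 1) (by norm_num)
      norm_num at this ⊢
      linarith) hY hX
    (by
      have e1 : 2 * x ^ 36 / (x ^ 12) ^ 2 = 2 * x ^ 12 := by
        rw [div_eq_iff (by positivity)]
        ring
      have e2 : (x ^ 5) ^ 2 = x ^ 10 := by rw [← pow_mul]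
      rw [e1, e2]
      have h2 := Rem_pw h0 h1 (m := 12) (n := 10) (j := 2) (by norm_num)
      have h3 := Rem_pw h0 h1 (m := 86) (n := 10) (j := 4) (by norm_num)
      have h4 := Rem_pw h0 h1 (m := b) (n := 10) (j := 6) (by omega)
      have h5 := hxp 10
      norm_num at h2 h3 h4
      linarith) (hxp 5).le
  refine ⟨q, qs, qi, qf, hq.trans ?_⟩
  have h2 := Rem_pw h0 h1 (m := 86) (n := 1) (j := 4) (by norm_num)
  have h3 := Rem_pw h0 h1 (m := b) (n := 1) (j := 6) (by omega)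
  have h4 := Rem_pw h0 h1 (m := 26) (n := 1) (j := 6) (by norm_num)
  have h5 := Rem_pw h0 h1 (m := 5) (n := 1) (j := 4) (by norm_num)
  norm_num at h2 h3 h4 h5
  linarith

end Pool.Agent.IC4
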