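import Pool.Agent.IC4.Base

set_option autoImplicit false

namespace Pool.Agent.IC4

theorem Sc.succ_le {s : ℕ → ℝ} (hs : Sc s) (i : ℕ) : s (i + 1) ≤ s i := by
  have h1 := hs.step i
  have h2 := hs.pos i
  linarith

theorem Sc.anti {s : ℕ → ℝ} (hs : Sc s) {i j : ℕ} (hij : i ≤ j) : s j ≤ s i :=
  antitone_nat_of_succ_le hs.succ_le hij

theorem Sc.lt {s : ℕ → ℝ} (hs : Sc s) {i j : ℕ} (hij : i < j) : s j < s i := by
  refine strictAnti_nat_of_succ_lt (fun n => ?_) hij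
  have h1 := hs.step n
  have h2 := hs.pos n
  linarith

theorem Sc.le_one {s : ℕ → ℝ} (hs : Sc s) (i : ℕ) : s i ≤ 1 :=
  (hs.anti (Nat.zero_le i)).trans hs.le1

theorem Sc.step' {s : ℕ → ℝ} (hs : Sc s) {i j : ℕ} (hij : i + 1 ≤ j) : s j ≤ s i / 16 :=
  (hs.anti hij).trans (hs.step i)

theorem Sc.step2 {s : ℕ → ℝ} (hs : Sc s) {i j : ℕ} (hij : i + 2 ≤ j) : s j ≤ s i / 256 := by
  have h1 := hs.step' (i := i + 1) hij
  have h2 := hs.step i
  linarith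

theorem sc_eq_pow (h : ℝ) (i : ℕ) : sc h i = h ^ (20 * 5 ^ i) := by
  induction i with
  | zero => simp [sc]
  | succ i ih =>
    rw [sc, ih, ← pow_mul]
    congr 1
    rw [pow_succ]
    ring

theorem sc_pos {h : ℝ} (h0 : 0 < h) (i : ℕ) : 0 < sc h i := by
  rw [sc_eq_pow]; positivity

theorem sc_le_zero {h : ℝ} (h0 : 0 < h) (h1 : h ≤ 1 / 2) (i : ℕ) : sc h i ≤ h ^ 20 := by
  rw [sc_eq_pow]
  apply pow_le_pow_of_le_one h0.le (by linarith)
  have : 1 ≤ 5 ^ i := Nat.one_le_pow _ _ (by norm_num)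
  omega

theorem sc_Sc {h : ℝ} (h0 : 0 < h) (h1 : h ≤ 1 / 2) : Sc (sc h) := by
  have h20 : h ^ 20 ≤ 1 / 16 := by
    calc h ^ 20 ≤ (1 / 2 : ℝ) ^ 20 := pow_le_pow_left₀ h0.le h1 20
      _ ≤ 1 / 16 := by norm_num
  refine ⟨sc_pos h0, fun i => ?_, ?_⟩
  · have h2 := sc_pos h0 i
    have h3 := (sc_le_zero h0 h1 i).trans h20
    show (sc h i) ^ 5 ≤ sc h i / 16
    have h4 : (sc h i) ^ 4 ≤ 1 / 16 := by
      calc (sc h i) ^ 4 ≤ (sc h i) ^ 1 :=
            pow_le_pow_of_le_one h2.le (by linarith) (by norm_num)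
        _ ≤ 1 / 16 := by rw [pow_one]; exact h3
    calc (sc h i) ^ 5 = sc h i * (sc h i) ^ 4 := by ring
      _ ≤ sc h i * (1 / 16) := mul_le_mul_of_nonneg_left h4 h2.le
      _ = sc h i / 16 := by ring
  · show h ^ 20 ≤ 1
    linarith

theorem sc_sum {h : ℝ} (h0 : 0 < h) (h1 : h ≤ 1 / 2) (N : ℕ) :
    ∑ i ∈ Finset.range N, (sc h i) ^ 2 ≤ 2 * h ^ 40 := by
  have hs := sc_Sc h0 h1
  have key : ∀ N : ℕ, ∑ i ∈ Finset.range N, (sc h i) ^ 2 ≤ 2 * h ^ 40 - 2 * (sc h N) ^ 2 := by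
    intro N
    induction N with
    | zero =>
      have : sc h 0 = h ^ 20 := rfl
      rw [Finset.sum_range_zero, this, ← pow_mul]
      norm_num
    | succ N ih =>
      rw [Finset.sum_range_succ]
      have h2 := hs.step N
      have h3 := hs.pos N
      have h4 := hs.pos (N + 1)
      have h5 : (sc h (N + 1)) ^ 2 ≤ (sc h N / 16) ^ 2 := pow_le_pow_left₀ h4.le h2 2
      have h6 : (sc h N / 16) ^ 2 = (sc h N) ^ 2 / 256 := by ring
      nlinarith [sq_nonneg (sc h N)]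
  have := key N
  have h2 := sq_nonneg (sc h N)
  linarith

end Pool.Agent.IC4
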