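import Pool.Agent.IC4.Scale

set_option autoImplicit false

namespace Pool.Agent.IC4

/-- the violating vertices of one cell -/
theorem Tier_cell {V : Type} [Fintype V] (f : V → ℝ) (C W : V → Prop) (R : V → V → Prop)
    {τ : ℝ} (hτ : 0 < τ) (hR : ∀ u u', C u → C u' → R u u')
    (hsp : ∀ x, den (fun u => C u ∧ x ≤ f u ∧ f u ≤ x + τ) ≤ 2 * τ) :
    den (fun u => W u ∧ C u ∧ den (fun u' => W u' ∧ R u u' ∧ f u' ≤ f u - τ) < τ) ≤ 3 * τ := by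
  classical
  by_cases hex : ∃ u, W u ∧ C u ∧ den (fun u' => W u' ∧ R u u' ∧ f u' ≤ f u - τ) < τ
  · obtain ⟨A, hA⟩ : ∃ A : Finset V, ∀ u, u ∈ A ↔
        (W u ∧ C u ∧ den (fun u' => W u' ∧ R u u' ∧ f u' ≤ f u - τ) < τ) :=
      ⟨Finset.univ.filter (fun u => W u ∧ C u ∧
        den (fun u' => W u' ∧ R u u' ∧ f u' ≤ f u - τ) < τ), fun u => by
          rw [Finset.mem_filter]; simp⟩
    have hne : A.Nonempty := by
      obtain ⟨u, hu⟩ := hex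
      exact ⟨u, (hA u).2 hu⟩
    obtain ⟨w, hw, hmax⟩ := A.exists_max_image f hne
    obtain ⟨w1, w2, w3⟩ := (hA w).1 hw
    have h1 : den (fun u => W u ∧ C u ∧ den (fun u' => W u' ∧ R u u' ∧ f u' ≤ f u - τ) < τ) ≤
        den (fun u' => W u' ∧ R w u' ∧ f u' ≤ f w - τ) +
        den (fun u => C u ∧ f w - τ ≤ f u ∧ f u ≤ f w - τ + τ) := by
      apply den_le_add
      intro u hu
      have hm := hmax u ((hA u).2 hu)
      by_cases hle : f u ≤ f w - τ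
      · exact Or.inl ⟨hu.1, hR w u w2 hu.2.1, hle⟩
      · exact Or.inr ⟨hu.2.1, (not_le.1 hle).le, by linarith⟩
    have h2 := hsp (f w - τ)
    linarith
  · rw [den_eq_zero (fun u hu => hex ⟨u, hu⟩)]
    linarith

/-- the number of cells -/
theorem Tier_card {σ : ℝ} (h0 : 0 < σ) (h1 : σ ≤ 1) :
    ((Finset.Icc ⌊-1 / σ⌋ ⌊1 / σ⌋).card : ℝ) ≤ 4 / σ := by
  rw [Int.card_Icc]
  have e1 : (⌊1 / σ⌋ : ℝ) ≤ 1 / σ := Int.floor_le _
  have e2 : (-1 / σ : ℝ) < ⌊-1 / σ⌋ + 1 := Int.lt_floor_add_one _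
  have e3 : (1 : ℝ) ≤ 1 / σ := by
    rw [le_div_iff₀ h0]; linarith
  have e4 : (-1 / σ : ℝ) = -(1 / σ) := by ring
  have e5 : (4 / σ : ℝ) = 4 * (1 / σ) := by ring
  have hnn : 0 ≤ ⌊1 / σ⌋ + 1 - ⌊-1 / σ⌋ := by
    have : ⌊-1 / σ⌋ ≤ ⌊1 / σ⌋ := Int.floor_mono (by rw [e4]; linarith)
    omega
  have e6 : (((⌊1 / σ⌋ + 1 - ⌊-1 / σ⌋).toNat : ℤ) : ℝ) = (⌊1 / σ⌋ : ℝ) + 1 - ⌊-1 / σ⌋ := by
    rw [Int.toNat_of_nonneg hnn]
    push_cast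
    ring
  have e7 : (((⌊1 / σ⌋ + 1 - ⌊-1 / σ⌋).toNat : ℕ) : ℝ) = (⌊1 / σ⌋ : ℝ) + 1 - ⌊-1 / σ⌋ := by
    rw [← e6]
    push_cast
    rfl
  rw [e7, e5]
  rw [e4] at e2 ⊢
  linarith

theorem Tier_mem {σ x : ℝ} (h0 : 0 < σ) (hx : |x| ≤ 1) :
    ⌊x / σ⌋ ∈ Finset.Icc ⌊-1 / σ⌋ ⌊1 / σ⌋ := by
  rw [Finset.mem_Icc]
  have h1 := abs_le.1 hx
  constructor
  · apply Int.floor_mono
    exact div_le_div_of_nonneg_right h1.1 h0.le
  · apply Int.floor_mono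
    exact div_le_div_of_nonneg_right h1.2 h0.le

theorem Tier_near {σ x y : ℝ} (h0 : 0 < σ) (h : ⌊x / σ⌋ = ⌊y / σ⌋) : |y - x| ≤ σ := by
  have h1 := Int.abs_sub_lt_one_of_floor_eq_floor h.symm
  have h2 : y / σ - x / σ = (y - x) / σ := by ring
  rw [h2, abs_div, abs_of_pos h0, div_lt_one h0] at h1
  exact h1.le

section

variable {V K : Type} [Fintype V] (T : TS V K)

/-- all cells, fixed parts -/
theorem Tier_parts {σ τ : ℝ} (hσ : 0 < σ) (hσ1 : σ ≤ 1) (hτ : 0 < τ)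
    (hn : 1 / (Fintype.card V : ℝ) ≤ τ) (W : V → Prop) (p q₁ q₂ q₃ : K) (hp : p ≠ q₁)
    (f : V → ℝ)
    (hsp : ∀ x, den (fun u => T.pi u = p ∧ x ≤ f u ∧ f u ≤ x + τ) ≤ τ + 1 / (Fintype.card V : ℝ)) :
    den (fun u => W u ∧ T.pi u = p ∧
      den (fun u' => W u' ∧ T.Near σ q₁ q₂ q₃ u u' ∧ f u' ≤ f u - τ) < τ) ≤
      (4 / σ) ^ 3 * (3 * τ) := by
  obtain ⟨F, hF⟩ : ∃ F : Finset ℤ, F = Finset.Icc ⌊-1 / σ⌋ ⌊1 / σ⌋ := ⟨_, rfl⟩
  have hcell : ∀ z ∈ F ×ˢ F ×ˢ F, den (fun u => W u ∧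
      (T.pi u = p ∧ ⌊T.th u q₁ / σ⌋ = z.1 ∧ ⌊T.th u q₂ / σ⌋ = z.2.1 ∧ ⌊T.th u q₃ / σ⌋ = z.2.2) ∧
      den (fun u' => W u' ∧ T.Near σ q₁ q₂ q₃ u u' ∧ f u' ≤ f u - τ) < τ) ≤ 3 * τ := by
    intro z _
    apply Tier_cell f (fun u => T.pi u = p ∧ ⌊T.th u q₁ / σ⌋ = z.1 ∧ ⌊T.th u q₂ / σ⌋ = z.2.1 ∧
      ⌊T.th u q₃ / σ⌋ = z.2.2) W (fun u u' => T.Near σ q₁ q₂ q₃ u u') hτ
    · rintro u u' ⟨a0, a1, a2, a3⟩ ⟨b0, b1, b2, b3⟩
      exact ⟨b0.trans a0.symm, Tier_near hσ (a1.trans b1.symm), Tier_near hσ (a2.trans b2.symm),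
        Tier_near hσ (a3.trans b3.symm)⟩
    · intro x
      refine le_trans (den_mono fun u hu => ?_) ((hsp x).trans (by linarith))
      exact ⟨hu.1.1, hu.2.1, hu.2.2⟩
  have h1 := den_exists_mem_le (F ×ˢ F ×ˢ F) (fun z u => W u ∧
      (T.pi u = p ∧ ⌊T.th u q₁ / σ⌋ = z.1 ∧ ⌊T.th u q₂ / σ⌋ = z.2.1 ∧ ⌊T.th u q₃ / σ⌋ = z.2.2) ∧
      den (fun u' => W u' ∧ T.Near σ q₁ q₂ q₃ u u' ∧ f u' ≤ f u - τ) < τ) (3 * τ) hcell
  refine le_trans (den_mono fun u hu => ?_) (h1.trans ?_)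
  · obtain ⟨u1, u2, u3⟩ := hu
    refine ⟨(⌊T.th u q₁ / σ⌋, ⌊T.th u q₂ / σ⌋, ⌊T.th u q₃ / σ⌋), ?_, u1, ⟨u2, rfl, rfl, rfl⟩, u3⟩
    rw [Finset.mem_product, Finset.mem_product, hF]
    exact ⟨Tier_mem hσ (T.bd _ _), Tier_mem hσ (T.bd _ _), Tier_mem hσ (T.bd _ _)⟩
  · apply mul_le_mul_of_nonneg_right _ (by linarith)
    rw [Finset.card_product, Finset.card_product]
    push_cast
    have h2 : (F.card : ℝ) ≤ 4 / σ := by rw [hF]; exact Tier_card hσ hσ1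
    have h3 : (0 : ℝ) ≤ F.card := Nat.cast_nonneg _
    have h4 : (F.card : ℝ) * (F.card * F.card) = (F.card : ℝ) ^ 3 := by ring
    rw [h4]
    exact pow_le_pow_left₀ h3 h2 3

/-- fixed scale -/
theorem Tier_scale [Fintype K] {σ τ : ℝ} (hσ : 0 < σ) (hσ1 : σ ≤ 1) (hτ : 0 < τ)
    (hn : 1 / (Fintype.card V : ℝ) ≤ τ) (W : V → Prop) :
    den (fun u => ∃ q : K × K × K × K, W u ∧ (q.1 ≠ q.2.1 ∧ T.pi u = q.1 ∧
      (den (fun u' => W u' ∧ T.Near σ q.2.1 q.2.2.1 q.2.2.2 u u' ∧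
        T.th u' q.2.1 ≤ T.th u q.2.1 - τ) < τ ∨
      den (fun u' => W u' ∧ T.Near σ q.2.1 q.2.2.1 q.2.2.2 u u' ∧
        T.th u q.2.1 + τ ≤ T.th u' q.2.1) < τ))) ≤
      ((Fintype.card K : ℝ) ^ 4) * (384 / σ ^ 3 * τ) := by
  refine (den_exists_le_card _ (2 * ((4 / σ) ^ 3 * (3 * τ))) ?_).trans ?_
  · rintro ⟨p, q₁, q₂, q₃⟩
    dsimp only
    have hnn : 0 ≤ (4 / σ) ^ 3 * (3 * τ) := by positivity
    by_cases hp : p ≠ q₁
    · have h1 := Tier_parts T hσ hσ1 hτ hn W p q₁ q₂ q₃ hp (fun u => T.th u q₁)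
        (fun x => T.sp p q₁ hp x τ hτ.le)
      have h2 := Tier_parts T hσ hσ1 hτ hn W p q₁ q₂ q₃ hp (fun u => - T.th u q₁)
        (fun x => by
          refine le_trans (den_mono fun u hu => ?_) (T.sp p q₁ hp (-x - τ) τ hτ.le)
          exact ⟨hu.1, by linarith [hu.2.2], by linarith [hu.2.1]⟩)
      have h3 := den_le_add (P := fun u => W u ∧ (p ≠ q₁ ∧ T.pi u = p ∧
          (den (fun u' => W u' ∧ T.Near σ q₁ q₂ q₃ u u' ∧ T.th u' q₁ ≤ T.th u q₁ - τ) < τ ∨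
          den (fun u' => W u' ∧ T.Near σ q₁ q₂ q₃ u u' ∧ T.th u q₁ + τ ≤ T.th u' q₁) < τ)))
        (Q := fun u => W u ∧ T.pi u = p ∧
          den (fun u' => W u' ∧ T.Near σ q₁ q₂ q₃ u u' ∧ T.th u' q₁ ≤ T.th u q₁ - τ) < τ)
        (R := fun u => W u ∧ T.pi u = p ∧
          den (fun u' => W u' ∧ T.Near σ q₁ q₂ q₃ u u' ∧ - T.th u' q₁ ≤ - T.th u q₁ - τ) < τ)
        (by
          rintro u ⟨a1, -, a2, a3 | a3⟩
          · exact Or.inl ⟨a1, a2, a3⟩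
          · refine Or.inr ⟨a1, a2, ?_⟩
            have e : den (fun u' => W u' ∧ T.Near σ q₁ q₂ q₃ u u' ∧
                - T.th u' q₁ ≤ - T.th u q₁ - τ) =
                den (fun u' => W u' ∧ T.Near σ q₁ q₂ q₃ u u' ∧ T.th u q₁ + τ ≤ T.th u' q₁) := by
              apply den_congr
              intro u'
              constructor
              · rintro ⟨b1, b2, b3⟩
                exact ⟨b1, b2, by linarith⟩
              · rintro ⟨b1, b2, b3⟩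
                exact ⟨b1, b2, by linarith⟩
            rw [e]
            exact a3)
      linarith
    · rw [den_eq_zero (fun u hu => hp hu.2.1)]
      linarith
  · rw [Fintype.card_prod, Fintype.card_prod, Fintype.card_prod]
    push_cast
    apply le_of_eq
    field_simp
    ring

end

/-- Section IV.1 -/
theorem tier {V K : Type} [Fintype V] [Fintype K] (T : TS V K) {h : ℝ} (h0 : 0 < h)
    (h1 : h ≤ 1 / 2) (hK : (Fintype.card K : ℝ) ≤ 1 / h) (N : ℕ)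
    (hn : 1 / (Fintype.card V : ℝ) ≤ sc h N) (W : V → Prop) :
    ∃ W' : V → Prop, (∀ u, W' u → W u) ∧ T.NE (sc h) N W W' ∧
      den (fun u => W u ∧ ¬ W' u) ≤ h ^ 10 := by
  have hs := sc_Sc h0 h1
  obtain ⟨s, hsdef⟩ : ∃ s, s = sc h := ⟨_, rfl⟩
  have hstep : ∀ i, s (i + 1) = s i ^ 5 := by
    intro i; rw [hsdef]; rfl
  have hsum := sc_sum h0 h1 N
  rw [← hsdef] at hs hn hsum ⊢
  obtain ⟨Bad, hBad⟩ : ∃ Bad : ℕ → V → Prop, Bad = fun i u => ∃ q : K × K × K × K, W u ∧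
      (q.1 ≠ q.2.1 ∧ T.pi u = q.1 ∧
      (den (fun u' => W u' ∧ T.Near (s i) q.2.1 q.2.2.1 q.2.2.2 u u' ∧
        T.th u' q.2.1 ≤ T.th u q.2.1 - s (i + 1)) < s (i + 1) ∨
      den (fun u' => W u' ∧ T.Near (s i) q.2.1 q.2.2.1 q.2.2.2 u u' ∧
        T.th u q.2.1 + s (i + 1) ≤ T.th u' q.2.1) < s (i + 1))) := ⟨_, rfl⟩
  refine ⟨fun u => W u ∧ ∀ i, i < N → ¬ Bad i u, fun u hu => hu.1, ?_, ?_⟩
  · rintro u ⟨hu, hb⟩ i hi q₁ q₂ q₃ hq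
    have h2 := hb i hi
    rw [hBad] at h2
    constructor
    · by_contra hc
      exact h2 ⟨(T.pi u, q₁, q₂, q₃), hu, Ne.symm hq, rfl, Or.inl (not_le.1 hc)⟩
    · by_contra hc
      exact h2 ⟨(T.pi u, q₁, q₂, q₃), hu, Ne.symm hq, rfl, Or.inr (not_le.1 hc)⟩
  · have hb : ∀ i, i < N → den (Bad i) ≤ (1 / h) ^ 4 * (384 * (s i) ^ 2) := by
      intro i hi
      have h3 := Tier_scale T (hs.pos i) (hs.le_one i) (hs.pos (i + 1))
        (hn.trans (hs.anti hi)) W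
      rw [hBad]
      refine h3.trans ?_
      have h4 : 384 / (s i) ^ 3 * s (i + 1) = 384 * (s i) ^ 2 := by
        rw [hstep]
        have := (hs.pos i).ne'
        field_simp
      rw [h4]
      apply mul_le_mul_of_nonneg_right _ (by positivity)
      exact pow_le_pow_left₀ (Nat.cast_nonneg _) hK 4
    have h5 : den (fun u => W u ∧ ¬ (W u ∧ ∀ i, i < N → ¬ Bad i u)) ≤
        den (fun u => ∃ i : Fin N, Bad i u) := by
      apply den_mono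
      rintro u ⟨hu, hnu⟩
      by_contra hc
      apply hnu
      refine ⟨hu, fun i hi hbi => hc ⟨⟨i, hi⟩, hbi⟩⟩
    refine h5.trans ((den_exists_le (J := Fin N) (fun i => Bad i)).trans ?_)
    have h6 : ∑ j : Fin N, den (Bad j) ≤ ∑ j : Fin N, (1 / h) ^ 4 * (384 * (s j) ^ 2) :=
      Finset.sum_le_sum fun j _ => hb j j.2
    refine h6.trans ?_
    have h7 : ∑ j : Fin N, (1 / h) ^ 4 * (384 * (s j) ^ 2) =
        (1 / h) ^ 4 * (384 * ∑ i ∈ Finset.range N, (s i) ^ 2) := by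
      rw [Fin.sum_univ_eq_sum_range (fun i => (1 / h) ^ 4 * (384 * (s i) ^ 2)) N,
        Finset.mul_sum, Finset.mul_sum]
    rw [h7]
    have h8 : (1 / h) ^ 4 * (384 * ∑ i ∈ Finset.range N, (s i) ^ 2) ≤
        (1 / h) ^ 4 * (384 * (2 * h ^ 40)) := by gcongr
    refine h8.trans ?_
    have h9 : (1 / h) ^ 4 * (384 * (2 * h ^ 40)) = 768 * h ^ 26 * h ^ 10 := by
      field_simp
      ring
    rw [h9]
    have h10 : h ^ 26 ≤ (1 / 2 : ℝ) ^ 26 := pow_le_pow_left₀ h0.le h1 26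
    have h11 : 768 * h ^ 26 ≤ 1 := by
      have : (768 : ℝ) * (1 / 2) ^ 26 ≤ 1 := by norm_num
      linarith
    have h12 : 0 < h ^ 10 := by positivity
    nlinarith

end Pool.Agent.IC4
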