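import Pool.Agent.IC4.Scale

set_option autoImplicit false

namespace Pool.Agent.IC4

section TriAux

variable {V K : Type} [Fintype V] (T : TS V K)

/-- moved vertices are adjacent -/
private lemma Tri_adj {u v u' v' : V} (hu : T.pi u' = T.pi u) (hv : T.pi v' = T.pi v)
    (hne : T.pi u ≠ T.pi v) (x y : ℝ) (h1 : x ≤ T.th u' (T.pi v) - T.th u (T.pi v))
    (h2 : y ≤ T.th v' (T.pi u) - T.th v (T.pi u)) (h : 0 < T.M u v + x + y) : T.adj u' v' := by
  refine ⟨by rw [hu, hv]; exact hne, ?_⟩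
  unfold TS.M at h ⊢
  rw [hu, hv]
  linarith

/-- moved vertices are not adjacent -/
private lemma Tri_nadj {u v u' v' : V} (hu : T.pi u' = T.pi u) (hv : T.pi v' = T.pi v)
    (x y : ℝ) (h1 : T.th u' (T.pi v) - T.th u (T.pi v) ≤ x)
    (h2 : T.th v' (T.pi u) - T.th v (T.pi u) ≤ y) (h : T.M u v + x + y ≤ 0) : ¬ T.adj u' v' := by
  rintro ⟨-, h3⟩
  unfold TS.M at h h3
  rw [hu, hv] at h3
  linarith

private lemma Tri_nadjE {hi : ℝ} {u v u' v' : V} (hE : T.Ee hi u v) (hu : T.pi u' = T.pi u)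
    (hv : T.pi v' = T.pi v) (x y : ℝ) (h1 : T.th u' (T.pi v) - T.th u (T.pi v) ≤ x)
    (h2 : T.th v' (T.pi u) - T.th v (T.pi u) ≤ y) (h : x + y ≤ hi) : ¬ T.adj u' v' := by
  rcases hE with hE | hE
  · rintro ⟨h3, -⟩
    exact h3 (by rw [hu, hv, hE])
  · exact Tri_nadj T hu hv x y h1 h2 (by linarith)

/-- the twelve scale inequalities -/
private lemma Tri_scales {s : ℕ → ℝ} (hs : Sc s) (i : ℕ) :
    0 < s (i + 12) ∧ 16 * s (i + 12) ≤ s (i + 11) ∧ 16 * s (i + 11) ≤ s (i + 10) ∧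
    16 * s (i + 10) ≤ s (i + 9) ∧ 16 * s (i + 9) ≤ s (i + 8) ∧ 16 * s (i + 8) ≤ s (i + 7) ∧
    16 * s (i + 7) ≤ s (i + 6) ∧ 16 * s (i + 6) ≤ s (i + 5) ∧ 16 * s (i + 5) ≤ s (i + 4) ∧
    16 * s (i + 4) ≤ s (i + 3) ∧ 16 * s (i + 3) ≤ s (i + 2) ∧ 16 * s (i + 2) ≤ s (i + 1) ∧
    16 * s (i + 1) ≤ s i := by
  have h : ∀ j, 16 * s (j + 1) ≤ s j := fun j => by have := hs.step j; linarith
  exact ⟨hs.pos _, h _, h _, h _, h _, h _, h _, h _, h _, h _, h _, h _, h _⟩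

private lemma Tri_prod {s : ℕ → ℝ} (hs : Sc s) {N : ℕ} {x1 x2 x3 x4 D : ℝ}
    (h1 : s N ≤ x1) (h2 : s N ≤ x2) (h3 : s N ≤ x3) (h4 : s N ≤ x4)
    (h : x1 * x2 * x3 * x4 ≤ D) : (s N) ^ 4 ≤ D := by
  have h0 := (hs.pos N).le
  have g1 := h0.trans h1
  have g2 := h0.trans h2
  have g3 := h0.trans h3
  calc (s N) ^ 4 = s N * s N * s N * s N := by ring
    _ ≤ x1 * x2 * x3 * x4 := by gcongr
    _ ≤ D := h

/-- the vertex `d` moves -/
private lemma Tri_d {s : ℕ → ℝ} {N : ℕ} {V1 : V → Prop}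
    (hNE : T.NE s N (fun _ => True) V1) {i : ℕ} (hi : i + 12 ≤ N) {a b c d : V}
    (hd : V1 d)
    (hdc : T.Tt (s (i + 12)) d c ∨ T.Ff (s i) d c)
    (h1 : ¬ (T.Tt (s (i + 12)) d c ∧ T.Tt (s (i + 12)) d a))
    (h2 : ¬ (T.Tt (s (i + 12)) d c ∧ T.Tt (s (i + 12)) d b))
    (h3 : ¬ (T.Tt (s (i + 12)) d a ∧ T.Tt (s (i + 12)) d b)) :
    ∃ P : V → Prop, s (i + 2) ≤ den P ∧ ∀ d', P d' → T.pi d' = T.pi d ∧
      |T.th d' (T.pi a) - T.th d (T.pi a)| ≤ s (i + 1) ∧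
      |T.th d' (T.pi b) - T.th d (T.pi b)| ≤ s (i + 1) ∧
      |T.th d' (T.pi c) - T.th d (T.pi c)| ≤ s (i + 1) ∧
      (T.Tt (s (i + 12)) d c → T.th d (T.pi c) + s (i + 2) ≤ T.th d' (T.pi c)) ∧
      (T.Tt (s (i + 12)) d a → T.th d' (T.pi a) ≤ T.th d (T.pi a) - s (i + 2)) ∧
      (T.Tt (s (i + 12)) d b → T.th d' (T.pi b) ≤ T.th d (T.pi b) - s (i + 2)) := by
  by_cases hta : T.Tt (s (i + 12)) d a
  · refine ⟨_, (hNE d hd (i + 1) (by omega) (T.pi a) (T.pi b) (T.pi c) hta.1.symm).1, ?_⟩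
    rintro d' ⟨-, ⟨e1, e2, e3, e4⟩, e5⟩
    exact ⟨e1, e2, e3, e4, fun h => absurd ⟨h, hta⟩ h1, fun _ => e5, fun h => absurd ⟨hta, h⟩ h3⟩
  · by_cases htb : T.Tt (s (i + 12)) d b
    · refine ⟨_, (hNE d hd (i + 1) (by omega) (T.pi b) (T.pi a) (T.pi c) htb.1.symm).1, ?_⟩
      rintro d' ⟨-, ⟨e1, e2, e3, e4⟩, e5⟩
      exact ⟨e1, e3, e2, e4, fun h => absurd ⟨h, htb⟩ h2, fun h => absurd h hta, fun _ => e5⟩
    · have hne : T.pi c ≠ T.pi d := by
        rcases hdc with h | h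
        · exact h.1.symm
        · exact h.1.symm
      refine ⟨_, (hNE d hd (i + 1) (by omega) (T.pi c) (T.pi a) (T.pi b) hne).2, ?_⟩
      rintro d' ⟨-, ⟨e1, e2, e3, e4⟩, e5⟩
      exact ⟨e1, e3, e4, e2, fun _ => e5, fun h => absurd h hta, fun h => absurd h htb⟩

private lemma Tri_stepA {s : ℕ → ℝ} {N : ℕ}
    {V1 : V → Prop} (hC : T.Ctx s N V1) {i : ℕ} (hi : i + 12 ≤ N) {a b c d : V}
    (ha : V1 a) (hb : V1 b) (hc : V1 c) (hd : V1 d)
    (hab : T.Tt (s (i + 12)) a b) (hbc : T.Tt (s (i + 12)) b c) (hac : T.Tt (s (i + 12)) a c)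
    (hdc : T.Tt (s (i + 12)) d c ∨ T.Ff (s i) d c) (hda : T.Tt (s (i + 12)) d a ∨ T.Ee (s i) d a)
    (hdb : T.Tt (s (i + 12)) d b ∨ T.Ee (s i) d b)
    (h1 : ¬ (T.Tt (s (i + 12)) d c ∧ T.Tt (s (i + 12)) d a))
    (h2 : ¬ (T.Tt (s (i + 12)) d c ∧ T.Tt (s (i + 12)) d b))
    (h3 : ¬ (T.Tt (s (i + 12)) d a ∧ T.Tt (s (i + 12)) d b)) :
    s (i + 12) ≤ den (fun c' => T.pi c' = T.pi c ∧ T.th c' (T.pi a) ≤ T.th c (T.pi a) - s (i + 4) ∧
      T.th c (T.pi b) + s (i + 8) / 2 < T.th c' (T.pi b)) := by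
  obtain ⟨hs, hNE, hK⟩ := hC
  by_contra hcon
  push Not at hcon
  obtain ⟨q12, q11, q10, q9, q8, q7, q6, q5, q4, q3, q2, q1, q0⟩ := Tri_scales hs i
  obtain ⟨Pd, hPd, hPd'⟩ := Tri_d T hNE hi hd hdc h1 h2 h3
  have hc1 := (hNE c hc (i + 3) (by omega) (T.pi a) (T.pi b) (T.pi d) hac.1).1
  have ha1 := (hNE a ha (i + 5) (by omega) (T.pi b) (T.pi c) (T.pi d) hab.1.symm).2
  have hb1 := (hNE b hb (i + 7) (by omega) (T.pi c) (T.pi a) (T.pi d) hbc.1.symm).1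
  set Pc : V → Prop := fun c' => (True ∧ T.Near (s (i + 3)) (T.pi a) (T.pi b) (T.pi d) c c' ∧
    T.th c' (T.pi a) ≤ T.th c (T.pi a) - s (i + 3 + 1)) ∧
    T.th c' (T.pi b) ≤ T.th c (T.pi b) + s (i + 8) / 2 with hPc
  have hPcd : s (i + 12) ≤ den Pc := by
    have e1 := den_le_add (P := fun c' => True ∧ T.Near (s (i + 3)) (T.pi a) (T.pi b) (T.pi d) c c' ∧
      T.th c' (T.pi a) ≤ T.th c (T.pi a) - s (i + 3 + 1)) (Q := fun c' => T.pi c' = T.pi c ∧
      T.th c' (T.pi a) ≤ T.th c (T.pi a) - s (i + 4) ∧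
      T.th c (T.pi b) + s (i + 8) / 2 < T.th c' (T.pi b)) (R := Pc) (by
        intro x hx
        by_cases hx2 : T.th x (T.pi b) ≤ T.th c (T.pi b) + s (i + 8) / 2
        · exact Or.inr ⟨hx, hx2⟩
        · push Not at hx2
          exact Or.inl ⟨hx.2.1.1, hx.2.2, hx2⟩)
    have e2 : s (i + 3 + 1) = s (i + 4) := rfl
    rw [e2] at hc1 e1
    linarith
  have hN : s N ≤ s (i + 12) := hs.anti hi
  have hbox := dK2_box (r := T.adj) (P₁ := fun a' => True ∧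
      T.Near (s (i + 5)) (T.pi b) (T.pi c) (T.pi d) a a' ∧
      T.th a (T.pi b) + s (i + 5 + 1) ≤ T.th a' (T.pi b)) (P₂ := fun b' => True ∧
      T.Near (s (i + 7)) (T.pi c) (T.pi a) (T.pi d) b b' ∧
      T.th b' (T.pi c) ≤ T.th b (T.pi c) - s (i + 7 + 1)) (P₃ := Pc) (P₄ := Pd) (by
    rintro a' b' c' d' ⟨-, ⟨a1, a2, a3, a4⟩, a5⟩ ⟨-, ⟨b1, b2, b3, b4⟩, b5⟩
      ⟨⟨-, ⟨c1, c2, c3, c4⟩, c5⟩, c6⟩ hd'
    obtain ⟨d1, d2, d3, d4, d5, d6, d7⟩ := hPd' d' hd'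
    have e6 : s (i + 5 + 1) = s (i + 6) := rfl
    have e8 : s (i + 7 + 1) = s (i + 8) := rfl
    have e4 : s (i + 3 + 1) = s (i + 4) := rfl
    rw [e6] at a5
    rw [e8] at b5
    rw [e4] at c5
    rw [abs_le] at a2 a3 a4 b2 b3 b4 c2 c3 c4 d2 d3 d4
    obtain ⟨tab, mab⟩ := hab
    obtain ⟨tbc, mbc⟩ := hbc
    obtain ⟨tac, mac⟩ := hac
    rw [abs_le] at mab mbc mac
    refine ⟨?_, ?_, ?_, ?_, ?_, ?_⟩
    · -- a' ~ b'
      exact Tri_adj T a1 b1 tab (s (i + 6)) (-s (i + 7)) (by linarith) (by linarith)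
        (by linarith)
    · -- c' ~ d'
      rcases hdc with h | h
      · have h' := h
        obtain ⟨t, m⟩ := h'
        rw [abs_le] at m
        have mm : T.M c d = T.M d c := by unfold TS.M; ring
        exact Tri_adj T c1 d1 t.symm (-s (i + 3)) (s (i + 2)) (by linarith)
          (by have := d5 h; linarith) (by linarith)
      · obtain ⟨t, m⟩ := h
        have mm : T.M c d = T.M d c := by unfold TS.M; ring
        exact Tri_adj T c1 d1 t.symm (-s (i + 3)) (-s (i + 1)) (by linarith) (by linarith)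
          (by linarith)
    · -- a' c'
      exact Tri_nadj T a1 c1 (s (i + 5)) (-s (i + 4)) (by linarith) (by linarith) (by linarith)
    · -- a' d'
      rcases hda with h | h
      · have h' := h
        obtain ⟨t, m⟩ := h'
        rw [abs_le] at m
        have mm : T.M a d = T.M d a := by unfold TS.M; ring
        exact Tri_nadj T a1 d1 (s (i + 5)) (-s (i + 2)) (by linarith)
          (by have := d6 h; linarith) (by linarith)
      · have h' : T.Ee (s i) a d := by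
          rcases h with h | h
          · exact Or.inl h.symm
          · refine Or.inr ?_
            have mm : T.M a d = T.M d a := by unfold TS.M; ring
            rw [mm]; exact h
        exact Tri_nadjE T h' a1 d1 (s (i + 5)) (s (i + 1)) (by linarith) (by linarith)
          (by linarith)
    · -- b' c'
      exact Tri_nadj T b1 c1 (-s (i + 8)) (s (i + 8) / 2) (by linarith) (by linarith)
        (by linarith)
    · -- b' d'
      rcases hdb with h | h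
      · have h' := h
        obtain ⟨t, m⟩ := h'
        rw [abs_le] at m
        have mm : T.M b d = T.M d b := by unfold TS.M; ring
        exact Tri_nadj T b1 d1 (s (i + 7)) (-s (i + 2)) (by linarith)
          (by have := d7 h; linarith) (by linarith)
      · have h' : T.Ee (s i) b d := by
          rcases h with h | h
          · exact Or.inl h.symm
          · refine Or.inr ?_
            have mm : T.M b d = T.M d b := by unfold TS.M; ring
            rw [mm]; exact h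
        exact Tri_nadjE T h' b1 d1 (s (i + 7)) (s (i + 1)) (by linarith) (by linarith)
          (by linarith))
  have e6 : s (i + 5 + 1) = s (i + 6) := rfl
  have e8 : s (i + 7 + 1) = s (i + 8) := rfl
  have hfin := Tri_prod hs (N := N) (by rw [e6] at ha1; linarith) (by rw [e8] at hb1; linarith)
    (by linarith) (by linarith) hbox
  linarith

end TriAux

/-- Section IV.3, triangle lemma. -/
theorem tri {V K : Type} [Fintype V] (T : TS V K) {s : ℕ → ℝ} {N : ℕ}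
    {V1 : V → Prop} (hC : T.Ctx s N V1) {i : ℕ} (hi : i + 12 ≤ N) {a b c d : V}
    (ha : V1 a) (hb : V1 b) (hc : V1 c) (hd : V1 d)
    (hab : T.Tt (s (i + 12)) a b) (hbc : T.Tt (s (i + 12)) b c) (hac : T.Tt (s (i + 12)) a c)
    (hdc : T.Tt (s (i + 12)) d c ∨ T.Ff (s i) d c) (hda : T.Tt (s (i + 12)) d a ∨ T.Ee (s i) d a)
    (hdb : T.Tt (s (i + 12)) d b ∨ T.Ee (s i) d b)
    (h1 : ¬ (T.Tt (s (i + 12)) d c ∧ T.Tt (s (i + 12)) d a))
    (h2 : ¬ (T.Tt (s (i + 12)) d c ∧ T.Tt (s (i + 12)) d b))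
    (h3 : ¬ (T.Tt (s (i + 12)) d a ∧ T.Tt (s (i + 12)) d b)) : False := by
  have hba : T.Tt (s (i + 12)) b a := by
    refine ⟨hab.1.symm, ?_⟩
    have mm : T.M b a = T.M a b := by unfold TS.M; ring
    rw [mm]; exact hab.2
  have hA := Tri_stepA T hC hi ha hb hc hd hab hbc hac hdc hda hdb h1 h2 h3
  have hB := Tri_stepA T hC hi hb ha hc hd hba hac hbc hdc hdb hda h2 h1 (fun h => h3 ⟨h.2, h.1⟩)
  obtain ⟨hs, hNE, hK⟩ := hC
  obtain ⟨q12, q11, q10, q9, q8, q7, q6, q5, q4, q3, q2, q1, q0⟩ := Tri_scales hs i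
  have ha1 := (hNE a ha (i + 9) (by omega) (T.pi b) (T.pi c) (T.pi c) hab.1.symm).1
  have hb1 := (hNE b hb (i + 11) (by omega) (T.pi a) (T.pi c) (T.pi c) hab.1).1
  have hN : s N ≤ s (i + 12) := hs.anti hi
  have hbox := dK2_box (r := T.adj) (P₁ := fun a' => True ∧
      T.Near (s (i + 9)) (T.pi b) (T.pi c) (T.pi c) a a' ∧
      T.th a' (T.pi b) ≤ T.th a (T.pi b) - s (i + 9 + 1))
      (P₂ := fun c' => T.pi c' = T.pi c ∧ T.th c' (T.pi b) ≤ T.th c (T.pi b) - s (i + 4) ∧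
      T.th c (T.pi a) + s (i + 8) / 2 < T.th c' (T.pi a)) (P₃ := fun b' => True ∧
      T.Near (s (i + 11)) (T.pi a) (T.pi c) (T.pi c) b b' ∧
      T.th b' (T.pi a) ≤ T.th b (T.pi a) - s (i + 11 + 1))
      (P₄ := fun c' => T.pi c' = T.pi c ∧ T.th c' (T.pi a) ≤ T.th c (T.pi a) - s (i + 4) ∧
      T.th c (T.pi b) + s (i + 8) / 2 < T.th c' (T.pi b)) (by
    rintro a' c2 b' c1 ⟨-, ⟨a1, a2, a3, a4⟩, a5⟩ ⟨x1, x2, x3⟩ ⟨-, ⟨b1, b2, b3, b4⟩, b5⟩
      ⟨y1, y2, y3⟩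
    have e10 : s (i + 9 + 1) = s (i + 10) := rfl
    have e12 : s (i + 11 + 1) = s (i + 12) := rfl
    rw [e10] at a5
    rw [e12] at b5
    rw [abs_le] at a2 a3 b2 b3
    obtain ⟨tab, mab⟩ := hab
    obtain ⟨tbc, mbc⟩ := hbc
    obtain ⟨tac, mac⟩ := hac
    rw [abs_le] at mab mbc mac
    have mcb : T.M c b = T.M b c := by unfold TS.M; ring
    refine ⟨?_, ?_, ?_, ?_, ?_, ?_⟩
    · -- a' ~ c2
      exact Tri_adj T a1 x1 tac (-s (i + 9)) (s (i + 8) / 2) (by linarith) (by linarith)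
        (by linarith)
    · -- b' ~ c1
      exact Tri_adj T b1 y1 tbc (-s (i + 11)) (s (i + 8) / 2) (by linarith) (by linarith)
        (by linarith)
    · -- a' b'
      exact Tri_nadj T a1 b1 (-s (i + 10)) (s (i + 11)) (by linarith) (by linarith) (by linarith)
    · -- a' c1
      exact Tri_nadj T a1 y1 (s (i + 9)) (-s (i + 4)) (by linarith) (by linarith) (by linarith)
    · -- c2 b'
      exact Tri_nadj T x1 b1 (-s (i + 4)) (s (i + 11)) (by linarith) (by linarith) (by linarith)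
    · -- c2 c1
      rintro ⟨h, -⟩
      exact h (by rw [x1, y1]))
  have e10 : s (i + 9 + 1) = s (i + 10) := rfl
  have e12 : s (i + 11 + 1) = s (i + 12) := rfl
  have hfin := Tri_prod hs (N := N) (by rw [e10] at ha1; linarith) (hN.trans hB)
    (by rw [e12] at hb1; linarith) (hN.trans hA) hbox
  linarith

end Pool.Agent.IC4
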